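import Pool.Agent.R520.ArLat

/-!
Acyclic reorientation posets.
-/

namespace Pool.Agent.R520.ARL

/-- The relation `R` has no directed cycle. -/
def Acyclic {V : Type*} (R : V → V → Prop) : Prop := ∀ v, ¬ Relation.TransGen R v v

/-- The arc relation of the digraph obtained from the digraph with arc set `A`
by reversing the arcs in `S`. -/
def rev {V : Type*} (A S : Set (V × V)) (u v : V) : Prop :=
  ((u, v) ∈ A ∧ (u, v) ∉ S) ∨ ((v, u) ∈ A ∧ (v, u) ∈ S)

/-- The acyclic reorientation poset: all sets `S ⊆ A` of arcs whose reversal gives an acyclic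
digraph, ordered by inclusion (the order is that of the subtype of `Set (V × V)`). -/
abbrev AR {V : Type*} (A : Set (V × V)) : Type _ :=
  {S : Set (V × V) // S ⊆ A ∧ Acyclic (rev A S)}

/-- The poset `P` is a lattice and that lattice is supersolvable. -/
def IsSupersolvableLattice (P : Type*) [PartialOrder P] : Prop :=
  ∃ L : Lattice P, (∀ a b : P, L.le a b ↔ a ≤ b) ∧ @Supersolvable P L

/-- adjacency in the underlying graph -/
def Adj {V : Type*} (A : Set (V × V)) (u v : V) : Prop := (u, v) ∈ A ∨ (v, u) ∈ A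

/-- Peo-consistency of the subdigraph induced on `X`. -/
inductive PeoConsistent {V : Type*} (A : Set (V × V)) : Set V → Prop
  | base (X : Set V) (h : X.Subsingleton) : PeoConsistent A X
  | step (X : Set V) (v : V) (hv : v ∈ X)
      (hsrc : (∀ u ∈ X, (u, v) ∉ A) ∨ (∀ u ∈ X, (v, u) ∉ A))
      (hsimp : ∀ u ∈ X, ∀ w ∈ X, u ≠ w → Adj A u v → Adj A w v → Adj A u w)
      (h : PeoConsistent A (X \ {v})) : PeoConsistent A X

section

variable {V : Type*}

/-- every vertex of `X` has an out-neighbour in `X` -/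
def Closed (R : V → V → Prop) (X : Set V) : Prop := ∀ x ∈ X, ∃ z ∈ X, R x z

theorem acyclic_iff [Finite V] (R : V → V → Prop) :
    Acyclic R ↔ ∀ Y : Set V, Y.Nonempty → ¬ Closed R Y := by
  constructor
  · intro h Y hY hcl
    let T : V → V → Prop := fun a b => Relation.TransGen R b a
    have wf : WellFounded T := by
      have : Std.Irrefl T := ⟨fun a ha => h a ha⟩
      have : IsTrans V T := ⟨fun a b c hab hbc => hbc.trans hab⟩
      exact Finite.wellFounded_of_trans_of_irrefl T
    obtain ⟨m, hm, hmin⟩ := wf.has_min Y hY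
    obtain ⟨z, hz, hR⟩ := hcl m hm
    exact hmin z hz (Relation.TransGen.single hR)
  · intro h v hv
    apply h {w | Relation.TransGen R v w ∧ Relation.TransGen R w v} ⟨v, hv, hv⟩
    rintro w ⟨h1, h2⟩
    obtain ⟨z, hz, hzv⟩ := Relation.TransGen.head'_iff.1 h2
    refine ⟨z, ⟨h1.tail hz, ?_⟩, hz⟩
    rcases Relation.reflTransGen_iff_eq_or_transGen.1 hzv with h | h
    · rw [← h]; exact hv
    · exact h

/-- a nonempty vertex set on which some reorientation has positive out-degrees -/
def Bad (A : Set (V × V)) (X : Set V) : Prop := X.Nonempty ∧ ∃ S ⊆ A, Closed (rev A S) X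

variable {A : Set (V × V)} (hA : ∀ u v, (u, v) ∈ A → (v, u) ∉ A)

include hA in
theorem rev_asymm (S : Set (V × V)) (u v : V) (h : rev A S u v) : ¬ rev A S v u := by
  rintro (⟨h1, h2⟩ | ⟨h1, h2⟩)
  · rcases h with ⟨h3, h4⟩ | ⟨h3, h4⟩
    · exact hA _ _ h3 h1
    · exact h2 h4
  · rcases h with ⟨h3, h4⟩ | ⟨h3, h4⟩
    · exact h4 h2
    · exact hA _ _ h3 h1

theorem rev_total (S : Set (V × V)) (u v : V) (h : Adj A u v) : rev A S u v ∨ rev A S v u := by
  rcases h with h | h
  · by_cases hs : (u, v) ∈ S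
    · exact Or.inr (Or.inr ⟨h, hs⟩)
    · exact Or.inl (Or.inl ⟨h, hs⟩)
  · by_cases hs : (v, u) ∈ S
    · exact Or.inl (Or.inr ⟨h, hs⟩)
    · exact Or.inr (Or.inl ⟨h, hs⟩)

theorem rev_adj {S : Set (V × V)} {u v : V} (h : rev A S u v) : Adj A u v := by
  rcases h with h | h
  · exact Or.inl h.1
  · exact Or.inr h.1

include hA in
theorem rev_iff {S : Set (V × V)} {u v : V} (h : (u, v) ∈ A) : rev A S u v ↔ (u, v) ∉ S := by
  constructor
  · rintro (⟨_, h2⟩ | ⟨h1, _⟩)
    · exact h2
    · exact absurd h1 (hA _ _ h)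
  · intro h2; exact Or.inl ⟨h, h2⟩

include hA in
theorem rev_iff' {S : Set (V × V)} {u v : V} (h : (u, v) ∈ A) : rev A S v u ↔ (u, v) ∈ S := by
  constructor
  · rintro (⟨h1, _⟩ | ⟨_, h2⟩)
    · exact absurd h1 (hA _ _ h)
    · exact h2
  · intro h2; exact Or.inr ⟨h, h2⟩

variable [Finite V] {X : Set V} (hX : Minimal (Bad A) X)

include hX in
/-- out-neighbour choice functions on a minimal bad set are bijections of it -/
theorem choice_bij {S : Set (V × V)} (hS : S ⊆ A) {g : V → V}
    (hg : ∀ x ∈ X, g x ∈ X ∧ rev A S x (g x)) : Set.InjOn g X ∧ Set.SurjOn g X X := by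
  have himg : g '' X = X := by
    have hsub : g '' X ⊆ X := by
      rintro _ ⟨x, hx, rfl⟩; exact (hg x hx).1
    apply Set.Subset.antisymm hsub
    apply hX.2 _ hsub
    refine ⟨hX.1.1.image g, S, hS, ?_⟩
    intro y hy
    exact ⟨g y, ⟨y, hsub hy, rfl⟩, (hg y (hsub hy)).2⟩
  constructor
  · have hfin : X.Finite := Set.toFinite X
    apply Set.injOn_of_ncard_image_eq (s := X)
    rw [himg]
  · intro y hy
    rw [← himg] at hy
    exact hy

include hX in
/-- On a minimal bad set, a closed reorientation is a cyclic permutation. -/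
theorem unique_out {S : Set (V × V)} (hS : S ⊆ A) {g : V → V}
    (hg : ∀ x ∈ X, g x ∈ X ∧ rev A S x (g x)) {x z : V} (hx : x ∈ X) (hz : z ∈ X)
    (h : rev A S x z) : z = g x := by
  classical
  by_contra hne
  obtain ⟨x', hx', hx'z⟩ := (choice_bij hX hS hg).2 hz
  have hne' : x' ≠ x := by rintro rfl; exact hne hx'z.symm
  have hg' : ∀ y ∈ X, (Function.update g x z) y ∈ X ∧ rev A S y ((Function.update g x z) y) := by
    intro y hy
    by_cases hyx : y = x
    · subst hyx; simp only [Function.update_self]; exact ⟨hz, h⟩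
    · rw [Function.update_of_ne hyx]; exact hg y hy
  apply hne'
  apply (choice_bij hX hS hg').1 hx' hx
  rw [Function.update_of_ne hne', Function.update_self, hx'z]

omit [Finite V] in
theorem exists_choice {S : Set (V × V)} (hcl : Closed (rev A S) X) :
    ∃ g : V → V, ∀ x ∈ X, g x ∈ X ∧ rev A S x (g x) := by
  classical
  have : ∀ x, ∃ z, x ∈ X → (z ∈ X ∧ rev A S x z) := by
    intro x
    by_cases hx : x ∈ X
    · obtain ⟨z, hz, h⟩ := hcl x hx
      exact ⟨z, fun _ => ⟨hz, h⟩⟩
    · exact ⟨x, fun h => absurd h hx⟩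
  choose g hg using this
  exact ⟨g, hg⟩

include hA hX in
/-- Two closed reorientations agree or are opposite on a minimal bad set. -/
theorem two_orient {S S' : Set (V × V)} (hS : S ⊆ A) (hS' : S' ⊆ A)
    (hcl : Closed (rev A S) X) (hcl' : Closed (rev A S') X) :
    (∀ u ∈ X, ∀ v ∈ X, (u, v) ∈ A → ((u, v) ∈ S ↔ (u, v) ∈ S')) ∨
    (∀ u ∈ X, ∀ v ∈ X, (u, v) ∈ A → ((u, v) ∈ S ↔ (u, v) ∉ S')) := by
  obtain ⟨g, hg⟩ := exists_choice hcl
  obtain ⟨g', hg'⟩ := exists_choice hcl'
  have hinj' := (choice_bij hX hS' hg').1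
  let P : Set V := {x ∈ X | rev A S' x (g x)}
  have hPcl : ∀ x ∈ P, g x ∈ P := by
    rintro x ⟨hx, hR'⟩
    refine ⟨(hg x hx).1, ?_⟩
    have hy := (hg x hx).1
    rcases rev_total S' (g x) (g (g x)) (rev_adj (hg _ hy).2) with h | h
    · exact h
    · exfalso
      have h1 : g x = g' x := unique_out hX hS' hg' hx hy hR'
      have h2 : g x = g' (g (g x)) := unique_out hX hS' hg' (hg _ hy).1 hy h
      have h3 : x = g (g x) := hinj' hx (hg _ hy).1 (h1.symm.trans h2)
      have h4 := (hg _ hy).2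
      rw [← h3] at h4
      exact rev_asymm hA S _ _ (hg x hx).2 h4
  by_cases hP : P.Nonempty
  · left
    have hPX : X ⊆ P := by
      apply hX.2 _ (fun x hx => hx.1)
      exact ⟨hP, S, hS, fun x hx => ⟨g x, hPcl x hx, (hg x hx.1).2⟩⟩
    intro u hu v hv huv
    by_cases hs : (u, v) ∈ S
    · have h1 := (rev_iff' hA huv).2 hs
      have h2 : u = g v := unique_out hX hS hg hv hu h1
      have h3 := (hPX hv).2
      rw [← h2] at h3
      exact ⟨fun _ => (rev_iff' hA huv).1 h3, fun _ => hs⟩
    · have h1 := (rev_iff hA huv).2 hs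
      have h2 : v = g u := unique_out hX hS hg hu hv h1
      have h3 := (hPX hu).2
      rw [← h2] at h3
      exact ⟨fun h => absurd h hs, fun h => absurd h ((rev_iff hA huv).1 h3)⟩
  · right
    have hall : ∀ x ∈ X, rev A S' (g x) x := by
      intro x hx
      rcases rev_total S' x (g x) (rev_adj (hg x hx).2) with h | h
      · exact absurd ⟨x, hx, h⟩ hP
      · exact h
    intro u hu v hv huv
    by_cases hs : (u, v) ∈ S
    · have h1 := (rev_iff' hA huv).2 hs
      have h2 : u = g v := unique_out hX hS hg hv hu h1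
      have h3 := hall v hv
      rw [← h2] at h3
      exact ⟨fun _ => (rev_iff hA huv).1 h3, fun _ => hs⟩
    · have h1 := (rev_iff hA huv).2 hs
      have h2 : v = g u := unique_out hX hS hg hu hv h1
      have h3 := hall u hu
      rw [← h2] at h3
      exact ⟨fun h => absurd h hs, fun h => absurd ((rev_iff' hA huv).1 h3) h⟩

end

end Pool.Agent.R520.ARL
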