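import Pool.Agent.R520.ArMain

/-!
Consequences: peo-consistency, forests, and the converse direction.
-/

namespace Pool.Agent.R520.ARL

variable {V : Type*} {A : Set (V × V)}

theorem acyclic_of_no_bad [Finite V] (h : ∀ X, ¬ Bad A X) (S : Set (V × V)) (hS : S ⊆ A) :
    Acyclic (rev A S) := by
  rw [acyclic_iff]
  intro Y hY hcl
  exact h Y ⟨hY, S, hS, hcl⟩

theorem no_bad_of_acyclic [Finite V] (h : ∀ S ⊆ A, Acyclic (rev A S)) : ∀ X, ¬ Bad A X := by
  rintro X ⟨hX, S, hS, hcl⟩
  exact (acyclic_iff _).1 (h S hS) X hX hcl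

/-- If no set is bad, every nonempty vertex set contains a vertex with at most one neighbour
in it. -/
theorem exists_leaf [Finite V] (hA : ∀ u v, (u, v) ∈ A → (v, u) ∉ A) (h : ∀ X, ¬ Bad A X)
    (X : Set V) (hX : X.Nonempty) : ∃ v ∈ X, {u ∈ X | Adj A u v}.Subsingleton := by
  classical
  by_contra hcon
  push Not at hcon
  have : Fintype V := Fintype.ofFinite V
  have hirr : ∀ v, (v, v) ∉ A := fun v hv => hA v v hv hv
  let t : X → Finset (V × V) := fun v =>
    Finset.univ.filter (fun p => p ∈ inside A X ∧ (p.1 = v ∨ p.2 = v))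
  have hcard : ∀ v : X, 2 ≤ (t v).card := by
    rintro ⟨v, hv⟩
    have h2 := hcon v hv
    obtain ⟨u1, hu1, u2, hu2, hne⟩ := h2
    have harc : ∀ u, u ∈ X → Adj A u v → ∃ p ∈ t ⟨v, hv⟩, (p = (u, v) ∨ p = (v, u)) := by
      intro u hu hadj
      rcases hadj with h | h
      · refine ⟨(u, v), ?_, Or.inl rfl⟩
        simp only [t, Finset.mem_filter, Finset.mem_univ, true_and]
        exact ⟨⟨h, hu, hv⟩, Or.inr trivial⟩
      · refine ⟨(v, u), ?_, Or.inr rfl⟩
        simp only [t, Finset.mem_filter, Finset.mem_univ, true_and]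
        exact ⟨⟨h, hv, hu⟩, Or.inl trivial⟩
    obtain ⟨p1, hp1, e1⟩ := harc u1 hu1.1 hu1.2
    obtain ⟨p2, hp2, e2⟩ := harc u2 hu2.1 hu2.2
    have hne' : p1 ≠ p2 := by
      intro h
      subst h
      rcases e1 with e1 | e1 <;> rcases e2 with e2 | e2 <;> rw [e1] at e2 <;>
        simp only [Prod.mk.injEq] at e2
      · exact hne e2.1
      · exact hne (e2.1.trans e2.2)
      · exact hne (e2.2.trans e2.1)
      · exact hne e2.2
    exact Finset.one_lt_card.2 ⟨p1, hp1, p2, hp2, hne'⟩
  have hall : ∀ s : Finset X, s.card ≤ (s.biUnion t).card := by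
    intro s
    have := Finset.card_mul_le_card_mul (s := s) (t := s.biUnion t) (m := 2) (n := 2)
      (fun (v : X) (p : V × V) => p ∈ t v) ?_ ?_
    · omega
    · intro v hv
      refine (hcard v).trans (Finset.card_le_card ?_)
      intro p hp
      rw [Finset.mem_bipartiteAbove]
      exact ⟨Finset.mem_biUnion.2 ⟨v, hv, hp⟩, hp⟩
    · intro p hp
      have : (s.bipartiteBelow (fun (v : X) (p : V × V) => p ∈ t v) p).card
          ≤ ({p.1, p.2} : Finset V).card := by
        rw [← Finset.card_image_of_injective (f := Subtype.val) _ Subtype.val_injective]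
        apply Finset.card_le_card
        intro w hw
        rw [Finset.mem_image] at hw
        obtain ⟨v, hv, rfl⟩ := hw
        rw [Finset.mem_bipartiteBelow] at hv
        have := hv.2
        simp only [t, Finset.mem_filter, Finset.mem_univ, true_and] at this
        simp only [Finset.mem_insert, Finset.mem_singleton]
        rcases this.2 with h | h
        · exact Or.inl h.symm
        · exact Or.inr h.symm
      exact this.trans Finset.card_le_two
  obtain ⟨f, hfinj, hft⟩ := (Finset.all_card_le_biUnion_card_iff_exists_injective t).1 hall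
  have hf : ∀ v : X, f v ∈ inside A X ∧ ((f v).1 = v ∨ (f v).2 = v) := by
    intro v
    have := hft v
    simpa only [t, Finset.mem_filter, Finset.mem_univ, true_and] using this
  let S : Set (V × V) := {p ∈ A | ∃ v : X, f v = p ∧ p.2 = v}
  apply h X
  refine ⟨hX, S, fun p hp => hp.1, ?_⟩
  intro v hv
  obtain ⟨hin, hor⟩ := hf ⟨v, hv⟩
  rcases hor with h1 | h1
  · refine ⟨(f ⟨v, hv⟩).2, hin.2.2, Or.inl ⟨?_, ?_⟩⟩
    · have : (v, (f ⟨v, hv⟩).2) = f ⟨v, hv⟩ := by
        apply Prod.ext
        · exact h1.symm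
        · rfl
      rw [this]; exact hin.1
    · rintro ⟨_, w, hw, hw2⟩
      have heq : f w = f ⟨v, hv⟩ := by
        rw [hw]
        apply Prod.ext
        · exact h1.symm
        · rfl
      have hwv := hfinj heq
      subst hwv
      simp only at hw2
      have h3 := hin.1
      have : f ⟨v, hv⟩ = (v, v) := Prod.ext h1 hw2
      rw [this] at h3
      exact hirr v h3
  · refine ⟨(f ⟨v, hv⟩).1, hin.2.1, Or.inr ⟨?_, ?_⟩⟩
    · have : ((f ⟨v, hv⟩).1, v) = f ⟨v, hv⟩ := Prod.ext rfl h1.symm
      rw [this]; exact hin.1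
    · have : ((f ⟨v, hv⟩).1, v) = f ⟨v, hv⟩ := Prod.ext rfl h1.symm
      rw [this]
      exact ⟨hin.1, ⟨v, hv⟩, rfl, h1⟩

theorem peo_of_no_bad [Finite V] (hA : ∀ u v, (u, v) ∈ A → (v, u) ∉ A) (h : ∀ X, ¬ Bad A X)
    (X : Set V) : PeoConsistent A X := by
  induction hn : X.ncard using Nat.strong_induction_on generalizing X with
  | _ n ih =>
    rcases X.eq_empty_or_nonempty with rfl | hX
    · exact PeoConsistent.base _ Set.subsingleton_empty
    · obtain ⟨v, hv, hsub⟩ := exists_leaf hA h X hX
      refine PeoConsistent.step X v hv ?_ ?_ (ih _ ?_ _ rfl)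
      · by_contra hcon
        push Not at hcon
        obtain ⟨⟨u, hu, huv⟩, ⟨w, hw, hvw⟩⟩ := hcon
        have : u = w := hsub ⟨hu, Or.inl huv⟩ ⟨hw, Or.inr hvw⟩
        subst this
        exact hA _ _ huv hvw
      · intro u hu w hw hne hu' hw'
        exact absurd (hsub ⟨hu, hu'⟩ ⟨hw, hw'⟩) hne
      · rw [← hn]
        exact Set.ncard_sdiff_singleton_lt_of_mem hv (Set.toFinite X)

/-- If every reorientation is acyclic, then the poset is the Boolean lattice, which is
supersolvable. -/
theorem supersolvable_of_acyclic (h : ∀ S ⊆ A, Acyclic (rev A S)) :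
    IsSupersolvableLattice (AR A) := by
  let L : Lattice (AR A) :=
    { (inferInstance : PartialOrder (AR A)) with
      sup := fun a b => ⟨a.1 ∪ b.1, Set.union_subset a.2.1 b.2.1,
        h _ (Set.union_subset a.2.1 b.2.1)⟩
      inf := fun a b => ⟨a.1 ∩ b.1, Set.inter_subset_left.trans a.2.1,
        h _ (Set.inter_subset_left.trans a.2.1)⟩
      le_sup_left := fun a b => Set.subset_union_left
      le_sup_right := fun a b => Set.subset_union_right
      sup_le := fun a b c h1 h2 => Set.union_subset h1 h2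
      inf_le_left := fun a b => Set.inter_subset_left
      inf_le_right := fun a b => Set.inter_subset_right
      le_inf := fun a b c h1 h2 => Set.subset_inter h1 h2 }
  refine ⟨L, fun a b => Iff.rfl, ?_⟩
  refine ⟨maxChain (fun a b => L.le a b), maxChain_spec, ?_⟩
  intro K _ a _ b _ c _
  apply Subtype.ext
  exact Set.inter_union_distrib_left _ _ _

/-- the underlying simple graph -/
def underlying (A : Set (V × V)) : SimpleGraph V := SimpleGraph.fromRel (fun u v => (u, v) ∈ A)

theorem underlying_adj (hA : ∀ u v, (u, v) ∈ A → (v, u) ∉ A) (u v : V) :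
    (underlying A).Adj u v ↔ Adj A u v := by
  unfold underlying
  rw [SimpleGraph.fromRel_adj]
  constructor
  · exact fun h => h.2
  · intro h
    refine ⟨?_, h⟩
    rintro rfl
    rcases h with h | h <;> exact hA _ _ h h

theorem isAcyclic_iff_leaf [Finite V] (hA : ∀ u v, (u, v) ∈ A → (v, u) ∉ A) :
    (∀ X, ¬ Bad A X) ↔ (underlying A).IsAcyclic := by
  constructor
  · intro h v p hp
    obtain ⟨w, hw, hsub⟩ := exists_leaf hA h {x | x ∈ p.support} ⟨v, p.start_mem_support⟩
    have h2 := hp.ncard_neighborSet_toSubgraph_eq_two hw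
    have h3 : (p.toSubgraph.neighborSet w) ⊆ {u ∈ {x | x ∈ p.support} | Adj A u w} := by
      intro u hu
      rw [SimpleGraph.Subgraph.mem_neighborSet] at hu
      refine ⟨?_, ?_⟩
      · have := p.toSubgraph.edge_vert hu.symm
        rw [SimpleGraph.Walk.mem_verts_toSubgraph] at this
        exact this
      · rw [← underlying_adj hA]
        exact (p.toSubgraph.adj_sub hu).symm
    have h4 : (p.toSubgraph.neighborSet w).Subsingleton := hsub.anti h3
    have h5 := Set.ncard_le_one_iff_subsingleton.2 h4
    omega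
  · rintro h X ⟨hX, S, hS, hcl⟩
    classical
    have : Fintype V := Fintype.ofFinite V
    obtain ⟨g, hg⟩ := exists_choice hcl
    obtain ⟨x, hx⟩ := hX
    -- a long non-backtracking walk
    have key : ∀ n : ℕ, ∀ x ∈ X, ∃ y, ∃ p : (underlying A).Walk x y, p.length = n ∧
        List.IsChain (· ≠ ·) p.edges ∧ (∀ e ∈ p.edges.head?, e = s(x, g x)) := by
      intro n
      induction n with
      | zero =>
        intro x _
        exact ⟨x, SimpleGraph.Walk.nil, rfl, by simp, by simp⟩
      | succ n ih =>
        intro x hx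
        obtain ⟨y, p, hp1, hp2, hp3⟩ := ih (g x) (hg x hx).1
        have hadj : (underlying A).Adj x (g x) := (underlying_adj hA _ _).2 (rev_adj (hg x hx).2)
        refine ⟨y, SimpleGraph.Walk.cons hadj p, by simp [hp1], ?_, by simp⟩
        rw [SimpleGraph.Walk.edges_cons, List.isChain_cons]
        refine ⟨?_, hp2⟩
        intro e he hcon
        have h1 := hp3 e he
        rw [← hcon, Sym2.eq_iff] at h1
        rcases h1 with ⟨h1, _⟩ | ⟨h1, _⟩
        · have h2 := (hg x hx).2
          rw [← h1] at h2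
          exact rev_asymm hA S _ _ h2 h2
        · have h2 := (hg (g x) (hg x hx).1).2
          rw [← h1] at h2
          exact rev_asymm hA S _ _ h2 (hg x hx).2
    obtain ⟨y, p, hp1, hp2, -⟩ := key (Fintype.card V) x hx
    have hpath : p.IsPath := (h.isPath_iff_isChain p).2 hp2
    have := hpath.length_lt
    omega

end Pool.Agent.R520.ARL
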