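import Mathlib

/-!
Supersolvable lattices (Stanley 1972) and an abstract obstruction.
-/

namespace Pool.Agent.R520.ARL

/-- A lattice `L` is supersolvable (Stanley) if it has a maximal chain `M` such that for
every chain `K` of `L` the sublattice generated by `M ∪ K` is distributive. -/
def Supersolvable (L : Type*) [Lattice L] : Prop :=
  ∃ M : Set L, IsMaxChain (· ≤ ·) M ∧ ∀ K : Set L, IsChain (· ≤ ·) K →
    ∀ a ∈ latticeClosure (M ∪ K), ∀ b ∈ latticeClosure (M ∪ K),
      ∀ c ∈ latticeClosure (M ∪ K), a ⊓ (b ⊔ c) = (a ⊓ b) ⊔ (a ⊓ c)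

/-- Abstract obstruction.  `P` is a finite lattice ordered by inclusion of the sets `val p`;
`x ≤ y` with `val y = val x ∪ C`, and the sets `val x ∪ T` (`T ⊆ C`) that occur are exactly
those with `T ≠ {k}` and `T ≠ C \ {k}`.  If `C \ {k}` has at least two elements, then `P` is not
supersolvable. -/
theorem obstruction {α P : Type*} [Lattice P] [Finite P] (val : P → Set α)
    (hle : ∀ a b, a ≤ b ↔ val a ⊆ val b) (bt tp : P) (hbt : ∀ p, bt ≤ p) (htp : ∀ p, p ≤ tp)
    (x y : P) (C : Set α) (k : α) (hk : k ∈ C) (hxy : val y = val x ∪ C)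
    (hdis : Disjoint (val x) C)
    (hT : ∀ T ⊆ C, (∃ p, val p = val x ∪ T) ↔ T ≠ {k} ∧ T ≠ C \ {k})
    (h2 : ∀ c ∈ C \ {k}, ((C \ {k}) \ {c}).Nonempty) : ¬ Supersolvable P := by
  classical
  rintro ⟨M, hM, hdist⟩
  have hinj : ∀ a b : P, val a = val b → a = b := fun a b h =>
    le_antisymm ((hle a b).2 h.le) ((hle b a).2 h.ge)
  have hxley : x ≤ y := (hle _ _).2 (by rw [hxy]; exact Set.subset_union_left)
  -- C \ {k} nonempty
  have hxney : x ≠ y := by
    intro h
    have : k ∈ val x := by rw [h, hxy]; exact Or.inr hk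
    exact (Set.disjoint_left.1 hdis this) hk
  -- bottom and top in M
  have hbM : bt ∈ M := by
    have hch : IsChain (· ≤ ·) (insert bt M) :=
      hM.1.insert (fun b _ _ => Or.inl (hbt b))
    have := hM.2 hch (Set.subset_insert _ _)
    rw [this]; exact Set.mem_insert _ _
  have htM : tp ∈ M := by
    have hch : IsChain (· ≤ ·) (insert tp M) :=
      hM.1.insert (fun b _ _ => Or.inr (htp b))
    have := hM.2 hch (Set.subset_insert _ _)
    rw [this]; exact Set.mem_insert _ _
  let f : P → P := fun m => (m ⊔ x) ⊓ y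
  have hfb : f bt = x := by
    show (bt ⊔ x) ⊓ y = x
    rw [sup_eq_right.2 (hbt x)]
    exact inf_eq_left.2 hxley
  have hft : f tp = y := by
    show (tp ⊔ x) ⊓ y = y
    rw [sup_eq_left.2 (htp x)]
    exact inf_eq_right.2 (htp y)
  -- minimal m in M with f m ≠ x
  have hS : ({m ∈ M | f m ≠ x} : Set P).Nonempty := ⟨tp, htM, by rw [hft]; exact hxney.symm⟩
  obtain ⟨m, hm⟩ := (Set.toFinite ({m ∈ M | f m ≠ x} : Set P)).exists_minimal hS
  have hmM : m ∈ M := hm.1.1
  have hmf : f m ≠ x := hm.1.2
  have hbm : bt < m := lt_of_le_of_ne (hbt m) (by rintro rfl; exact hmf hfb)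
  have hS' : ({n ∈ M | n < m} : Set P).Nonempty := ⟨bt, hbM, hbm⟩
  obtain ⟨m', hm'⟩ := (Set.toFinite ({n ∈ M | n < m} : Set P)).exists_maximal hS'
  have hm'M : m' ∈ M := hm'.1.1
  have hm'm : m' < m := hm'.1.2
  have hm'f : f m' = x := by
    by_contra h
    have := hm.2 (y := m') ⟨hm'M, h⟩ hm'm.le
    exact absurd (lt_of_lt_of_le hm'm this) (lt_irrefl _)
  -- consecutive
  have hcons : ∀ n ∈ M, n ≤ m' ∨ m ≤ n := by
    intro n hn
    rcases hM.1.total hn hmM with h | h
    · rcases eq_or_lt_of_le h with rfl | h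
      · right; exact le_rfl
      · rcases hM.1.total hn hm'M with h2 | h2
        · exact Or.inl h2
        · exact Or.inl (hm'.2 (y := n) ⟨hn, h⟩ h2)
    · exact Or.inr h
  have hbetween : ∀ u, m' ≤ u → u ≤ m → u = m' ∨ u = m := by
    intro u h1 h2
    have hch : IsChain (· ≤ ·) (insert u M) := by
      refine hM.1.insert (fun b hb _ => ?_)
      rcases hcons b hb with h | h
      · exact Or.inr (h.trans h1)
      · exact Or.inl (h2.trans h)
    have := hM.2 hch (Set.subset_insert _ _)
    have huM : u ∈ M := by rw [this]; exact Set.mem_insert _ _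
    rcases hcons u huM with h | h
    · exact Or.inl (le_antisymm h h1)
    · exact Or.inr (le_antisymm h2 h)
  have hfx : ∀ n, x ≤ f n := fun n => le_inf le_sup_right hxley
  have hfy : ∀ n, f n ≤ y := fun n => inf_le_right
  -- cover property
  have hcover : ∀ K : Set P, IsChain (· ≤ ·) K → x ∈ K → y ∈ K → ∀ w ∈ latticeClosure (M ∪ K),
      x ≤ w → w ≤ f m → w = x ∨ w = f m := by
    intro K hK hxK hyK w hw hxw hwf
    have D := hdist K hK
    set Λ := latticeClosure (M ∪ K) with hΛ
    have hsub : IsSublattice (Λ : Set P) := isSublattice_latticeClosure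
    have hMΛ : ∀ n ∈ M, n ∈ Λ := fun n hn => subset_latticeClosure (Or.inl hn)
    have hKΛ : ∀ n ∈ K, n ∈ Λ := fun n hn => subset_latticeClosure (Or.inr hn)
    have hx := hKΛ x hxK
    have hy := hKΛ y hyK
    have hm1 := hMΛ m hmM
    have hm2 := hMΛ m' hm'M
    have hwy : w ≤ y := hwf.trans (hfy m)
    rcases hbetween (m' ⊔ (w ⊓ m)) le_sup_left (sup_le hm'm.le inf_le_right) with h | h
    · left
      have h1 : w ⊓ m ≤ m' := by rw [← h]; exact le_sup_right
      apply le_antisymm _ hxw
      have h2 : w = w ⊓ (m ⊔ x) := (inf_eq_left.2 (hwf.trans inf_le_left)).symm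
      rw [h2, D w hw m hm1 x hx]
      refine sup_le ?_ inf_le_right
      calc w ⊓ m ≤ m' ⊓ y := le_inf h1 (inf_le_left.trans hwy)
        _ ≤ f m' := inf_le_inf_right y le_sup_left
        _ = x := hm'f
    · right
      apply le_antisymm hwf
      have h1 : m ⊔ x ≤ m' ⊔ w := by
        have : m ≤ m' ⊔ w := by
          rw [← h]; exact sup_le_sup_left inf_le_left _
        exact sup_le this (hxw.trans le_sup_right)
      calc f m = (m ⊔ x) ⊓ y := rfl
        _ ≤ (m' ⊔ w) ⊓ y := inf_le_inf_right y h1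
        _ = y ⊓ (m' ⊔ w) := inf_comm _ _
        _ = (y ⊓ m') ⊔ (y ⊓ w) := D y hy m' hm2 w hw
        _ ≤ w := by
          refine sup_le ?_ inf_le_right
          calc y ⊓ m' ≤ f m' := by
                rw [inf_comm]; exact inf_le_inf_right y le_sup_left
            _ = x := hm'f
            _ ≤ w := hxw
  -- structure of the interval
  have hint : ∀ p, x ≤ p → p ≤ y → ∃ T ⊆ C, val p = val x ∪ T ∧ T = val p \ val x := by
    intro p h1 h2
    have h1' := (hle _ _).1 h1
    have h2' := (hle _ _).1 h2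
    refine ⟨val p \ val x, ?_, ?_, rfl⟩
    · intro a ha
      have := h2' ha.1
      rw [hxy] at this
      rcases this with h | h
      · exact absurd h ha.2
      · exact h
    · exact (Set.union_sdiff_cancel h1').symm
  have hmem : ∀ T ⊆ C, T ≠ {k} → T ≠ C \ {k} → ∃ p, val p = val x ∪ T ∧ x ≤ p ∧ p ≤ y := by
    intro T hTC h1 h2
    obtain ⟨p, hp⟩ := (hT T hTC).2 ⟨h1, h2⟩
    refine ⟨p, hp, (hle _ _).2 (by rw [hp]; exact Set.subset_union_left), (hle _ _).2 ?_⟩
    rw [hp, hxy]; exact Set.union_subset_union_right _ hTC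
  have hnotk : ∀ p, val p ≠ val x ∪ {k} := by
    intro p hp
    exact ((hT {k} (by simpa using hk)).1 ⟨p, hp⟩).1 rfl
  have hnotF : ∀ p, val p ≠ val x ∪ (C \ {k}) := by
    intro p hp
    exact ((hT (C \ {k}) Set.sdiff_subset).1 ⟨p, hp⟩).2 rfl
  -- f m contains some c in C \ {k}
  obtain ⟨T1, hT1C, hT1, hT1'⟩ := hint (f m) (hfx m) (hfy m)
  have hex : ∃ c ∈ C \ {k}, c ∈ T1 := by
    by_contra hcon
    push Not at hcon
    have hsub : T1 ⊆ {k} := by
      intro a ha
      by_contra hak
      exact hcon a ⟨hT1C ha, hak⟩ ha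
    rcases Set.subset_singleton_iff_eq.1 hsub with h | h
    · apply hmf
      apply hinj
      rw [hT1, h, Set.union_empty]
    · exact hnotk (f m) (by rw [hT1, h])
  obtain ⟨c, hcF, hcT⟩ := hex
  have hcC : c ∈ C := hcF.1
  have hck : c ≠ k := hcF.2
  obtain ⟨w0, hw0, hxw0, hw0y⟩ := hmem {c} (by simpa using hcC)
    (by intro h; exact hck (by rw [Set.singleton_eq_singleton_iff] at h; exact h))
    (by
      intro h
      obtain ⟨d, hd⟩ := h2 c hcF
      have : d ∈ ({c} : Set α) := by rw [h]; exact hd.1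
      exact hd.2 this)
  have hw0f : w0 ≤ f m := by
    rw [hle, hw0, hT1]
    apply Set.union_subset_union_right
    simpa using hcT
  have hw0x : w0 ≠ x := by
    intro h
    have : c ∈ val x := by rw [← h, hw0]; exact Or.inr rfl
    exact Set.disjoint_left.1 hdis this hcC
  have hfm : w0 = f m := by
    have hK : IsChain (· ≤ ·) ({x, w0, y} : Set P) := by
      refine IsChain.insert (IsChain.insert (Set.subsingleton_singleton.isChain) ?_) ?_
      · intro b hb _
        rw [Set.mem_singleton_iff] at hb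
        subst hb; exact Or.inl hw0y
      · intro b hb _
        rcases hb with rfl | hb
        · exact Or.inl hxw0
        · rw [Set.mem_singleton_iff] at hb
          subst hb; exact Or.inl hxley
    rcases hcover _ hK (by simp) (by simp) w0 (subset_latticeClosure (Or.inr (by simp)))
      hxw0 hw0f with h | h
    · exact absurd h hw0x
    · exact h
  -- the pentagon
  have hFc : (C \ {k}) \ {c} ⊆ C := fun a ha => ha.1.1
  obtain ⟨p, hp, hxp, hpy⟩ := hmem ((C \ {k}) \ {c}) hFc
    (by
      intro h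
      have : k ∈ (C \ {k}) \ {c} := by rw [h]; rfl
      exact this.1.2 rfl)
    (by
      intro h
      have : c ∈ (C \ {k}) \ {c} := by rw [h]; exact hcF
      exact this.2 rfl)
  obtain ⟨q, hq, hxq, hqy⟩ := hmem (C \ {c}) Set.sdiff_subset
    (by
      intro h
      obtain ⟨d, hd⟩ := h2 c hcF
      have : d ∈ ({k} : Set α) := by rw [← h]; exact ⟨hd.1.1, hd.2⟩
      exact hd.1.2 this)
    (by
      intro h
      have : k ∈ C \ {k} := by rw [← h]; exact ⟨hk, fun h' => hck h'.symm⟩
      exact this.2 rfl)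
  have hpq : p ≤ q := by
    rw [hle, hp, hq]
    apply Set.union_subset_union_right
    intro a ha
    exact ⟨ha.1.1, ha.2⟩
  have hpq' : p ≠ q := by
    intro h
    have hkq : k ∈ val q := by rw [hq]; exact Or.inr ⟨hk, fun h' => hck h'.symm⟩
    rw [← h, hp] at hkq
    rcases hkq with h' | h'
    · exact Set.disjoint_left.1 hdis h' hk
    · exact h'.1.2 rfl
  have hjoin : p ⊔ w0 = y := by
    obtain ⟨T, hTC, hTv, -⟩ := hint (p ⊔ w0) (hxp.trans le_sup_left) (sup_le hpy hw0y)
    have h1 : val p ⊆ val (p ⊔ w0) := (hle _ _).1 le_sup_left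
    have h2' : val w0 ⊆ val (p ⊔ w0) := (hle _ _).1 le_sup_right
    have hFT : C \ {k} ⊆ T := by
      intro a ha
      have haT : a ∈ val (p ⊔ w0) := by
        by_cases hac : a = c
        · apply h2'; rw [hw0, hac]; exact Or.inr rfl
        · apply h1; rw [hp]; exact Or.inr ⟨ha, hac⟩
      rw [hTv] at haT
      rcases haT with h | h
      · exact absurd ha.1 (Set.disjoint_left.1 hdis h)
      · exact h
    have hkT : k ∈ T := by
      by_contra hkT
      apply hnotF (p ⊔ w0)
      rw [hTv]
      congr 1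
      apply Set.Subset.antisymm _ hFT
      intro a ha
      exact ⟨hTC ha, fun h => hkT (by rw [← Set.mem_singleton_iff.1 h]; exact ha)⟩
    apply hinj
    rw [hTv, hxy]
    congr 1
    apply Set.Subset.antisymm hTC
    intro a ha
    by_cases hak : a = k
    · rw [hak]; exact hkT
    · exact hFT ⟨ha, hak⟩
  have hmeet : q ⊓ w0 = x := by
    apply le_antisymm _ (le_inf hxq hxw0)
    rw [hle]
    intro a ha
    have h1 : a ∈ val q := (hle _ _).1 (inf_le_left : q ⊓ w0 ≤ q) ha
    have h2' : a ∈ val w0 := (hle _ _).1 (inf_le_right : q ⊓ w0 ≤ w0) ha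
    rw [hw0] at h2'
    rcases h2' with h | h
    · exact h
    · rw [Set.mem_singleton_iff] at h
      subst h
      rw [hq] at h1
      rcases h1 with h | h
      · exact h
      · exact absurd rfl h.2
  -- contradiction with distributivity
  have hK : IsChain (· ≤ ·) ({x, p, q, y} : Set P) := by
    refine IsChain.insert (IsChain.insert (IsChain.insert
      (Set.subsingleton_singleton.isChain) ?_) ?_) ?_
    · intro b hb _
      rw [Set.mem_singleton_iff] at hb
      subst hb; exact Or.inl hqy
    · intro b hb _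
      rcases hb with rfl | hb
      · exact Or.inl hpq
      · rw [Set.mem_singleton_iff] at hb
        subst hb; exact Or.inl hpy
    · intro b hb _
      rcases hb with rfl | rfl | hb
      · exact Or.inl hxp
      · exact Or.inl hxq
      · rw [Set.mem_singleton_iff] at hb
        subst hb; exact Or.inl hxley
  have D := hdist _ hK
  set Λ := latticeClosure (M ∪ {x, p, q, y}) with hΛ
  have hsub : IsSublattice (Λ : Set P) := isSublattice_latticeClosure
  have hx : x ∈ Λ := subset_latticeClosure (Or.inr (by simp))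
  have hpΛ : p ∈ Λ := subset_latticeClosure (Or.inr (by simp))
  have hqΛ : q ∈ Λ := subset_latticeClosure (Or.inr (by simp))
  have hyΛ : y ∈ Λ := subset_latticeClosure (Or.inr (by simp))
  have hwΛ : w0 ∈ Λ := by
    rw [hfm]
    exact hsub.infClosed (hsub.supClosed (subset_latticeClosure (Or.inl hmM)) hx) hyΛ
  have := D q hqΛ p hpΛ w0 hwΛ
  rw [hjoin, hmeet, inf_eq_left.2 hqy, inf_eq_right.2 hpq, sup_eq_left.2 hxp] at this
  exact hpq' this.symm

end Pool.Agent.R520.ARL
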