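import Pool.Agent.R520.ArDig

/-!
If the acyclic reorientation poset is a supersolvable lattice then every reorientation is acyclic.
-/

namespace Pool.Agent.R520.ARL

variable {V : Type*}

/-- reversal sets of the arcs entering `X` from outside -/
def inArcs (A : Set (V × V)) (X : Set V) : Set (V × V) := {p ∈ A | p.1 ∉ X ∧ p.2 ∈ X}

/-- arcs inside `X` -/
def inside (A : Set (V × V)) (X : Set V) : Set (V × V) := {p ∈ A | p.1 ∈ X ∧ p.2 ∈ X}

variable {A : Set (V × V)} {X : Set V}

theorem inside_disj : Disjoint (inArcs A X) (inside A X) := by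
  rw [Set.disjoint_left]
  rintro p ⟨_, h1, _⟩ ⟨_, h2, _⟩
  exact h1 h2

theorem acyclic_union_iff [Finite V]
    (hac : Acyclic (fun u v => (u, v) ∈ A)) (hX : Minimal (Bad A) X)
    {T : Set (V × V)} (hT : T ⊆ inside A X) :
    Acyclic (rev A (inArcs A X ∪ T)) ↔ ¬ Closed (rev A (inArcs A X ∪ T)) X := by
  rw [acyclic_iff]
  constructor
  · intro h; exact h X hX.1.1
  · intro h Y hY hcl
    have hTA : inArcs A X ∪ T ⊆ A := by
      rintro p (hp | hp)
      · exact hp.1
      · exact (hT hp).1
    by_cases hYX : Y ⊆ X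
    · have := hX.2 (y := Y) ⟨hY, _, hTA, hcl⟩ hYX
      have hYX' : Y = X := Set.Subset.antisymm hYX this
      rw [hYX'] at hcl
      exact h hcl
    · obtain ⟨y0, hy0, hy0X⟩ := Set.not_subset.1 hYX
      rw [acyclic_iff] at hac
      apply hac {y ∈ Y | y ∉ X} ⟨y0, hy0, hy0X⟩
      rintro y ⟨hy, hyX⟩
      obtain ⟨z, hz, hR⟩ := hcl y hy
      have hzX : z ∉ X := by
        intro hzX
        rcases hR with ⟨h1, h2⟩ | ⟨h1, h2⟩
        · exact h2 (Or.inl ⟨h1, hyX, hzX⟩)
        · rcases h2 with h2 | h2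
          · exact h2.2.1 hzX
          · exact hyX (hT h2).2.2
      refine ⟨z, ⟨hz, hzX⟩, ?_⟩
      rcases hR with ⟨h1, _⟩ | ⟨_, h2⟩
      · exact h1
      · exfalso
        rcases h2 with h2 | h2
        · exact hyX h2.2.2
        · exact hyX (hT h2).2.2

theorem closed_iff [Finite V] (hA : ∀ u v, (u, v) ∈ A → (v, u) ∉ A)
    (hX : Minimal (Bad A) X) {S : Set (V × V)} (hS : S ⊆ A) (hcl : Closed (rev A S) X)
    {T : Set (V × V)} (hT : T ⊆ inside A X) :
    Closed (rev A (inArcs A X ∪ T)) X ↔
      (T = inside A X ∩ S ∨ T = inside A X \ (inside A X ∩ S)) := by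
  have hTA : inArcs A X ∪ T ⊆ A := by
    rintro p (hp | hp)
    · exact hp.1
    · exact (hT hp).1
  have hmemT : ∀ u ∈ X, ∀ v ∈ X, (u, v) ∈ inArcs A X ∪ T ↔ (u, v) ∈ T := by
    intro u hu v hv
    constructor
    · rintro (h | h)
      · exact absurd hu h.2.1
      · exact h
    · exact Or.inr
  constructor
  · intro hcl'
    rcases two_orient hA hX hS hTA hcl hcl' with h | h
    · left
      ext ⟨u, v⟩
      constructor
      · intro hp
        have hC := hT hp
        exact ⟨hC, (h u hC.2.1 v hC.2.2 hC.1).2 (Or.inr hp)⟩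
      · rintro ⟨hC, hp⟩
        exact (hmemT u hC.2.1 v hC.2.2).1 ((h u hC.2.1 v hC.2.2 hC.1).1 hp)
    · right
      ext ⟨u, v⟩
      constructor
      · intro hp
        have hC := hT hp
        exact ⟨hC, fun h' => (h u hC.2.1 v hC.2.2 hC.1).1 h'.2 (Or.inr hp)⟩
      · rintro ⟨hC, hp⟩
        by_contra hpT
        apply hp
        refine ⟨hC, (h u hC.2.1 v hC.2.2 hC.1).2 ?_⟩
        rw [hmemT u hC.2.1 v hC.2.2]
        exact hpT
  · obtain ⟨g, hg⟩ := exists_choice hcl
    rintro (h | h)
    · intro x hx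
      refine ⟨g x, (hg x hx).1, ?_⟩
      rcases (hg x hx).2 with ⟨h1, h2⟩ | ⟨h1, h2⟩
      · left
        refine ⟨h1, ?_⟩
        rw [hmemT x hx _ (hg x hx).1, h]
        exact fun h' => h2 h'.2
      · right
        refine ⟨h1, ?_⟩
        rw [hmemT _ (hg x hx).1 x hx, h]
        exact ⟨⟨h1, (hg x hx).1, hx⟩, h2⟩
    · intro x hx
      obtain ⟨x', hx', hxx'⟩ := (choice_bij hX hS hg).2 hx
      refine ⟨x', hx', ?_⟩
      have hR := (hg x' hx').2
      rw [hxx'] at hR
      rcases hR with ⟨h1, h2⟩ | ⟨h1, h2⟩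
      · right
        refine ⟨h1, ?_⟩
        rw [hmemT x' hx' x hx, h]
        exact ⟨⟨h1, hx', hx⟩, fun h' => h2 h'.2⟩
      · left
        refine ⟨h1, ?_⟩
        rw [hmemT x hx x' hx', h]
        exact fun h' => h'.2 ⟨⟨h1, hx, hx'⟩, h2⟩

theorem acyclic_swap {R : V → V → Prop} (h : Acyclic R) : Acyclic (fun u v => R v u) := by
  intro v hv
  apply h v
  have := Relation.transGen_swap.1 (show Relation.TransGen (Function.swap R) v v from hv)
  exact this

theorem rev_empty : rev A ∅ = fun u v => (u, v) ∈ A := by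
  funext u v
  simp [rev]

theorem rev_full : rev A A = fun u v => (v, u) ∈ A := by
  funext u v
  simp [rev]

/-- Main step: no bad sets when the reorientation poset is a supersolvable lattice. -/
theorem no_bad [Finite V] (hA : ∀ u v, (u, v) ∈ A → (v, u) ∉ A)
    (hac : Acyclic (fun u v => (u, v) ∈ A)) (h : IsSupersolvableLattice (AR A)) :
    ∀ X, ¬ Bad A X := by
  classical
  intro X0 hX0
  obtain ⟨X, hX⟩ := (Set.toFinite {X | Bad A X}).exists_minimal ⟨X0, hX0⟩
  change Minimal (Bad A) X at hX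
  obtain ⟨L, hL, hss⟩ := h
  obtain ⟨-, S, hS, hcl⟩ := hX.1
  obtain ⟨g, hg⟩ := exists_choice hcl
  set C := inside A X with hC
  set B := C ∩ S with hB
  set S1 := inArcs A X with hS1
  have hT : ∀ T ⊆ C, Acyclic (rev A (S1 ∪ T)) ↔ T ≠ B ∧ T ≠ C \ B := by
    intro T hTC
    rw [acyclic_union_iff hac hX hTC, closed_iff hA hX hS hcl hTC]
    push Not
    rfl
  have hS1A : S1 ⊆ A := fun p hp => hp.1
  have hCA : C ⊆ A := fun p hp => hp.1
  have hle : ∀ a b : AR A, L.le a b ↔ a.1 ⊆ b.1 := fun a b => hL a b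
  have hT' : ∀ T ⊆ C, (∃ p : AR A, p.1 = S1 ∪ T) ↔ T ≠ B ∧ T ≠ C \ B := by
    intro T hTC
    rw [← hT T hTC]
    constructor
    · rintro ⟨p, hp⟩; rw [← hp]; exact p.2.2
    · intro h; exact ⟨⟨S1 ∪ T, Set.union_subset hS1A (hTC.trans hCA), h⟩, rfl⟩
  -- closedness facts for T = ∅ and T = C
  have hBne : B.Nonempty := by
    rw [Set.nonempty_iff_ne_empty]
    intro hBe
    have hcl' : Closed (rev A (S1 ∪ ∅)) X :=
      (closed_iff hA hX hS hcl (Set.empty_subset _)).2 (Or.inl hBe.symm)
    rw [acyclic_iff] at hac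
    apply hac X hX.1.1
    intro x hx
    obtain ⟨z, hz, hR⟩ := hcl' x hx
    refine ⟨z, hz, ?_⟩
    rcases hR with ⟨h1, _⟩ | ⟨_, h2⟩
    · exact h1
    · exfalso
      rcases h2 with h2 | h2
      · exact h2.2.1 hz
      · exact h2
  have hFne : (C \ B).Nonempty := by
    rw [Set.nonempty_iff_ne_empty]
    intro hFe
    have hcl' : Closed (rev A (S1 ∪ ∅)) X :=
      (closed_iff hA hX hS hcl (Set.empty_subset _)).2 (Or.inr hFe.symm)
    rw [acyclic_iff] at hac
    apply hac X hX.1.1
    intro x hx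
    obtain ⟨z, hz, hR⟩ := hcl' x hx
    refine ⟨z, hz, ?_⟩
    rcases hR with ⟨h1, _⟩ | ⟨_, h2⟩
    · exact h1
    · exfalso
      rcases h2 with h2 | h2
      · exact h2.2.1 hz
      · exact h2
  have hBC : B ⊆ C := Set.inter_subset_left
  -- at least three arcs inside
  have hthree : ∀ k c : V × V, ¬ (C ⊆ {k, c}) := by
    intro k c hsub
    obtain ⟨x, hx⟩ := hX.1.1
    have h0 := hg x hx
    have h1 := hg (g x) h0.1
    have h2 := hg (g (g x)) h1.1
    let a : V → V × V := fun v => if (v, g v) ∈ A then (v, g v) else (g v, v)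
    have haC : ∀ v ∈ X, a v ∈ C := by
      intro v hv
      have h := hg v hv
      show (if (v, g v) ∈ A then (v, g v) else (g v, v)) ∈ C
      by_cases hvA : (v, g v) ∈ A
      · rw [if_pos hvA]; exact ⟨hvA, hv, h.1⟩
      · rw [if_neg hvA]
        rcases rev_adj h.2 with h' | h'
        · exact absurd h' hvA
        · exact ⟨h', h.1, hv⟩
    have hainj : ∀ v ∈ X, ∀ w ∈ X, a v = a w → v = w := by
      intro v hv w hw hvw
      have hv' := hg v hv
      have hw' := hg w hw
      have key : (v = w ∧ g v = g w) ∨ (v = g w ∧ g v = w) := by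
        simp only [a] at hvw
        split_ifs at hvw <;> simp only [Prod.mk.injEq] at hvw <;> tauto
      rcases key with h | ⟨h3, h4⟩
      · exact h.1
      · exfalso
        have h5 := hw'.2
        rw [← h3] at h5
        have h6 := hv'.2
        rw [h4] at h6
        exact rev_asymm hA S _ _ h5 h6
    have ne1 : x ≠ g x := by
      intro h; have := h0.2; rw [← h] at this; exact rev_asymm hA S _ _ this this
    have ne2 : g x ≠ g (g x) := by
      intro h; have := h1.2; rw [← h] at this; exact rev_asymm hA S _ _ this this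
    have ne3 : x ≠ g (g x) := by
      intro h; have h3 := h1.2; rw [← h] at h3; exact rev_asymm hA S _ _ h0.2 h3
    have m0 := hsub (haC x hx)
    have m1 := hsub (haC _ h0.1)
    have m2 := hsub (haC _ h1.1)
    have n1 : a x ≠ a (g x) := fun h => ne1 (hainj _ hx _ h0.1 h)
    have n2 : a (g x) ≠ a (g (g x)) := fun h => ne2 (hainj _ h0.1 _ h1.1 h)
    have n3 : a x ≠ a (g (g x)) := fun h => ne3 (hainj _ hx _ h1.1 h)
    simp only [Set.mem_insert_iff, Set.mem_singleton_iff] at m0 m1 m2
    rcases m0 with m0 | m0 <;> rcases m1 with m1 | m1 <;> rcases m2 with m2 | m2 <;>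
      first
      | exact n1 (m0.trans m1.symm)
      | exact n2 (m1.trans m2.symm)
      | exact n3 (m0.trans m2.symm)
  -- bounds
  let bt : AR A := ⟨∅, Set.empty_subset _, by rw [rev_empty]; exact hac⟩
  let tp : AR A := ⟨A, le_rfl, by rw [rev_full]; exact acyclic_swap hac⟩
  have hbt : ∀ p : AR A, L.le bt p := fun p => (hle _ _).2 (Set.empty_subset _)
  have htp : ∀ p : AR A, L.le p tp := fun p => (hle _ _).2 p.2.1
  have hFB : C \ (C \ B) = B := by
    rw [Set.sdiff_sdiff_right_self]; exact Set.inter_eq_right.2 hBC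
  obtain ⟨x, hx⟩ := (hT' ∅ (Set.empty_subset _)).2
    ⟨hBne.ne_empty.symm, hFne.ne_empty.symm⟩
  rw [Set.union_empty] at hx
  obtain ⟨y, hy⟩ := (hT' C le_rfl).2 ⟨by
      intro h
      obtain ⟨p, hp⟩ := hFne
      exact hp.2 (h ▸ hp.1), by
      intro h
      obtain ⟨p, hp⟩ := hBne
      have : p ∈ C \ B := h ▸ hBC hp
      exact this.2 hp⟩
  have hdis : Disjoint x.1 C := by rw [hx]; exact inside_disj
  by_cases h1 : ∃ k, B = {k}
  · obtain ⟨k, hk⟩ := h1
    have hkC : k ∈ C := hBC (by rw [hk]; rfl)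
    refine @obstruction (V × V) (AR A) L _ Subtype.val hle bt tp hbt htp x y C k hkC
      (by rw [hx]; exact hy) hdis (by rw [hx, ← hk]; exact hT') ?_ hss
    intro c hc
    by_contra hcon
    rw [Set.not_nonempty_iff_eq_empty] at hcon
    apply hthree k c
    intro p hp
    by_contra hpk
    simp only [Set.mem_insert_iff, Set.mem_singleton_iff, not_or] at hpk
    have : p ∈ (C \ {k}) \ {c} := ⟨⟨hp, hpk.1⟩, hpk.2⟩
    rw [hcon] at this
    exact this
  · by_cases h2 : ∃ k, C \ B = {k}
    · obtain ⟨k, hk⟩ := h2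
      have hkC : k ∈ C := by
        have : k ∈ C \ B := by rw [hk]; rfl
        exact this.1
      have hB' : B = C \ {k} := by rw [← hk, hFB]
      refine @obstruction (V × V) (AR A) L _ Subtype.val hle bt tp hbt htp x y C k hkC
        (by rw [hx]; exact hy) hdis (by
          intro T hTC
          rw [hx, hT' T hTC, hk, ← hB']
          exact and_comm) ?_ hss
      intro c hc
      by_contra hcon
      rw [Set.not_nonempty_iff_eq_empty] at hcon
      apply hthree k c
      intro p hp
      by_contra hpk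
      simp only [Set.mem_insert_iff, Set.mem_singleton_iff, not_or] at hpk
      have : p ∈ (C \ {k}) \ {c} := ⟨⟨hp, hpk.1⟩, hpk.2⟩
      rw [hcon] at this
      exact this
    · -- not a lattice
      obtain ⟨b, hb⟩ := hBne
      have hb2 : ∃ b' ∈ B, b' ≠ b := by
        by_contra hcon
        push Not at hcon
        exact h1 ⟨b, Set.eq_singleton_iff_unique_mem.2 ⟨hb, hcon⟩⟩
      obtain ⟨b', hb', hbb'⟩ := hb2
      obtain ⟨f, hf⟩ := hFne
      have hf2 : ∃ f' ∈ C \ B, f' ≠ f := by
        by_contra hcon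
        push Not at hcon
        exact h2 ⟨f, Set.eq_singleton_iff_unique_mem.2 ⟨hf, hcon⟩⟩
      obtain ⟨f', hf', hff'⟩ := hf2
      obtain ⟨p1, hp1⟩ := (hT' {b} (by simpa using hBC hb)).2 ⟨by
          intro h; rw [← h] at hb'; exact hbb' hb', by
          intro h; rw [← h] at hf
          rw [Set.mem_singleton_iff] at hf
          have : f ∈ C \ B := by rw [← h]; exact hf
          rw [hf] at this
          exact this.2 hb⟩
      obtain ⟨p2, hp2⟩ := (hT' (B \ {b}) (Set.sdiff_subset.trans hBC)).2 ⟨by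
          intro h
          have : b ∈ B \ {b} := by rw [h]; exact hb
          exact this.2 rfl, by
          intro h
          have : b' ∈ C \ B := by rw [← h]; exact ⟨hb', hbb'⟩
          exact this.2 hb'⟩
      have hq : ∀ e ∈ C \ B, ∃ q : AR A, q.1 = S1 ∪ (B ∪ {e}) := by
        intro e he
        refine (hT' (B ∪ {e}) (Set.union_subset hBC (by simpa using he.1))).2 ⟨?_, ?_⟩
        · intro h
          have : e ∈ B := by rw [← h]; exact Or.inr rfl
          exact he.2 this
        · intro h
          have : b ∈ C \ B := by rw [← h]; exact Or.inl hb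
          exact this.2 hb
      obtain ⟨q1, hq1⟩ := hq f hf
      obtain ⟨q2, hq2⟩ := hq f' hf'
      have l11 : L.le p1 q1 := by
        rw [hle, hp1, hq1]
        exact Set.union_subset_union_right _ (by simpa using Or.inr hb)
      have l12 : L.le p1 q2 := by
        rw [hle, hp1, hq2]
        exact Set.union_subset_union_right _ (by simpa using Or.inr hb)
      have l21 : L.le p2 q1 := by
        rw [hle, hp2, hq1]
        exact Set.union_subset_union_right _ (Set.sdiff_subset.trans Set.subset_union_left)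
      have l22 : L.le p2 q2 := by
        rw [hle, hp2, hq2]
        exact Set.union_subset_union_right _ (Set.sdiff_subset.trans Set.subset_union_left)
      set J := L.sup p1 p2 with hJ
      have j1 : J.1 ⊆ q1.1 := (hle _ _).1 (L.sup_le _ _ _ l11 l21)
      have j2 : J.1 ⊆ q2.1 := (hle _ _).1 (L.sup_le _ _ _ l12 l22)
      have j3 : p1.1 ⊆ J.1 := (hle _ _).1 (L.le_sup_left _ _)
      have j4 : p2.1 ⊆ J.1 := (hle _ _).1 (L.le_sup_right _ _)
      have hJ1 : J.1 = S1 ∪ B := by
        apply Set.Subset.antisymm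
        · intro e he
          have e1 := j1 he
          have e2 := j2 he
          rw [hq1] at e1
          rw [hq2] at e2
          rcases e1 with e1 | e1 | e1
          · exact Or.inl e1
          · exact Or.inr e1
          · rcases e2 with e2 | e2 | e2
            · exact Or.inl e2
            · exact Or.inr e2
            · exact absurd (e2.symm.trans e1) hff'
        · rintro e (he | he)
          · apply j3; rw [hp1]; exact Or.inl he
          · by_cases heb : e = b
            · apply j3; rw [hp1, heb]; exact Or.inr rfl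
            · apply j4; rw [hp2]; exact Or.inr ⟨he, heb⟩
      exact ((hT' B hBC).1 ⟨J, hJ1⟩).1 rfl

end Pool.Agent.R520.ARL
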