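import Pool.Agent.R520.Lap

set_option autoImplicit false
set_option linter.unusedSectionVars false

/-! Balanced digraphs with Laplacian spread at most one. -/

namespace Pool.Agent.R520

open Finset Matrix

variable {V : Type} [Fintype V] [DecidableEq V]

/-- The complement of a digraph: the arcs between distinct vertices which are not arcs of `Γ`. -/
def complement (Γ : V → V → Prop) (i j : V) : Prop := i ≠ j ∧ ¬ Γ i j

open Classical in
/-- `1` if there is an arc, `0` otherwise. -/
noncomputable def arc (Γ : V → V → Prop) (i j : V) : ℝ := if Γ i j then 1 else 0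

/-- The symmetric part of the Laplacian (for a digraph without loops). -/
noncomputable def sm (Γ : V → V → Prop) (i j : V) : ℝ :=
  if i = j then (outdeg Γ i : ℝ) else -((arc Γ i j + arc Γ j i) / 2)

lemma arc_nonneg (Γ : V → V → Prop) (i j : V) : 0 ≤ arc Γ i j := by
  unfold arc; split_ifs <;> norm_num

lemma arc_cases (Γ : V → V → Prop) (i j : V) : arc Γ i j = 0 ∨ arc Γ i j = 1 := by
  unfold arc; split_ifs <;> simp

lemma sum_arc (Γ : V → V → Prop) (i : V) : ∑ j, arc Γ i j = outdeg Γ i := by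
  classical
  unfold arc outdeg
  rw [Finset.sum_boole]

lemma sum_arc' (Γ : V → V → Prop) (i : V) : ∑ j, arc Γ j i = indeg Γ i := by
  classical
  unfold arc indeg
  rw [Finset.sum_boole]

lemma sm_symm (Γ : V → V → Prop) (i j : V) : sm Γ i j = sm Γ j i := by
  unfold sm
  by_cases h : i = j
  · subst h; rfl
  · rw [if_neg h, if_neg (Ne.symm h), add_comm]

lemma arc_self (Γ : V → V → Prop) (hl : ∀ i, ¬ Γ i i) (i : V) : arc Γ i i = 0 := by
  unfold arc
  rw [if_neg (hl i)]

lemma qf_sm (Γ : V → V → Prop) (hl : ∀ i, ¬ Γ i i) (x : V → ℝ) :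
    qf Γ x = ∑ i, x i * ∑ j, sm Γ i j * x j := by
  classical
  rw [qf_eq]
  have h1 : ∀ i j, sm Γ i j = (if i = j then (outdeg Γ i : ℝ) else 0) - (arc Γ i j + arc Γ j i) / 2 := by
    intro i j
    unfold sm
    by_cases h : i = j
    · subst h
      rw [if_pos rfl, if_pos rfl, arc_self Γ hl]
      ring
    · rw [if_neg h, if_neg h]
      ring
  have h2 : ∑ i, x i * ∑ j, sm Γ i j * x j =
      ∑ i, (outdeg Γ i : ℝ) * x i ^ 2 - (∑ i, ∑ j, arc Γ i j * (x i * x j) + ∑ i, ∑ j, arc Γ j i * (x i * x j)) / 2 := by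
    rw [← Finset.sum_add_distrib, Finset.sum_div, ← Finset.sum_sub_distrib]
    apply Finset.sum_congr rfl
    intro i _
    rw [← Finset.sum_add_distrib, Finset.sum_div, Finset.mul_sum]
    have : (outdeg Γ i : ℝ) * x i ^ 2 = ∑ j, (if i = j then (outdeg Γ i : ℝ) * x i * x j else 0) := by
      rw [Finset.sum_ite_eq, if_pos (mem_univ _)]
      ring
    rw [this, ← Finset.sum_sub_distrib]
    apply Finset.sum_congr rfl
    intro j _
    rw [h1]
    split_ifs <;> ring
  rw [h2]
  have h3 : ∑ i, ∑ j, arc Γ j i * (x i * x j) = ∑ i, ∑ j, arc Γ i j * (x i * x j) := by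
    rw [Finset.sum_comm]
    apply Finset.sum_congr rfl
    intro i _
    apply Finset.sum_congr rfl
    intro j _
    ring
  rw [h3]
  have h4 : ∑ i, ∑ j, arc Γ i j * (x i * x j) = ∑ i, ∑ j, (if Γ i j then x i * x j else 0) := by
    apply Finset.sum_congr rfl
    intro i _
    apply Finset.sum_congr rfl
    intro j _
    unfold arc
    split_ifs <;> ring
  rw [h4]
  ring

lemma sm_row (Γ : V → V → Prop) (hl : ∀ i, ¬ Γ i i) (hb : ∀ i, outdeg Γ i = indeg Γ i) (i : V) :
    ∑ j, sm Γ i j = 0 := by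
  have h1 : ∀ j, sm Γ i j = (if i = j then (outdeg Γ i : ℝ) else 0) - (arc Γ i j + arc Γ j i) / 2 := by
    intro j
    unfold sm
    by_cases h : i = j
    · subst h
      rw [if_pos rfl, if_pos rfl, arc_self Γ hl]
      ring
    · rw [if_neg h, if_neg h]
      ring
  simp only [h1]
  rw [Finset.sum_sub_distrib, Finset.sum_ite_eq, if_pos (mem_univ _), ← Finset.sum_div, Finset.sum_add_distrib,
    sum_arc, sum_arc', ← hb i]
  ring

/-- A symmetric matrix with zero row sums whose form deviates from `c |x|²` by at most `r |x|²` on the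
vectors of sum zero: the norm of `S x - c x` is at most `r` times that of `x`. -/
lemma norm_bound (S : V → V → ℝ) (hS : ∀ i j, S i j = S j i) (hrow : ∀ i, ∑ j, S i j = 0) (c r : ℝ)
    (hr : 0 < r)
    (h : ∀ x : V → ℝ, ∑ i, x i = 0 → |∑ i, x i * ∑ j, S i j * x j - c * ∑ i, x i ^ 2| ≤ r * ∑ i, x i ^ 2)
    (x : V → ℝ) (hx : ∑ i, x i = 0) :
    ∑ i, (∑ j, S i j * x j - c * x i) ^ 2 ≤ r ^ 2 * ∑ i, x i ^ 2 := by
  set T : (V → ℝ) → V → ℝ := fun x i => ∑ j, S i j * x j - c * x i with hT
  have hTsum : ∀ x : V → ℝ, ∑ i, x i = 0 → ∑ i, T x i = 0 := by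
    intro x hx
    simp only [hT]
    rw [Finset.sum_sub_distrib, ← Finset.mul_sum, hx, mul_zero, sub_zero, Finset.sum_comm]
    apply Finset.sum_eq_zero
    intro j _
    rw [← Finset.sum_mul]
    simp only [fun i => hS i j]
    rw [hrow, zero_mul]
  have hform : ∀ x : V → ℝ, ∑ i, x i * T x i = ∑ i, x i * ∑ j, S i j * x j - c * ∑ i, x i ^ 2 := by
    intro x
    simp only [hT, mul_sub]
    rw [Finset.sum_sub_distrib, Finset.mul_sum]
    congr 1
    apply Finset.sum_congr rfl
    intro i _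
    ring
  have hsym : ∀ x y : V → ℝ, ∑ i, x i * T y i = ∑ i, y i * T x i := by
    intro x y
    simp only [hT, mul_sub]
    rw [Finset.sum_sub_distrib, Finset.sum_sub_distrib]
    congr 1
    · simp only [Finset.mul_sum]
      rw [Finset.sum_comm]
      apply Finset.sum_congr rfl
      intro i _
      apply Finset.sum_congr rfl
      intro j _
      rw [hS]
      ring
    · apply Finset.sum_congr rfl
      intro i _
      ring
  have hlin : ∀ (x y : V → ℝ) (t : ℝ) i, T (fun i => x i + t * y i) i = T x i + t * T y i := by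
    intro x y t i
    simp only [hT, mul_add]
    rw [Finset.sum_add_distrib]
    have : ∑ j, S i j * (t * y j) = t * ∑ j, S i j * y j := by
      rw [Finset.mul_sum]
      apply Finset.sum_congr rfl
      intro j _
      ring
    rw [this]
    ring
  set a := ∑ i, x i ^ 2 with ha
  set y := T x with hy
  set b := ∑ i, y i ^ 2 with hb
  have hb0 : 0 ≤ b := Finset.sum_nonneg fun i _ => sq_nonneg _
  have ha0 : 0 ≤ a := Finset.sum_nonneg fun i _ => sq_nonneg _
  -- polarization
  have key : ∀ t : ℝ, 2 * t * b ≤ r * (b + t ^ 2 * a) := by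
    intro t
    have hys : ∑ i, y i = 0 := hTsum x hx
    have e1 : ∀ s : ℝ, ∑ i, (y i + s * x i) = 0 := by
      intro s
      rw [Finset.sum_add_distrib, ← Finset.mul_sum, hx, hys]
      ring
    have e2 : ∀ s : ℝ, ∑ i, (y i + s * x i) * T (fun i => y i + s * x i) i =
        ∑ i, y i * T y i + 2 * s * b + s ^ 2 * ∑ i, x i * y i := by
      intro s
      simp only [hlin]
      have : ∀ i, (y i + s * x i) * (T y i + s * T x i) =
          y i * T y i + s * (y i * T x i) + s * (x i * T y i) + s ^ 2 * (x i * T x i) := by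
        intro i
        ring
      simp only [this]
      rw [Finset.sum_add_distrib, Finset.sum_add_distrib, Finset.sum_add_distrib, ← Finset.mul_sum, ← Finset.mul_sum,
        ← Finset.mul_sum, hsym x y]
      have e3 : ∑ i, y i * T x i = b := by
        rw [hb]
        apply Finset.sum_congr rfl
        intro i _
        rw [← hy]
        ring
      rw [e3, ← hy]
      ring
    have e4 : ∀ s : ℝ, ∑ i, (y i + s * x i) ^ 2 = b + 2 * s * ∑ i, x i * y i + s ^ 2 * a := by
      intro s
      have : ∀ i, (y i + s * x i) ^ 2 = y i ^ 2 + 2 * s * (x i * y i) + s ^ 2 * x i ^ 2 := by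
        intro i
        ring
      simp only [this]
      rw [Finset.sum_add_distrib, Finset.sum_add_distrib, ← Finset.mul_sum, ← Finset.mul_sum]
    have p1 := h _ (e1 t)
    have p2 := h _ (e1 (-t))
    rw [← hform (fun i => y i + t * x i), e2, e4] at p1
    rw [← hform (fun i => y i + -t * x i), e2, e4] at p2
    have q1 := (abs_le.1 p1).2
    have q2 := (abs_le.1 p2).1
    nlinarith
  change b ≤ r ^ 2 * a
  rcases eq_or_lt_of_le ha0 with h0 | h0
  · have := key 1
    have h2 := key (r)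
    rw [← h0] at this h2 ⊢
    nlinarith
  · have := key (b / (r * a))
    have h2 : r * (b + (b / (r * a)) ^ 2 * a) = r * b + b ^ 2 / (r * a) := by
      field_simp
    have h3 : 2 * (b / (r * a)) * b = 2 * (b ^ 2 / (r * a)) := by ring
    rw [h2, h3] at this
    have h4 : b ^ 2 / (r * a) ≤ r * b := by linarith
    rw [div_le_iff₀ (by positivity)] at h4
    rcases eq_or_lt_of_le hb0 with h5 | h5
    · rw [← h5]
      positivity
    · have : b * b ≤ (r ^ 2 * a) * b := by nlinarith
      exact le_of_mul_le_mul_right this h5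

/-- The projection of a basis vector. -/
noncomputable def pv (i : V) (j : V) : ℝ := (if j = i then 1 else 0) - 1 / (Fintype.card V : ℝ)

lemma card_pos' (i : V) : (0 : ℝ) < Fintype.card V := by
  have : 0 < Fintype.card V := Fintype.card_pos_iff.2 ⟨i⟩
  exact_mod_cast this

lemma sum_pv (i : V) : ∑ j, pv i j = 0 := by
  unfold pv
  have := card_pos' i
  rw [Finset.sum_sub_distrib, Finset.sum_ite_eq', if_pos (mem_univ _), Finset.sum_const, card_univ, nsmul_eq_mul]
  field_simp
  ring

lemma sum_pv_sq (i : V) : ∑ j, pv i j ^ 2 = 1 - 1 / (Fintype.card V : ℝ) := by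
  have hn := card_pos' i
  have : ∀ j, pv i j ^ 2 = (if j = i then 1 else 0) * (1 - 1 / (Fintype.card V : ℝ)) - 1 / (Fintype.card V : ℝ) * pv i j := by
    intro j
    unfold pv
    split_ifs <;> ring
  simp only [this]
  rw [Finset.sum_sub_distrib, ← Finset.mul_sum, sum_pv, ← Finset.sum_mul, Finset.sum_ite_eq', if_pos (mem_univ _)]
  ring

lemma sm_pv (Γ : V → V → Prop) (hl : ∀ i, ¬ Γ i i) (hb : ∀ i, outdeg Γ i = indeg Γ i) (i k : V) :
    ∑ j, sm Γ k j * pv i j = sm Γ k i := by
  unfold pv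
  have : ∀ j, sm Γ k j * ((if j = i then (1 : ℝ) else 0) - 1 / (Fintype.card V : ℝ)) =
      (if j = i then sm Γ k j else 0) - sm Γ k j * (1 / (Fintype.card V : ℝ)) := by
    intro j
    split_ifs <;> ring
  simp only [this]
  rw [Finset.sum_sub_distrib, Finset.sum_ite_eq', if_pos (mem_univ _), ← Finset.sum_mul, sm_row Γ hl hb]
  ring

lemma qf_pv (Γ : V → V → Prop) (hl : ∀ i, ¬ Γ i i) (hb : ∀ i, outdeg Γ i = indeg Γ i) (i : V) :
    qf Γ (pv i) = outdeg Γ i := by
  rw [qf_sm Γ hl]
  simp only [sm_pv Γ hl hb]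
  have : ∀ k, pv i k * sm Γ k i = sm Γ i k * pv i k := by
    intro k
    rw [sm_symm Γ k i]
    ring
  simp only [this]
  rw [sm_pv Γ hl hb]
  unfold sm
  rw [if_pos rfl]

/-- All outdegrees of a balanced digraph with spread at most one are equal. -/
lemma regular_of_spread (Γ : V → V → Prop) (hl : ∀ i, ¬ Γ i i) (hb : ∀ i, outdeg Γ i = indeg Γ i)
    (hn : 2 ≤ Fintype.card V) (hs : spread Γ ≤ 1) (i j : V) : outdeg Γ i = outdeg Γ j := by
  by_contra hne
  wlog hlt : outdeg Γ i < outdeg Γ j generalizing i j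
  · exact this j i (Ne.symm hne) (lt_of_le_of_ne (not_lt.1 hlt) (Ne.symm hne))
  have hn' : (2 : ℝ) ≤ Fintype.card V := by exact_mod_cast hn
  have h1 := alpha_le Γ (pv i) (sum_pv i)
  have h2 := le_beta Γ (pv j) (sum_pv j)
  rw [qf_pv Γ hl hb, sum_pv_sq] at h1 h2
  unfold spread at hs
  have h3 : (outdeg Γ i : ℝ) + 1 ≤ outdeg Γ j := by exact_mod_cast hlt
  set q := 1 - 1 / (Fintype.card V : ℝ) with hq
  have hq0 : 0 ≤ q := by
    rw [hq, sub_nonneg, div_le_one (by linarith)]
    linarith
  have hq1 : q < 1 := by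
    rw [hq]
    have : 0 < 1 / (Fintype.card V : ℝ) := by positivity
    linarith
  nlinarith

/-- The number of vertices is `n`; every vertex has outdegree and indegree `d`; there are no digons. -/
lemma main_bal (Γ : V → V → Prop) (hl : ∀ i, ¬ Γ i i) (hb : ∀ i, outdeg Γ i = indeg Γ i)
    (hn : 2 ≤ Fintype.card V) (hs : spread Γ ≤ 1) (hs0 : 0 < spread Γ)
    (hc : alpha Γ + beta Γ ≤ Fintype.card V) :
    ∃ d : ℕ, (∀ i, outdeg Γ i = d) ∧ (∀ i j, Γ i j → ¬ Γ j i) ∧
      (2 * d = 0 ∨ 2 * d + 1 = Fintype.card V ∨ 2 * d + 2 = Fintype.card V) := by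
  classical
  obtain ⟨i₀⟩ : Nonempty V := Fintype.card_pos_iff.1 (by omega)
  refine ⟨outdeg Γ i₀, fun i => regular_of_spread Γ hl hb hn hs i i₀, ?_⟩
  set n := Fintype.card V with hnn
  have hn' : (2 : ℝ) ≤ n := by exact_mod_cast hn
  set c := (alpha Γ + beta Γ) / 2 with hcc
  set r := spread Γ / 2 with hrr
  have hbound : ∀ x : V → ℝ, ∑ i, x i = 0 →
      |∑ i, x i * ∑ j, sm Γ i j * x j - c * ∑ i, x i ^ 2| ≤ r * ∑ i, x i ^ 2 := by
    intro x hx
    rw [← qf_sm Γ hl]
    have h1 := alpha_le Γ x hx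
    have h2 := le_beta Γ x hx
    rw [hcc, hrr, abs_le]
    unfold spread
    constructor <;> nlinarith
  have hrow : ∀ i, ∑ k, (sm Γ k i - c * pv i k) ^ 2 ≤ r ^ 2 * (1 - 1 / n) := by
    intro i
    have := norm_bound (sm Γ) (sm_symm Γ) (sm_row Γ hl hb) c r (by rw [hrr]; linarith) hbound (pv i) (sum_pv i)
    simp only [sm_pv Γ hl hb] at this
    rw [sum_pv_sq] at this
    exact this
  have hr2 : r ^ 2 ≤ 1 / 4 := by
    rw [hrr]
    nlinarith
  -- the off-diagonal entries
  have hoff : ∀ i k, k ≠ i → (c / n - (arc Γ k i + arc Γ i k) / 2) ^ 2 < 1 / 4 := by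
    intro i k hki
    have h1 := hrow i
    have h2 := Finset.single_le_sum (f := fun k => (sm Γ k i - c * pv i k) ^ 2) (fun k _ => sq_nonneg _) (mem_univ k)
    have h3 : sm Γ k i - c * pv i k = c / n - (arc Γ k i + arc Γ i k) / 2 := by
      unfold sm pv
      rw [if_neg hki, if_neg hki]
      ring
    rw [h3] at h2
    have h4 : 0 < 1 / (n : ℝ) := by positivity
    have h5 : 1 / (n : ℝ) ≤ 1 := by
      rw [div_le_one (by linarith)]
      linarith
    have h6 : r ^ 2 * (1 - 1 / (n : ℝ)) ≤ 1 / 4 * (1 - 1 / n) :=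
      mul_le_mul_of_nonneg_right hr2 (by linarith)
    linarith
  have hcn : c / n ≤ 1 / 2 := by
    rw [hcc, div_le_iff₀ (by linarith)]
    linarith
  have hdig : ∀ i j, Γ i j → ¬ Γ j i := by
    intro i j h1 h2
    have hij : i ≠ j := by
      rintro rfl
      exact hl _ h1
    have h3 := hoff i j (Ne.symm hij)
    have e1 : arc Γ i j = 1 := by unfold arc; rw [if_pos h1]
    have e2 : arc Γ j i = 1 := by unfold arc; rw [if_pos h2]
    rw [e1, e2] at h3
    nlinarith
  refine ⟨hdig, ?_⟩
  set d := outdeg Γ i₀ with hd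
  -- the row of `i₀`
  have hrow0 := hrow i₀
  set t := c / (n : ℝ) with ht
  have hct : c = n * t := by
    rw [ht]
    field_simp
  have hexp : ∀ k, (sm Γ k i₀ - c * pv i₀ k) ^ 2 =
      (if k = i₀ then ((d : ℝ) - (n - 1) * t) ^ 2 - t ^ 2 else 0) + t ^ 2 + (1 / 4 - t) * (arc Γ k i₀ + arc Γ i₀ k) := by
    intro k
    by_cases hk : k = i₀
    · subst hk
      unfold sm pv
      rw [if_pos rfl, if_pos rfl, if_pos rfl, arc_self Γ hl, ← hnn, hct, ← hd]
      have : (n : ℝ) ≠ 0 := by linarith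
      field_simp
      ring
    · have h3 : sm Γ k i₀ - c * pv i₀ k = t - (arc Γ k i₀ + arc Γ i₀ k) / 2 := by
        unfold sm pv
        rw [if_neg hk, if_neg hk, ht]
        ring
      rw [h3, if_neg hk]
      rcases arc_cases Γ k i₀ with h1 | h1 <;> rcases arc_cases Γ i₀ k with h2 | h2 <;> rw [h1, h2]
      · ring
      · ring
      · ring
      · exfalso
        unfold arc at h1 h2
        have h1' : Γ k i₀ := by
          by_contra h
          rw [if_neg h] at h1
          norm_num at h1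
        have h2' : Γ i₀ k := by
          by_contra h
          rw [if_neg h] at h2
          norm_num at h2
        exact hdig _ _ h1' h2'
  simp only [hexp] at hrow0
  rw [Finset.sum_add_distrib, Finset.sum_add_distrib, Finset.sum_ite_eq', if_pos (mem_univ _), Finset.sum_const,
    card_univ, nsmul_eq_mul, ← Finset.mul_sum, Finset.sum_add_distrib, sum_arc, sum_arc', ← hb i₀, ← hd, ← hnn] at hrow0
  -- degrees are bounded
  have hdn : 2 * d ≤ n - 1 := by
    have h1 : outdeg Γ i₀ + indeg Γ i₀ ≤ (univ.erase i₀).card := by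
      unfold outdeg indeg
      rw [← Finset.card_union_of_disjoint]
      · apply Finset.card_le_card
        intro v hv
        rw [mem_union, mem_filter, mem_filter] at hv
        rw [mem_erase]
        refine ⟨?_, mem_univ _⟩
        rintro rfl
        rcases hv with hv | hv <;> exact hl _ hv.2
      · rw [Finset.disjoint_left]
        intro v h1 h2
        rw [mem_filter] at h1 h2
        exact hdig _ _ h1.2 h2.2
    rw [← hb i₀, ← hd, card_erase_of_mem (mem_univ _), card_univ, ← hnn] at h1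
    omega
  have hdn' : 2 * (d : ℝ) ≤ n - 1 := by
    have : ((2 * d : ℕ) : ℝ) ≤ ((n - 1 : ℕ) : ℝ) := by exact_mod_cast hdn
    rw [Nat.cast_sub (by omega)] at this
    push_cast at this
    exact this
  have hfin : (n : ℝ) * (2 * d) * (n - 1 - 2 * d) ≤ (n - 1) ^ 2 := by
    have hn1 : (0 : ℝ) < n - 1 := by linarith
    have e1 : r ^ 2 * (1 - 1 / (n : ℝ)) ≤ 1 / 4 * ((n - 1) / n) := by
      have : (1 : ℝ) - 1 / n = (n - 1) / n := by field_simp
      rw [this]
      have : 0 ≤ ((n : ℝ) - 1) / n := by positivity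
      nlinarith
    have e2 : (2 * (d : ℝ)) * (n - 1 - 2 * d) / (4 * (n - 1)) ≤ 1 / 4 * ((n - 1) / n) := by
      refine le_trans ?_ e1
      refine le_trans ?_ hrow0
      rw [div_le_iff₀ (by positivity)]
      have : ((d : ℝ) - (n - 1) * t) ^ 2 - t ^ 2 + n * t ^ 2 + (1 / 4 - t) * (d + d) =
          (n * (n - 1)) * (t - d / (n - 1)) ^ 2 + 2 * d * (n - 1 - 2 * d) / (4 * (n - 1)) := by
        field_simp
        ring
      rw [this]
      have h6 : 0 ≤ (n * ((n : ℝ) - 1)) * (t - d / (n - 1)) ^ 2 := by positivity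
      have h7 : 2 * (d : ℝ) * (n - 1 - 2 * d) / (4 * (n - 1)) * (4 * (n - 1)) = 2 * d * (n - 1 - 2 * d) := by
        field_simp
      nlinarith
    have hn0 : (0 : ℝ) < n := by linarith
    rw [div_le_iff₀ (by positivity)] at e2
    have : 1 / 4 * (((n : ℝ) - 1) / n) * (4 * (n - 1)) = (n - 1) ^ 2 / n := by
      field_simp
    rw [this, le_div_iff₀ hn0] at e2
    nlinarith
  -- integers
  rcases Nat.eq_zero_or_pos d with h0 | h0
  · left; omega
  right
  by_contra hcon
  push Not at hcon
  obtain ⟨hc1, hc2⟩ := hcon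
  have h5 : 2 * d + 3 ≤ n := by omega
  obtain ⟨k, hk⟩ : ∃ k, n = 2 * d + 3 + k := ⟨n - (2 * d + 3), by omega⟩
  rw [hk] at hfin
  push_cast at hfin
  have hd1 : (1 : ℝ) ≤ d := by exact_mod_cast h0
  have hk0 : (0 : ℝ) ≤ k := Nat.cast_nonneg k
  nlinarith [mul_nonneg hk0 (sub_nonneg.2 hd1), mul_nonneg hk0 hk0, mul_nonneg (mul_nonneg hk0 hk0) (sub_nonneg.2 hd1),
    mul_nonneg (sub_nonneg.2 hd1) (sub_nonneg.2 hd1)]

end Pool.Agent.R520
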