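import Pool.Agent.R520.Layer

set_option autoImplicit false
set_option linter.unusedSectionVars false

/-! The derangement-to-permutation ratios of digraphs are dense. -/

namespace Pool.Agent.R520.Layer

open Finset Filter Topology

/-- the cyclic shift of the layers -/
def shift (n : ℕ) : Equiv.Perm (Fin (n + 2)) := Equiv.addRight 1

lemma shift_apply {n : ℕ} (j : Fin (n + 2)) : shift n j = j + 1 := rfl

lemma shift_ne {n : ℕ} (j : Fin (n + 2)) : shift n j ≠ j := by
  rw [shift_apply]
  intro h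
  have h1 : (1 : Fin (n + 2)) = 0 := by
    have : j + 1 = j + 0 := by rw [h, add_zero]
    exact add_left_cancel this
  exact absurd h1 (by simp)

lemma shift_last {n : ℕ} : shift n (Fin.last (n + 1)) = 0 := by
  rw [shift_apply]; exact Fin.last_add_one _

lemma shift_castSucc {n : ℕ} (j : Fin (n + 1)) : shift n j.castSucc = j.succ := by
  rw [shift_apply]; exact Fin.coeSucc_eq_succ

section

variable {κ : Type} [Fintype κ] [DecidableEq κ]

/-- all arcs between consecutive layers, except that the arcs from the last layer to the first one are given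
by `B` -/
def MM (n : ℕ) (B : κ → κ → Prop) (j : Fin (n + 2)) (x y : κ) : Prop := j = Fin.last (n + 1) → B x y

/-- layers with `i` moved points -/
def FF (κ : Type) [Fintype κ] [DecidableEq κ] (n i : ℕ) : Finset (Fin (n + 2) → Finset κ) :=
  univ.filter (fun W => ∀ j, (W j).card = i)

/-- the part of the sum with `i` moved points in every layer -/
noncomputable def gg (n : ℕ) (B : κ → κ → Prop) (i : ℕ) : ℕ :=
  ∑ W ∈ FF κ n i, ∏ j, cnt (MM n B j) (W j) (W (shift n j))

lemma card_const {n : ℕ} (W : Fin (n + 2) → Finset κ) (h : ∀ j, (W j).card = (W (shift n j)).card) (j : Fin (n + 2)) :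
    (W j).card = (W 0).card := by
  induction j using Fin.induction with
  | zero => rfl
  | succ i ih =>
    rw [← ih, h i.castSucc, shift_castSucc]

lemma numPerm_sum (n : ℕ) (B : κ → κ → Prop) :
    numPerm (LE (shift n) (MM n B)) = ∑ i ∈ range (Fintype.card κ + 1), gg n B i := by
  classical
  rw [numPerm_eq shift_ne]
  rw [← Finset.sum_fiberwise_of_maps_to (s := univ) (t := range (Fintype.card κ + 1))
    (g := fun W : Fin (n + 2) → Finset κ => (W 0).card)]
  · apply Finset.sum_congr rfl
    intro i _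
    unfold gg FF
    symm
    apply Finset.sum_subset
    · intro W hW
      simp only [mem_filter, mem_univ, true_and] at hW ⊢
      exact hW 0
    · intro W hW hn
      simp only [mem_filter, mem_univ, true_and] at hW hn
      have h1 : ¬ ∀ j, (W j).card = (W (shift n j)).card := by
        intro h
        apply hn
        intro j
        rw [card_const W h j, hW]
      push Not at h1
      obtain ⟨j, hj⟩ := h1
      exact Finset.prod_eq_zero (mem_univ j) (cnt_card hj)
  · intro W _
    rw [mem_range]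
    exact Nat.lt_succ_of_le (Finset.card_le_univ _)

lemma prod_FF (n : ℕ) (B : κ → κ → Prop) {i : ℕ} {W : Fin (n + 2) → Finset κ} (hW : W ∈ FF κ n i) :
    ∏ j, cnt (MM n B j) (W j) (W (shift n j)) = i.factorial ^ (n + 1) * cnt B (W (Fin.last (n + 1))) (W 0) := by
  unfold FF at hW
  simp only [mem_filter, mem_univ, true_and] at hW
  rw [Fin.prod_univ_castSucc, shift_last]
  congr 1
  · rw [Finset.prod_congr rfl (g := fun _ => i.factorial)]
    · simp
    · intro j _
      rw [cnt_true, hW]
      · intro x y h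
        exact absurd h (Fin.castSucc_lt_last j).ne
      · rw [hW, hW]
  · unfold cnt MM
    simp

lemma card_FF (n i : ℕ) : (FF κ n i).card = (Nat.choose (Fintype.card κ) i) ^ (n + 2) := by
  have : FF κ n i = Fintype.piFinset (fun _ : Fin (n + 2) => powersetCard i (univ : Finset κ)) := by
    ext W
    unfold FF
    simp [Fintype.mem_piFinset, mem_powersetCard]
  rw [this, Fintype.card_piFinset]
  simp

lemma gg_le (n : ℕ) (B : κ → κ → Prop) (i : ℕ) :
    gg n B i ≤ (Nat.choose (Fintype.card κ) i * i.factorial) ^ (n + 2) := by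
  unfold gg
  calc ∑ W ∈ FF κ n i, ∏ j, cnt (MM n B j) (W j) (W (shift n j))
      ≤ ∑ W ∈ FF κ n i, i.factorial ^ (n + 2) := by
        apply Finset.sum_le_sum
        intro W hW
        rw [prod_FF n B hW, pow_succ i.factorial (n + 1)]
        apply Nat.mul_le_mul_left
        have h1 : (W (Fin.last (n + 1))).card = i := by
          unfold FF at hW
          simp only [mem_filter, mem_univ, true_and] at hW
          exact hW _
        calc cnt B (W (Fin.last (n + 1))) (W 0) ≤ ((W (Fin.last (n + 1))).card).factorial := cnt_le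
          _ = i.factorial := by rw [h1]
    _ = _ := by
        rw [Finset.sum_const, card_FF, smul_eq_mul, mul_pow]

lemma gg_top (n : ℕ) (B : κ → κ → Prop) :
    gg n B (Fintype.card κ) = (Fintype.card κ).factorial ^ (n + 1) * cnt B univ univ := by
  have : FF κ n (Fintype.card κ) = {fun _ => univ} := by
    ext W
    unfold FF
    simp only [mem_filter, mem_univ, true_and, mem_singleton]
    constructor
    · intro h
      funext j
      exact Finset.card_eq_iff_eq_univ _ |>.mp (h j)
    · intro h j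
      rw [h]; rfl
  unfold gg
  rw [Finset.sum_congr rfl (fun W hW => prod_FF n B hW), this, Finset.sum_singleton]

lemma numDer_layer (n : ℕ) (B : κ → κ → Prop) :
    numDer (LE (shift n) (MM n B)) = (Fintype.card κ).factorial ^ (n + 1) * cnt B univ univ := by
  rw [numDer_eq shift_ne]
  have h : (fun _ => univ : Fin (n + 2) → Finset κ) ∈ FF κ n (Fintype.card κ) := by
    unfold FF
    simp only [mem_filter, mem_univ, true_and]
    intro j; rfl
  exact prod_FF n B h

lemma sum_ends {n : ℕ} (φ : κ → κ → ℕ) :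
    ∑ x : Fin (n + 2) → κ, φ (x 0) (x (Fin.last (n + 1))) = (Fintype.card κ) ^ n * ∑ c, ∑ r, φ c r := by
  have h1 : ∀ ψ : κ → ℕ, ∑ y : Fin (n + 1) → κ, ψ (y (Fin.last n)) = (Fintype.card κ) ^ n * ∑ r, ψ r := by
    intro ψ
    rw [← Equiv.sum_comp (Fin.snocEquiv (fun _ => κ)) (fun y => ψ (y (Fin.last n)))]
    rw [Fintype.sum_prod_type]
    simp only [Fin.snocEquiv_apply, Fin.snoc_last, Finset.sum_const, smul_eq_mul]
    rw [← Finset.mul_sum]
    simp
  rw [← Equiv.sum_comp (Fin.consEquiv (fun _ => κ)) (fun x => φ (x 0) (x (Fin.last (n + 1))))]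
  rw [Fintype.sum_prod_type]
  have h2 : ∀ c : κ, ∑ y : Fin (n + 1) → κ, φ c (y (Fin.last n)) = (Fintype.card κ) ^ n * ∑ r, φ c r :=
    fun c => h1 (φ c)
  rw [Finset.mul_sum]
  apply Finset.sum_congr rfl
  intro c _
  rw [← h2 c]
  apply Finset.sum_congr rfl
  intro y _
  rfl

lemma gg_sub (n : ℕ) (B : κ → κ → Prop) (hk : 1 ≤ Fintype.card κ) :
    gg n B (Fintype.card κ - 1) = (Fintype.card κ - 1).factorial ^ (n + 1) *
      ((Fintype.card κ) ^ n * ∑ c, ∑ r, cnt B {r}ᶜ {c}ᶜ) := by
  classical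
  have : FF κ n (Fintype.card κ - 1) = univ.image (fun x : Fin (n + 2) → κ => fun j => ({x j}ᶜ : Finset κ)) := by
    ext W
    unfold FF
    simp only [mem_filter, mem_univ, true_and, mem_image]
    constructor
    · intro h
      have h1 : ∀ j, ∃ x, (W j)ᶜ = {x} := by
        intro j
        rw [← Finset.card_eq_one, Finset.card_compl, h j]
        omega
      choose x hx using h1
      refine ⟨x, ?_⟩
      funext j
      rw [← hx j, compl_compl]
    · rintro ⟨x, rfl⟩ j
      simp [Finset.card_compl]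
  unfold gg
  rw [Finset.sum_congr rfl (fun W hW => prod_FF n B hW), ← Finset.mul_sum, this, Finset.sum_image]
  · congr 1
    exact sum_ends (fun c r => cnt B {r}ᶜ {c}ᶜ)
  · intro x _ y _ h
    funext j
    have h1 := congrFun h j
    simp only [compl_inj_iff, singleton_inj] at h1
    exact h1

end

/-! ### The special matrix -/

/-- the identity, and some arcs from the left half to the right half -/
def BB {m : ℕ} (N : Finset (Fin m × Fin m)) (x y : Fin m ⊕ Fin m) : Prop :=
  x = y ∨ ∃ i j, x = Sum.inl i ∧ y = Sum.inr j ∧ (i, j) ∈ N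

lemma BB_inr {m : ℕ} {N : Finset (Fin m × Fin m)} {j : Fin m} {y : Fin m ⊕ Fin m} (h : BB N (Sum.inr j) y) :
    y = Sum.inr j := by
  rcases h with h | ⟨i, j', h1, _, _⟩
  · exact h.symm
  · exact absurd h1 (by simp)

lemma BB_inl {m : ℕ} {N : Finset (Fin m × Fin m)} {i : Fin m} {x : Fin m ⊕ Fin m} (h : BB N x (Sum.inl i)) :
    x = Sum.inl i := by
  rcases h with h | ⟨i', j', _, h2, _⟩
  · exact h
  · exact absurd h2 (by simp)

lemma BB_top {m : ℕ} (N : Finset (Fin m × Fin m)) : cnt (BB N) univ univ = 1 := by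
  classical
  unfold cnt
  rw [Nat.card_eq_one_iff_unique]
  constructor
  · constructor
    have key : ∀ f : {f : (univ : Finset (Fin m ⊕ Fin m)) ≃ (univ : Finset (Fin m ⊕ Fin m)) //
        ∀ x, BB N x.1 (f x).1}, ∀ x, (f.1 x) = x := by
      rintro ⟨f, hf⟩ x
      by_contra hne
      have h1 := hf x
      rcases h1 with h | ⟨i, j, h1, h2, h3⟩
      · exact hne (Subtype.ext h.symm)
      · obtain ⟨y, hy⟩ := f.surjective x
        have h4 := hf y
        rw [hy, h1] at h4
        have h5 := BB_inl h4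
        have h6 : y = x := Subtype.ext (h5.trans h1.symm)
        rw [h6] at hy
        exact hne hy
    intro f g
    apply Subtype.ext
    apply Equiv.ext
    intro x
    rw [key f, key g]
  · exact ⟨⟨Equiv.refl _, fun x => Or.inl rfl⟩⟩

open Classical in
lemma BB_sub {m : ℕ} (N : Finset (Fin m × Fin m)) (r c : Fin m ⊕ Fin m) :
    cnt (BB N) {r}ᶜ {c}ᶜ = if BB N c r then 1 else 0 := by
  have key : ∀ (f : ({r}ᶜ : Finset (Fin m ⊕ Fin m)) ≃ ({c}ᶜ : Finset (Fin m ⊕ Fin m)))
      (_ : ∀ x, BB N x.1 (f x).1), ∀ x, (f x).1 = if x.1 = c then r else x.1 := by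
    intro f hf x
    by_cases hx : x.1 = c
    · rw [if_pos hx]
      by_contra hne
      -- f c is not c
      have h1 : (f x).1 ≠ c := by
        have := (f x).2
        rwa [mem_compl, mem_singleton] at this
      rcases hf x with h | ⟨i, j, h2, h3, h4⟩
      · rw [← h, hx] at h1; exact h1 rfl
      · have hy : (f x).1 ∈ ({r}ᶜ : Finset (Fin m ⊕ Fin m)) := by
          rw [mem_compl, mem_singleton]; exact hne
        have h5 : BB N (f x).1 (f ⟨(f x).1, hy⟩).1 := hf ⟨(f x).1, hy⟩
        have h7 : f ⟨(f x).1, hy⟩ = f x := by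
          apply Subtype.ext
          generalize (f ⟨(f x).1, hy⟩).1 = z at h5 ⊢
          rw [h3] at h5 ⊢
          exact BB_inr h5
        have h8 := f.injective h7
        have h9 : (f x).1 = x.1 := congrArg Subtype.val h8
        rw [h9, hx] at h1
        exact h1 rfl
    · rw [if_neg hx]
      rcases hf x with h | ⟨i, j, h2, h3, h4⟩
      · exact h.symm
      · exfalso
        have hxc : x.1 ∈ ({c}ᶜ : Finset (Fin m ⊕ Fin m)) := by
          rw [mem_compl, mem_singleton]; exact hx
        obtain ⟨y, hy⟩ := f.surjective ⟨x.1, hxc⟩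
        have h5 := hf y
        rw [hy] at h5
        simp only [h2] at h5
        have h6 := BB_inl h5
        have h7 : y = x := Subtype.ext (h6.trans h2.symm)
        rw [h7] at hy
        have h8 : (f x).1 = x.1 := congrArg Subtype.val hy
        rw [h2, h3] at h8
        exact absurd h8 (by simp)
  split_ifs with h
  · unfold cnt
    rw [Nat.card_eq_one_iff_unique]
    constructor
    · constructor
      rintro ⟨f, hf⟩ ⟨g, hg⟩
      apply Subtype.ext
      apply Equiv.ext
      intro x
      apply Subtype.ext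
      show (f x).1 = (g x).1
      rw [key f hf, key g hg]
    · have e : ∀ a, a ∈ ({r}ᶜ : Finset (Fin m ⊕ Fin m)) ↔ Equiv.swap c r a ∈ ({c}ᶜ : Finset (Fin m ⊕ Fin m)) := by
        intro a
        rw [mem_compl, mem_singleton, mem_compl, mem_singleton, not_iff_not]
        constructor
        · intro h; rw [h, Equiv.swap_apply_right]
        · intro h
          have := congrArg (Equiv.swap c r) h
          rwa [Equiv.swap_apply_self, Equiv.swap_apply_left] at this
      refine ⟨⟨(Equiv.swap c r).subtypeEquiv e, ?_⟩⟩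
      intro x
      show BB N x.1 (Equiv.swap c r x.1)
      have hxr : x.1 ≠ r := by
        have := x.2
        rwa [mem_compl, mem_singleton] at this
      by_cases hx : x.1 = c
      · rw [hx, Equiv.swap_apply_left]; exact h
      · rw [Equiv.swap_apply_of_ne_of_ne hx hxr]; exact Or.inl rfl
  · unfold cnt
    rw [Nat.card_eq_zero]
    left
    constructor
    rintro ⟨f, hf⟩
    have hcr : c ≠ r := by
      intro h1; exact h (Or.inl h1)
    have hc : c ∈ ({r}ᶜ : Finset (Fin m ⊕ Fin m)) := by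
      rw [mem_compl, mem_singleton]; exact hcr
    have h1 := key f hf ⟨c, hc⟩
    have h2 := hf ⟨c, hc⟩
    rw [h1, if_pos rfl] at h2
    exact h h2

open Classical in
lemma BB_count {m : ℕ} (N : Finset (Fin m × Fin m)) :
    ∑ c, ∑ r, cnt (BB N) {r}ᶜ {c}ᶜ = 2 * m + N.card := by
  simp only [BB_sub]
  rw [Fintype.sum_sum_type]
  simp only [Fintype.sum_sum_type]
  have h1 : ∀ i j : Fin m, BB N (Sum.inl i) (Sum.inl j) ↔ i = j := by
    intro i j
    constructor
    · intro h; exact Sum.inl_injective (BB_inl h)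
    · intro h; rw [h]; exact Or.inl rfl
  have h2 : ∀ i j : Fin m, BB N (Sum.inr i) (Sum.inr j) ↔ i = j := by
    intro i j
    constructor
    · intro h; exact (Sum.inr_injective (BB_inr h)).symm
    · intro h; rw [h]; exact Or.inl rfl
  have h3 : ∀ i j : Fin m, ¬ BB N (Sum.inr i) (Sum.inl j) := by
    intro i j h
    exact absurd (BB_inr h) (by simp)
  have h4 : ∀ i j : Fin m, BB N (Sum.inl i) (Sum.inr j) ↔ (i, j) ∈ N := by
    intro i j
    constructor
    · rintro (h | ⟨i', j', h1, h2, h3⟩)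
      · exact absurd h (by simp)
      · rw [Sum.inl_injective h1, Sum.inr_injective h2]; exact h3
    · intro h
      exact Or.inr ⟨i, j, rfl, rfl, h⟩
  simp only [h1, h2, h3, h4, if_false, Finset.sum_const_zero, zero_add, Finset.sum_ite_eq, mem_univ, if_true,
    Finset.sum_add_distrib]
  have h5 : ∑ x : Fin m, ∑ y : Fin m, (if (x, y) ∈ N then 1 else 0) = N.card := by
    rw [← Fintype.sum_prod_type' (fun (x y : Fin m) => if (x, y) ∈ N then 1 else 0)]
    rw [Finset.card_eq_sum_ones]
    simp only [Prod.mk.eta]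
    rw [Finset.sum_ite_mem, Finset.univ_inter]
  rw [h5]
  simp
  ring

/-! ### The limit -/

/-- the ratio of the number of permutations to that of derangements -/
lemma ratio_bounds {m : ℕ} (hm : 1 ≤ m) (N : Finset (Fin m × Fin m)) (n : ℕ) :
    (numDer (LE (shift n) (MM n (BB N))) : ℝ) = ((2 * m).factorial : ℝ) ^ (n + 1) ∧
    (2 + (N.card : ℝ) / (2 * m)) * ((2 * m).factorial : ℝ) ^ (n + 1) ≤ numPerm (LE (shift n) (MM n (BB N))) ∧
    (numPerm (LE (shift n) (MM n (BB N))) : ℝ) ≤
      (2 + (N.card : ℝ) / (2 * m) + (2 * m : ℝ) * (2 * m).factorial * (1 / 2) ^ (n + 2)) *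
        ((2 * m).factorial : ℝ) ^ (n + 1) := by
  have hk : Fintype.card (Fin m ⊕ Fin m) = 2 * m := by
    rw [Fintype.card_sum, Fintype.card_fin]; ring
  obtain ⟨k, hk2⟩ : ∃ k, 2 * m = k + 2 := ⟨2 * m - 2, by omega⟩
  have hkm : (2 * (m : ℝ)) = k + 2 := by exact_mod_cast hk2
  have hder := numDer_layer n (BB N)
  rw [BB_top, mul_one, hk] at hder
  have hper := numPerm_sum n (BB N)
  rw [hk, hk2, Finset.sum_range_succ, Finset.sum_range_succ] at hper
  have e1 := gg_top n (BB N)
  rw [BB_top, mul_one, hk, hk2] at e1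
  have e2 := gg_sub n (BB N) (by rw [hk]; omega)
  rw [BB_count, hk, hk2, show k + 2 - 1 = k + 1 from rfl] at e2
  rw [e1, e2] at hper
  have hfac : ((k + 2).factorial : ℝ) = ((k : ℝ) + 2) * (k + 1).factorial := by
    rw [Nat.factorial_succ (k + 1)]; push_cast; ring
  have hpos : (0 : ℝ) < (k + 1).factorial := by exact_mod_cast Nat.factorial_pos _
  have hk0 : (0 : ℝ) ≤ k := Nat.cast_nonneg k
  have e3 : (((k + 1).factorial ^ (n + 1) * ((k + 2) ^ n * (k + 2 + N.card)) : ℕ) : ℝ)
      = (1 + (N.card : ℝ) / (k + 2)) * ((k + 2).factorial : ℝ) ^ (n + 1) := by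
    rw [hfac, mul_pow, pow_succ ((k : ℝ) + 2) n]
    push_cast
    field_simp
  have e4 : (0 : ℝ) ≤ ((∑ i ∈ range (k + 1), gg n (BB N) i : ℕ) : ℝ) := Nat.cast_nonneg _
  have e5 : ((∑ i ∈ range (k + 1), gg n (BB N) i : ℕ) : ℝ) ≤
      (2 * m : ℝ) * (2 * m).factorial * (1 / 2) ^ (n + 2) * ((2 * m).factorial : ℝ) ^ (n + 1) := by
    have h1 : ∀ i ∈ range (k + 1), ((gg n (BB N) i : ℕ) : ℝ) ≤ (((k + 2).factorial : ℝ) / 2) ^ (n + 2) := by
      intro i hi
      rw [mem_range] at hi
      have h2 := gg_le n (BB N) i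
      rw [hk, hk2] at h2
      have h3 := Nat.choose_mul_factorial_mul_factorial (n := k + 2) (k := i) (by omega)
      have h4 : 2 ≤ (k + 2 - i).factorial := by
        calc 2 = Nat.factorial 2 := rfl
          _ ≤ _ := Nat.factorial_le (by omega)
      have h5 : (k + 2).choose i * i.factorial * 2 ≤ (k + 2).factorial := by
        calc _ ≤ (k + 2).choose i * i.factorial * (k + 2 - i).factorial := Nat.mul_le_mul_left _ h4
          _ = _ := h3
      have h6 : (((k + 2).choose i * i.factorial : ℕ) : ℝ) ≤ ((k + 2).factorial : ℝ) / 2 := by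
        rw [le_div_iff₀ (by norm_num)]
        exact_mod_cast h5
      calc ((gg n (BB N) i : ℕ) : ℝ) ≤ ((((k + 2).choose i * i.factorial) ^ (n + 2) : ℕ) : ℝ) := by
            exact_mod_cast h2
        _ = (((k + 2).choose i * i.factorial : ℕ) : ℝ) ^ (n + 2) := by push_cast; ring
        _ ≤ _ := pow_le_pow_left₀ (Nat.cast_nonneg _) h6 _
    rw [Nat.cast_sum]
    calc ∑ i ∈ range (k + 1), ((gg n (BB N) i : ℕ) : ℝ)
        ≤ ∑ i ∈ range (k + 1), (((k + 2).factorial : ℝ) / 2) ^ (n + 2) := Finset.sum_le_sum h1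
      _ = ((k : ℝ) + 1) * (((k + 2).factorial : ℝ) / 2) ^ (n + 2) := by
          rw [Finset.sum_const, card_range, nsmul_eq_mul]; push_cast; ring
      _ ≤ ((k : ℝ) + 2) * (((k + 2).factorial : ℝ) / 2) ^ (n + 2) := by
          gcongr; norm_num
      _ = _ := by
          rw [hk2, hkm, div_pow, one_div, inv_pow]
          field_simp
          ring
  rw [hkm]
  rw [hkm] at e5
  rw [hk2] at e5 hder ⊢
  refine ⟨by rw [hder]; push_cast; ring, ?_, ?_⟩
  · rw [hper]
    push_cast at e3 e4 ⊢
    linarith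
  · rw [hper]
    push_cast at e3 e5 ⊢
    linarith

/-- the limit of the ratios -/
theorem tendsto_ratio {m : ℕ} (hm : 1 ≤ m) (N : Finset (Fin m × Fin m)) :
    Tendsto (fun n : ℕ => (numDer (LE (shift n) (MM n (BB N))) : ℝ) / numPerm (LE (shift n) (MM n (BB N))))
      atTop (𝓝 (2 + (N.card : ℝ) / (2 * m))⁻¹) := by
  have hpos : (0 : ℝ) < 2 + (N.card : ℝ) / (2 * m) := by positivity
  have h1 : Tendsto (fun n : ℕ => (numPerm (LE (shift n) (MM n (BB N))) : ℝ) / ((2 * m).factorial : ℝ) ^ (n + 1))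
      atTop (𝓝 (2 + (N.card : ℝ) / (2 * m))) := by
    have h2 : Tendsto (fun n : ℕ => 2 + (N.card : ℝ) / (2 * m) +
        (2 * m : ℝ) * (2 * m).factorial * (1 / 2) ^ (n + 2)) atTop
        (𝓝 (2 + (N.card : ℝ) / (2 * m) + (2 * m : ℝ) * (2 * m).factorial * 0)) := by
      apply Tendsto.const_add
      apply Tendsto.const_mul
      exact (tendsto_pow_atTop_nhds_zero_of_lt_one (by norm_num) (by norm_num)).comp (tendsto_add_atTop_nat 2)
    rw [mul_zero, add_zero] at h2
    apply tendsto_of_tendsto_of_tendsto_of_le_of_le tendsto_const_nhds h2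
    · intro n
      have hf : (0 : ℝ) < ((2 * m).factorial : ℝ) ^ (n + 1) := by
        have : (0 : ℝ) < (2 * m).factorial := by exact_mod_cast Nat.factorial_pos _
        positivity
      simp only
      rw [le_div_iff₀ hf]
      exact (ratio_bounds hm N n).2.1
    · intro n
      have hf : (0 : ℝ) < ((2 * m).factorial : ℝ) ^ (n + 1) := by
        have : (0 : ℝ) < (2 * m).factorial := by exact_mod_cast Nat.factorial_pos _
        positivity
      simp only
      rw [div_le_iff₀ hf]
      exact (ratio_bounds hm N n).2.2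
  have h3 := h1.inv₀ hpos.ne'
  refine h3.congr ?_
  intro n
  rw [inv_div, (ratio_bounds hm N n).1]

/-- The ratios `(d/p)_G` of all digraphs `G` (finite, nonempty, loopless). -/
def ratios : Set ℝ :=
  {r | ∃ (V : Type) (_ : Finite V) (_ : Nonempty V) (E : V → V → Prop), (∀ v, ¬ E v v) ∧
    r = (numDer E : ℝ) / (numPerm E : ℝ)}

theorem dense_ratios (a b : ℝ) (ha : 0 ≤ a) (hab : a < b) (hb : b ≤ 1 / 2) : ∃ r ∈ ratios, a < r ∧ r < b := by
  have hb0 : 0 < b := lt_of_le_of_lt ha hab
  have hx : b⁻¹ < ((a + b) / 2)⁻¹ := by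
    apply inv_strictAnti₀ <;> linarith
  obtain ⟨q, hq1, hq2⟩ := exists_rat_btwn hx
  have h2b : 2 ≤ b⁻¹ := by
    rw [le_inv_comm₀ (by norm_num) hb0]; linarith
  have hq : 0 ≤ q - 2 := by
    have h : (2:ℝ) < q := lt_of_le_of_lt h2b hq1
    have : (2:ℚ) < q := by exact_mod_cast h
    linarith
  obtain ⟨u, hu⟩ : ∃ u : ℕ, (q - 2).num = u := Int.eq_ofNat_of_zero_le (Rat.num_nonneg.mpr hq)
  set v := (q - 2).den with hv
  have hvpos : 1 ≤ v := (q - 2).den_pos
  have hqv : q - 2 = (u : ℚ) / v := by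
    rw [hv]
    conv_lhs => rw [← Rat.num_div_den (q - 2)]
    rw [hu]; rfl
  have hcard : 2 * u * (2 * u + 1) ≤ (univ : Finset (Fin (v * (2 * u + 1)) × Fin (v * (2 * u + 1)))).card := by
    rw [card_univ, Fintype.card_prod, Fintype.card_fin]
    calc 2 * u * (2 * u + 1) ≤ (2 * u + 1) * (2 * u + 1) := Nat.mul_le_mul_right _ (by omega)
      _ ≤ (v * (2 * u + 1)) * (v * (2 * u + 1)) := Nat.mul_le_mul (Nat.le_mul_of_pos_left _ hvpos)
          (Nat.le_mul_of_pos_left _ hvpos)
  obtain ⟨N, _, hN⟩ := Finset.exists_subset_card_eq hcard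
  have hm : 1 ≤ v * (2 * u + 1) := Nat.mul_pos hvpos (by omega)
  have hlim := tendsto_ratio hm N
  have hval : 2 + (N.card : ℝ) / (2 * (v * (2 * u + 1) : ℕ)) = q := by
    rw [hN]
    have h1 : (q : ℝ) = 2 + (u : ℝ) / v := by
      have : q = 2 + (u : ℚ) / v := by rw [← hqv]; ring
      rw [this]; push_cast; ring
    rw [h1]
    have hv0 : (0:ℝ) < v := by exact_mod_cast hvpos
    push_cast
    field_simp
  rw [hval] at hlim
  have hq0 : (0:ℝ) < q := by linarith
  have l1 : a < (q : ℝ)⁻¹ := by
    have h1 : (a + b) / 2 < (q:ℝ)⁻¹ := by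
      rw [lt_inv_comm₀ (by linarith) hq0]; exact hq2
    linarith
  have l2 : (q : ℝ)⁻¹ < b := by
    rw [inv_lt_comm₀ hq0 hb0]; exact hq1
  obtain ⟨n, h1, h2⟩ := ((hlim.eventually (eventually_gt_nhds l1)).and (hlim.eventually (eventually_lt_nhds l2))).exists
  refine ⟨_, ⟨Fin (n + 2) × (Fin (v * (2 * u + 1)) ⊕ Fin (v * (2 * u + 1))), inferInstance, ?_, _, ?_, rfl⟩, h1, h2⟩
  · exact ⟨(0, Sum.inl ⟨0, hm⟩)⟩
  · rintro ⟨j, x⟩ ⟨h3, _⟩
    exact shift_ne j h3.symm

end Pool.Agent.R520.Layer
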