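import Pool.Agent.R520.NormLemma

set_option autoImplicit false

/-! Conjugates of an eigenvalue of a symmetric rational matrix. -/

namespace Pool.Agent.R520

open Polynomial Matrix

variable {V : Type} [Fintype V] [DecidableEq V]

lemma root_of_vec {K : Type} [Field K] (M : Matrix V V K) (x : K) (y : V → K) (hy0 : y ≠ 0)
    (hy : M *ᵥ y = x • y) : M.charpoly.eval x = 0 := by
  rw [Matrix.eval_charpoly]
  rw [← Matrix.exists_mulVec_eq_zero_iff]
  refine ⟨y, hy0, ?_⟩
  rw [Matrix.sub_mulVec, hy, sub_eq_zero]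
  ext i
  simp [Matrix.mulVec, dotProduct, Matrix.diagonal_apply]

lemma vec_of_root {K : Type} [Field K] (M : Matrix V V K) (x : K) (h : M.charpoly.eval x = 0) :
    ∃ y : V → K, y ≠ 0 ∧ M *ᵥ y = x • y := by
  rw [Matrix.eval_charpoly, ← Matrix.exists_mulVec_eq_zero_iff] at h
  obtain ⟨y, hy0, hy⟩ := h
  refine ⟨y, hy0, ?_⟩
  rw [Matrix.sub_mulVec, sub_eq_zero] at hy
  rw [← hy]
  ext i
  simp [Matrix.mulVec, dotProduct, Matrix.diagonal_apply]

lemma eig_roots (Bq : Matrix V V ℚ) (hsym : ∀ i j, Bq i j = Bq j i) (lo hi : ℝ)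
    (hlo : ∀ y : V → ℝ, lo * ∑ i, y i ^ 2 ≤ ∑ i, ∑ j, y i * ((Bq i j : ℝ) * y j))
    (hhi : ∀ y : V → ℝ, ∑ i, ∑ j, y i * ((Bq i j : ℝ) * y j) ≤ hi * ∑ i, y i ^ 2)
    (x : ℝ) (hx : IsIntegral ℤ x) (y : V → ℝ) (hy0 : y ≠ 0) (hy : ∀ i, ∑ j, (Bq i j : ℝ) * y j = x * y i) :
    ∀ w ∈ ((minpoly ℤ x).map (Int.castRingHom ℂ)).roots, w.im = 0 ∧ lo ≤ w.re ∧ w.re ≤ hi := by
  intro w hw
  have h1 : (Bq.map (algebraMap ℚ ℝ)).charpoly.eval x = 0 := by
    apply root_of_vec _ x y hy0
    funext i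
    show ∑ j, (Bq i j : ℝ) * y j = x * y i
    exact hy i
  rw [Matrix.charpoly_map, Polynomial.eval_map_algebraMap] at h1
  have h2 : minpoly ℚ x ∣ Bq.charpoly := minpoly.dvd ℚ x h1
  have h3 : minpoly ℚ x = (minpoly ℤ x).map (algebraMap ℤ ℚ) := minpoly.isIntegrallyClosed_eq_field_fractions' ℚ hx
  have h4 : ((minpoly ℤ x).map (Int.castRingHom ℂ)).eval w = 0 := (Polynomial.mem_roots'.mp hw).2
  have h5 : (minpoly ℤ x).map (Int.castRingHom ℂ) = (minpoly ℚ x).map (algebraMap ℚ ℂ) := by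
    rw [h3, Polynomial.map_map]
    congr 1
  rw [h5] at h4
  obtain ⟨q, hq⟩ := h2
  have h6 : (Bq.map (algebraMap ℚ ℂ)).charpoly.eval w = 0 := by
    rw [Matrix.charpoly_map, hq, Polynomial.map_mul, Polynomial.eval_mul, h4, zero_mul]
  obtain ⟨z, hz0, hz⟩ := vec_of_root _ w h6
  have hzi : ∀ i, ∑ j, (Bq i j : ℂ) * z j = w * z i := by
    intro i
    have := congrFun hz i
    exact this
  set u : V → ℝ := fun i => (z i).re with hu
  set v : V → ℝ := fun i => (z i).im with hv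
  set N : ℝ := ∑ i, u i ^ 2 + ∑ i, v i ^ 2 with hN
  have hNpos : 0 < N := by
    obtain ⟨i, hi⟩ : ∃ i, z i ≠ 0 := by
      by_contra h
      push Not at h
      exact hz0 (funext h)
    have h7 : 0 < u i ^ 2 + v i ^ 2 := by
      rcases ne_or_eq (z i).re 0 with h | h
      · have h8 : 0 < u i ^ 2 := lt_of_le_of_ne (sq_nonneg _) (Ne.symm (pow_ne_zero 2 h))
        nlinarith [sq_nonneg (v i)]
      · have h9 : (z i).im ≠ 0 := by
          intro h10
          exact hi (Complex.ext h h10)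
        have h8 : 0 < v i ^ 2 := lt_of_le_of_ne (sq_nonneg _) (Ne.symm (pow_ne_zero 2 h9))
        nlinarith [sq_nonneg (u i)]
    rw [hN, ← Finset.sum_add_distrib]
    exact lt_of_lt_of_le h7 (Finset.single_le_sum (f := fun i => u i ^ 2 + v i ^ 2) (fun i _ => by positivity)
      (Finset.mem_univ i))
  have hre : ∀ i, ∑ j, (Bq i j : ℝ) * u j = w.re * u i - w.im * v i := by
    intro i
    have h7 := congrArg Complex.re (hzi i)
    rw [Complex.re_sum, Complex.mul_re] at h7
    rw [← h7]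
    apply Finset.sum_congr rfl
    intro j _
    simp [hu]
  have him : ∀ i, ∑ j, (Bq i j : ℝ) * v j = w.re * v i + w.im * u i := by
    intro i
    have h7 := congrArg Complex.im (hzi i)
    rw [Complex.im_sum, Complex.mul_im] at h7
    rw [← h7]
    apply Finset.sum_congr rfl
    intro j _
    simp [hv]
  have f1 : ∑ i, ∑ j, u i * ((Bq i j : ℝ) * u j) = w.re * ∑ i, u i ^ 2 - w.im * ∑ i, u i * v i := by
    simp only [← Finset.mul_sum, hre]
    simp only [Finset.mul_sum]
    rw [← Finset.sum_sub_distrib]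
    apply Finset.sum_congr rfl
    intro i _; ring
  have f2 : ∑ i, ∑ j, v i * ((Bq i j : ℝ) * v j) = w.re * ∑ i, v i ^ 2 + w.im * ∑ i, u i * v i := by
    simp only [← Finset.mul_sum, him]
    simp only [Finset.mul_sum]
    rw [← Finset.sum_add_distrib]
    apply Finset.sum_congr rfl
    intro i _; ring
  have f3 : ∑ i, ∑ j, u i * ((Bq i j : ℝ) * v j) = w.re * ∑ i, u i * v i + w.im * ∑ i, u i ^ 2 := by
    simp only [← Finset.mul_sum, him]
    simp only [Finset.mul_sum]
    rw [← Finset.sum_add_distrib]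
    apply Finset.sum_congr rfl
    intro i _; ring
  have f4 : ∑ i, ∑ j, v i * ((Bq i j : ℝ) * u j) = w.re * ∑ i, u i * v i - w.im * ∑ i, v i ^ 2 := by
    simp only [← Finset.mul_sum, hre]
    simp only [Finset.mul_sum]
    rw [← Finset.sum_sub_distrib]
    apply Finset.sum_congr rfl
    intro i _; ring
  have f5 : ∑ i, ∑ j, u i * ((Bq i j : ℝ) * v j) = ∑ i, ∑ j, v i * ((Bq i j : ℝ) * u j) := by
    rw [Finset.sum_comm]
    apply Finset.sum_congr rfl
    intro i _
    apply Finset.sum_congr rfl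
    intro j _
    rw [hsym j i]; ring
  have hwim : w.im = 0 := by
    have : w.im * N = 0 := by
      rw [hN]; linarith
    rcases mul_eq_zero.mp this with h | h
    · exact h
    · exact absurd h hNpos.ne'
  refine ⟨hwim, ?_, ?_⟩
  · have g1 := hlo u
    have g2 := hlo v
    rw [f1, hwim] at g1
    rw [f2, hwim] at g2
    have g3 : lo * N ≤ w.re * N := by rw [hN]; linarith
    exact le_of_mul_le_mul_right g3 hNpos
  · have g1 := hhi u
    have g2 := hhi v
    rw [f1, hwim] at g1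
    rw [f2, hwim] at g2
    have g3 : w.re * N ≤ hi * N := by rw [hN]; linarith
    exact le_of_mul_le_mul_right g3 hNpos

end Pool.Agent.R520
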