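import Pool.Agent.R520.Poly

set_option autoImplicit false

/-! A polygonal digraph of order 21 with Laplacian spread 1. -/

namespace Pool.Agent.R520.Ex21

open Finset Matrix Pool.Agent.R520

/-- The vertices: a vertex `none`, and the vertices `some (t, i)`; those with `t = 0, 1` form the set `X` and those
with `t = 2, 3` the set `Y`. -/
abbrev W : Type := Option (Fin 4 × Fin 5)

/-- The arcs. -/
def G : W → W → Bool
  | none, none => false
  | none, some (t, _) => decide (t.val < 2)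
  | some (t, _), none => decide (2 ≤ t.val)
  | some (s, i), some (t, j) =>
    if s.val < 2 then
      if t.val < 2 then (decide (i = j) && decide (s ≠ t)) || decide (j = i + 1) || decide (j = i + 2)
      else xor (decide (t.val = s.val + 2)) (decide (i = j))
    else
      if t.val < 2 then !(xor (decide (s.val = t.val + 2)) (decide (i = j)))
      else decide (j = i + 1) || decide (j = i + 2)

/-- The digraph as a relation. -/
def Γ (i j : W) : Prop := G i j = true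

instance (i j : W) : Decidable (Γ i j) := by unfold Γ; infer_instance

lemma outdeg_eq (i : W) : outdeg Γ i = 10 := by
  have h : ∀ i : W, (univ.filter fun j => Γ i j).card = 10 := by decide
  unfold outdeg
  rw [← h i]
  congr

/-- sum over the out-neighbours -/
def nb (w : W → ℝ) : W → ℝ
  | none => ∑ i, (w (some (0, i)) + w (some (1, i)))
  | some (t, i) =>
    if t = 0 then w (some (1, i)) + (w (some (0, i + 1)) + w (some (1, i + 1)) + w (some (0, i + 2)) + w (some (1, i + 2)))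
      + (∑ j, w (some (2, j)) - w (some (2, i))) + w (some (3, i))
    else if t = 1 then
      w (some (0, i)) + (w (some (0, i + 1)) + w (some (1, i + 1)) + w (some (0, i + 2)) + w (some (1, i + 2)))
      + (∑ j, w (some (3, j)) - w (some (3, i))) + w (some (2, i))
    else if t = 2 then (w (some (2, i + 1)) + w (some (3, i + 1)) + w (some (2, i + 2)) + w (some (3, i + 2)))
      + (∑ j, w (some (1, j)) - w (some (1, i))) + w (some (0, i)) + w none
    else (w (some (2, i + 1)) + w (some (3, i + 1)) + w (some (2, i + 2)) + w (some (3, i + 2)))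
      + (∑ j, w (some (0, j)) - w (some (0, i))) + w (some (1, i)) + w none

lemma sum_nb (w : W → ℝ) (v : W) : ∑ j, (if Γ v j then w j else 0) = nb w v := by
  rcases v with _ | ⟨t, i⟩
  · simp [Γ, G, nb, Fintype.sum_option, Fintype.sum_prod_type, Fin.sum_univ_four, Finset.sum_add_distrib]
  · fin_cases t <;> fin_cases i <;>
      simp [Γ, G, nb, Fintype.sum_option, Fintype.sum_prod_type, Fin.sum_univ_four, Fin.sum_univ_five] <;> ring

lemma lap_apply (w : W → ℝ) (v : W) : (lap Γ *ᵥ w) v = 10 * w v - nb w v := by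
  classical
  rw [← sum_nb]
  simp only [Matrix.mulVec, dotProduct, lap, sub_mul, ite_mul, zero_mul, one_mul]
  rw [Finset.sum_sub_distrib, Finset.sum_ite_eq, if_pos (mem_univ _), outdeg_eq]
  push_cast
  congr 1

def sa (u : W → ℝ) (i : Fin 5) : ℝ := u (some (0, i)) + u (some (1, i))
def da (u : W → ℝ) (i : Fin 5) : ℝ := u (some (0, i)) - u (some (1, i))
def sb (u : W → ℝ) (i : Fin 5) : ℝ := u (some (2, i)) + u (some (3, i))
def db (u : W → ℝ) (i : Fin 5) : ℝ := u (some (2, i)) - u (some (3, i))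

/-- the operator of the regular tournament of order 5 -/
def tt (a : Fin 5 → ℝ) (i : Fin 5) : ℝ := a (i + 1) + a (i + 2) - a (i + 3) - a (i + 4)

def T5 (a b : Fin 5 → ℝ) : ℝ := ∑ i, a i * tt b i

def D5 (a b : Fin 5 → ℝ) : ℝ := (∑ i, a i) * (∑ i, b i) - 2 * ∑ i, a i * b i

lemma im_eq (u v : W → ℝ) : bf Γ u v - bf Γ v u =
    -(T5 (sa u) (sa v) + T5 (sb u) (sb v) + D5 (da u) (db v) - D5 (da v) (db u)
      + u none * (∑ i, sa v i - ∑ i, sb v i) - v none * (∑ i, sa u i - ∑ i, sb u i)) := by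
  unfold bf dotProduct
  simp only [lap_apply, Fintype.sum_option, Fintype.sum_prod_type, Fin.sum_univ_four, Fin.sum_univ_five, nb, T5, tt,
    D5, sa, da, sb, db]
  simp
  ring

lemma re_eq (u : W → ℝ) : qf Γ u =
    21 / 2 * ∑ i, u i ^ 2 - ∑ i, u (some (0, i)) * u (some (1, i)) + ∑ i, u (some (2, i)) * u (some (3, i))
      - 1 / 2 * (∑ i, u i) ^ 2 := by
  rw [← bf_self]
  unfold bf dotProduct
  simp only [lap_apply, Fintype.sum_option, Fintype.sum_prod_type, Fin.sum_univ_four, Fin.sum_univ_five, nb]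
  simp
  ring

lemma tt_bound (r : ℝ) (hr : r ^ 2 = 5) (hr0 : 0 ≤ r) (hr5 : r ≤ 5) (a : Fin 5 → ℝ) :
    ∑ i, tt a i ^ 2 ≤ (5 + 2 * r) * (∑ i, a i ^ 2 - (∑ i, a i) ^ 2 / 5) := by
  have h : (5 + 2 * r) * (∑ i, a i ^ 2 - (∑ i, a i) ^ 2 / 5) - ∑ i, tt a i ^ 2 =
      8 * r / 5 * ((a 0 - (1 + r) / 4 * (a 1 + a 4) + (r - 1) / 4 * (a 2 + a 3)) ^ 2 +
        (5 - r) / 8 * (a 1 - a 4 - (1 + r) / 2 * (a 2 - a 3)) ^ 2) := by
    simp only [Fin.sum_univ_five, tt]
    simp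
    grind
  have h2 : 0 ≤ 8 * r / 5 * ((a 0 - (1 + r) / 4 * (a 1 + a 4) + (r - 1) / 4 * (a 2 + a 3)) ^ 2 +
        (5 - r) / 8 * (a 1 - a 4 - (1 + r) / 2 * (a 2 - a 3)) ^ 2) := by
    have : 0 ≤ (5 - r) / 8 := by linarith
    positivity
  linarith

lemma sum_tt (a : Fin 5 → ℝ) : ∑ i, tt a i = 0 := by
  simp only [Fin.sum_univ_five, tt]
  simp
  ring

lemma part1 (r κ : ℝ) (hr : r ^ 2 = 5) (hr0 : 0 ≤ r) (hr5 : r ≤ 5) (hκ0 : r ≤ κ) (hκ : κ ^ 2 = 5 + 2 * r)
    (a b : Fin 5 → ℝ) (z w : ℝ) :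
    0 ≤ κ / 2 * (∑ i, a i ^ 2 + ∑ i, b i ^ 2 + z ^ 2 + w ^ 2) + T5 a b + z * ∑ i, b i - w * ∑ i, a i := by
  have hrpos : 0 < r := by
    rcases hr0.lt_or_eq with h | h
    · exact h
    · rw [← h] at hr; norm_num at hr
  have hκpos : 0 < κ := lt_of_lt_of_le hrpos hκ0
  have h1 := tt_bound r hr hr0 hr5 b
  have h2 : 0 ≤ ∑ i, (κ * (a i - (∑ j, a j) / 5) + tt b i) ^ 2 := Finset.sum_nonneg fun i _ => sq_nonneg _
  have h3 : ∑ i, (κ * (a i - (∑ j, a j) / 5) + tt b i) ^ 2 =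
      κ ^ 2 * (∑ i, a i ^ 2 - (∑ i, a i) ^ 2 / 5) + 2 * κ * T5 a b + ∑ i, tt b i ^ 2 := by
    have h4 := sum_tt b
    have h5 : ∑ i, (κ * (a i - (∑ j, a j) / 5) + tt b i) ^ 2 =
      κ ^ 2 * (∑ i, a i ^ 2 - (∑ i, a i) ^ 2 / 5) + 2 * κ * T5 a b + ∑ i, tt b i ^ 2
        - 2 * κ * ((∑ j, a j) / 5) * ∑ i, tt b i := by
      simp only [Fin.sum_univ_five, T5]
      ring
    rw [h5, h4]; ring
  set A := ∑ i, a i with hA
  set B := ∑ i, b i with hB
  set SA := ∑ i, a i ^ 2 with hSA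
  set SB := ∑ i, b i ^ 2 with hSB
  have h6 : 0 ≤ κ * (κ / 2 * ((SA - A ^ 2 / 5) + (SB - B ^ 2 / 5)) + T5 a b) := by
    rw [← hκ] at h1
    nlinarith
  have h7 : 0 ≤ κ / 2 * ((SA - A ^ 2 / 5) + (SB - B ^ 2 / 5)) + T5 a b := by
    exact nonneg_of_mul_nonneg_right h6 hκpos
  have h8 : 0 ≤ κ / 2 * (A ^ 2 / 5 + B ^ 2 / 5 + z ^ 2 + w ^ 2) + z * B - w * A := by
    have e1 : r / 2 * (A ^ 2 / 5 + B ^ 2 / 5 + z ^ 2 + w ^ 2) + z * B - w * A =
        1 / (2 * r) * ((B + r * z) ^ 2 + (A - r * w) ^ 2) := by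
      field_simp
      grind
    have e2 : 0 ≤ 1 / (2 * r) * ((B + r * z) ^ 2 + (A - r * w) ^ 2) := by positivity
    have e3 : r / 2 * (A ^ 2 / 5 + B ^ 2 / 5 + z ^ 2 + w ^ 2) ≤ κ / 2 * (A ^ 2 / 5 + B ^ 2 / 5 + z ^ 2 + w ^ 2) := by
      gcongr
    linarith
  linarith

lemma part2 (κ : ℝ) (hκ : 3 ≤ κ) (a b : Fin 5 → ℝ) :
    0 ≤ κ / 2 * (∑ i, a i ^ 2 + ∑ i, b i ^ 2) + D5 a b := by
  have h1 : 3 / 2 * (∑ i, a i ^ 2 + ∑ i, b i ^ 2) + D5 a b =
      3 / 10 * (∑ i, a i + ∑ i, b i) ^ 2 + ∑ i, (a i - (∑ j, a j) / 5 - b i + (∑ j, b j) / 5) ^ 2 +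
       1 / 2 * ∑ i, (a i - (∑ j, a j) / 5) ^ 2 + 1 / 2 * ∑ i, (b i - (∑ j, b j) / 5) ^ 2 := by
    simp only [Fin.sum_univ_five, D5]
    ring
  have h2 : 0 ≤ 3 / 2 * (∑ i, a i ^ 2 + ∑ i, b i ^ 2) + D5 a b := by
    rw [h1]; positivity
  have h3 : 3 / 2 * (∑ i, a i ^ 2 + ∑ i, b i ^ 2) ≤ κ / 2 * (∑ i, a i ^ 2 + ∑ i, b i ^ 2) := by
    gcongr
  linarith

/-! ### Constants -/

noncomputable def r5 : ℝ := Real.sqrt 5
noncomputable def s5 : ℝ := Real.sqrt ((5 + r5) / 8)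
/-- The height of the rectangle: `κ = cot 18° = √(5 + 2√5)`. -/
noncomputable def kap : ℝ := s5 * (r5 + 1)

lemma r5_sq : r5 ^ 2 = 5 := Real.sq_sqrt (by norm_num)
lemma r5_nonneg : 0 ≤ r5 := Real.sqrt_nonneg _
lemma r5_ge : 2 ≤ r5 := Real.le_sqrt_of_sq_le (by norm_num)
lemma r5_le : r5 ≤ 5 := by
  unfold r5
  rw [Real.sqrt_le_left (by norm_num)]
  norm_num
lemma s5_sq : s5 ^ 2 = (5 + r5) / 8 := Real.sq_sqrt (by have := r5_nonneg; positivity)
lemma s5_nonneg : 0 ≤ s5 := Real.sqrt_nonneg _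
lemma kap_sq : kap ^ 2 = 5 + 2 * r5 := by
  unfold kap
  rw [mul_pow, s5_sq]
  have := r5_sq
  nlinarith
lemma kap_nonneg : 0 ≤ kap := mul_nonneg s5_nonneg (by have := r5_nonneg; linarith)
lemma kap_ge : 3 ≤ kap := by
  have h := kap_sq
  have h1 := r5_ge
  by_contra hlt
  push Not at hlt
  nlinarith [kap_nonneg]
lemma r5_le_kap : r5 ≤ kap := by
  have h := kap_ge
  have h1 : r5 ≤ 3 := by
    unfold r5
    rw [Real.sqrt_le_left (by norm_num)]
    norm_num
  linarith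

lemma norm_eq (u : W → ℝ) : ∑ i, u i ^ 2 =
    1 / 2 * (∑ i, sa u i ^ 2 + ∑ i, da u i ^ 2 + ∑ i, sb u i ^ 2 + ∑ i, db u i ^ 2) + u none ^ 2 := by
  simp only [Fintype.sum_option, Fintype.sum_prod_type, Fin.sum_univ_four, Fin.sum_univ_five, sa, da, sb, db]
  ring

lemma im_le (u v : W → ℝ) : bf Γ u v - bf Γ v u ≤ kap * (∑ i, u i ^ 2 + ∑ i, v i ^ 2) := by
  rw [im_eq, norm_eq u, norm_eq v]
  have h1 := part1 r5 kap r5_sq r5_nonneg r5_le r5_le_kap kap_sq (sa u) (sa v) (u none) (v none)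
  have h2 := part1 r5 kap r5_sq r5_nonneg r5_le r5_le_kap kap_sq (sb u) (sb v) (-u none) (-v none)
  have h3 := part2 kap kap_ge (da u) (db v)
  have h4 := part2 kap kap_ge (fun i => - da v i) (db u)
  have h5 : D5 (fun i => - da v i) (db u) = - D5 (da v) (db u) := by
    unfold D5
    simp only [neg_mul, Finset.sum_neg_distrib]
    ring
  have h6 : ∑ i, (- da v i) ^ 2 = ∑ i, da v i ^ 2 := by
    apply Finset.sum_congr rfl; intro i _; ring
  rw [h5, h6] at h4
  rw [neg_sq, neg_sq] at h2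
  linarith

lemma re_ge (u : W → ℝ) (h : ∑ i, u i = 0) : 10 * ∑ i, u i ^ 2 ≤ qf Γ u := by
  rw [re_eq, h]
  have h1 : 21 / 2 * ∑ i, u i ^ 2 - ∑ i, u (some (0, i)) * u (some (1, i)) + ∑ i, u (some (2, i)) * u (some (3, i))
      - 1 / 2 * (0 : ℝ) ^ 2 - 10 * ∑ i, u i ^ 2 =
      1 / 2 * (u none ^ 2 + ∑ i, da u i ^ 2 + ∑ i, sb u i ^ 2) := by
    simp only [Fintype.sum_option, Fintype.sum_prod_type, Fin.sum_univ_four, Fin.sum_univ_five, sa, da, sb, db]
    ring
  have h2 : 0 ≤ 1 / 2 * (u none ^ 2 + ∑ i, da u i ^ 2 + ∑ i, sb u i ^ 2) := by positivity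
  linarith

lemma re_le (u : W → ℝ) (h : ∑ i, u i = 0) : qf Γ u ≤ 11 * ∑ i, u i ^ 2 := by
  rw [re_eq, h]
  have h1 : 11 * ∑ i, u i ^ 2 - (21 / 2 * ∑ i, u i ^ 2 - ∑ i, u (some (0, i)) * u (some (1, i)) +
      ∑ i, u (some (2, i)) * u (some (3, i)) - 1 / 2 * (0 : ℝ) ^ 2)  =
      1 / 2 * (u none ^ 2 + ∑ i, sa u i ^ 2 + ∑ i, db u i ^ 2) := by
    simp only [Fintype.sum_option, Fintype.sum_prod_type, Fin.sum_univ_four, Fin.sum_univ_five, sa, da, sb, db]
    ring
  have h2 : 0 ≤ 1 / 2 * (u none ^ 2 + ∑ i, sa u i ^ 2 + ∑ i, db u i ^ 2) := by positivity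
  linarith

/-! ### Vectors -/

/-- a vector that is `A` on both halves of `X` and `B` on both halves of `Y` -/
def vec (A B : Fin 5 → ℝ) : W → ℝ
  | none => 0
  | some (t, i) => if t = 0 then A i else if t = 1 then A i else B i

/-- `cos (2 π i / 5)` -/
noncomputable def cc : Fin 5 → ℝ := ![1, (r5 - 1) / 4, -(r5 + 1) / 4, -(r5 + 1) / 4, (r5 - 1) / 4]
/-- `sin (2 π i / 5)` -/
noncomputable def ss : Fin 5 → ℝ := ![0, s5, s5 * (r5 - 1) / 2, -(s5 * (r5 - 1) / 2), -s5]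

lemma lap_c (a b : ℝ) : lap Γ *ᵥ (vec (fun i => a * cc i) (fun i => b * cc i)) =
    vec (fun i => a * (10 * cc i + kap * ss i)) (fun i => b * (11 * cc i + kap * ss i)) := by
  have h1 := r5_sq
  have h2 := s5_sq
  funext v
  rw [lap_apply]
  rcases v with _ | ⟨t, i⟩
  · simp only [nb, vec, cc, Fin.sum_univ_five]
    simp
    ring
  · fin_cases t <;> fin_cases i <;>
      · simp [nb, vec, cc, ss, kap, Fin.sum_univ_five]
        grind

lemma lap_s (a b : ℝ) : lap Γ *ᵥ (vec (fun i => a * ss i) (fun i => b * ss i)) =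
    vec (fun i => a * (10 * ss i - kap * cc i)) (fun i => b * (11 * ss i - kap * cc i)) := by
  have h1 := r5_sq
  have h2 := s5_sq
  funext v
  rw [lap_apply]
  rcases v with _ | ⟨t, i⟩
  · simp only [nb, vec, ss, Fin.sum_univ_five]
    simp
    ring
  · fin_cases t <;> fin_cases i <;>
      · simp [nb, vec, cc, ss, kap, Fin.sum_univ_five]
        grind

lemma sum_vec_mul (A B C D : Fin 5 → ℝ) : vec A B ⬝ᵥ vec C D = 2 * ∑ i, A i * C i + 2 * ∑ i, B i * D i := by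
  unfold dotProduct
  simp only [Fintype.sum_option, Fintype.sum_prod_type, Fin.sum_univ_four, Fin.sum_univ_five, vec]
  simp
  ring

lemma sum_vec (A B : Fin 5 → ℝ) : ∑ i, vec A B i = 2 * ∑ i, A i + 2 * ∑ i, B i := by
  simp only [Fintype.sum_option, Fintype.sum_prod_type, Fin.sum_univ_four, Fin.sum_univ_five, vec]
  simp
  ring

lemma sum_cc : ∑ i, cc i = 0 := by
  simp [Fin.sum_univ_five, cc]; ring

lemma sum_ss : ∑ i, ss i = 0 := by
  simp [Fin.sum_univ_five, ss]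

lemma sum_cc_sq : ∑ i, cc i * cc i = 5 / 2 := by
  have h1 := r5_sq
  simp [Fin.sum_univ_five, cc]
  grind

lemma sum_ss_sq : ∑ i, ss i * ss i = 5 / 2 := by
  have h1 := r5_sq
  have h2 := s5_sq
  simp [Fin.sum_univ_five, ss]
  grind

lemma sum_cc_ss : ∑ i, cc i * ss i = 0 := by
  simp [Fin.sum_univ_five, ss, cc]

lemma sum_c (a b : ℝ) : ∑ i, vec (fun i => a * cc i) (fun i => b * cc i) i = 0 := by
  rw [sum_vec, ← Finset.mul_sum, ← Finset.mul_sum, sum_cc]; ring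

lemma sum_s (a b : ℝ) : ∑ i, vec (fun i => a * ss i) (fun i => b * ss i) i = 0 := by
  rw [sum_vec, ← Finset.mul_sum, ← Finset.mul_sum, sum_ss]; ring

lemma sq_c (a b : ℝ) : ∑ i, vec (fun i => a * cc i) (fun i => b * cc i) i ^ 2 = 5 * (a ^ 2 + b ^ 2) := by
  have h := sum_vec_mul (fun i => a * cc i) (fun i => b * cc i) (fun i => a * cc i) (fun i => b * cc i)
  unfold dotProduct at h
  simp only [← pow_two] at h
  rw [h]
  simp only [mul_pow]
  rw [← Finset.mul_sum, ← Finset.mul_sum]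
  simp only [pow_two]
  rw [sum_cc_sq]; ring

lemma sq_s (a b : ℝ) : ∑ i, vec (fun i => a * ss i) (fun i => b * ss i) i ^ 2 = 5 * (a ^ 2 + b ^ 2) := by
  have h := sum_vec_mul (fun i => a * ss i) (fun i => b * ss i) (fun i => a * ss i) (fun i => b * ss i)
  unfold dotProduct at h
  simp only [← pow_two] at h
  rw [h]
  simp only [mul_pow]
  rw [← Finset.mul_sum, ← Finset.mul_sum]
  simp only [pow_two]
  rw [sum_ss_sq]; ring

lemma lin1 (a b c d : ℝ) (x y : Fin 5 → ℝ) : ∑ i, (a * x i) * (b * (c * x i + d * y i)) =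
    a * b * c * (∑ i, x i * x i) + a * b * d * ∑ i, x i * y i := by
  simp only [Fin.sum_univ_five]; ring

lemma bf_cc (a b a' b' : ℝ) : bf Γ (vec (fun i => a * cc i) (fun i => b * cc i))
    (vec (fun i => a' * cc i) (fun i => b' * cc i)) = 50 * (a * a') + 55 * (b * b') := by
  unfold bf
  rw [lap_c, sum_vec_mul, lin1, lin1, sum_cc_sq, sum_cc_ss]; ring

lemma bf_sc (a b a' b' : ℝ) : bf Γ (vec (fun i => a * ss i) (fun i => b * ss i))
    (vec (fun i => a' * cc i) (fun i => b' * cc i)) = 5 * kap * (a * a' + b * b') := by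
  unfold bf
  rw [lap_c, sum_vec_mul]
  have h1 : ∀ a a' c : ℝ, ∑ i, (a * ss i) * (a' * (c * cc i + kap * ss i)) =
      a * a' * c * (∑ i, cc i * ss i) + a * a' * kap * ∑ i, ss i * ss i := by
    intro a a' c; simp only [Fin.sum_univ_five]; ring
  rw [h1, h1, sum_ss_sq, sum_cc_ss]; ring

lemma bf_ss (a b a' b' : ℝ) : bf Γ (vec (fun i => a * ss i) (fun i => b * ss i))
    (vec (fun i => a' * ss i) (fun i => b' * ss i)) = 50 * (a * a') + 55 * (b * b') := by
  unfold bf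
  rw [lap_s, sum_vec_mul]
  have h1 : ∀ a a' c : ℝ, ∑ i, (a * ss i) * (a' * (c * ss i - kap * cc i)) =
      a * a' * c * (∑ i, ss i * ss i) - a * a' * kap * ∑ i, cc i * ss i := by
    intro a a' c; simp only [Fin.sum_univ_five]; ring
  rw [h1, h1, sum_ss_sq, sum_cc_ss]; ring

lemma bf_cs (a b a' b' : ℝ) : bf Γ (vec (fun i => a * cc i) (fun i => b * cc i))
    (vec (fun i => a' * ss i) (fun i => b' * ss i)) = -5 * kap * (a * a' + b * b') := by
  unfold bf
  rw [lap_s, sum_vec_mul]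
  have h1 : ∀ a a' c : ℝ, ∑ i, (a * cc i) * (a' * (c * ss i - kap * cc i)) =
      a * a' * c * (∑ i, cc i * ss i) - a * a' * kap * ∑ i, cc i * cc i := by
    intro a a' c; simp only [Fin.sum_univ_five]; ring
  rw [h1, h1, sum_cc_sq, sum_cc_ss]; ring

/-! ### The restricted numerical range -/

lemma Wr_subset : Wr Γ ⊆ Set.Icc (10 : ℝ) 11 ×ℂ Set.Icc (-kap) kap := by
  rintro w ⟨x, hsum, hnorm, rfl⟩
  rw [norm_sq_sum] at hnorm
  have hu := sum_re x hsum
  have hv := sum_im x hsum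
  rw [form_re_im, Complex.mem_reProdIm]
  have h1 := re_ge _ hu
  have h2 := re_ge _ hv
  have h3 := re_le _ hu
  have h4 := re_le _ hv
  have h5 := im_le (fun i => (x i).re) (fun i => (x i).im)
  have h6 := im_le (fun i => (x i).im) (fun i => (x i).re)
  simp only [bf_self]
  refine ⟨⟨?_, ?_⟩, ⟨?_, ?_⟩⟩
  · nlinarith
  · nlinarith
  · rw [add_comm (∑ i, (x i).im ^ 2), hnorm] at h6
    linarith
  · rw [hnorm] at h5
    linarith

/-- the complex vector with given real and imaginary part -/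
noncomputable def cvec (m m' n n' : ℝ) (i : W) : ℂ :=
  ⟨vec (fun i => m * cc i) (fun i => m' * cc i) i, vec (fun i => n * ss i) (fun i => n' * ss i) i⟩

lemma cvec_sum (m m' n n' : ℝ) : ∑ i, cvec m m' n n' i = 0 := by
  apply Complex.ext
  · rw [Complex.re_sum]
    exact sum_c m m'
  · rw [Complex.im_sum]
    exact sum_s n n'

lemma subset_Wr : Set.Icc (10 : ℝ) 11 ×ℂ Set.Icc (-kap) kap ⊆ Wr Γ := by
  intro w hw
  rw [Complex.mem_reProdIm] at hw
  obtain ⟨⟨h1, h2⟩, ⟨h3, h4⟩⟩ := hw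
  have hk : 0 < kap := by have := kap_ge; linarith
  set q := w.im / kap with hq
  have hq1 : -1 ≤ q := by rw [hq, le_div_iff₀ hk]; linarith
  have hq2 : q ≤ 1 := by rw [hq, div_le_iff₀ hk]; linarith
  set φ := -(Real.arcsin q) / 2 with hφ
  have h2φ : 2 * Real.sin φ * Real.cos φ = - q := by
    rw [← Real.sin_two_mul, hφ, show 2 * (-(Real.arcsin q) / 2) = -(Real.arcsin q) by ring, Real.sin_neg,
      Real.sin_arcsin hq1 hq2]
  set A := Real.sqrt ((11 - w.re) / 5) with hA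
  set B := Real.sqrt ((w.re - 10) / 5) with hB
  have hA2 : A ^ 2 = (11 - w.re) / 5 := Real.sq_sqrt (by linarith)
  have hB2 : B ^ 2 = (w.re - 10) / 5 := Real.sq_sqrt (by linarith)
  have hcs := Real.sin_sq_add_cos_sq φ
  refine ⟨cvec (A * Real.cos φ) (B * Real.cos φ) (A * Real.sin φ) (B * Real.sin φ), cvec_sum _ _ _ _, ?_, ?_⟩
  · rw [norm_sq_sum]
    show ∑ i, vec _ _ i ^ 2 + ∑ i, vec _ _ i ^ 2 = 1
    rw [sq_c, sq_s]
    simp only [mul_pow]
    calc 5 * (A ^ 2 * Real.cos φ ^ 2 + B ^ 2 * Real.cos φ ^ 2) + 5 * (A ^ 2 * Real.sin φ ^ 2 + B ^ 2 * Real.sin φ ^ 2)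
        = 5 * (A ^ 2 + B ^ 2) * (Real.sin φ ^ 2 + Real.cos φ ^ 2) := by ring
      _ = 1 := by rw [hcs, hA2, hB2]; ring
  · rw [form_re_im]
    show w = (⟨bf Γ (vec _ _) (vec _ _) + bf Γ (vec _ _) (vec _ _), bf Γ (vec _ _) (vec _ _) - bf Γ (vec _ _) (vec _ _)⟩ : ℂ)
    rw [bf_cc, bf_ss, bf_cs, bf_sc]
    apply Complex.ext
    · show w.re = _
      calc w.re = 50 * A ^ 2 + 55 * B ^ 2 := by rw [hA2, hB2]; ring
        _ = (50 * A ^ 2 + 55 * B ^ 2) * (Real.sin φ ^ 2 + Real.cos φ ^ 2) := by rw [hcs]; ring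
        _ = _ := by ring
    · show w.im = _
      calc w.im = kap * q := by rw [hq]; field_simp
        _ = -5 * kap * (A ^ 2 + B ^ 2) * (2 * Real.sin φ * Real.cos φ) := by rw [h2φ, hA2, hB2]; ring
        _ = _ := by ring

lemma corner_mem {z : ℂ} (hz : z ∈ ({10, 11} : Set ℝ) ×ℂ ({-kap, kap} : Set ℝ)) : z ∈ reigs Γ := by
  rw [Complex.mem_reProdIm] at hz
  obtain ⟨h1, h2⟩ := hz
  obtain ⟨a, b, hab, hre⟩ : ∃ a b : ℝ, (a = 1 ∧ b = 0 ∨ a = 0 ∧ b = 1) ∧ z.re = 10 * a + 11 * b := by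
    rcases h1 with h | h
    · exact ⟨1, 0, Or.inl ⟨rfl, rfl⟩, by rw [h]; ring⟩
    · rw [Set.mem_singleton_iff] at h
      exact ⟨0, 1, Or.inr ⟨rfl, rfl⟩, by rw [h]; ring⟩
  obtain ⟨e, he, him⟩ : ∃ e : ℝ, e ^ 2 = 1 ∧ z.im = -(e * kap) := by
    rcases h2 with h | h
    · exact ⟨1, by norm_num, by rw [h]; ring⟩
    · rw [Set.mem_singleton_iff] at h
      exact ⟨-1, by norm_num, by rw [h]; ring⟩
  have hL1 : ∀ i, (lap Γ *ᵥ (vec (fun i => a * cc i) (fun i => b * cc i))) i =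
      z.re * vec (fun i => a * cc i) (fun i => b * cc i) i -
        z.im * vec (fun i => (e * a) * ss i) (fun i => (e * b) * ss i) i := by
    intro i
    rw [lap_c, hre, him]
    rcases i with _ | ⟨t, i⟩
    · simp [vec]
    · simp only [vec]
      rcases hab with ⟨rfl, rfl⟩ | ⟨rfl, rfl⟩
      · split_ifs
        · linear_combination (-kap * ss i) * he
        · linear_combination (-kap * ss i) * he
        · ring
      · split_ifs
        · ring
        · ring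
        · linear_combination (-kap * ss i) * he
  have hL2 : ∀ i, (lap Γ *ᵥ (vec (fun i => (e * a) * ss i) (fun i => (e * b) * ss i))) i =
      z.re * vec (fun i => (e * a) * ss i) (fun i => (e * b) * ss i) i +
        z.im * vec (fun i => a * cc i) (fun i => b * cc i) i := by
    intro i
    rw [lap_s, hre, him]
    rcases i with _ | ⟨t, i⟩
    · simp [vec]
    · simp only [vec]
      rcases hab with ⟨rfl, rfl⟩ | ⟨rfl, rfl⟩
      · split_ifs <;> ring
      · split_ifs <;> ring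
  refine ⟨cvec a b (e * a) (e * b), ?_, cvec_sum _ _ _ _, 0, ?_⟩
  · intro h
    have h3 := sq_c a b
    have h4 : ∀ i, vec (fun i => a * cc i) (fun i => b * cc i) i = 0 := by
      intro i
      have := congrArg Complex.re (congrFun h i)
      exact this
    simp only [h4] at h3
    rcases hab with ⟨rfl, rfl⟩ | ⟨rfl, rfl⟩ <;> norm_num at h3
  · intro i
    rw [add_zero]
    apply Complex.ext
    · rw [lapC_re, Complex.mul_re]
      exact hL1 i
    · rw [lapC_im, Complex.mul_im]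
      exact hL2 i

theorem polygonal : Polygonal Γ := by
  have hk : -kap ≤ kap := by have := kap_ge; linarith
  have hrect : Set.Icc (10 : ℝ) 11 ×ℂ Set.Icc (-kap) kap =
      convexHull ℝ (({10, 11} : Set ℝ) ×ℂ ({-kap, kap} : Set ℝ)) := by
    rw [Complex.convexHull_reProdIm, convexHull_pair, convexHull_pair, segment_eq_Icc (by norm_num), segment_eq_Icc hk]
  apply Set.Subset.antisymm
  · refine Wr_subset.trans ?_
    rw [hrect]
    exact convexHull_mono (fun z hz => corner_mem hz)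
  · apply convexHull_min (reigs_subset Γ)
    have : Wr Γ = Set.Icc (10 : ℝ) 11 ×ℂ Set.Icc (-kap) kap := Set.Subset.antisymm Wr_subset subset_Wr
    rw [this, hrect]
    exact convex_convexHull ℝ _

theorem spread_eq : spread Γ = 1 := by
  have hb : beta Γ = 11 := by
    apply le_antisymm
    · apply csSup_le
      · exact ⟨_, mem_vals Γ _ (sum_c 1 0) (by rw [sq_c]; norm_num)⟩
      · rintro r ⟨x, h0, h1, rfl⟩
        have := re_le x h0
        rw [h1, mul_one] at this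
        exact this
    · have h := le_beta Γ _ (sum_c 0 1)
      rw [sq_c, ← bf_self, bf_cc] at h
      linarith
  have ha : alpha Γ = 10 := by
    apply le_antisymm
    · have h := alpha_le Γ _ (sum_c 1 0)
      rw [sq_c, ← bf_self, bf_cc] at h
      linarith
    · apply le_csInf
      · exact ⟨_, mem_vals Γ _ (sum_c 1 0) (by rw [sq_c]; norm_num)⟩
      · rintro r ⟨x, h0, h1, rfl⟩
        have := re_ge x h0
        rw [h1, mul_one] at this
        exact this
  unfold spread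
  rw [ha, hb]; norm_num

lemma card_W : Fintype.card W = 21 := by simp [W]

lemma loopless (i : W) : ¬ Γ i i := by
  have : ∀ i : W, ¬ Γ i i := by decide
  exact this i

end Pool.Agent.R520.Ex21
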