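import Pool.Agent.Helper883.Dicut.CNuUp

set_option autoImplicit false

/-! The exponents of the second-order term of the worst-case dicut ratio. -/

namespace Pool.Agent.R520.Expo2

open Finset Filter Asymptotics Topology
open Pool.Agent.Helper883.Dicut

/-- An acyclic digraph on the vertex set `Fin n` in which every arc has a positive weight. The
relation `arc` is the arc set, `weight u v` is the weight of the arc `(u, v)`, and it is `0` when
`(u, v)` is not an arc. There is no directed cycle (so no loop and no digon). -/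
structure PAcyclic (n : ℕ) where
  arc : Fin n → Fin n → Prop
  weight : Fin n → Fin n → ℝ
  pos : ∀ u v, arc u v → 0 < weight u v
  supp : ∀ u v, ¬ arc u v → weight u v = 0
  acyclic : ∀ v, ¬ Relation.TransGen arc v v

/-- `D` has a directed path with exactly `k` vertices. -/
def HasDiPath {n : ℕ} (D : PAcyclic n) (k : ℕ) : Prop :=
  ∃ p : Fin k → Fin n, Function.Injective p ∧
    ∀ i j : Fin k, (i : ℕ) + 1 = (j : ℕ) → D.arc (p i) (p j)

/-- The longest directed path of `D` has exactly `ν` vertices. -/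
def LongestPathOrder {n : ℕ} (D : PAcyclic n) (ν : ℕ) : Prop :=
  IsGreatest {k : ℕ | HasDiPath D k} ν

/-- `c_ν`: the infimum of `mac(D)/w(D)` over all acyclic digraphs `D` with positive arc weights
whose longest directed path has order `ν`. -/
noncomputable def c (ν : ℕ) : ℝ :=
  sInf {r : ℝ | ∃ (n : ℕ) (D : PAcyclic n), LongestPathOrder D ν ∧
    r = mac D.weight / totalWeight D.weight}

/-- `α_U = inf {α : c_ν - 1/4 = O(ν^α)}`. -/
noncomputable def alphaU : ℝ :=
  sInf {α : ℝ | (fun ν : ℕ => c ν - 1 / 4) =O[atTop] (fun ν : ℕ => (ν : ℝ) ^ α)}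

/-- `α_L = sup {α : c_ν - 1/4 = Ω(ν^α)}`. -/
noncomputable def alphaL : ℝ :=
  sSup {α : ℝ | ∃ k : ℝ, 0 < k ∧ ∀ᶠ ν : ℕ in atTop, k * (ν : ℝ) ^ α ≤ c ν - 1 / 4}

/-- forget positivity -/
def PAcyclic.toW {n : ℕ} (D : PAcyclic n) : WAcyclic n where
  arc := D.arc
  weight := D.weight
  nonneg := fun u v => by
    by_cases h : D.arc u v
    · exact (D.pos u v h).le
    · rw [D.supp u v h]
  supp := D.supp
  acyclic := D.acyclic

lemma total_pos {n ν : ℕ} (hν : 2 ≤ ν) (D : PAcyclic n) (h : LongestPathOrder D ν) :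
    0 < totalWeight D.weight := by
  obtain ⟨p, _, hp⟩ := h.1
  have h1 := hp ⟨0, by omega⟩ ⟨1, by omega⟩ rfl
  have h2 := D.pos _ _ h1
  unfold totalWeight
  have hnn : ∀ u v, 0 ≤ D.weight u v := D.toW.nonneg
  refine lt_of_lt_of_le h2 ?_
  calc D.weight (p ⟨0, by omega⟩) (p ⟨1, by omega⟩)
      ≤ ∑ v, D.weight (p ⟨0, by omega⟩) v :=
        Finset.single_le_sum (f := fun v => D.weight (p ⟨0, by omega⟩) v)
          (fun v _ => hnn _ v) (Finset.mem_univ _)
    _ ≤ ∑ u, ∑ v, D.weight u v :=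
        Finset.single_le_sum (f := fun u => ∑ v, D.weight u v)
          (fun u _ => Finset.sum_nonneg (fun v _ => hnn u v)) (Finset.mem_univ _)

lemma ratio_ge {n ν : ℕ} (hν : 2 ≤ ν) (D : PAcyclic n) (h : LongestPathOrder D ν) :
    1 / 4 + 1 / 32 * (ν : ℝ) ^ (-(2:ℝ)/3) ≤ mac D.weight / totalWeight D.weight := by
  rw [le_div_iff₀ (total_pos hν D h)]
  exact lower_c (by omega) D.toW h

lemma set_bddBelow {ν : ℕ} (hν : 2 ≤ ν) :
    BddBelow {r : ℝ | ∃ (n : ℕ) (D : PAcyclic n), LongestPathOrder D ν ∧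
      r = mac D.weight / totalWeight D.weight} := by
  refine ⟨1 / 4 + 1 / 32 * (ν : ℝ) ^ (-(2:ℝ)/3), ?_⟩
  rintro r ⟨n, D, hD, rfl⟩
  exact ratio_ge hν D hD

/-- raise all arc weights by `ε` -/
noncomputable def raise {n : ℕ} (D : WAcyclic n) (ε : ℝ) (hε : 0 < ε) : PAcyclic n := by
  classical
  exact
  { arc := D.arc
    weight := fun u v => D.weight u v + if D.arc u v then ε else 0
    pos := by
      intro u v h
      rw [if_pos h]
      have := D.nonneg u v
      linarith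
    supp := by
      intro u v h
      rw [if_neg h, D.supp u v h, add_zero]
    acyclic := D.acyclic }

lemma raise_mac {n : ℕ} (D : WAcyclic n) (ε : ℝ) (hε : 0 < ε) :
    mac (raise D ε hε).weight ≤ mac D.weight + (n : ℝ) * n * ε := by
  classical
  apply mac_le
  intro X
  have h1 : cutWeight (raise D ε hε).weight X ≤ cutWeight D.weight X + (n : ℝ) * n * ε := by
    unfold cutWeight raise
    simp only [Finset.sum_add_distrib]
    have h2 : ∑ u ∈ X, ∑ v ∈ Xᶜ, (if D.arc u v then ε else 0) ≤ ∑ u ∈ X, ∑ v ∈ Xᶜ, ε := by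
      apply Finset.sum_le_sum
      intro u _
      apply Finset.sum_le_sum
      intro v _
      split_ifs <;> linarith
    have h3 : ∑ u ∈ X, ∑ v ∈ Xᶜ, ε ≤ (n : ℝ) * n * ε := by
      simp only [Finset.sum_const, nsmul_eq_mul]
      have e1 : ((X.card : ℕ) : ℝ) ≤ n := by
        exact_mod_cast (by simpa using Finset.card_le_univ X : X.card ≤ n)
      have e2 : ((Xᶜ.card : ℕ) : ℝ) ≤ n := by
        exact_mod_cast (by simpa using Finset.card_le_univ Xᶜ : Xᶜ.card ≤ n)
      calc (X.card : ℝ) * ((Xᶜ.card : ℝ) * ε) ≤ n * (n * ε) := by gcongr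
        _ = n * n * ε := by ring
    linarith
  exact h1.trans (by
    have := cut_le_mac D.weight X
    linarith)

lemma raise_total {n : ℕ} (D : WAcyclic n) (ε : ℝ) (hε : 0 < ε) :
    totalWeight D.weight ≤ totalWeight (raise D ε hε).weight := by
  classical
  unfold totalWeight raise
  apply Finset.sum_le_sum
  intro u _
  apply Finset.sum_le_sum
  intro v _
  dsimp only
  split_ifs <;> linarith

lemma c_nonneg {ν : ℕ} (hν : 2 ≤ ν) : 0 ≤ c ν := by
  apply Real.sInf_nonneg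
  rintro r ⟨n, D, hD, rfl⟩
  refine le_trans ?_ (ratio_ge hν D hD)
  positivity

lemma c_le_cNu {ν : ℕ} (hν : 2 ≤ ν) : c ν ≤ cNu ν := by
  apply le_csSup
  · refine ⟨1, ?_⟩
    rintro c ⟨_, hc⟩
    have hlt : (⟨0, by omega⟩ : Fin ν) < ⟨1, by omega⟩ := by rw [Fin.lt_def]; simp
    have h1 := hc ν (tourn (one _ _) (one_nonneg _ _) (one_supp hlt)) (tourn_order _ _ _)
    have e : (tourn (one _ _) (one_nonneg _ _) (one_supp hlt)).weight = one (⟨0, by omega⟩ : Fin ν) ⟨1, by omega⟩ := rfl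
    rw [e, total_one] at h1
    have h2 := mac_le_total _ (one_nonneg (⟨0, by omega⟩ : Fin ν) ⟨1, by omega⟩)
    rw [total_one] at h2
    linarith
  · refine ⟨c_nonneg hν, ?_⟩
    intro n D hD
    have key : ∀ ε : ℝ, 0 < ε → c ν * totalWeight D.weight ≤ mac D.weight + (n : ℝ) * n * ε := by
      intro ε hε
      have hL : LongestPathOrder (raise D ε hε) ν := hD
      have h1 : c ν ≤ mac (raise D ε hε).weight / totalWeight (raise D ε hε).weight :=
        csInf_le (set_bddBelow hν) ⟨n, _, hL, rfl⟩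
      rw [le_div_iff₀ (total_pos hν _ hL)] at h1
      have h2 := raise_mac D ε hε
      have h3 := raise_total D ε hε
      have h4 : c ν * totalWeight D.weight ≤ c ν * totalWeight (raise D ε hε).weight :=
        mul_le_mul_of_nonneg_left h3 (c_nonneg hν)
      linarith
    by_contra hlt
    push Not at hlt
    set d := c ν * totalWeight D.weight - mac D.weight with hd
    have hdpos : 0 < d := by linarith
    have h5 := key (d / (2 * ((n : ℝ) * n + 1))) (by positivity)
    have h6 : (n : ℝ) * n * (d / (2 * ((n : ℝ) * n + 1))) ≤ d / 2 := by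
      rw [mul_div_assoc', div_le_div_iff₀ (by positivity) (by norm_num)]
      nlinarith [mul_nonneg (Nat.cast_nonneg (α := ℝ) n) (Nat.cast_nonneg (α := ℝ) n)]
    linarith

/-- Two sided bound on `c_ν`. -/
theorem c_bounds {ν : ℕ} (hν : 2 ≤ ν) :
    1 / 32 * (ν : ℝ) ^ (-(2:ℝ)/3) ≤ c ν - 1 / 4 ∧ c ν - 1 / 4 ≤ 75 * (ν : ℝ) ^ (-(2:ℝ)/3) := by
  constructor
  · have : 1 / 4 + 1 / 32 * (ν : ℝ) ^ (-(2:ℝ)/3) ≤ c ν := by
      apply le_csInf
      · have hlt : (⟨0, by omega⟩ : Fin ν) < ⟨1, by omega⟩ := by rw [Fin.lt_def]; simp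
        refine ⟨_, ν, raise (tourn (one _ _) (one_nonneg _ _) (one_supp hlt)) 1 one_pos,
          tourn_order _ (one_nonneg _ _) (one_supp hlt), rfl⟩
      · rintro r ⟨n, D, hD, rfl⟩
        exact ratio_ge hν D hD
    linarith
  · have h1 := c_le_cNu hν
    have h2 := cNu_le_main hν
    linarith

lemma tendsto_nat_rpow {s : ℝ} (hs : 0 < s) :
    Tendsto (fun ν : ℕ => (ν : ℝ) ^ s) atTop atTop :=
  (tendsto_rpow_atTop hs).comp tendsto_natCast_atTop_atTop

/-- comparison of powers -/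
lemma pow_cmp {a b K : ℝ} (h : ∀ᶠ ν : ℕ in atTop, (ν : ℝ) ^ a ≤ K * (ν : ℝ) ^ b) : a ≤ b := by
  by_contra hlt
  push Not at hlt
  have h1 : ∀ᶠ ν : ℕ in atTop, K < (ν : ℝ) ^ (a - b) :=
    (tendsto_nat_rpow (sub_pos.mpr hlt)).eventually (eventually_gt_atTop K)
  obtain ⟨ν, hν1, hν2, hν3⟩ := (h.and (h1.and (eventually_ge_atTop 1))).exists
  have hpos : (0:ℝ) < ν := by exact_mod_cast hν3
  rw [Real.rpow_sub hpos, lt_div_iff₀ (Real.rpow_pos_of_pos hpos b)] at hν2
  linarith

theorem setU_eq : {α : ℝ | (fun ν : ℕ => c ν - 1 / 4) =O[atTop] (fun ν : ℕ => (ν : ℝ) ^ α)}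
    = Set.Ici (-(2:ℝ)/3) := by
  ext α
  rw [Set.mem_ofPred_eq, Set.mem_Ici]
  constructor
  · intro h
    obtain ⟨K, hK⟩ := h.bound
    apply pow_cmp (K := 32 * K)
    filter_upwards [hK, eventually_ge_atTop 2] with ν h1 h2
    have h3 := (c_bounds h2).1
    rw [Real.norm_eq_abs, Real.norm_eq_abs, abs_of_nonneg (Real.rpow_nonneg (Nat.cast_nonneg _) _)] at h1
    have h4 := le_abs_self (c ν - 1 / 4)
    linarith
  · intro h
    apply IsBigO.of_bound 75
    filter_upwards [eventually_ge_atTop 2] with ν h2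
    have hb := c_bounds h2
    have hpos : (1:ℝ) ≤ ν := by
      have : 1 ≤ ν := by omega
      exact_mod_cast this
    have h5 : (0:ℝ) ≤ (ν : ℝ) ^ (-(2:ℝ)/3) := Real.rpow_nonneg (Nat.cast_nonneg _) _
    rw [Real.norm_eq_abs, Real.norm_eq_abs, abs_of_nonneg (Real.rpow_nonneg (Nat.cast_nonneg _) _),
      abs_of_nonneg (by linarith [hb.1])]
    have h6 : (ν : ℝ) ^ (-(2:ℝ)/3) ≤ (ν : ℝ) ^ α := Real.rpow_le_rpow_of_exponent_le hpos h
    linarith [hb.2]

theorem setL_eq : {α : ℝ | ∃ k : ℝ, 0 < k ∧ ∀ᶠ ν : ℕ in atTop, k * (ν : ℝ) ^ α ≤ c ν - 1 / 4}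
    = Set.Iic (-(2:ℝ)/3) := by
  ext α
  rw [Set.mem_ofPred_eq, Set.mem_Iic]
  constructor
  · rintro ⟨k, hk, h⟩
    apply pow_cmp (K := 75 / k)
    filter_upwards [h, eventually_ge_atTop 2] with ν h1 h2
    have h3 := (c_bounds h2).2
    rw [div_mul_eq_mul_div, le_div_iff₀ hk]
    linarith
  · intro h
    refine ⟨1 / 32, by norm_num, ?_⟩
    filter_upwards [eventually_ge_atTop 2] with ν h2
    have hb := (c_bounds h2).1
    have hpos : (1:ℝ) ≤ ν := by
      have : 1 ≤ ν := by omega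
      exact_mod_cast this
    have h6 : (ν : ℝ) ^ α ≤ (ν : ℝ) ^ (-(2:ℝ)/3) := Real.rpow_le_rpow_of_exponent_le hpos h
    linarith

theorem alphaU_eq : alphaU = -2 / 3 := by
  unfold alphaU
  rw [setU_eq]
  simp

theorem alphaL_eq : alphaL = -2 / 3 := by
  unfold alphaL
  rw [setL_eq]
  simp

end Pool.Agent.R520.Expo2
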