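import Pool.Agent.R520.Bal

set_option autoImplicit false
set_option linter.unusedSectionVars false

/-! Balanced digraphs with Laplacian spread at most one: the complement, the three cases. -/

namespace Pool.Agent.R520

open Finset Matrix

variable {V : Type} [Fintype V] [DecidableEq V]

lemma compl_loopless (Γ : V → V → Prop) (i : V) : ¬ complement Γ i i := fun h => h.1 rfl

lemma arc_compl (Γ : V → V → Prop) (i j : V) (h : i ≠ j) : arc (complement Γ) i j = 1 - arc Γ i j := by
  unfold arc complement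
  by_cases h1 : Γ i j
  · rw [if_neg (fun h2 => h2.2 h1), if_pos h1]
    ring
  · rw [if_pos ⟨h, h1⟩, if_neg h1]
    ring

lemma outdeg_compl (Γ : V → V → Prop) (hl : ∀ i, ¬ Γ i i) (i : V) :
    outdeg (complement Γ) i + outdeg Γ i + 1 = Fintype.card V := by
  classical
  have h1 : ∑ j, arc (complement Γ) i j + ∑ j, arc Γ i j = (Fintype.card V : ℝ) - 1 := by
    rw [← Finset.sum_add_distrib]
    have : ∀ j, arc (complement Γ) i j + arc Γ i j = 1 - (if i = j then 1 else 0) := by
      intro j
      by_cases h : i = j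
      · subst h
        rw [arc_self Γ hl, arc_self _ (compl_loopless Γ), if_pos rfl]
        ring
      · rw [arc_compl Γ i j h, if_neg h]
        ring
    simp only [this]
    rw [Finset.sum_sub_distrib, Finset.sum_ite_eq, if_pos (mem_univ _), Finset.sum_const, card_univ, nsmul_eq_mul, mul_one]
  rw [sum_arc, sum_arc] at h1
  have : ((outdeg (complement Γ) i + outdeg Γ i + 1 : ℕ) : ℝ) = (Fintype.card V : ℝ) := by
    push_cast
    linarith
  exact_mod_cast this

lemma indeg_compl (Γ : V → V → Prop) (hl : ∀ i, ¬ Γ i i) (i : V) :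
    indeg (complement Γ) i + indeg Γ i + 1 = Fintype.card V := by
  classical
  have h1 : ∑ j, arc (complement Γ) j i + ∑ j, arc Γ j i = (Fintype.card V : ℝ) - 1 := by
    rw [← Finset.sum_add_distrib]
    have : ∀ j, arc (complement Γ) j i + arc Γ j i = 1 - (if i = j then 1 else 0) := by
      intro j
      by_cases h : i = j
      · subst h
        rw [arc_self Γ hl, arc_self _ (compl_loopless Γ), if_pos rfl]
        ring
      · rw [arc_compl Γ j i (Ne.symm h), if_neg h]
        ring
    simp only [this]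
    rw [Finset.sum_sub_distrib, Finset.sum_ite_eq, if_pos (mem_univ _), Finset.sum_const, card_univ, nsmul_eq_mul, mul_one]
  rw [sum_arc', sum_arc'] at h1
  have : ((indeg (complement Γ) i + indeg Γ i + 1 : ℕ) : ℝ) = (Fintype.card V : ℝ) := by
    push_cast
    linarith
  exact_mod_cast this

lemma qf_compl (Γ : V → V → Prop) (hl : ∀ i, ¬ Γ i i) (x : V → ℝ) (hx : ∑ i, x i = 0) :
    qf (complement Γ) x = Fintype.card V * ∑ i, x i ^ 2 - qf Γ x := by
  rw [qf_sm _ (compl_loopless Γ), qf_sm Γ hl]
  have h1 : ∀ i j, sm (complement Γ) i j = (if i = j then (Fintype.card V : ℝ) else 0) - 1 - sm Γ i j := by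
    intro i j
    unfold sm
    by_cases h : i = j
    · subst h
      rw [if_pos rfl, if_pos rfl, if_pos rfl]
      have := outdeg_compl Γ hl i
      have : ((outdeg (complement Γ) i + outdeg Γ i + 1 : ℕ) : ℝ) = (Fintype.card V : ℝ) := by exact_mod_cast this
      push_cast at this
      linarith
    · rw [if_neg h, if_neg h, if_neg h, arc_compl Γ i j h, arc_compl Γ j i (Ne.symm h)]
      ring
  rw [Finset.mul_sum, ← Finset.sum_sub_distrib]
  apply Finset.sum_congr rfl
  intro i _
  have h2 : ∑ j, sm (complement Γ) i j * x j = Fintype.card V * x i - ∑ j, sm Γ i j * x j := by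
    have : ∀ j, sm (complement Γ) i j * x j = (if i = j then (Fintype.card V : ℝ) * x j else 0) - x j - sm Γ i j * x j := by
      intro j
      rw [h1]
      split_ifs <;> ring
    simp only [this]
    rw [Finset.sum_sub_distrib, Finset.sum_sub_distrib, Finset.sum_ite_eq, if_pos (mem_univ _), hx]
    ring
  rw [h2]
  ring

lemma vals_nonempty (Γ : V → V → Prop) (hn : 2 ≤ Fintype.card V) : (vals Γ).Nonempty := by
  classical
  obtain ⟨i, j, hij⟩ := Fintype.exists_pair_of_one_lt_card (show 1 < Fintype.card V by omega)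
  set x : V → ℝ := fun k => (if k = i then 1 else 0) - (if k = j then 1 else 0) with hx
  have h0 : ∑ k, x k = 0 := by
    simp only [hx]
    rw [Finset.sum_sub_distrib, Finset.sum_ite_eq', Finset.sum_ite_eq', if_pos (mem_univ _), if_pos (mem_univ _)]
    ring
  have h1 : 0 < ∑ k, x k ^ 2 := by
    apply Finset.sum_pos' (fun k _ => sq_nonneg _) ⟨i, mem_univ _, ?_⟩
    simp only [hx, if_true]
    rw [if_neg hij]
    norm_num
  exact ⟨_, mem_vals Γ x h0 h1⟩

lemma beta_compl_le (Γ : V → V → Prop) (hl : ∀ i, ¬ Γ i i) (hn : 2 ≤ Fintype.card V) :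
    beta (complement Γ) ≤ Fintype.card V - alpha Γ := by
  apply csSup_le (vals_nonempty _ hn)
  rintro r ⟨x, h0, h1, rfl⟩
  change qf (complement Γ) x ≤ _
  rw [qf_compl Γ hl x h0, h1]
  have := alpha_le Γ x h0
  rw [h1] at this
  linarith

lemma alpha_compl_ge (Γ : V → V → Prop) (hl : ∀ i, ¬ Γ i i) (hn : 2 ≤ Fintype.card V) :
    Fintype.card V - beta Γ ≤ alpha (complement Γ) := by
  apply le_csInf (vals_nonempty _ hn)
  rintro r ⟨x, h0, h1, rfl⟩
  change _ ≤ qf (complement Γ) x
  rw [qf_compl Γ hl x h0, h1]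
  have := le_beta Γ x h0
  rw [h1] at this
  linarith

lemma compl_compl' (Γ : V → V → Prop) (hl : ∀ i, ¬ Γ i i) : complement (complement Γ) = Γ := by
  funext i j
  apply propext
  unfold complement
  constructor
  · rintro ⟨h1, h2⟩
    by_contra h3
    exact h2 ⟨h1, h3⟩
  · intro h
    refine ⟨?_, fun h2 => h2.2 h⟩
    rintro rfl
    exact hl _ h

lemma beta_compl (Γ : V → V → Prop) (hl : ∀ i, ¬ Γ i i) (hn : 2 ≤ Fintype.card V) :
    beta (complement Γ) = Fintype.card V - alpha Γ := by
  apply le_antisymm (beta_compl_le Γ hl hn)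
  have := alpha_compl_ge (complement Γ) (compl_loopless Γ) hn
  rw [compl_compl' Γ hl] at this
  linarith

lemma alpha_compl (Γ : V → V → Prop) (hl : ∀ i, ¬ Γ i i) (hn : 2 ≤ Fintype.card V) :
    alpha (complement Γ) = Fintype.card V - beta Γ := by
  apply le_antisymm _ (alpha_compl_ge Γ hl hn)
  have := beta_compl_le (complement Γ) (compl_loopless Γ) hn
  rw [compl_compl' Γ hl] at this
  linarith

lemma spread_compl (Γ : V → V → Prop) (hl : ∀ i, ¬ Γ i i) (hn : 2 ≤ Fintype.card V) :
    spread (complement Γ) = spread Γ := by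
  unfold spread
  rw [alpha_compl Γ hl hn, beta_compl Γ hl hn]
  ring

lemma balanced_compl (Γ : V → V → Prop) (hl : ∀ i, ¬ Γ i i) (hb : ∀ i, outdeg Γ i = indeg Γ i) (i : V) :
    outdeg (complement Γ) i = indeg (complement Γ) i := by
  have h1 := outdeg_compl Γ hl i
  have h2 := indeg_compl Γ hl i
  have h3 := hb i
  omega

/-- If the form is a multiple of `|x|²`, the spread vanishes. -/
lemma spread_zero (Γ : V → V → Prop) (hn : 2 ≤ Fintype.card V) (c : ℝ)
    (h : ∀ x : V → ℝ, ∑ i, x i = 0 → qf Γ x = c * ∑ i, x i ^ 2) : spread Γ = 0 := by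
  have h1 : vals Γ ⊆ {c} := by
    rintro r ⟨x, h0, h1, rfl⟩
    have := h x h0
    rw [h1, mul_one] at this
    exact this
  have h2 : vals Γ = {c} := Set.Subset.antisymm h1 (by
    obtain ⟨r, hr⟩ := vals_nonempty Γ hn
    have := h1 hr
    rw [Set.mem_singleton_iff] at this
    rw [← this, Set.singleton_subset_iff]
    exact hr)
  unfold spread alpha beta
  rw [h2, csInf_singleton, csSup_singleton, sub_self]

/-- The indicator of two distinct vertices without an arc between them. -/
noncomputable def nb (Γ : V → V → Prop) (i j : V) : ℝ := (if i = j then 0 else 1) - (arc Γ i j + arc Γ j i)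

lemma nb_nonneg (Γ : V → V → Prop) (hl : ∀ i, ¬ Γ i i) (hdig : ∀ i j, Γ i j → ¬ Γ j i) (i j : V) :
    0 ≤ nb Γ i j := by
  unfold nb
  by_cases h : i = j
  · subst h
    rw [if_pos rfl, arc_self Γ hl]
    norm_num
  · rw [if_neg h]
    unfold arc
    by_cases h1 : Γ i j
    · rw [if_pos h1, if_neg (hdig i j h1)]
      norm_num
    · rw [if_neg h1]
      split_ifs <;> norm_num

lemma nb_cases (Γ : V → V → Prop) (hl : ∀ i, ¬ Γ i i) (hdig : ∀ i j, Γ i j → ¬ Γ j i) (i j : V) :
    nb Γ i j = 0 ∨ (nb Γ i j = 1 ∧ i ≠ j ∧ arc Γ i j = 0 ∧ arc Γ j i = 0) := by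
  unfold nb
  by_cases h : i = j
  · subst h
    left
    rw [if_pos rfl, arc_self Γ hl]
    norm_num
  · rw [if_neg h]
    unfold arc
    by_cases h1 : Γ i j
    · rw [if_pos h1, if_neg (hdig i j h1)]
      left
      norm_num
    · rw [if_neg h1]
      by_cases h2 : Γ j i
      · rw [if_pos h2]
        left
        norm_num
      · rw [if_neg h2]
        right
        refine ⟨by norm_num, h, rfl, rfl⟩

lemma nb_symm (Γ : V → V → Prop) (i j : V) : nb Γ i j = nb Γ j i := by
  unfold nb
  rw [add_comm (arc Γ i j)]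
  by_cases h : i = j
  · subst h; rfl
  · rw [if_neg h, if_neg (Ne.symm h)]

lemma sum_nb (Γ : V → V → Prop) (i : V) :
    ∑ j, nb Γ i j = (Fintype.card V : ℝ) - 1 - outdeg Γ i - indeg Γ i := by
  unfold nb
  rw [Finset.sum_sub_distrib, Finset.sum_add_distrib, sum_arc, sum_arc']
  have : ∑ j, (if i = j then (0 : ℝ) else 1) = Fintype.card V - 1 := by
    have : ∀ j, (if i = j then (0 : ℝ) else 1) = 1 - (if i = j then 1 else 0) := by
      intro j
      split_ifs <;> norm_num
    simp only [this]
    rw [Finset.sum_sub_distrib, Finset.sum_ite_eq, if_pos (mem_univ _), Finset.sum_const, card_univ, nsmul_eq_mul, mul_one]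
  rw [this]
  ring

lemma qf_nb (Γ : V → V → Prop) (hl : ∀ i, ¬ Γ i i) (d : ℕ) (hd : ∀ i, outdeg Γ i = d)
    (x : V → ℝ) (hx : ∑ i, x i = 0) :
    qf Γ x = (d + 1 / 2) * ∑ i, x i ^ 2 + 1 / 2 * ∑ i, x i * ∑ j, nb Γ i j * x j := by
  rw [qf_sm Γ hl, Finset.mul_sum, Finset.mul_sum, ← Finset.sum_add_distrib]
  apply Finset.sum_congr rfl
  intro i _
  have h1 : ∀ j, sm Γ i j * x j = (if i = j then ((d : ℝ) + 1 / 2) * x j else 0) - 1 / 2 * x j + 1 / 2 * (nb Γ i j * x j) := by
    intro j
    unfold sm nb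
    by_cases h : i = j
    · subst h
      rw [if_pos rfl, if_pos rfl, if_pos rfl, arc_self Γ hl, hd]
      ring
    · rw [if_neg h, if_neg h, if_neg h]
      ring
  simp only [h1]
  rw [Finset.sum_add_distrib, Finset.sum_sub_distrib, Finset.sum_ite_eq, if_pos (mem_univ _), ← Finset.mul_sum,
    ← Finset.mul_sum, hx]
  ring

/-- The case of regular tournaments. -/
lemma spread_tournament (Γ : V → V → Prop) (hl : ∀ i, ¬ Γ i i) (hb : ∀ i, outdeg Γ i = indeg Γ i)
    (hn : 2 ≤ Fintype.card V) (d : ℕ) (hd : ∀ i, outdeg Γ i = d) (hdig : ∀ i j, Γ i j → ¬ Γ j i)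
    (h : 2 * d + 1 = Fintype.card V) : spread Γ = 0 := by
  apply spread_zero Γ hn (d + 1 / 2)
  intro x hx
  rw [qf_nb Γ hl d hd x hx]
  have h0 : ∀ i j, nb Γ i j = 0 := by
    intro i j
    have h1 := sum_nb Γ i
    rw [← hb i, hd i, ← h] at h1
    push_cast at h1
    have h2 : ∑ j, nb Γ i j = 0 := by rw [h1]; ring
    exact (Finset.sum_eq_zero_iff_of_nonneg (fun j _ => nb_nonneg Γ hl hdig i j)).1 h2 j (mem_univ j)
  simp [h0]

/-- The case without arcs. -/
lemma spread_empty (Γ : V → V → Prop) (hn : 2 ≤ Fintype.card V) (hd : ∀ i, outdeg Γ i = 0) :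
    spread Γ = 0 := by
  classical
  apply spread_zero Γ hn 0
  intro x _
  rw [qf_eq, zero_mul]
  have : ∀ i j, ¬ Γ i j := by
    intro i j h
    have h1 := hd i
    unfold outdeg at h1
    rw [Finset.card_eq_zero, Finset.filter_eq_empty_iff] at h1
    exact h1 (mem_univ j) h
  simp [hd, this]

/-- The case of the orientations of a complete graph without a perfect matching. -/
lemma spread_one (Γ : V → V → Prop) (hl : ∀ i, ¬ Γ i i) (hb : ∀ i, outdeg Γ i = indeg Γ i)
    (hn : 3 ≤ Fintype.card V) (d : ℕ) (hd : ∀ i, outdeg Γ i = d) (hdig : ∀ i j, Γ i j → ¬ Γ j i)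
    (h : 2 * d + 2 = Fintype.card V) : alpha Γ = d ∧ beta Γ = d + 1 := by
  classical
  have hsum : ∀ i, ∑ j, nb Γ i j = 1 := by
    intro i
    rw [sum_nb, ← hb i, hd i, ← h]
    push_cast
    ring
  -- bounds for the form
  have hform : ∀ x : V → ℝ, |∑ i, x i * ∑ j, nb Γ i j * x j| ≤ ∑ i, x i ^ 2 := by
    intro x
    have e1 : ∑ i, ∑ j, nb Γ i j * x i ^ 2 = ∑ i, x i ^ 2 := by
      apply Finset.sum_congr rfl
      intro i _
      rw [← Finset.sum_mul, hsum, one_mul]
    have e2 : ∑ i, ∑ j, nb Γ i j * x j ^ 2 = ∑ i, x i ^ 2 := by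
      rw [Finset.sum_comm]
      apply Finset.sum_congr rfl
      intro i _
      simp only [fun j => nb_symm Γ j i]
      rw [← Finset.sum_mul, hsum, one_mul]
    have e3 : ∑ i, x i * ∑ j, nb Γ i j * x j = ∑ i, ∑ j, nb Γ i j * (x i * x j) := by
      apply Finset.sum_congr rfl
      intro i _
      rw [Finset.mul_sum]
      apply Finset.sum_congr rfl
      intro j _
      ring
    have e4 : ∑ i, ∑ j, nb Γ i j * (x i * x j) ≤ ∑ i, ∑ j, nb Γ i j * ((x i ^ 2 + x j ^ 2) / 2) := by
      apply Finset.sum_le_sum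
      intro i _
      apply Finset.sum_le_sum
      intro j _
      apply mul_le_mul_of_nonneg_left _ (nb_nonneg Γ hl hdig i j)
      nlinarith [sq_nonneg (x i - x j)]
    have e5 : -∑ i, ∑ j, nb Γ i j * ((x i ^ 2 + x j ^ 2) / 2) ≤ ∑ i, ∑ j, nb Γ i j * (x i * x j) := by
      rw [← Finset.sum_neg_distrib]
      apply Finset.sum_le_sum
      intro i _
      rw [← Finset.sum_neg_distrib]
      apply Finset.sum_le_sum
      intro j _
      rw [← mul_neg]
      apply mul_le_mul_of_nonneg_left _ (nb_nonneg Γ hl hdig i j)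
      nlinarith [sq_nonneg (x i + x j)]
    have e6 : ∑ i, ∑ j, nb Γ i j * ((x i ^ 2 + x j ^ 2) / 2) = ∑ i, x i ^ 2 := by
      have : ∑ i, ∑ j, nb Γ i j * ((x i ^ 2 + x j ^ 2) / 2) =
          (∑ i, ∑ j, nb Γ i j * x i ^ 2 + ∑ i, ∑ j, nb Γ i j * x j ^ 2) / 2 := by
        rw [← Finset.sum_add_distrib, Finset.sum_div]
        apply Finset.sum_congr rfl
        intro i _
        rw [← Finset.sum_add_distrib, Finset.sum_div]
        apply Finset.sum_congr rfl
        intro j _
        ring
      rw [this, e1, e2]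
      ring
    rw [e3, abs_le]
    rw [e6] at e4 e5
    exact ⟨e5, e4⟩
  -- the partner of a vertex
  have hpart : ∀ i, ∃ j, nb Γ i j = 1 := by
    intro i
    by_contra hc
    push Not at hc
    have : ∑ j, nb Γ i j = 0 := by
      apply Finset.sum_eq_zero
      intro j _
      rcases nb_cases Γ hl hdig i j with h1 | h1
      · exact h1
      · exact absurd h1.1 (hc j)
    rw [hsum] at this
    norm_num at this
  have huniq : ∀ i j k, nb Γ i j = 1 → nb Γ i k = 1 → j = k := by
    intro i j k h1 h2
    by_contra hjk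
    have h3 : ∑ l ∈ ({j, k} : Finset V), nb Γ i l ≤ ∑ l, nb Γ i l :=
      Finset.sum_le_sum_of_subset_of_nonneg (subset_univ _) (fun l _ _ => nb_nonneg Γ hl hdig i l)
    rw [Finset.sum_pair hjk, h1, h2, hsum] at h3
    norm_num at h3
  obtain ⟨i⟩ : Nonempty V := Fintype.card_pos_iff.1 (by omega)
  obtain ⟨i', hi'⟩ := hpart i
  have hii' : i ≠ i' := by
    rcases nb_cases Γ hl hdig i i' with h1 | h1
    · rw [h1] at hi'; norm_num at hi'
    · exact h1.2.1
  obtain ⟨j, hj⟩ : ∃ j, j ∉ ({i, i'} : Finset V) := by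
    by_contra hc
    push Not at hc
    have h1 : (univ : Finset V) ⊆ {i, i'} := fun v _ => hc v
    have h2 := Finset.card_le_card h1
    rw [card_univ, Finset.card_pair hii'] at h2
    omega
  rw [mem_insert, mem_singleton, not_or] at hj
  obtain ⟨j', hj'⟩ := hpart j
  have hjj' : j ≠ j' := by
    rcases nb_cases Γ hl hdig j j' with h1 | h1
    · rw [h1] at hj'; norm_num at hj'
    · exact h1.2.1
  have hj'i : j' ≠ i := by
    rintro rfl
    rw [nb_symm] at hj'
    exact hj.2 (huniq _ _ _ hj' hi')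
  have hj'i' : j' ≠ i' := by
    rintro rfl
    rw [nb_symm] at hj' hi'
    exact hj.1 (huniq _ _ _ hj' hi')
  have hz : ∀ a b, b ≠ a → ∀ c, nb Γ c a = 1 → nb Γ c b = 0 := by
    intro a b hab c hc
    rcases nb_cases Γ hl hdig c b with h1 | h1
    · exact h1
    · exact absurd (huniq _ _ _ h1.1 hc) hab
  have hne : (vals Γ).Nonempty := vals_nonempty Γ (by omega)
  -- evaluation of the two vectors
  have ev : ∀ (f : V → ℝ) (a b : V) (s : ℝ), ∑ k, f k * ((if k = a then 1 else 0) + s * (if k = b then 1 else 0)) = f a + s * f b := by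
    intro f a b s
    have : ∀ k, f k * ((if k = a then (1 : ℝ) else 0) + s * (if k = b then 1 else 0)) =
        (if k = a then f k else 0) + s * (if k = b then f k else 0) := by
      intro k
      split_ifs <;> ring
    simp only [this]
    rw [Finset.sum_add_distrib, ← Finset.mul_sum, Finset.sum_ite_eq', Finset.sum_ite_eq', if_pos (mem_univ _),
      if_pos (mem_univ _)]
  have hself : ∀ a, nb Γ a a = 0 := by
    intro a
    rcases nb_cases Γ hl hdig a a with h1 | h1
    · exact h1
    · exact absurd rfl h1.2.1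
  have A : alpha Γ ≤ d := by
    set x : V → ℝ := fun k => (if k = i then 1 else 0) + (-1) * (if k = i' then 1 else 0) with hx
    have h0 : ∑ k, x k = 0 := by
      have := ev (fun _ => 1) i i' (-1)
      simp only [one_mul] at this
      rw [hx, this]
      ring
    have h1 : ∑ k, x k ^ 2 = 2 := by
      have := ev x i i' (-1)
      have e : ∀ k, x k ^ 2 = x k * ((if k = i then 1 else 0) + (-1) * (if k = i' then 1 else 0)) := by
        intro k
        rw [sq]
      simp only [e]
      rw [this]
      simp only [hx, if_true]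
      rw [if_neg hii', if_neg (Ne.symm hii')]
      norm_num
    have h2 : ∑ k, x k * ∑ l, nb Γ k l * x l = -2 := by
      have e : ∀ k, ∑ l, nb Γ k l * x l = nb Γ k i + (-1) * nb Γ k i' := fun k => ev (nb Γ k) i i' (-1)
      simp only [e]
      have e2 : ∀ k, x k * (nb Γ k i + (-1) * nb Γ k i') =
          (nb Γ k i + (-1) * nb Γ k i') * ((if k = i then 1 else 0) + (-1) * (if k = i' then 1 else 0)) := by
        intro k
        rw [mul_comm]
      simp only [e2]
      rw [ev, hself, hself, hi', nb_symm Γ i' i, hi']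
      norm_num
    have h3 := alpha_le Γ x h0
    rw [qf_nb Γ hl d hd x h0, h1, h2] at h3
    linarith
  have B : (d : ℝ) + 1 ≤ beta Γ := by
    set x : V → ℝ := fun k => ((if k = i then 1 else 0) + 1 * (if k = i' then 1 else 0)) +
      (-1) * ((if k = j then 1 else 0) + 1 * (if k = j' then 1 else 0)) with hx
    have ev2 : ∀ f : V → ℝ, ∑ k, f k * x k = f i + f i' - f j - f j' := by
      intro f
      have : ∀ k, f k * x k = f k * ((if k = i then 1 else 0) + 1 * (if k = i' then 1 else 0)) +
          (-1) * (f k * ((if k = j then 1 else 0) + 1 * (if k = j' then 1 else 0))) := by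
        intro k
        simp only [hx]
        ring
      simp only [this]
      rw [Finset.sum_add_distrib, ← Finset.mul_sum, ev, ev]
      ring
    have h0 : ∑ k, x k = 0 := by
      have := ev2 (fun _ => 1)
      simp only [one_mul] at this
      rw [this]
      ring
    have xi : x i = 1 := by
      simp only [hx, if_true]
      rw [if_neg hii', if_neg (Ne.symm hj.1), if_neg (Ne.symm hj'i)]
      norm_num
    have xi' : x i' = 1 := by
      simp only [hx, if_true]
      rw [if_neg (Ne.symm hii'), if_neg (Ne.symm hj.2), if_neg (Ne.symm hj'i')]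
      norm_num
    have xj : x j = -1 := by
      simp only [hx, if_true]
      rw [if_neg hj.1, if_neg hj.2, if_neg hjj']
      norm_num
    have xj' : x j' = -1 := by
      simp only [hx, if_true]
      rw [if_neg hj'i, if_neg hj'i', if_neg (Ne.symm hjj')]
      norm_num
    have h1 : ∑ k, x k ^ 2 = 4 := by
      have := ev2 x
      rw [xi, xi', xj, xj'] at this
      have e : ∀ k, x k ^ 2 = x k * x k := fun k => sq _
      simp only [e]
      rw [this]
      norm_num
    have h2 : ∑ k, x k * ∑ l, nb Γ k l * x l = 4 := by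
      have e : ∀ k, ∑ l, nb Γ k l * x l = nb Γ k i + nb Γ k i' - nb Γ k j - nb Γ k j' := fun k => ev2 (nb Γ k)
      simp only [e]
      have e2 : ∀ k, x k * (nb Γ k i + nb Γ k i' - nb Γ k j - nb Γ k j') =
          (nb Γ k i + nb Γ k i' - nb Γ k j - nb Γ k j') * x k := by
        intro k
        rw [mul_comm]
      simp only [e2]
      rw [ev2]
      have hi'2 : nb Γ i' i = 1 := by rw [nb_symm]; exact hi'
      have hj'2 : nb Γ j' j = 1 := by rw [nb_symm]; exact hj'
      rw [hself, hself, hself, hself, hi', hi'2, hj', hj'2,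
        hz i' j hj.2 i hi', hz i' j' hj'i' i hi', hz i j hj.1 i' hi'2, hz i j' hj'i i' hi'2,
        hz j' i (Ne.symm hj'i) j hj', hz j' i' (Ne.symm hj'i') j hj', hz j i (Ne.symm hj.1) j' hj'2,
        hz j i' (Ne.symm hj.2) j' hj'2]
      norm_num
    have h3 := le_beta Γ x h0
    rw [qf_nb Γ hl d hd x h0, h1, h2] at h3
    linarith
  constructor
  · apply le_antisymm A
    apply le_csInf hne
    rintro r ⟨x, h0, h1, rfl⟩
    change _ ≤ qf Γ x
    rw [qf_nb Γ hl d hd x h0]
    have := (abs_le.1 (hform x)).1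
    rw [h1] at this ⊢
    linarith
  · apply le_antisymm _ B
    apply csSup_le hne
    rintro r ⟨x, h0, h1, rfl⟩
    change qf Γ x ≤ _
    rw [qf_nb Γ hl d hd x h0]
    have := (abs_le.1 (hform x)).2
    rw [h1] at this ⊢
    linarith

/-- `Γ` has no digons and all outdegrees and indegrees are `d`, where `2 d + 2` is the number of vertices. -/
def Cocktail (Γ : V → V → Prop) : Prop :=
  (∀ i j, Γ i j → ¬ Γ j i) ∧ ∀ i, 2 * outdeg Γ i + 2 = Fintype.card V ∧ 2 * indeg Γ i + 2 = Fintype.card V

/-- A balanced digraph of spread in `(0, 1]` is of the special form. -/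
lemma cocktail_of_spread (Γ : V → V → Prop) (hl : ∀ i, ¬ Γ i i) (hb : ∀ i, outdeg Γ i = indeg Γ i)
    (hn : 2 ≤ Fintype.card V) (hs : spread Γ ≤ 1) (hs0 : 0 < spread Γ) :
    Cocktail Γ ∨ Cocktail (complement Γ) := by
  by_cases hc : alpha Γ + beta Γ ≤ Fintype.card V
  · obtain ⟨d, hd, hdig, h⟩ := main_bal Γ hl hb hn hs hs0 hc
    left
    rcases h with h | h | h
    · exfalso
      have := spread_empty Γ hn (fun i => by rw [hd]; omega)
      linarith
    · exfalso
      have := spread_tournament Γ hl hb hn d hd hdig h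
      linarith
    · exact ⟨hdig, fun i => ⟨by rw [hd]; exact h, by rw [← hb, hd]; exact h⟩⟩
  · push Not at hc
    have hl' := compl_loopless Γ
    have hb' := balanced_compl Γ hl hb
    have hs' := spread_compl Γ hl hn
    obtain ⟨d, hd, hdig, h⟩ := main_bal (complement Γ) hl' hb' hn (by rw [hs']; exact hs) (by rw [hs']; exact hs0)
      (by rw [alpha_compl Γ hl hn, beta_compl Γ hl hn]; linarith)
    right
    rcases h with h | h | h
    · exfalso
      have := spread_empty (complement Γ) hn (fun i => by rw [hd]; omega)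
      linarith
    · exfalso
      have := spread_tournament (complement Γ) hl' hb' hn d hd hdig h
      linarith
    · exact ⟨hdig, fun i => ⟨by rw [hd]; exact h, by rw [← hb', hd]; exact h⟩⟩

/-- The special digraphs of order at least `3` have spread one. -/
lemma spread_of_cocktail (Γ : V → V → Prop) (hl : ∀ i, ¬ Γ i i) (hn : 3 ≤ Fintype.card V)
    (h : Cocktail Γ) : spread Γ = 1 := by
  obtain ⟨i₀⟩ : Nonempty V := Fintype.card_pos_iff.1 (by omega)
  obtain ⟨h1, h2⟩ := h
  have hb : ∀ i, outdeg Γ i = indeg Γ i := by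
    intro i
    have := h2 i
    omega
  obtain ⟨ha, hbt⟩ := spread_one Γ hl hb hn (outdeg Γ i₀) (fun i => by have := h2 i; have := h2 i₀; omega) h1
    (h2 i₀).1
  unfold spread
  rw [ha, hbt]
  ring

/-- A digraph of order `2` has spread `0`. -/
lemma spread_two (Γ : V → V → Prop) (hn : Fintype.card V = 2) (h : Cocktail Γ) : spread Γ = 0 := by
  apply spread_empty Γ (by omega)
  intro i
  have := (h.2 i).1
  omega

end Pool.Agent.R520
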