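import Mathlib

set_option autoImplicit false

/-! Laplacian matrices of digraphs and the Laplacian spread: definitions and first facts. -/

namespace Pool.Agent.R520

open Finset Matrix

variable {V : Type} [Fintype V] [DecidableEq V]

open Classical in
/-- The outdegree of the vertex `i` of the digraph with arc relation `Γ`. -/
noncomputable def outdeg (Γ : V → V → Prop) (i : V) : ℕ := (univ.filter fun j => Γ i j).card

open Classical in
/-- The indegree of the vertex `i`. -/
noncomputable def indeg (Γ : V → V → Prop) (i : V) : ℕ := (univ.filter fun j => Γ j i).card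

open Classical in
/-- The Laplacian `L = D - A`: `D` is the diagonal matrix of the outdegrees and `A` the adjacency
matrix of the digraph with arc relation `Γ`. -/
noncomputable def lap (Γ : V → V → Prop) : Matrix V V ℝ :=
  fun i j => (if i = j then (outdeg Γ i : ℝ) else 0) - (if Γ i j then 1 else 0)

/-- The set of the values `xᵀ L x`, for the real vectors `x` of norm `1` which are orthogonal to the
all-ones vector. -/
def vals (Γ : V → V → Prop) : Set ℝ :=
  {r | ∃ x : V → ℝ, ∑ i, x i = 0 ∧ ∑ i, x i ^ 2 = 1 ∧ r = x ⬝ᵥ (lap Γ *ᵥ x)}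

/-- The least value `α(Γ)` of `xᵀ L x` on the unit vectors orthogonal to the all-ones vector. -/
noncomputable def alpha (Γ : V → V → Prop) : ℝ := sInf (vals Γ)

/-- The largest value `β(Γ)` of `xᵀ L x` on the unit vectors orthogonal to the all-ones vector. -/
noncomputable def beta (Γ : V → V → Prop) : ℝ := sSup (vals Γ)

/-- The Laplacian spread `β(Γ) - α(Γ)`. -/
noncomputable def spread (Γ : V → V → Prop) : ℝ := beta Γ - alpha Γ

/-- The quadratic form. -/
noncomputable def qf (Γ : V → V → Prop) (x : V → ℝ) : ℝ := x ⬝ᵥ (lap Γ *ᵥ x)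

open Classical in
lemma qf_eq (Γ : V → V → Prop) (x : V → ℝ) :
    qf Γ x = ∑ i, (outdeg Γ i : ℝ) * x i ^ 2 - ∑ i, ∑ j, (if Γ i j then x i * x j else 0) := by
  unfold qf lap dotProduct
  simp only [Matrix.mulVec, dotProduct]
  rw [← Finset.sum_sub_distrib]
  apply Finset.sum_congr rfl
  intro i _
  simp only [sub_mul, ite_mul, zero_mul, one_mul]
  rw [Finset.sum_sub_distrib, mul_sub, Finset.sum_ite_eq, if_pos (mem_univ _)]
  congr 1
  · ring
  · rw [Finset.mul_sum]
    apply Finset.sum_congr rfl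
    intro j _
    split_ifs <;> ring

lemma qf_smul (Γ : V → V → Prop) (t : ℝ) (x : V → ℝ) : qf Γ (fun i => t * x i) = t ^ 2 * qf Γ x := by
  classical
  rw [qf_eq, qf_eq, mul_sub, Finset.mul_sum, Finset.mul_sum]
  congr 1
  · apply Finset.sum_congr rfl
    intro i _
    ring
  · apply Finset.sum_congr rfl
    intro i _
    rw [Finset.mul_sum]
    apply Finset.sum_congr rfl
    intro j _
    split_ifs <;> ring

lemma vals_bdd (Γ : V → V → Prop) : ∃ K : ℝ, ∀ r ∈ vals Γ, |r| ≤ K := by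
  classical
  refine ⟨∑ i, ∑ j, |lap Γ i j|, ?_⟩
  rintro r ⟨x, -, hx, rfl⟩
  have h1 : ∀ i, |x i| ≤ 1 := by
    intro i
    have : x i ^ 2 ≤ 1 := by
      rw [← hx]
      exact Finset.single_le_sum (f := fun i => x i ^ 2) (fun i _ => sq_nonneg _) (mem_univ i)
    exact (sq_le_one_iff_abs_le_one _).1 this
  unfold dotProduct
  simp only [Matrix.mulVec, dotProduct]
  refine (Finset.abs_sum_le_sum_abs _ _).trans (Finset.sum_le_sum fun i _ => ?_)
  rw [abs_mul]
  calc |x i| * |∑ j, lap Γ i j * x j| ≤ 1 * |∑ j, lap Γ i j * x j| :=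
        mul_le_mul_of_nonneg_right (h1 i) (abs_nonneg _)
    _ = |∑ j, lap Γ i j * x j| := one_mul _
    _ ≤ ∑ j, |lap Γ i j * x j| := Finset.abs_sum_le_sum_abs _ _
    _ ≤ ∑ j, |lap Γ i j| := by
        refine Finset.sum_le_sum fun j _ => ?_
        rw [abs_mul]
        calc |lap Γ i j| * |x j| ≤ |lap Γ i j| * 1 := mul_le_mul_of_nonneg_left (h1 j) (abs_nonneg _)
          _ = _ := mul_one _

lemma bddAbove_vals (Γ : V → V → Prop) : BddAbove (vals Γ) := by
  obtain ⟨K, hK⟩ := vals_bdd Γ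
  exact ⟨K, fun r hr => (abs_le.1 (hK r hr)).2⟩

lemma bddBelow_vals (Γ : V → V → Prop) : BddBelow (vals Γ) := by
  obtain ⟨K, hK⟩ := vals_bdd Γ
  exact ⟨-K, fun r hr => (abs_le.1 (hK r hr)).1⟩

lemma mem_vals (Γ : V → V → Prop) (x : V → ℝ) (h0 : ∑ i, x i = 0) (h1 : 0 < ∑ i, x i ^ 2) :
    qf Γ x / (∑ i, x i ^ 2) ∈ vals Γ := by
  set s := ∑ i, x i ^ 2 with hs
  refine ⟨fun i => (Real.sqrt s)⁻¹ * x i, ?_, ?_, ?_⟩
  · rw [← Finset.mul_sum, h0, mul_zero]
  · simp only [mul_pow]
    rw [← Finset.mul_sum, inv_pow, Real.sq_sqrt h1.le]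
    exact inv_mul_cancel₀ h1.ne'
  · change _ = qf Γ _
    rw [qf_smul, inv_pow, Real.sq_sqrt h1.le]
    field_simp

lemma le_beta (Γ : V → V → Prop) (x : V → ℝ) (h0 : ∑ i, x i = 0) : qf Γ x ≤ beta Γ * ∑ i, x i ^ 2 := by
  by_cases h1 : 0 < ∑ i, x i ^ 2
  · rw [← div_le_iff₀ h1]
    exact le_csSup (bddAbove_vals Γ) (mem_vals Γ x h0 h1)
  · have h2 : ∑ i, x i ^ 2 = 0 := le_antisymm (not_lt.1 h1) (Finset.sum_nonneg fun i _ => sq_nonneg _)
    have h3 : x = fun i => 0 * x i := by
      funext i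
      rw [Finset.sum_eq_zero_iff_of_nonneg (fun i _ => sq_nonneg _)] at h2
      have := h2 i (mem_univ i)
      rw [pow_eq_zero_iff (two_ne_zero)] at this
      rw [this, mul_zero]
    rw [h2, mul_zero, h3, qf_smul]
    simp

lemma alpha_le (Γ : V → V → Prop) (x : V → ℝ) (h0 : ∑ i, x i = 0) : alpha Γ * ∑ i, x i ^ 2 ≤ qf Γ x := by
  by_cases h1 : 0 < ∑ i, x i ^ 2
  · rw [← le_div_iff₀ h1]
    exact csInf_le (bddBelow_vals Γ) (mem_vals Γ x h0 h1)
  · have h2 : ∑ i, x i ^ 2 = 0 := le_antisymm (not_lt.1 h1) (Finset.sum_nonneg fun i _ => sq_nonneg _)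
    have h3 : x = fun i => 0 * x i := by
      funext i
      rw [Finset.sum_eq_zero_iff_of_nonneg (fun i _ => sq_nonneg _)] at h2
      have := h2 i (mem_univ i)
      rw [pow_eq_zero_iff (two_ne_zero)] at this
      rw [this, mul_zero]
    rw [h2, mul_zero, h3, qf_smul]
    simp

end Pool.Agent.R520
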