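import Mathlib

set_option autoImplicit false

/-! Permutations on a digraph whose vertices lie in layers. -/

namespace Pool.Agent.R520.Layer

open Finset

/-- The number of derangements on the digraph with arc relation `E`. -/
noncomputable def numDer {V : Type} (E : V → V → Prop) : ℕ :=
  Nat.card {σ : Equiv.Perm V // ∀ v, E v (σ v)}

/-- The number of permutations on the digraph with arc relation `E`. -/
noncomputable def numPerm {V : Type} (E : V → V → Prop) : ℕ :=
  Nat.card {σ : Equiv.Perm V // ∀ v, σ v = v ∨ E v (σ v)}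

section

variable {ι κ : Type} [Fintype ι] [DecidableEq ι] [Fintype κ] [DecidableEq κ]

/-- Arcs of a layered digraph: from `(j, x)` to `(s j, y)` if `M j x y`. -/
def LE (s : Equiv.Perm ι) (M : ι → κ → κ → Prop) (v w : ι × κ) : Prop :=
  w.1 = s v.1 ∧ M v.1 v.2 w.2

/-- the permutations whose set of moved points is given by `W` -/
def Q (s : Equiv.Perm ι) (M : ι → κ → κ → Prop) (W : ι → Finset κ) (σ : Equiv.Perm (ι × κ)) : Prop :=
  ∀ v : ι × κ, (v.2 ∈ W v.1 → LE s M v (σ v)) ∧ (v.2 ∉ W v.1 → σ v = v)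

variable {s : Equiv.Perm ι} {M : ι → κ → κ → Prop} {W : ι → Finset κ}

lemma mem_next (hs : ∀ j, s j ≠ j) {σ : Equiv.Perm (ι × κ)} (hσ : Q s M W σ) (j : ι) (x : κ) (hx : x ∈ W j) :
    (σ (j, x)).2 ∈ W (s j) := by
  have h1 := (hσ (j, x)).1 hx
  by_contra hn
  have h2 := (hσ (σ (j, x))).2 (by rw [h1.1]; exact hn)
  have h3 := σ.injective h2
  have h4 := h1.1
  rw [h3] at h4
  exact hs j h4.symm

/-- forward map -/
noncomputable def fwd (hs : ∀ j, s j ≠ j) (σ : Equiv.Perm (ι × κ)) (hσ : Q s M W σ) (j : ι) : W j ≃ W (s j) :=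
  Equiv.ofBijective (fun x => ⟨(σ (j, x.1)).2, mem_next hs hσ j x.1 x.2⟩) (by
    constructor
    · intro x y hxy
      simp only [Subtype.mk.injEq] at hxy
      have hx := (hσ (j, x.1)).1 x.2
      have hy := (hσ (j, y.1)).1 y.2
      have h1 : σ (j, x.1) = σ (j, y.1) := Prod.ext (hx.1.trans hy.1.symm) hxy
      have h2 := σ.injective h1
      exact Subtype.ext (Prod.mk.inj h2).2
    · intro y
      obtain ⟨v, hv⟩ := σ.surjective (s j, y.1)
      have hv2 : v.2 ∈ W v.1 := by
        by_contra hn
        have h1 := (hσ v).2 hn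
        rw [hv] at h1
        rw [← h1] at hn
        exact hn y.2
      have h1 := ((hσ v).1 hv2).1
      rw [hv] at h1
      have h2 : j = v.1 := s.injective h1
      obtain ⟨a, b⟩ := v
      simp only at h2 hv2
      subst h2
      refine ⟨⟨b, hv2⟩, Subtype.ext ?_⟩
      show (σ (j, b)).2 = y.1
      rw [hv])

lemma fwd_val (hs : ∀ j, s j ≠ j) (σ : Equiv.Perm (ι × κ)) (hσ : Q s M W σ) (j : ι) (x : W j) :
    ((fwd hs σ hσ j x : W (s j)) : κ) = (σ (j, x.1)).2 := rfl

/-- backward map as a function -/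
noncomputable def bwdFun (F : ∀ j, W j ≃ W (s j)) (v : ι × κ) : ι × κ :=
  if h : v.2 ∈ W v.1 then (s v.1, (F v.1 ⟨v.2, h⟩ : κ)) else v

lemma bwd_inj (F : ∀ j, W j ≃ W (s j)) : Function.Injective (bwdFun F) := by
  rintro ⟨a, x⟩ ⟨b, y⟩ h
  unfold bwdFun at h
  by_cases hx : x ∈ W a
  · by_cases hy : y ∈ W b
    · simp only [hx, hy, dite_true] at h
      obtain ⟨h1, h2⟩ := Prod.mk.inj h
      have h3 := s.injective h1
      subst h3
      have h4 := (F a).injective (Subtype.ext h2)
      rw [Subtype.mk.injEq] at h4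
      rw [h4]
    · simp only [hx, hy, dite_true, dite_false] at h
      obtain ⟨h1, h2⟩ := Prod.mk.inj h
      exfalso
      apply hy
      rw [← h1, ← h2]
      exact (F a ⟨x, hx⟩).2
  · by_cases hy : y ∈ W b
    · simp only [hx, hy, dite_true, dite_false] at h
      obtain ⟨h1, h2⟩ := Prod.mk.inj h
      exfalso
      apply hx
      rw [h1, h2]
      exact (F b ⟨y, hy⟩).2
    · simp only [hx, hy, dite_false] at h
      exact h

/-- backward map -/
noncomputable def bwd (F : ∀ j, W j ≃ W (s j)) : Equiv.Perm (ι × κ) :=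
  Equiv.ofBijective (bwdFun F) (Finite.injective_iff_bijective.mp (bwd_inj F))

lemma bwd_apply (F : ∀ j, W j ≃ W (s j)) (v : ι × κ) : bwd F v = bwdFun F v := rfl

/-- the equivalence -/
noncomputable def layerEquiv (hs : ∀ j, s j ≠ j) :
    {σ : Equiv.Perm (ι × κ) // Q s M W σ} ≃ (∀ j, {f : W j ≃ W (s j) // ∀ x, M j x.1 (f x).1}) where
  toFun σ := fun j => ⟨fwd hs σ.1 σ.2 j, fun x => ((σ.2 (j, x.1)).1 x.2).2⟩
  invFun F := ⟨bwd (fun j => (F j).1), by
    rintro ⟨j, x⟩
    constructor
    · intro h
      rw [bwd_apply]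
      simp only at h
      simp only [bwdFun, h, dite_true, LE, true_and]
      exact (F j).2 ⟨x, h⟩
    · intro h
      rw [bwd_apply]
      simp only at h
      simp only [bwdFun, h, dite_false]⟩
  left_inv := by
    rintro ⟨σ, hσ⟩
    apply Subtype.ext
    apply Equiv.ext
    rintro ⟨j, x⟩
    show bwd _ (j, x) = σ (j, x)
    rw [bwd_apply]
    by_cases h : x ∈ W j
    · simp only [bwdFun, h, dite_true]
      exact Prod.ext ((hσ (j, x)).1 h).1.symm rfl
    · simp only [bwdFun, h, dite_false]
      exact ((hσ (j, x)).2 h).symm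
  right_inv := by
    intro F
    funext j
    apply Subtype.ext
    apply Equiv.ext
    intro x
    apply Subtype.ext
    rw [fwd_val, bwd_apply]
    simp only [bwdFun, x.2, dite_true, Subtype.coe_eta]

/-- number of perfect matchings between `A` and `B` along the relation `R` -/
noncomputable def cnt (R : κ → κ → Prop) (A B : Finset κ) : ℕ :=
  Nat.card {f : A ≃ B // ∀ x, R x.1 (f x).1}

lemma card_Q (hs : ∀ j, s j ≠ j) : Nat.card {σ : Equiv.Perm (ι × κ) // Q s M W σ} =
    ∏ j, cnt (M j) (W j) (W (s j)) := by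
  rw [Nat.card_congr (layerEquiv hs), Nat.card_pi]
  rfl

lemma numDer_eq (hs : ∀ j, s j ≠ j) : numDer (LE s M) = ∏ j, cnt (M j) univ univ := by
  rw [← card_Q (W := fun _ => univ) hs]
  apply Nat.card_congr
  apply Equiv.subtypeEquivRight
  intro σ
  unfold Q
  simp

lemma numPerm_eq (hs : ∀ j, s j ≠ j) :
    numPerm (LE s M) = ∑ W : ι → Finset κ, ∏ j, cnt (M j) (W j) (W (s j)) := by
  classical
  unfold numPerm
  rw [Nat.card_eq_fintype_card, Fintype.card_subtype]
  rw [Finset.card_eq_sum_card_fiberwise (t := (univ : Finset (ι → Finset κ)))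
    (f := fun σ => fun j => univ.filter (fun x => σ (j, x) ≠ (j, x))) (fun _ _ => Finset.mem_coe.mpr (mem_univ _))]
  apply Finset.sum_congr rfl
  intro W _
  rw [← card_Q hs, Nat.card_eq_fintype_card, Fintype.card_subtype]
  congr 1
  ext σ
  simp only [mem_filter, mem_univ, true_and]
  constructor
  · rintro ⟨h1, h2⟩ ⟨j, x⟩
    have h3 : x ∈ W j ↔ σ (j, x) ≠ (j, x) := by
      rw [← h2]; simp
    constructor
    · intro hx
      rcases h1 (j, x) with h | h
      · exact absurd h (h3.mp hx)
      · exact h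
    · intro hx
      by_contra h
      exact hx (h3.mpr h)
  · intro h
    constructor
    · rintro ⟨j, x⟩
      by_cases hx : x ∈ W j
      · exact Or.inr ((h (j, x)).1 hx)
      · exact Or.inl ((h (j, x)).2 hx)
    · funext j
      ext x
      simp only [mem_filter, mem_univ, true_and]
      constructor
      · intro h1
        by_contra h2
        exact h1 ((h (j, x)).2 h2)
      · intro h1 h2
        have h3 := ((h (j, x)).1 h1).1
        rw [h2] at h3
        exact hs j h3.symm

lemma cnt_card {R : κ → κ → Prop} {A B : Finset κ} (h : A.card ≠ B.card) : cnt R A B = 0 := by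
  unfold cnt
  rw [Nat.card_eq_zero]
  left
  constructor
  rintro ⟨f, _⟩
  apply h
  simpa using Fintype.card_congr f

lemma cnt_le {R : κ → κ → Prop} {A B : Finset κ} : cnt R A B ≤ (A.card).factorial := by
  classical
  by_cases h : A.card = B.card
  · unfold cnt
    rw [Nat.card_eq_fintype_card]
    refine (Fintype.card_subtype_le _).trans ?_
    have e : A ≃ B := Fintype.equivOfCardEq (by simpa using h)
    rw [Fintype.card_equiv e]
    simp
  · rw [cnt_card h]; exact Nat.zero_le _

lemma cnt_true {R : κ → κ → Prop} (hR : ∀ x y, R x y) {A B : Finset κ} (h : A.card = B.card) :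
    cnt R A B = (A.card).factorial := by
  classical
  unfold cnt
  have e : A ≃ B := Fintype.equivOfCardEq (by simpa using h)
  rw [Nat.card_congr (Equiv.subtypeUnivEquiv (fun f => fun x => hR _ _)), Nat.card_eq_fintype_card,
    Fintype.card_equiv e]
  simp

end

end Pool.Agent.R520.Layer
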