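import Mathlib

set_option autoImplicit false

/-! Algebraic integers with all conjugates in an interval of length less than two. -/

namespace Pool.Agent.R520

open Polynomial

/-- exponents `a, b` -/
lemma exists_exponents (u v : ℝ) (hu : 0 < u) (hv : 0 < v) (huv : u + v < 1) :
    ∃ a b : ℕ, 1 ≤ a ∧ 1 ≤ b ∧ u ^ a * (1 + u) ^ b < 1 ∧ (1 + v) ^ a * v ^ b < 1 := by
  have h1 : 0 < Real.log (1 + u) := Real.log_pos (by linarith)
  have h2 : 0 < - Real.log u := by
    have := Real.log_neg hu (by linarith); linarith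
  have h3 : 0 < Real.log (1 + v) := Real.log_pos (by linarith)
  have h4 : 0 < - Real.log v := by
    have := Real.log_neg hv (by linarith); linarith
  have h5 : Real.log (1 + u) < - Real.log v := by
    have : Real.log ((1 + u) * v) < 0 := Real.log_neg (by positivity) (by nlinarith)
    rw [Real.log_mul (by positivity) hv.ne'] at this
    linarith
  have h6 : Real.log (1 + v) < - Real.log u := by
    have : Real.log ((1 + v) * u) < 0 := Real.log_neg (by positivity) (by nlinarith)
    rw [Real.log_mul (by positivity) hu.ne'] at this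
    linarith
  have h7 : Real.log (1 + u) / (- Real.log u) < (- Real.log v) / Real.log (1 + v) := by
    rw [div_lt_div_iff₀ h2 h3]
    nlinarith
  obtain ⟨q, hq1, hq2⟩ := exists_rat_btwn h7
  have hq0 : (0 : ℝ) < q := lt_trans (div_pos h1 h2) hq1
  have hq0' : 0 < q := by exact_mod_cast hq0
  obtain ⟨a, ha⟩ : ∃ a : ℕ, q.num = a := Int.eq_ofNat_of_zero_le (Rat.num_pos.mpr hq0').le
  have hb : 0 < q.den := q.den_pos
  have ha0 : 1 ≤ a := by
    have := Rat.num_pos.mpr hq0'
    omega
  have hqab : (q : ℝ) = a / q.den := by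
    conv_lhs => rw [← Rat.num_div_den q]
    rw [ha]; push_cast; rfl
  have hb' : (0 : ℝ) < q.den := by exact_mod_cast hb
  rw [hqab] at hq1 hq2
  rw [div_lt_div_iff₀ h2 hb'] at hq1
  rw [div_lt_div_iff₀ hb' h3] at hq2
  refine ⟨a, q.den, ha0, hb, ?_, ?_⟩
  · rw [← Real.log_neg_iff (by positivity), Real.log_mul (by positivity) (by positivity), Real.log_pow, Real.log_pow]
    nlinarith
  · rw [← Real.log_neg_iff (by positivity), Real.log_mul (by positivity) (by positivity), Real.log_pow, Real.log_pow]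
    nlinarith

lemma point_bound (u v : ℝ) (hu : 0 < u) (hv : 0 < v) (a b : ℕ) (ha : 1 ≤ a) (hb : 1 ≤ b)
    (h1 : u ^ a * (1 + u) ^ b < 1) (h2 : (1 + v) ^ a * v ^ b < 1) (x : ℝ) (hx1 : -u ≤ x) (hx2 : x ≤ 1 + v) :
    |x| ^ a * |1 - x| ^ b < 1 := by
  rcases lt_or_ge x 0 with h | h
  · have e1 : |x| ≤ u := by rw [abs_of_neg h]; linarith
    have e2 : |1 - x| ≤ 1 + u := by rw [abs_of_pos (by linarith)]; linarith
    calc |x| ^ a * |1 - x| ^ b ≤ u ^ a * (1 + u) ^ b := by gcongr
      _ < 1 := h1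
  · rcases lt_or_ge 1 x with h' | h'
    · have e1 : |x| ≤ 1 + v := by rw [abs_of_nonneg h]; linarith
      have e2 : |1 - x| ≤ v := by rw [abs_of_neg (by linarith)]; linarith
      calc |x| ^ a * |1 - x| ^ b ≤ (1 + v) ^ a * v ^ b := by gcongr
        _ < 1 := h2
    · rcases h'.lt_or_eq with h3 | h3
      · have e1 : |x| ^ a < 1 := by
          apply pow_lt_one₀ (abs_nonneg _) _ (by omega)
          rw [abs_of_nonneg h]; exact h3
        have e2 : |1 - x| ^ b ≤ 1 := by
          apply pow_le_one₀ (abs_nonneg _)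
          rw [abs_of_nonneg (by linarith)]; linarith
        calc |x| ^ a * |1 - x| ^ b ≤ |x| ^ a * 1 := by gcongr
          _ < 1 := by rw [mul_one]; exact e1
      · rw [h3]
        simp [show b ≠ 0 by omega]

/-- If a monic integer polynomial vanishes at the integer `k`, and it is the minimal polynomial of `x`, then `x = k`. -/
lemma minpoly_root (x : ℝ) (hx : IsIntegral ℤ x) (k : ℤ) (h : (minpoly ℤ x).eval k = 0) : x = k := by
  obtain ⟨q, hq⟩ := Polynomial.dvd_iff_isRoot.mpr h
  have hmon := minpoly.monic hx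
  have hqm : q.Monic := by
    rw [hq] at hmon
    exact (Polynomial.monic_X_sub_C k).of_mul_monic_left hmon
  have h1 := minpoly.aeval ℤ x
  rw [hq, map_mul, map_sub, aeval_X, aeval_C] at h1
  rcases mul_eq_zero.mp h1 with h2 | h2
  · have h5 : (algebraMap ℤ ℝ) k = (k : ℝ) := rfl
    rw [h5] at h2
    linarith
  · exfalso
    have h3 : minpoly ℤ x ∣ q := minpoly.isIntegrallyClosed_dvd hx h2
    have h4 := Polynomial.natDegree_le_of_dvd h3 hqm.ne_zero
    rw [hq, (Polynomial.monic_X_sub_C k).natDegree_mul hqm, Polynomial.natDegree_X_sub_C] at h4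
    omega

lemma norm_lemma (x : ℝ) (hx : IsIntegral ℤ x) (u v : ℝ) (hu : 0 ≤ u) (hv : 0 ≤ v) (huv : u + v < 1)
    (hroots : ∀ w ∈ ((minpoly ℤ x).map (Int.castRingHom ℂ)).roots, w.im = 0 ∧ -u ≤ w.re ∧ w.re ≤ 1 + v) :
    x = 0 ∨ x = 1 := by
  set e := (1 - u - v) / 4 with he
  have hepos : 0 < e := by rw [he]; linarith
  obtain ⟨a, b, ha, hb, h1, h2⟩ := exists_exponents (u + e) (v + e) (by linarith) (by linarith) (by rw [he]; linarith)
  set P := (minpoly ℤ x).map (Int.castRingHom ℂ) with hP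
  have hPm : P.Monic := (minpoly.monic hx).map _
  have hPs : P = (P.roots.map (fun w => X - C w)).prod := by
    have := (IsAlgClosed.splits P).eq_prod_roots_of_monic hPm
    exact this
  have hfac : ∀ w ∈ P.roots, ‖w‖ ^ a * ‖1 - w‖ ^ b < 1 := by
    intro w hw
    obtain ⟨g1, g2, g3⟩ := hroots w hw
    have hwr : w = (w.re : ℂ) := by
      apply Complex.ext
      · simp
      · simp [g1]
    have e1 : ‖w‖ = |w.re| := by
      rw [hwr, Complex.norm_real, Real.norm_eq_abs]; simp
    have e2 : ‖1 - w‖ = |1 - w.re| := by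
      have : (1 : ℂ) - w = ((1 - w.re : ℝ) : ℂ) := by
        rw [hwr]; push_cast; simp
      rw [this, Complex.norm_real, Real.norm_eq_abs]
    rw [e1, e2]
    exact point_bound (u + e) (v + e) (by linarith) (by linarith) a b ha hb h1 h2 w.re (by linarith) (by linarith)
  have hev : ∀ k : ℤ, ‖(((minpoly ℤ x).eval k : ℤ) : ℂ)‖ = (P.roots.map (fun w => ‖(k : ℂ) - w‖)).prod := by
    intro k
    have h3 : (((minpoly ℤ x).eval k : ℤ) : ℂ) = P.eval (k : ℂ) := by
      rw [hP, Polynomial.eval_map, Polynomial.eval₂_at_intCast]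
      simp
    rw [h3]
    conv_lhs => rw [hPs]
    rw [Polynomial.eval_multiset_prod, Multiset.map_map]
    have h4 : ∀ s : Multiset ℂ, ‖s.prod‖ = (s.map (fun w => ‖w‖)).prod := by
      intro s
      induction s using Multiset.induction_on with
      | empty => simp
      | cons a s ih => simp [ih]
    rw [h4, Multiset.map_map]
    congr 1
    apply Multiset.map_congr rfl
    intro w _
    simp
  have hprod : ‖(((minpoly ℤ x).eval 0 : ℤ) : ℂ)‖ ^ a * ‖(((minpoly ℤ x).eval 1 : ℤ) : ℂ)‖ ^ b < 1 := by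
    have h3 := hev 0
    have h4 := hev 1
    simp only [Int.cast_zero, Int.cast_one] at h3 h4
    rw [h3, h4, ← Multiset.prod_map_pow, ← Multiset.prod_map_pow, ← Multiset.prod_map_mul]
    have hne : P.roots ≠ 0 := by
      intro h0
      have h5 : P = 1 := by rw [hPs, h0]; simp
      have h6 : (minpoly ℤ x).natDegree = 0 := by
        have : P.natDegree = (minpoly ℤ x).natDegree := (minpoly.monic hx).natDegree_map _
        rw [← this, h5, natDegree_one]
      have := minpoly.natDegree_pos hx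
      omega
    have h5 : ∀ s : Multiset ℂ, (∀ w ∈ s, ‖w‖ ^ a * ‖1 - w‖ ^ b < 1) →
        (s.map (fun w => ‖0 - w‖ ^ a * ‖1 - w‖ ^ b)).prod ≤ 1 ∧
        (s ≠ 0 → (s.map (fun w => ‖0 - w‖ ^ a * ‖1 - w‖ ^ b)).prod < 1) := by
      intro s
      induction s using Multiset.induction_on with
      | empty => intro _; simp
      | cons c s ih =>
        intro hs
        have i1 := ih (fun w hw => hs w (Multiset.mem_cons_of_mem hw))
        have i2 := hs c (Multiset.mem_cons_self c s)
        have i3 : 0 ≤ (s.map (fun w => ‖0 - w‖ ^ a * ‖1 - w‖ ^ b)).prod := by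
          apply Multiset.prod_nonneg
          intro r hr
          rw [Multiset.mem_map] at hr
          obtain ⟨w, _, rfl⟩ := hr
          positivity
        have i4 : ‖0 - c‖ ^ a * ‖1 - c‖ ^ b < 1 := by rw [zero_sub, norm_neg]; exact i2
        rw [Multiset.map_cons, Multiset.prod_cons]
        have i5 : ‖0 - c‖ ^ a * ‖1 - c‖ ^ b * (s.map (fun w => ‖0 - w‖ ^ a * ‖1 - w‖ ^ b)).prod < 1 := by
          calc ‖0 - c‖ ^ a * ‖1 - c‖ ^ b * (s.map (fun w => ‖0 - w‖ ^ a * ‖1 - w‖ ^ b)).prod
              ≤ ‖0 - c‖ ^ a * ‖1 - c‖ ^ b * 1 := by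
                apply mul_le_mul_of_nonneg_left i1.1
                positivity
            _ < 1 := by rw [mul_one]; exact i4
        exact ⟨i5.le, fun _ => i5⟩
    exact (h5 P.roots hfac).2 hne
  have hint : ∀ N M : ℤ, ‖(N : ℂ)‖ ^ a * ‖(M : ℂ)‖ ^ b < 1 → N = 0 ∨ M = 0 := by
    intro N M h
    by_contra hc
    push Not at hc
    have g1 : 1 ≤ ‖(N : ℂ)‖ := by
      rw [Complex.norm_intCast]
      exact_mod_cast Int.one_le_abs hc.1
    have g2 : 1 ≤ ‖(M : ℂ)‖ := by
      rw [Complex.norm_intCast]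
      exact_mod_cast Int.one_le_abs hc.2
    have g3 : 1 ≤ ‖(N : ℂ)‖ ^ a := one_le_pow₀ g1
    have g4 : 1 ≤ ‖(M : ℂ)‖ ^ b := one_le_pow₀ g2
    nlinarith
  rcases hint _ _ hprod with h | h
  · left
    have := minpoly_root x hx 0 h
    simpa using this
  · right
    have := minpoly_root x hx 1 h
    simpa using this

end Pool.Agent.R520
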