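import Pool.Agent.R520.Lap

set_option autoImplicit false

/-! Polygonal digraphs: definitions and first facts. -/

namespace Pool.Agent.R520

open Finset Matrix

variable {V : Type} [Fintype V] [DecidableEq V]

/-- The Laplacian as a complex matrix. -/
noncomputable def lapC (Γ : V → V → Prop) : Matrix V V ℂ := fun i j => (lap Γ i j : ℂ)

/-- The restricted numerical range: all `x* L x` with `x` a complex vector of norm `1` orthogonal to the
all-ones vector. -/
def Wr (Γ : V → V → Prop) : Set ℂ :=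
  {w | ∃ x : V → ℂ, ∑ i, x i = 0 ∧ ∑ i, ‖x i‖ ^ 2 = 1 ∧ w = star x ⬝ᵥ (lapC Γ *ᵥ x)}

/-- The eigenvalues of `Q* L Q`, for `Q` with columns an orthonormal basis of the orthogonal complement of
the all-ones vector `e`. With `x = Q y`, `Q* L Q y = z y` says that `L x - z x` is orthogonal to the columns
of `Q`, that is, a multiple of `e`. -/
def reigs (Γ : V → V → Prop) : Set ℂ :=
  {z | ∃ x : V → ℂ, x ≠ 0 ∧ ∑ i, x i = 0 ∧ ∃ μ : ℂ, ∀ i, (lapC Γ *ᵥ x) i = z * x i + μ}

/-- `Γ` is polygonal: the restricted numerical range is the convex hull of the restricted eigenvalues. -/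
def Polygonal (Γ : V → V → Prop) : Prop := Wr Γ = convexHull ℝ (reigs Γ)

/-- the bilinear form -/
noncomputable def bf (Γ : V → V → Prop) (u v : V → ℝ) : ℝ := u ⬝ᵥ (lap Γ *ᵥ v)

lemma bf_self (Γ : V → V → Prop) (u : V → ℝ) : bf Γ u u = qf Γ u := rfl

lemma form_re_im (Γ : V → V → Prop) (x : V → ℂ) :
    star x ⬝ᵥ (lapC Γ *ᵥ x) =
      (⟨bf Γ (fun i => (x i).re) (fun i => (x i).re) + bf Γ (fun i => (x i).im) (fun i => (x i).im),
        bf Γ (fun i => (x i).re) (fun i => (x i).im) - bf Γ (fun i => (x i).im) (fun i => (x i).re)⟩ : ℂ) := by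
  unfold bf dotProduct
  simp only [Matrix.mulVec, dotProduct, lapC, Finset.mul_sum]
  apply Complex.ext
  · simp only [Complex.re_sum]
    rw [← Finset.sum_add_distrib]
    apply Finset.sum_congr rfl
    intro i _
    rw [← Finset.sum_add_distrib]
    apply Finset.sum_congr rfl
    intro j _
    simp only [Pi.star_apply, RCLike.star_def, Complex.mul_re, Complex.conj_re, Complex.conj_im,
      Complex.ofReal_re, Complex.ofReal_im, Complex.mul_im]
    ring
  · simp only [Complex.im_sum]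
    rw [← Finset.sum_sub_distrib]
    apply Finset.sum_congr rfl
    intro i _
    rw [← Finset.sum_sub_distrib]
    apply Finset.sum_congr rfl
    intro j _
    simp only [Pi.star_apply, RCLike.star_def, Complex.mul_re, Complex.conj_re, Complex.conj_im,
      Complex.ofReal_re, Complex.ofReal_im, Complex.mul_im]
    ring

lemma lapC_re (Γ : V → V → Prop) (x : V → ℂ) (i : V) :
    ((lapC Γ *ᵥ x) i).re = (lap Γ *ᵥ (fun i => (x i).re)) i := by
  simp only [Matrix.mulVec, dotProduct, lapC, Complex.re_sum]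
  apply Finset.sum_congr rfl
  intro j _
  simp

lemma lapC_im (Γ : V → V → Prop) (x : V → ℂ) (i : V) :
    ((lapC Γ *ᵥ x) i).im = (lap Γ *ᵥ (fun i => (x i).im)) i := by
  simp only [Matrix.mulVec, dotProduct, lapC, Complex.im_sum]
  apply Finset.sum_congr rfl
  intro j _
  simp

lemma norm_sq_sum (x : V → ℂ) : ∑ i, ‖x i‖ ^ 2 = ∑ i, (x i).re ^ 2 + ∑ i, (x i).im ^ 2 := by
  rw [← Finset.sum_add_distrib]
  apply Finset.sum_congr rfl
  intro i _
  rw [← Complex.normSq_eq_norm_sq, Complex.normSq_apply]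
  ring

lemma sum_re (x : V → ℂ) (h : ∑ i, x i = 0) : ∑ i, (x i).re = 0 := by
  rw [← Complex.re_sum, h]; rfl

lemma sum_im (x : V → ℂ) (h : ∑ i, x i = 0) : ∑ i, (x i).im = 0 := by
  rw [← Complex.im_sum, h]; rfl

/-- every restricted eigenvalue lies in the restricted numerical range -/
lemma reigs_subset (Γ : V → V → Prop) : reigs Γ ⊆ Wr Γ := by
  rintro z ⟨x, hx0, hsum, μ, hx⟩
  set s : ℝ := ∑ i, ‖x i‖ ^ 2 with hs
  have hspos : 0 < s := by
    obtain ⟨i, hi⟩ : ∃ i, x i ≠ 0 := by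
      by_contra h
      push Not at h
      exact hx0 (funext h)
    have h1 : 0 < ‖x i‖ ^ 2 := by
      have := norm_pos_iff.mpr hi
      positivity
    exact lt_of_lt_of_le h1 (Finset.single_le_sum (f := fun i => ‖x i‖ ^ 2) (fun i _ => by positivity) (mem_univ i))
  have hsq : ((Real.sqrt s)⁻¹ : ℝ) ^ 2 * s = 1 := by
    rw [inv_pow, Real.sq_sqrt hspos.le]
    exact inv_mul_cancel₀ hspos.ne'
  refine ⟨fun i => (((Real.sqrt s)⁻¹ : ℝ) : ℂ) * x i, ?_, ?_, ?_⟩
  · rw [← Finset.mul_sum, hsum, mul_zero]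
  · simp only [norm_mul, mul_pow, Complex.norm_real, Real.norm_eq_abs, sq_abs]
    rw [← Finset.mul_sum]
    exact hsq
  · have h1 : ∀ i, (lapC Γ *ᵥ (fun i => (((Real.sqrt s)⁻¹ : ℝ) : ℂ) * x i)) i
        = (((Real.sqrt s)⁻¹ : ℝ) : ℂ) * (z * x i + μ) := by
      intro i
      rw [← hx i]
      simp only [Matrix.mulVec, dotProduct, Finset.mul_sum]
      apply Finset.sum_congr rfl
      intro j _
      ring
    unfold dotProduct
    rw [Finset.sum_congr rfl (fun i _ => by rw [h1 i])]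
    have h2 : ∀ i, (star (fun i => (((Real.sqrt s)⁻¹ : ℝ) : ℂ) * x i)) i *
        ((((Real.sqrt s)⁻¹ : ℝ) : ℂ) * (z * x i + μ)) =
        z * ((((Real.sqrt s)⁻¹ : ℝ) ^ 2 * ‖x i‖ ^ 2 : ℝ) : ℂ) +
          (((Real.sqrt s)⁻¹ : ℝ) : ℂ) ^ 2 * μ * (starRingEnd ℂ) (x i) := by
      intro i
      have h3 : ((‖x i‖ ^ 2 : ℝ) : ℂ) = (starRingEnd ℂ) (x i) * x i := by
        rw [← Complex.normSq_eq_norm_sq, Complex.normSq_eq_conj_mul_self]
      simp only [Pi.star_apply, RCLike.star_def, map_mul, Complex.conj_ofReal]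
      push_cast
      push_cast at h3
      rw [h3]
      ring
    rw [Finset.sum_congr rfl (fun i _ => h2 i), Finset.sum_add_distrib, ← Finset.mul_sum, ← Finset.mul_sum,
      ← Complex.ofReal_sum, ← Finset.mul_sum, ← map_sum, hsum, map_zero, mul_zero, add_zero]
    rw [← hs, hsq]
    simp

end Pool.Agent.R520
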