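import Pool.Agent.R520.Poly
import Pool.Agent.R520.EigRoots

set_option autoImplicit false

/-! No polygonal digraph has Laplacian spread strictly between 0 and 1. -/

namespace Pool.Agent.R520

open Finset Matrix

variable {V : Type} [Fintype V] [DecidableEq V]

open Classical in
/-- an arc as an integer -/
noncomputable def az (Γ : V → V → Prop) (i j : V) : ℤ := if Γ i j then 1 else 0

/-- the integers `t_ij` -/
noncomputable def tz (Γ : V → V → Prop) (i j : V) : ℤ := (outdeg Γ i : ℤ) + outdeg Γ j + az Γ i j + az Γ j i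

lemma tz_symm (Γ : V → V → Prop) (i j : V) : tz Γ i j = tz Γ j i := by
  unfold tz; ring

lemma az_self (Γ : V → V → Prop) (hl : ∀ i, ¬ Γ i i) (i : V) : az Γ i i = 0 := by
  unfold az; rw [if_neg (hl i)]

lemma qf_az (Γ : V → V → Prop) (x : V → ℝ) :
    qf Γ x = ∑ i, (outdeg Γ i : ℝ) * x i ^ 2 - ∑ i, ∑ j, (az Γ i j : ℝ) * (x i * x j) := by
  classical
  rw [qf_eq]
  congr 1
  apply Finset.sum_congr rfl
  intro i _
  apply Finset.sum_congr rfl
  intro j _
  unfold az
  split_ifs <;> simp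

lemma qf_tz (Γ : V → V → Prop) (hl : ∀ i, ¬ Γ i i) (x : V → ℝ) (hx : ∑ i, x i = 0) :
    qf Γ x = - (1 / 2) * ∑ i, ∑ j, (if i = j then 0 else (tz Γ i j : ℝ)) * (x i * x j) := by
  have h1 : ∑ i, ∑ j, (if i = j then 0 else (tz Γ i j : ℝ)) * (x i * x j) =
      ∑ i, ∑ j, (tz Γ i j : ℝ) * (x i * x j) - ∑ i, 2 * (outdeg Γ i : ℝ) * x i ^ 2 := by
    rw [← Finset.sum_sub_distrib]
    apply Finset.sum_congr rfl
    intro i _
    have h2 : ∑ j, (if i = j then 0 else (tz Γ i j : ℝ)) * (x i * x j) =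
        ∑ j, ((tz Γ i j : ℝ) * (x i * x j) - if i = j then (tz Γ i j : ℝ) * (x i * x j) else 0) := by
      apply Finset.sum_congr rfl
      intro j _
      split_ifs <;> ring
    rw [h2, Finset.sum_sub_distrib, Finset.sum_ite_eq, if_pos (mem_univ _)]
    congr 1
    unfold tz
    rw [az_self Γ hl]
    push_cast
    ring
  have h3 : ∑ i, ∑ j, (tz Γ i j : ℝ) * (x i * x j) = 2 * ∑ i, ∑ j, (az Γ i j : ℝ) * (x i * x j) := by
    have h4 : ∀ i j, (tz Γ i j : ℝ) * (x i * x j) = ((outdeg Γ i : ℝ) * x i) * x j + x i * ((outdeg Γ j : ℝ) * x j)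
        + (az Γ i j : ℝ) * (x i * x j) + (az Γ j i : ℝ) * (x j * x i) := by
      intro i j
      unfold tz
      push_cast
      ring
    simp only [h4, Finset.sum_add_distrib]
    have h5 : ∑ i, ∑ j, ((outdeg Γ i : ℝ) * x i) * x j = 0 := by
      simp only [← Finset.mul_sum, hx, mul_zero, Finset.sum_const_zero]
    have h6 : ∑ i, ∑ j, x i * ((outdeg Γ j : ℝ) * x j) = 0 := by
      simp only [← Finset.mul_sum]
      rw [← Finset.sum_mul, hx, zero_mul]
    have h7 : ∑ i, ∑ j, (az Γ j i : ℝ) * (x j * x i) = ∑ i, ∑ j, (az Γ i j : ℝ) * (x i * x j) := by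
      rw [Finset.sum_comm]
    rw [h5, h6, h7]
    ring
  rw [qf_az, h1, h3]
  have h8 : ∑ i, 2 * (outdeg Γ i : ℝ) * x i ^ 2 = 2 * ∑ i, (outdeg Γ i : ℝ) * x i ^ 2 := by
    rw [Finset.mul_sum]
    apply Finset.sum_congr rfl
    intro i _; ring
  rw [h8]
  ring

/-- a vector supported on three vertices -/
def tri (i j k : V) (a b c : ℝ) (v : V) : ℝ :=
  (if v = i then a else 0) + (if v = j then b else 0) + (if v = k then c else 0)

lemma tri_sum (i j k : V) (a b c : ℝ) (f : V → ℝ) : ∑ v, tri i j k a b c v * f v = a * f i + b * f j + c * f k := by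
  unfold tri
  simp only [add_mul, Finset.sum_add_distrib, ite_mul, zero_mul, Finset.sum_ite_eq', mem_univ, if_true]

lemma tri_zero (i j k : V) (a b c : ℝ) : ∑ v, tri i j k a b c v = a + b + c := by
  have := tri_sum i j k a b c (fun _ => 1)
  simpa using this

lemma tri_sq {i j k : V} (hij : i ≠ j) (hik : i ≠ k) (hjk : j ≠ k) (a b c : ℝ) :
    ∑ v, tri i j k a b c v ^ 2 = a ^ 2 + b ^ 2 + c ^ 2 := by
  simp only [pow_two]
  rw [tri_sum]
  simp [tri, hij, hik, hjk, hij.symm, hik.symm, hjk.symm]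

lemma tri_qf (Γ : V → V → Prop) (hl : ∀ i, ¬ Γ i i) {i j k : V} (hij : i ≠ j) (hik : i ≠ k) (hjk : j ≠ k)
    (a b c : ℝ) (h : a + b + c = 0) :
    qf Γ (tri i j k a b c) = -(tz Γ i j * (a * b) + tz Γ i k * (a * c) + tz Γ j k * (b * c)) := by
  rw [qf_tz Γ hl _ (by rw [tri_zero, h])]
  have h1 : ∀ p, ∑ q, (if p = q then 0 else (tz Γ p q : ℝ)) * (tri i j k a b c p * tri i j k a b c q) =
      tri i j k a b c p * (a * (if p = i then 0 else (tz Γ p i : ℝ)) + b * (if p = j then 0 else (tz Γ p j : ℝ)) +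
        c * (if p = k then 0 else (tz Γ p k : ℝ))) := by
    intro p
    rw [← tri_sum i j k a b c (fun q => if p = q then 0 else (tz Γ p q : ℝ)), Finset.mul_sum]
    apply Finset.sum_congr rfl
    intro q _; ring
  simp only [h1]
  rw [tri_sum]
  simp only [if_true, hij, hik, hjk, hij.symm, hik.symm, hjk.symm, if_false]
  rw [tz_symm Γ j i, tz_symm Γ k i, tz_symm Γ k j]
  ring

/-- a vector supported on two vertices -/
def duo (i j : V) (v : V) : ℝ := (if v = i then 1 else 0) - (if v = j then 1 else 0)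

lemma duo_sum (i j : V) (f : V → ℝ) : ∑ v, duo i j v * f v = f i - f j := by
  unfold duo
  simp only [sub_mul, Finset.sum_sub_distrib, ite_mul, zero_mul, one_mul, Finset.sum_ite_eq', mem_univ, if_true]

lemma duo_zero (i j : V) : ∑ v, duo i j v = 0 := by
  have := duo_sum i j (fun _ => 1)
  simpa using this

lemma duo_sq {i j : V} (hij : i ≠ j) : ∑ v, duo i j v ^ 2 = 2 := by
  simp only [pow_two]
  rw [duo_sum]
  simp [duo, hij, hij.symm]
  norm_num

lemma duo_qf (Γ : V → V → Prop) (hl : ∀ i, ¬ Γ i i) {i j : V} (hij : i ≠ j) : qf Γ (duo i j) = tz Γ i j := by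
  rw [qf_tz Γ hl _ (duo_zero i j)]
  have h1 : ∀ p, ∑ q, (if p = q then 0 else (tz Γ p q : ℝ)) * (duo i j p * duo i j q) =
      duo i j p * ((if p = i then 0 else (tz Γ p i : ℝ)) - (if p = j then 0 else (tz Γ p j : ℝ))) := by
    intro p
    rw [← duo_sum i j (fun q => if p = q then 0 else (tz Γ p q : ℝ)), Finset.mul_sum]
    apply Finset.sum_congr rfl
    intro q _; ring
  simp only [h1]
  rw [duo_sum]
  simp only [if_true, hij, hij.symm, if_false]
  rw [tz_symm Γ j i]
  ring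

/-- a quadratic polynomial without constant term and of constant sign has no linear term -/
lemma lin_zero (p q : ℝ) (h : ∀ s : ℝ, 0 ≤ p * s + q * s ^ 2) : p = 0 := by
  by_contra hp
  have h1 := h (-(p / (2 * (|q| + 1))))
  have h2 : 0 < |q| + 1 := by positivity
  have h3 : p * -(p / (2 * (|q| + 1))) + q * (-(p / (2 * (|q| + 1)))) ^ 2 =
      (p ^ 2 / (4 * (|q| + 1) ^ 2)) * (q - 2 * (|q| + 1)) := by
    field_simp
    ring
  rw [h3] at h1
  have h4 : q - 2 * (|q| + 1) < 0 := by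
    have := le_abs_self q
    have := abs_nonneg q
    linarith
  have h5 : 0 < p ^ 2 / (4 * (|q| + 1) ^ 2) := by positivity
  have := mul_neg_of_pos_of_neg h5 h4
  linarith

/-- If `e_i - e_j` attains the least value of the form, then `i` and `j` are twins. -/
lemma twins_low (Γ : V → V → Prop) (hl : ∀ i, ¬ Γ i i) {i j k : V} (hij : i ≠ j) (hik : i ≠ k) (hjk : j ≠ k)
    (h : 2 * alpha Γ = tz Γ i j) : tz Γ i k = tz Γ j k := by
  have h1 : ∀ s : ℝ, 0 ≤ (-2 * (tz Γ i k - tz Γ j k : ℝ)) * s + (2 * tz Γ i k + 2 * tz Γ j k - 4 * tz Γ i j : ℝ) * s ^ 2 := by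
    intro s
    have h2 := alpha_le Γ (tri i j k (1 - s) (-1 - s) (2 * s)) (by rw [tri_zero]; ring)
    rw [tri_qf Γ hl hij hik hjk _ _ _ (by ring), tri_sq hij hik hjk] at h2
    have h3 : alpha Γ = tz Γ i j / 2 := by linarith
    rw [h3] at h2
    nlinarith
  have h2 := lin_zero _ _ h1
  have h3 : (tz Γ i k : ℝ) = tz Γ j k := by linarith
  exact_mod_cast h3

lemma twins_high (Γ : V → V → Prop) (hl : ∀ i, ¬ Γ i i) {i j k : V} (hij : i ≠ j) (hik : i ≠ k) (hjk : j ≠ k)
    (h : 2 * beta Γ = tz Γ i j) : tz Γ i k = tz Γ j k := by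
  have h1 : ∀ s : ℝ, 0 ≤ (2 * (tz Γ i k - tz Γ j k : ℝ)) * s + (-(2 * tz Γ i k + 2 * tz Γ j k - 4 * tz Γ i j : ℝ)) * s ^ 2 := by
    intro s
    have h2 := le_beta Γ (tri i j k (1 - s) (-1 - s) (2 * s)) (by rw [tri_zero]; ring)
    rw [tri_qf Γ hl hij hik hjk _ _ _ (by ring), tri_sq hij hik hjk] at h2
    have h3 : beta Γ = tz Γ i j / 2 := by linarith
    rw [h3] at h2
    nlinarith
  have h2 := lin_zero _ _ h1
  have h3 : (tz Γ i k : ℝ) = tz Γ j k := by linarith
  exact_mod_cast h3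

/-! ### Restricted eigenvalues are algebraic integers -/

/-- the integer Laplacian -/
noncomputable def lapZ (Γ : V → V → Prop) : Matrix V V ℤ :=
  fun i j => (if i = j then (outdeg Γ i : ℤ) else 0) - az Γ i j

lemma lapC_eq (Γ : V → V → Prop) : lapC Γ = (lapZ Γ).map (Int.castRingHom ℂ) := by
  classical
  ext i j
  simp only [lapC, lap, lapZ, az, Matrix.map_apply]
  push_cast
  split_ifs <;> simp

lemma lap_row (Γ : V → V → Prop) (i : V) : ∑ j, lap Γ i j = 0 := by
  classical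
  unfold lap
  rw [Finset.sum_sub_distrib, Finset.sum_ite_eq, if_pos (mem_univ _)]
  unfold outdeg
  rw [Finset.card_filter]
  push_cast
  exact sub_self _

lemma reigs_root (Γ : V → V → Prop) {z : ℂ} (hz : z ∈ reigs Γ) : z = 0 ∨ (lapC Γ).charpoly.eval z = 0 := by
  obtain ⟨x, hx0, hsum, μ, hx⟩ := hz
  by_cases h : z = 0
  · exact Or.inl h
  · right
    have hrow : ∀ i, ∑ j, lapC Γ i j = 0 := by
      intro i
      unfold lapC
      rw [← Complex.ofReal_sum, lap_row]; rfl
    apply root_of_vec _ z (fun i => x i + μ / z)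
    · intro h0
      apply hx0
      have h1 : ∀ i, x i = - (μ / z) := by
        intro i
        have := congrFun h0 i
        simp only [Pi.zero_apply] at this
        exact eq_neg_of_add_eq_zero_left this
      have h2 : (Fintype.card V : ℂ) * (- (μ / z)) = 0 := by
        rw [← hsum]
        simp only [h1]
        rw [Finset.sum_const, card_univ, nsmul_eq_mul]
      funext i
      have h3 : (Fintype.card V : ℂ) ≠ 0 := by
        have : 0 < Fintype.card V := Fintype.card_pos_iff.mpr ⟨i⟩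
        exact_mod_cast this.ne'
      rw [h1 i]
      rcases mul_eq_zero.mp h2 with h4 | h4
      · exact absurd h4 h3
      · exact h4
    · funext i
      have h1 : (lapC Γ *ᵥ (fun i => x i + μ / z)) i = (lapC Γ *ᵥ x) i + (μ / z) * ∑ j, lapC Γ i j := by
        simp only [Matrix.mulVec, dotProduct]
        rw [Finset.mul_sum, ← Finset.sum_add_distrib]
        apply Finset.sum_congr rfl
        intro j _; ring
      rw [h1, hrow, hx i]
      simp only [Pi.smul_apply, smul_eq_mul]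
      field_simp
      ring

lemma reigs_integral (Γ : V → V → Prop) {z : ℂ} (hz : z ∈ reigs Γ) : IsIntegral ℤ z := by
  rcases reigs_root Γ hz with h | h
  · rw [h]; exact isIntegral_zero
  · refine ⟨(lapZ Γ).charpoly, Matrix.charpoly_monic _, ?_⟩
    rw [lapC_eq, Matrix.charpoly_map, Polynomial.eval_map] at h
    exact h

lemma reigs_finite (Γ : V → V → Prop) : (reigs Γ).Finite := by
  apply Set.Finite.subset (s := {0} ∪ ((lapC Γ).charpoly.roots.toFinset : Set ℂ))
  · exact (Set.finite_singleton 0).union (Finset.finite_toSet _)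
  · intro z hz
    rcases reigs_root Γ hz with h | h
    · left; exact h
    · right
      rw [Finset.mem_coe, Multiset.mem_toFinset, Polynomial.mem_roots (Matrix.charpoly_monic _).ne_zero]
      exact h

lemma two_re_integral (Γ : V → V → Prop) {z : ℂ} (hz : z ∈ reigs Γ) : IsIntegral ℤ (2 * z.re) := by
  have h1 := reigs_integral Γ hz
  have h2 : IsIntegral ℤ ((starRingEnd ℂ) z) := h1.map ((starRingEnd ℂ).toIntAlgHom)
  have h3 : z + (starRingEnd ℂ) z = algebraMap ℝ ℂ (2 * z.re) := by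
    rw [Complex.add_conj]; rfl
  have h4 := h1.add h2
  rw [h3] at h4
  exact (isIntegral_algebraMap_iff (algebraMap ℝ ℂ).injective).mp h4

lemma real_mem_Wr (Γ : V → V → Prop) {r : ℝ} (hr : r ∈ vals Γ) : (r : ℂ) ∈ Wr Γ := by
  obtain ⟨x, h0, h1, rfl⟩ := hr
  refine ⟨fun i => (x i : ℂ), ?_, ?_, ?_⟩
  · rw [← Complex.ofReal_sum, h0]; rfl
  · simpa using h1
  · rw [form_re_im]
    apply Complex.ext
    · simp only [Complex.ofReal_re, Complex.ofReal_im]
      unfold bf
      simp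
    · simp only [Complex.ofReal_re, Complex.ofReal_im]
      unfold bf dotProduct
      simp [Matrix.mulVec, dotProduct]

lemma Wr_re (Γ : V → V → Prop) {w : ℂ} (hw : w ∈ Wr Γ) : alpha Γ ≤ w.re ∧ w.re ≤ beta Γ := by
  obtain ⟨x, hsum, hnorm, rfl⟩ := hw
  rw [norm_sq_sum] at hnorm
  have hu := sum_re x hsum
  have hv := sum_im x hsum
  rw [form_re_im]
  simp only [bf_self]
  have h1 := alpha_le Γ _ hu
  have h2 := alpha_le Γ _ hv
  have h3 := le_beta Γ _ hu
  have h4 := le_beta Γ _ hv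
  constructor
  · calc alpha Γ = alpha Γ * (∑ i, (x i).re ^ 2 + ∑ i, (x i).im ^ 2) := by rw [hnorm, mul_one]
      _ ≤ _ := by rw [mul_add]; exact add_le_add h1 h2
  · calc _ ≤ beta Γ * (∑ i, (x i).re ^ 2 + ∑ i, (x i).im ^ 2) := by rw [mul_add]; exact add_le_add h3 h4
      _ = beta Γ := by rw [hnorm, mul_one]

lemma vals_ne (Γ : V → V → Prop) (hn : 2 ≤ Fintype.card V) : (vals Γ).Nonempty := by
  obtain ⟨i, j, hij⟩ := Fintype.one_lt_card_iff.mp (by omega : 1 < Fintype.card V)
  exact ⟨_, mem_vals Γ (duo i j) (duo_zero i j) (by rw [duo_sq hij]; norm_num)⟩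

/-- For a polygonal digraph, `α` is the real part of a restricted eigenvalue. -/
lemma exists_low (Γ : V → V → Prop) (hn : 2 ≤ Fintype.card V) (hp : Polygonal Γ) : ∃ z ∈ reigs Γ, z.re = alpha Γ := by
  have hne : (reigs Γ).Nonempty := by
    rw [← convexHull_nonempty_iff (𝕜 := ℝ), ← hp]
    obtain ⟨r, hr⟩ := vals_ne Γ hn
    exact ⟨_, real_mem_Wr Γ hr⟩
  obtain ⟨z, hz, hmin⟩ := Set.exists_min_image (reigs Γ) (fun z => z.re) (reigs_finite Γ) hne
  refine ⟨z, hz, le_antisymm ?_ (Wr_re Γ (reigs_subset Γ hz)).1⟩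
  apply le_csInf (vals_ne Γ hn)
  intro r hr
  have h1 := real_mem_Wr Γ hr
  rw [hp] at h1
  have h2 : convexHull ℝ (reigs Γ) ⊆ {w : ℂ | z.re ≤ w.re} := by
    apply convexHull_min
    · intro w hw; exact hmin w hw
    · exact convex_halfSpace_re_ge _
  exact h2 h1

lemma exists_high (Γ : V → V → Prop) (hn : 2 ≤ Fintype.card V) (hp : Polygonal Γ) : ∃ z ∈ reigs Γ, z.re = beta Γ := by
  have hne : (reigs Γ).Nonempty := by
    rw [← convexHull_nonempty_iff (𝕜 := ℝ), ← hp]
    obtain ⟨r, hr⟩ := vals_ne Γ hn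
    exact ⟨_, real_mem_Wr Γ hr⟩
  obtain ⟨z, hz, hmax⟩ := Set.exists_max_image (reigs Γ) (fun z => z.re) (reigs_finite Γ) hne
  refine ⟨z, hz, le_antisymm (Wr_re Γ (reigs_subset Γ hz)).2 ?_⟩
  apply csSup_le (vals_ne Γ hn)
  intro r hr
  have h1 := real_mem_Wr Γ hr
  rw [hp] at h1
  have h2 : convexHull ℝ (reigs Γ) ⊆ {w : ℂ | w.re ≤ z.re} := by
    apply convexHull_min
    · intro w hw; exact hmax w hw
    · exact convex_halfSpace_re_le _
  exact h2 h1

end Pool.Agent.R520
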