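import Pool.Agent.R520.PolyGap

set_option autoImplicit false
set_option linter.unusedSectionVars false

/-! No polygonal digraph has Laplacian spread strictly between 0 and 1: the end of the proof. -/

namespace Pool.Agent.R520

open Finset Matrix

variable {V : Type} [Fintype V] [DecidableEq V]

lemma eig_forms (Γ : V → V → Prop) {z : ℂ} (hz : z ∈ reigs Γ) : ∃ u v : V → ℝ, (u ≠ 0 ∨ v ≠ 0) ∧ ∑ i, u i = 0 ∧
    ∑ i, v i = 0 ∧ qf Γ u + qf Γ v = z.re * (∑ i, u i ^ 2 + ∑ i, v i ^ 2) := by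
  obtain ⟨x, hx0, hsum, μ, hx⟩ := hz
  refine ⟨fun i => (x i).re, fun i => (x i).im, ?_, sum_re x hsum, sum_im x hsum, ?_⟩
  · by_contra h
    push Not at h
    apply hx0
    funext i
    exact Complex.ext (congrFun h.1 i) (congrFun h.2 i)
  · have hu := sum_re x hsum
    have hv := sum_im x hsum
    have h1 : qf Γ (fun i => (x i).re) = ∑ i, (x i).re * (z.re * (x i).re - z.im * (x i).im + μ.re) := by
      unfold qf dotProduct
      apply Finset.sum_congr rfl
      intro i _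
      rw [← lapC_re, hx i]
      simp
    have h2 : qf Γ (fun i => (x i).im) = ∑ i, (x i).im * (z.re * (x i).im + z.im * (x i).re + μ.im) := by
      unfold qf dotProduct
      apply Finset.sum_congr rfl
      intro i _
      rw [← lapC_im, hx i]
      simp
    rw [h1, h2, ← Finset.sum_add_distrib, ← Finset.sum_add_distrib, Finset.mul_sum]
    have h3 : ∀ i, (x i).re * (z.re * (x i).re - z.im * (x i).im + μ.re) +
        (x i).im * (z.re * (x i).im + z.im * (x i).re + μ.im) =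
        z.re * ((x i).re ^ 2 + (x i).im ^ 2) + (μ.re * (x i).re + μ.im * (x i).im) := by
      intro i; ring
    simp only [h3]
    have h4 : ∑ i, (μ.re * (x i).re + μ.im * (x i).im) = 0 := by
      rw [Finset.sum_add_distrib, ← Finset.mul_sum, ← Finset.mul_sum, hu, hv]; ring
    rw [Finset.sum_add_distrib, h4, add_zero]

lemma low_vec (Γ : V → V → Prop) (hn : 2 ≤ Fintype.card V) (hp : Polygonal Γ) : IsIntegral ℤ (2 * alpha Γ) ∧
    ∃ u : V → ℝ, u ≠ 0 ∧ ∑ i, u i = 0 ∧ qf Γ u = alpha Γ * ∑ i, u i ^ 2 := by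
  obtain ⟨z, hz, hre⟩ := exists_low Γ hn hp
  refine ⟨by rw [← hre]; exact two_re_integral Γ hz, ?_⟩
  obtain ⟨u, v, h0, hu, hv, h⟩ := eig_forms Γ hz
  rw [hre] at h
  have h1 := alpha_le Γ u hu
  have h2 := alpha_le Γ v hv
  rcases h0 with h0 | h0
  · exact ⟨u, h0, hu, by linarith⟩
  · exact ⟨v, h0, hv, by linarith⟩

lemma high_vec (Γ : V → V → Prop) (hn : 2 ≤ Fintype.card V) (hp : Polygonal Γ) : IsIntegral ℤ (2 * beta Γ) ∧
    ∃ u : V → ℝ, u ≠ 0 ∧ ∑ i, u i = 0 ∧ qf Γ u = beta Γ * ∑ i, u i ^ 2 := by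
  obtain ⟨z, hz, hre⟩ := exists_high Γ hn hp
  refine ⟨by rw [← hre]; exact two_re_integral Γ hz, ?_⟩
  obtain ⟨u, v, h0, hu, hv, h⟩ := eig_forms Γ hz
  rw [hre] at h
  have h1 := le_beta Γ u hu
  have h2 := le_beta Γ v hv
  rcases h0 with h0 | h0
  · exact ⟨u, h0, hu, by linarith⟩
  · exact ⟨v, h0, hv, by linarith⟩

/-- the integer matrix `L + Lᵀ - κ` -/
noncomputable def sz (Γ : V → V → Prop) (κ : ℤ) (i j : V) : ℤ :=
  (if i = j then 2 * (outdeg Γ i : ℤ) - κ else 0) - az Γ i j - az Γ j i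

lemma sz_symm (Γ : V → V → Prop) (κ : ℤ) (i j : V) : sz Γ κ i j = sz Γ κ j i := by
  unfold sz
  by_cases h : i = j
  · rw [h]
  · rw [if_neg h, if_neg (Ne.symm h)]; ring

lemma sz_form (Γ : V → V → Prop) (κ : ℤ) (x : V → ℝ) :
    ∑ i, ∑ j, (sz Γ κ i j : ℝ) * (x i * x j) = 2 * qf Γ x - κ * ∑ i, x i ^ 2 := by
  have h1 : ∀ i j, (sz Γ κ i j : ℝ) * (x i * x j) = (if i = j then (2 * (outdeg Γ i : ℝ) - κ) * (x i * x j) else 0)
      - (az Γ i j : ℝ) * (x i * x j) - (az Γ j i : ℝ) * (x j * x i) := by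
    intro i j
    unfold sz
    push_cast
    split_ifs <;> ring
  simp only [h1, Finset.sum_sub_distrib, Finset.sum_ite_eq, mem_univ, if_true]
  have h2 : ∑ i, ∑ j, (az Γ j i : ℝ) * (x j * x i) = ∑ i, ∑ j, (az Γ i j : ℝ) * (x i * x j) := by
    rw [Finset.sum_comm]
  rw [h2, qf_az, Finset.mul_sum]
  have h3 : ∑ i, (2 * (outdeg Γ i : ℝ) - κ) * (x i * x i) = 2 * ∑ i, (outdeg Γ i : ℝ) * x i ^ 2 - ∑ i, κ * x i ^ 2 := by
    rw [Finset.mul_sum, ← Finset.sum_sub_distrib]
    apply Finset.sum_congr rfl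
    intro i _; ring
  rw [h3]
  ring

/-- the projection onto the orthogonal complement of the all-ones vector -/
noncomputable def pq (V : Type) [Fintype V] [DecidableEq V] (i j : V) : ℚ :=
  (if i = j then 1 else 0) - 1 / (Fintype.card V : ℚ)

lemma pq_symm (i j : V) : pq V i j = pq V j i := by
  unfold pq
  simp only [eq_comm]

/-- the rational matrix `P (L + Lᵀ - κ) P` -/
noncomputable def bq (Γ : V → V → Prop) (κ : ℤ) : Matrix V V ℚ :=
  fun i j => ∑ k, ∑ l, pq V k i * ((sz Γ κ k l : ℚ) * pq V l j)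

lemma bq_symm (Γ : V → V → Prop) (κ : ℤ) (i j : V) : bq Γ κ i j = bq Γ κ j i := by
  unfold bq
  rw [Finset.sum_comm]
  apply Finset.sum_congr rfl
  intro k _
  apply Finset.sum_congr rfl
  intro l _
  rw [sz_symm]
  ring

/-- the projection of a vector -/
noncomputable def pr (y : V → ℝ) (k : V) : ℝ := ∑ i, (pq V k i : ℝ) * y i

lemma pr_eq (y : V → ℝ) (k : V) : pr y k = y k - (∑ i, y i) / Fintype.card V := by
  have h : ∀ i, (pq V k i : ℝ) * y i = (if k = i then y i else 0) - 1 / (Fintype.card V : ℝ) * y i := by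
    intro i
    unfold pq
    split_ifs <;> push_cast <;> ring
  unfold pr
  simp only [h, Finset.sum_sub_distrib, Finset.sum_ite_eq, mem_univ, if_true]
  rw [← Finset.mul_sum]
  ring

lemma card_pos_of (k : V) : (0 : ℝ) < Fintype.card V := by
  have : 0 < Fintype.card V := Fintype.card_pos_iff.mpr ⟨k⟩
  exact_mod_cast this

lemma pr_sum (hn : 2 ≤ Fintype.card V) (y : V → ℝ) : ∑ k, pr y k = 0 := by
  have hc : (0 : ℝ) < Fintype.card V := by
    have : 0 < Fintype.card V := by omega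
    exact_mod_cast this
  simp only [pr_eq, Finset.sum_sub_distrib, Finset.sum_const, card_univ, nsmul_eq_mul]
  field_simp
  ring

lemma pr_sq (hn : 2 ≤ Fintype.card V) (y : V → ℝ) :
    ∑ k, pr y k ^ 2 = ∑ k, y k ^ 2 - (∑ k, y k) ^ 2 / Fintype.card V := by
  have hc : (0 : ℝ) < Fintype.card V := by
    have : 0 < Fintype.card V := by omega
    exact_mod_cast this
  have h1 : ∀ k, pr y k ^ 2 = y k ^ 2 - 2 * ((∑ i, y i) / Fintype.card V) * y k + ((∑ i, y i) / Fintype.card V) ^ 2 := by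
    intro k; rw [pr_eq]; ring
  simp only [h1, Finset.sum_sub_distrib, Finset.sum_add_distrib, ← Finset.mul_sum, Finset.sum_const, card_univ,
    nsmul_eq_mul]
  field_simp
  ring

lemma pr_sq_le (hn : 2 ≤ Fintype.card V) (y : V → ℝ) : ∑ k, pr y k ^ 2 ≤ ∑ k, y k ^ 2 := by
  rw [pr_sq hn]
  have : 0 ≤ (∑ k, y k) ^ 2 / (Fintype.card V : ℝ) := by positivity
  linarith

lemma pr_of_sum (y : V → ℝ) (h : ∑ i, y i = 0) : pr y = y := by
  funext k
  rw [pr_eq, h]; simp

lemma bq_form (Γ : V → V → Prop) (κ : ℤ) (y : V → ℝ) :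
    ∑ i, ∑ j, y i * ((bq Γ κ i j : ℝ) * y j) = 2 * qf Γ (pr y) - κ * ∑ k, pr y k ^ 2 := by
  rw [← sz_form]
  have h1 : ∀ i j, y i * ((bq Γ κ i j : ℝ) * y j) =
      ∑ k, ∑ l, (sz Γ κ k l : ℝ) * (((pq V k i : ℝ) * y i) * ((pq V l j : ℝ) * y j)) := by
    intro i j
    unfold bq
    push_cast
    rw [Finset.sum_mul, Finset.mul_sum]
    apply Finset.sum_congr rfl
    intro k _
    rw [Finset.sum_mul, Finset.mul_sum]
    apply Finset.sum_congr rfl
    intro l _
    ring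
  simp only [h1]
  have h2 : ∀ k l, (sz Γ κ k l : ℝ) * (pr y k * pr y l) =
      ∑ i, ∑ j, (sz Γ κ k l : ℝ) * (((pq V k i : ℝ) * y i) * ((pq V l j : ℝ) * y j)) := by
    intro k l
    unfold pr
    rw [Finset.sum_mul_sum, Finset.mul_sum]
    apply Finset.sum_congr rfl
    intro i _
    rw [Finset.mul_sum]
  simp only [h2]
  -- exchange the sums
  calc ∑ i, ∑ j, ∑ k, ∑ l, (sz Γ κ k l : ℝ) * (((pq V k i : ℝ) * y i) * ((pq V l j : ℝ) * y j))
      = ∑ i, ∑ k, ∑ j, ∑ l, (sz Γ κ k l : ℝ) * (((pq V k i : ℝ) * y i) * ((pq V l j : ℝ) * y j)) := by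
        apply Finset.sum_congr rfl
        intro i _
        rw [Finset.sum_comm]
    _ = ∑ k, ∑ i, ∑ j, ∑ l, (sz Γ κ k l : ℝ) * (((pq V k i : ℝ) * y i) * ((pq V l j : ℝ) * y j)) := by
        rw [Finset.sum_comm]
    _ = ∑ k, ∑ i, ∑ l, ∑ j, (sz Γ κ k l : ℝ) * (((pq V k i : ℝ) * y i) * ((pq V l j : ℝ) * y j)) := by
        apply Finset.sum_congr rfl
        intro k _
        apply Finset.sum_congr rfl
        intro i _
        rw [Finset.sum_comm]
    _ = ∑ k, ∑ l, ∑ i, ∑ j, (sz Γ κ k l : ℝ) * (((pq V k i : ℝ) * y i) * ((pq V l j : ℝ) * y j)) := by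
        apply Finset.sum_congr rfl
        intro k _
        rw [Finset.sum_comm]

/-- A vector at which a nonnegative form vanishes lies in its kernel. -/
lemma kernel (B : V → V → ℝ) (hB : ∀ i j, B i j = B j i) (c : ℝ)
    (hpos : ∀ y : V → ℝ, c * ∑ i, y i ^ 2 ≤ ∑ i, ∑ j, y i * (B i j * y j)) (u : V → ℝ)
    (hu : ∑ i, ∑ j, u i * (B i j * u j) = c * ∑ i, u i ^ 2) (i : V) : ∑ j, B i j * u j = c * u i := by
  set w : V → ℝ := fun i => ∑ j, B i j * u j - c * u i with hw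
  have h1 : ∀ s : ℝ, 0 ≤ (2 * ∑ i, w i ^ 2) * s + (∑ i, ∑ j, w i * (B i j * w j) - c * ∑ i, w i ^ 2) * s ^ 2 := by
    intro s
    have h2 := hpos (fun i => u i + s * w i)
    have h3 : ∑ i, ∑ j, (u i + s * w i) * (B i j * (u j + s * w j)) =
        ∑ i, ∑ j, u i * (B i j * u j) + s * (2 * ∑ i, ∑ j, w i * (B i j * u j)) +
          s ^ 2 * ∑ i, ∑ j, w i * (B i j * w j) := by
      have h4 : ∀ i j, (u i + s * w i) * (B i j * (u j + s * w j)) = u i * (B i j * u j) + s * (w i * (B i j * u j))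
          + s * (u i * (B i j * w j)) + s ^ 2 * (w i * (B i j * w j)) := by
        intro i j; ring
      simp only [h4, Finset.sum_add_distrib, ← Finset.mul_sum]
      have h5 : ∑ i, u i * ∑ j, B i j * w j = ∑ i, w i * ∑ j, B i j * u j := by
        simp only [Finset.mul_sum]
        rw [Finset.sum_comm]
        apply Finset.sum_congr rfl
        intro i _
        apply Finset.sum_congr rfl
        intro j _
        rw [hB j i]; ring
      rw [h5]
      ring
    have h6 : ∑ i, (u i + s * w i) ^ 2 = ∑ i, u i ^ 2 + s * (2 * ∑ i, w i * u i) + s ^ 2 * ∑ i, w i ^ 2 := by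
      have h7 : ∀ i, (u i + s * w i) ^ 2 = u i ^ 2 + s * (2 * (w i * u i)) + s ^ 2 * w i ^ 2 := by
        intro i; ring
      simp only [h7, Finset.sum_add_distrib, ← Finset.mul_sum]
    have h8 : ∑ i, w i ^ 2 = ∑ i, ∑ j, w i * (B i j * u j) - c * ∑ i, w i * u i := by
      rw [Finset.mul_sum, ← Finset.sum_sub_distrib]
      apply Finset.sum_congr rfl
      intro i _
      rw [← Finset.mul_sum]
      simp only [hw]
      ring
    rw [h3, h6, hu] at h2
    have h9 : (2 * ∑ i, w i ^ 2) * s = 2 * (∑ i, ∑ j, w i * (B i j * u j) - c * ∑ i, w i * u i) * s := by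
      rw [← h8]
    rw [h9]
    linarith
  have h2 := lin_zero _ _ h1
  have h3 : ∑ i, w i ^ 2 = 0 := by linarith
  rw [Finset.sum_eq_zero_iff_of_nonneg (fun i _ => sq_nonneg _)] at h3
  have h4 := h3 i (mem_univ i)
  have h5 : w i = 0 := pow_eq_zero_iff (two_ne_zero) |>.mp h4
  simp only [hw] at h5
  linarith

lemma duo_bounds (Γ : V → V → Prop) (hl : ∀ i, ¬ Γ i i) {i j : V} (hij : i ≠ j) :
    2 * alpha Γ ≤ tz Γ i j ∧ (tz Γ i j : ℝ) ≤ 2 * beta Γ := by
  have h1 := alpha_le Γ (duo i j) (duo_zero i j)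
  have h2 := le_beta Γ (duo i j) (duo_zero i j)
  rw [duo_qf Γ hl hij, duo_sq hij] at h1 h2
  exact ⟨by linarith, by linarith⟩

lemma const_spread (Γ : V → V → Prop) (hl : ∀ i, ¬ Γ i i) (hn : 2 ≤ Fintype.card V) (κ : ℤ)
    (h : ∀ i j, i ≠ j → tz Γ i j = κ) : spread Γ ≤ 0 := by
  have h1 : ∀ r ∈ vals Γ, r = κ / 2 := by
    rintro r ⟨x, h0, h1, rfl⟩
    change qf Γ x = _
    rw [qf_tz Γ hl x h0]
    have h2 : ∀ i j, (if i = j then 0 else (tz Γ i j : ℝ)) * (x i * x j) =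
        κ * (x i * x j) - if i = j then κ * (x i * x j) else 0 := by
      intro i j
      by_cases hij : i = j
      · rw [if_pos hij, if_pos hij]; ring
      · rw [if_neg hij, if_neg hij, h i j hij]; ring
    simp only [h2, Finset.sum_sub_distrib, Finset.sum_ite_eq, mem_univ, if_true]
    have h3 : ∑ i, ∑ j, (κ : ℝ) * (x i * x j) = 0 := by
      simp only [← Finset.mul_sum, h0, mul_zero, Finset.sum_const_zero]
    have h4 : ∑ i, (κ : ℝ) * (x i * x i) = κ := by
      rw [← Finset.mul_sum]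
      simp only [← pow_two]
      rw [h1, mul_one]
    rw [h3, h4]
    ring
  unfold spread
  have hne := vals_ne Γ hn
  have h2 : beta Γ ≤ κ / 2 := csSup_le hne (fun r hr => (h1 r hr).le)
  have h3 : (κ : ℝ) / 2 ≤ alpha Γ := le_csInf hne (fun r hr => (h1 r hr).ge)
  linarith

/-- No polygonal digraph has Laplacian spread strictly between 0 and 1. -/
theorem no_gap (Γ : V → V → Prop) (hl : ∀ i, ¬ Γ i i) (hn : 2 ≤ Fintype.card V) (hp : Polygonal Γ)
    (h0 : 0 < spread Γ) (h1 : spread Γ < 1) : False := by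
  -- two different values
  obtain ⟨i0, j0, k0, l0, hij0, hkl0, hlt⟩ : ∃ i j k l : V, i ≠ j ∧ k ≠ l ∧ tz Γ i j < tz Γ k l := by
    by_contra hc
    push Not at hc
    obtain ⟨p, q, hpq⟩ := Fintype.one_lt_card_iff.mp (by omega : 1 < Fintype.card V)
    have := const_spread Γ hl hn (tz Γ p q) (fun i j hij => le_antisymm (hc p q i j hpq hij) (hc i j p q hij hpq))
    linarith
  set κ : ℤ := tz Γ i0 j0 with hκ
  have hsp : beta Γ - alpha Γ < 1 := h1
  have hb0 := duo_bounds Γ hl hij0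
  have hb1 := duo_bounds Γ hl hkl0
  rw [← hκ] at hb0
  have hkl1 : tz Γ k0 l0 = κ + 1 := by
    have h2 : (tz Γ k0 l0 : ℝ) < κ + 2 := by linarith [hb0.1, hb1.2]
    have h3 : tz Γ k0 l0 < κ + 2 := by exact_mod_cast h2
    omega
  rw [hkl1] at hb1
  push_cast at hb1
  have hall : ∀ i j, i ≠ j → tz Γ i j = κ ∨ tz Γ i j = κ + 1 := by
    intro i j hij
    have hb := duo_bounds Γ hl hij
    have h2 : (tz Γ i j : ℝ) < κ + 2 := by linarith [hb0.1, hb.2]
    have h3 : (κ : ℝ) - 1 < tz Γ i j := by linarith [hb1.2, hb.1]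
    have h4 : tz Γ i j < κ + 2 := by exact_mod_cast h2
    have h5 : κ - 1 < tz Γ i j := by exact_mod_cast h3
    omega
  set u : ℝ := κ - 2 * alpha Γ with hu
  set v : ℝ := 2 * beta Γ - κ - 1 with hv
  have hu0 : 0 ≤ u := by rw [hu]; linarith [hb0.1]
  have hv0 : 0 ≤ v := by rw [hv]; linarith [hb1.2]
  have huv : u + v < 1 := by rw [hu, hv]; linarith
  have hlo : ∀ y : V → ℝ, -u * ∑ i, y i ^ 2 ≤ ∑ i, ∑ j, y i * ((bq Γ κ i j : ℝ) * y j) := by
    intro y
    rw [bq_form]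
    have h2 := alpha_le Γ (pr y) (pr_sum hn y)
    have h3 := pr_sq_le hn y
    have h4 : u * ∑ k, pr y k ^ 2 ≤ u * ∑ k, y k ^ 2 := mul_le_mul_of_nonneg_left h3 hu0
    rw [hu] at h4 ⊢
    linarith
  have hhi : ∀ y : V → ℝ, ∑ i, ∑ j, y i * ((bq Γ κ i j : ℝ) * y j) ≤ (1 + v) * ∑ i, y i ^ 2 := by
    intro y
    rw [bq_form]
    have h2 := le_beta Γ (pr y) (pr_sum hn y)
    have h3 := pr_sq_le hn y
    have h4 : (1 + v) * ∑ k, pr y k ^ 2 ≤ (1 + v) * ∑ k, y k ^ 2 := mul_le_mul_of_nonneg_left h3 (by linarith)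
    rw [hv] at h4 ⊢
    linarith
  have hκint : IsIntegral ℤ (κ : ℝ) := by
    have : (κ : ℝ) = algebraMap ℤ ℝ κ := rfl
    rw [this]
    exact isIntegral_algebraMap
  -- the lower end
  have hlow : 2 * alpha Γ = κ := by
    obtain ⟨hint, y, hy0, hysum, hy⟩ := low_vec Γ hn hp
    have hk := kernel (fun i j => (bq Γ κ i j : ℝ)) (fun i j => by rw [bq_symm]) (-u) hlo y (by
      rw [bq_form, pr_of_sum y hysum, hy, hu]; ring)
    have hx : IsIntegral ℤ (-u) := by
      rw [hu, neg_sub]; exact hint.sub hκint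
    have := norm_lemma (-u) hx u v hu0 hv0 huv
      (eig_roots (bq Γ κ) (bq_symm Γ κ) (-u) (1 + v) hlo hhi (-u) hx y hy0 hk)
    rcases this with h | h
    · linarith
    · linarith
  have hhigh : 2 * beta Γ = κ + 1 := by
    obtain ⟨hint, y, hy0, hysum, hy⟩ := high_vec Γ hn hp
    have hk := kernel (fun i j => -(bq Γ κ i j : ℝ)) (fun i j => by rw [bq_symm]) (-(1 + v)) (by
      intro y
      have := hhi y
      have h2 : ∑ i, ∑ j, y i * (-(bq Γ κ i j : ℝ) * y j) = -∑ i, ∑ j, y i * ((bq Γ κ i j : ℝ) * y j) := by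
        simp only [neg_mul, mul_neg, Finset.sum_neg_distrib]
      rw [h2]; linarith) y (by
      have h2 : ∑ i, ∑ j, y i * (-(bq Γ κ i j : ℝ) * y j) = -∑ i, ∑ j, y i * ((bq Γ κ i j : ℝ) * y j) := by
        simp only [neg_mul, mul_neg, Finset.sum_neg_distrib]
      rw [h2, bq_form, pr_of_sum y hysum, hy, hv]; ring)
    have hk2 : ∀ i, ∑ j, (bq Γ κ i j : ℝ) * y j = (1 + v) * y i := by
      intro i
      have := hk i
      simp only [neg_mul, Finset.sum_neg_distrib] at this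
      linarith
    have hx : IsIntegral ℤ (1 + v) := by
      have : 1 + v = 2 * beta Γ - κ := by rw [hv]; ring
      rw [this]; exact hint.sub hκint
    have := norm_lemma (1 + v) hx u v hu0 hv0 huv
      (eig_roots (bq Γ κ) (bq_symm Γ κ) (-u) (1 + v) hlo hhi (1 + v) hx y hy0 hk2)
    rcases this with h | h
    · linarith
    · linarith
  have htw : ∀ i j k, i ≠ j → i ≠ k → j ≠ k → tz Γ i k = tz Γ j k := by
    intro i j k hij hik hjk
    rcases hall i j hij with h | h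
    · exact twins_low Γ hl hij hik hjk (by rw [hlow, h])
    · exact twins_high Γ hl hij hik hjk (by rw [hhigh, h]; push_cast; ring)
  have hstar : ∀ i j l, i ≠ j → i ≠ l → tz Γ i j = tz Γ i l := by
    intro i j l hij hil
    by_cases hjl : j = l
    · rw [hjl]
    · rw [tz_symm Γ i j, tz_symm Γ i l]
      exact htw j l i hjl hij.symm hil.symm
  have heq : tz Γ i0 j0 = tz Γ k0 l0 := by
    by_cases h : i0 = k0
    · rw [← h]
      exact hstar i0 j0 l0 hij0 (by rw [h]; exact hkl0)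
    · rw [hstar i0 j0 k0 hij0 h, tz_symm Γ i0 k0]
      exact hstar k0 i0 l0 (Ne.symm h) hkl0
  omega

end Pool.Agent.R520
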