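import Mathlib
set_option autoImplicit false

namespace Pool.Agent.R520.SD

open Finset MvPolynomial
open scoped Pointwise

/-- Index set of the monomials `x^i y^j` with `i, j ≤ d`. -/
abbrev D (d : ℕ) := Fin (d + 1) × Fin (d + 1)

/-- The value at `p` of the polynomial with coefficient vector `c`. -/
def ev {d : ℕ} (c : D d → ℝ) (p : ℝ × ℝ) : ℝ :=
  ∑ m : D d, c m * (p.1 ^ (m.1 : ℕ) * p.2 ^ (m.2 : ℕ))

/-- The linear projection `ℤ^k → ℝ²` with matrix `φ`. -/
def proj {k : ℕ} (φ : Fin 2 × Fin k → ℝ) (p : Fin k → ℕ) : ℝ × ℝ :=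
  (∑ i, φ (0, i) * (p i : ℝ), ∑ i, φ (1, i) * (p i : ℝ))

/-- No nonzero polynomial of bidegree at most `(d,d)` vanishes on the projection of `S`. -/
def Nondeg (d : ℕ) {k : ℕ} (φ : Fin 2 × Fin k → ℝ) (S : Finset (Fin k → ℕ)) : Prop :=
  ∀ c : D d → ℝ, (∀ p ∈ S, ev c (proj φ p) = 0) → c = 0

noncomputable def lin {k : ℕ} (a : Fin 2) (p : Fin k → ℕ) : MvPolynomial (Fin 2 × Fin k) ℝ :=
  ∑ i, X (a, i) * C (p i : ℝ)

lemma eval_lin0 {k : ℕ} (φ : Fin 2 × Fin k → ℝ) (p : Fin k → ℕ) :
    eval φ (lin 0 p) = (proj φ p).1 := by simp [lin, proj]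

lemma eval_lin1 {k : ℕ} (φ : Fin 2 × Fin k → ℝ) (p : Fin k → ℕ) :
    eval φ (lin 1 p) = (proj φ p).2 := by simp [lin, proj]

noncomputable def gramP (d : ℕ) {k : ℕ} (S : Finset (Fin k → ℕ)) :
    Matrix (D d) (D d) (MvPolynomial (Fin 2 × Fin k) ℝ) :=
  fun m m' => ∑ p ∈ S, (lin 0 p ^ (m.1 : ℕ) * lin 1 p ^ (m.2 : ℕ)) *
    (lin 0 p ^ (m'.1 : ℕ) * lin 1 p ^ (m'.2 : ℕ))

noncomputable def gram (d : ℕ) {k : ℕ} (φ : Fin 2 × Fin k → ℝ) (S : Finset (Fin k → ℕ)) :
    Matrix (D d) (D d) ℝ :=
  fun m m' => ∑ p ∈ S, ((proj φ p).1 ^ (m.1 : ℕ) * (proj φ p).2 ^ (m.2 : ℕ)) *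
    ((proj φ p).1 ^ (m'.1 : ℕ) * (proj φ p).2 ^ (m'.2 : ℕ))

lemma eval_gram (d : ℕ) {k : ℕ} (φ : Fin 2 × Fin k → ℝ) (S : Finset (Fin k → ℕ)) :
    eval φ (gramP d S).det = (gram d φ S).det := by
  rw [RingHom.map_det]
  congr 1
  ext m m'
  simp only [RingHom.mapMatrix_apply, Matrix.map_apply, gramP, gram, map_sum, map_mul, map_pow,
    eval_lin0, eval_lin1]

lemma gram_mulVec (d : ℕ) {k : ℕ} (φ : Fin 2 × Fin k → ℝ) (S : Finset (Fin k → ℕ))
    (c : D d → ℝ) (m : D d) :
    (gram d φ S).mulVec c m = ∑ p ∈ S, ((proj φ p).1 ^ (m.1 : ℕ) * (proj φ p).2 ^ (m.2 : ℕ)) *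
      ev c (proj φ p) := by
  simp only [Matrix.mulVec, dotProduct, gram, ev]
  simp_rw [Finset.sum_mul, Finset.mul_sum]
  rw [Finset.sum_comm]
  refine Finset.sum_congr rfl fun p _ => Finset.sum_congr rfl fun m' _ => by ring

lemma nondeg_iff (d : ℕ) {k : ℕ} (φ : Fin 2 × Fin k → ℝ) (S : Finset (Fin k → ℕ)) :
    Nondeg d φ S ↔ (gram d φ S).det ≠ 0 := by
  constructor
  · intro h hdet
    obtain ⟨v, hv, hv0⟩ := Matrix.exists_mulVec_eq_zero_iff.2 hdet
    apply hv
    apply h
    have h1 : ∑ m : D d, v m * (gram d φ S).mulVec v m = 0 := by rw [hv0]; simp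
    have h2 : ∑ m : D d, v m * (gram d φ S).mulVec v m = ∑ p ∈ S, (ev v (proj φ p)) ^ 2 := by
      simp_rw [gram_mulVec, Finset.mul_sum]
      rw [Finset.sum_comm]
      refine Finset.sum_congr rfl fun p _ => ?_
      rw [sq]
      nth_rewrite 2 [ev]
      rw [Finset.sum_mul]
      refine Finset.sum_congr rfl fun m _ => by ring
    rw [h2] at h1
    intro p hp
    have := (Finset.sum_eq_zero_iff_of_nonneg (fun p _ => sq_nonneg (ev v (proj φ p)))).1 h1 p hp
    simpa using this
  · intro hdet c hc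
    apply Matrix.eq_zero_of_mulVec_eq_zero hdet
    ext m
    rw [gram_mulVec]
    simp only [Pi.zero_apply]
    exact Finset.sum_eq_zero fun p hp => by rw [hc p hp, mul_zero]

/-- Finitely many nonzero polynomials have a common non-zero. -/
lemma exists_point {σ ι : Type*} (s : Finset ι) (G : ι → MvPolynomial σ ℝ)
    (h : ∀ i ∈ s, G i ≠ 0) : ∃ x : σ → ℝ, ∀ i ∈ s, eval x (G i) ≠ 0 := by
  by_contra hcon
  push Not at hcon
  have h0 : (∏ i ∈ s, G i) = 0 := by
    apply MvPolynomial.funext
    intro x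
    obtain ⟨i, hi, hx⟩ := hcon x
    rw [map_prod, map_zero]
    exact Finset.prod_eq_zero hi hx
  rw [Finset.prod_eq_zero_iff] at h0
  obtain ⟨i, hi, h1⟩ := h0
  exact h i hi h1

/-- There is a linear functional injective on a given finite set. -/
lemma exists_inj {k : ℕ} (B : Finset (Fin k → ℕ)) :
    ∃ f : Fin k → ℝ, ∀ p ∈ B, ∀ q ∈ B, ∑ i, f i * (p i : ℝ) = ∑ i, f i * (q i : ℝ) → p = q := by
  classical
  obtain ⟨x, hx⟩ := exists_point ((B ×ˢ B).filter fun pq => pq.1 ≠ pq.2)
    (fun pq => (∑ i, X i * C ((pq.1 i : ℝ) - (pq.2 i : ℝ)) : MvPolynomial (Fin k) ℝ)) (by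
      rintro ⟨p, q⟩ hpq h0
      simp only [mem_filter, mem_product] at hpq
      apply hpq.2
      ext i
      have := congrArg (eval (Pi.single i (1 : ℝ))) h0
      simp [Pi.single_apply] at this
      have h2 : (p i : ℝ) = q i := by linarith
      exact_mod_cast h2)
  refine ⟨x, fun p hp q hq h => ?_⟩
  by_contra hne
  have := hx (p, q) (by simp [hp, hq, hne])
  apply this
  simp only [map_sum, map_mul, eval_X, eval_C]
  rw [← sub_eq_zero, ← Finset.sum_sub_distrib] at h
  rw [← h]
  exact Finset.sum_congr rfl fun i _ => by ring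

lemma Nondeg.mono {d k : ℕ} {φ : Fin 2 × Fin k → ℝ} {S S' : Finset (Fin k → ℕ)}
    (h : Nondeg d φ S) (hS : S ⊆ S') : Nondeg d φ S' :=
  fun c hc => h c fun p hp => hc p (hS hp)

/-- A polynomial in one variable of degree `≤ d` with `d+1` distinct zeros vanishes. -/
lemma poly1 {d : ℕ} (a : Fin (d + 1) → ℝ) (s : Finset ℝ) (hs : d + 1 ≤ s.card)
    (h : ∀ x ∈ s, ∑ i : Fin (d + 1), a i * x ^ (i : ℕ) = 0) : a = 0 := by
  classical
  set P : Polynomial ℝ := ∑ i : Fin (d + 1), Polynomial.C (a i) * Polynomial.X ^ (i : ℕ) with hP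
  have hdeg : P.degree < (d + 1 : ℕ) := by
    apply lt_of_le_of_lt (Polynomial.degree_sum_le _ _)
    rw [Finset.sup_lt_iff (by exact_mod_cast WithBot.bot_lt_coe (d+1))]
    intro i _
    refine lt_of_le_of_lt (Polynomial.degree_C_mul_X_pow_le _ _) ?_
    exact_mod_cast i.2
  have hP0 : P = 0 := by
    apply Polynomial.eq_zero_of_degree_lt_of_eval_finset_eq_zero (f := P) s
    · exact lt_of_lt_of_le hdeg (by exact_mod_cast hs)
    · intro x hx
      rw [hP, Polynomial.eval_finsetSum]
      simpa using h x hx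
  funext i
  have : P.coeff (i : ℕ) = a i := by
    rw [hP, Polynomial.finsetSum_coeff]
    simp only [Polynomial.coeff_C_mul, Polynomial.coeff_X_pow]
    rw [Finset.sum_eq_single i]
    · simp
    · intro b _ hb
      have : (i : ℕ) ≠ (b : ℕ) := fun hh => hb (Fin.ext hh.symm)
      simp [this]
    · simp
  rw [← this, hP0]; simp

/-- A bivariate polynomial of bidegree `≤ (d,d)` which vanishes at `d+1` points on each of
`d+1` vertical lines is zero. -/
lemma poly2 {d : ℕ} (c : D d → ℝ) (s : Finset ℝ) (hs : d + 1 ≤ s.card) (t : ℝ → Finset ℝ)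
    (ht : ∀ x ∈ s, d + 1 ≤ (t x).card) (h : ∀ x ∈ s, ∀ y ∈ t x, ev c (x, y) = 0) : c = 0 := by
  have h1 : ∀ x ∈ s, ∀ j : Fin (d + 1), ∑ i : Fin (d + 1), c (i, j) * x ^ (i : ℕ) = 0 := by
    intro x hx j
    have := poly1 (fun j => ∑ i : Fin (d + 1), c (i, j) * x ^ (i : ℕ)) (t x) (ht x hx) (by
      intro y hy
      rw [← h x hx y hy, ev, Fintype.sum_prod_type_right]
      refine Finset.sum_congr rfl fun j _ => ?_
      rw [Finset.sum_mul]
      refine Finset.sum_congr rfl fun i _ => by ring)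
    exact congrFun this j
  funext ⟨i, j⟩
  have := poly1 (fun i => c (i, j)) s hs (fun x hx => h1 x hx j)
  exact congrFun this i


/-- The box `{0,…,N-1}^k`. -/
def box (k N : ℕ) : Finset (Fin k → ℕ) := Fintype.piFinset fun _ => Finset.range N

lemma mem_box {k N : ℕ} {p : Fin k → ℕ} : p ∈ box k N ↔ ∀ i, p i < N := by
  simp [box]

lemma card_box (k N : ℕ) : (box k N).card = N ^ k := by
  simp [box]

/-- A large subset of the box is in general position with respect to curves of bidegree `(d,d)`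
under some projection. -/
lemma big_nondeg (d k N : ℕ) (hN : 1 ≤ N) (I : Finset (Fin k)) :
    ∀ S ⊆ box k N, (∀ p ∈ S, ∀ q ∈ S, ∀ i ∉ I, p i = q i) →
      (2 * d + 2) ^ I.card * N < S.card → ∃ φ : Fin 2 × Fin k → ℝ, Nondeg d φ S := by
  classical
  induction I using Finset.induction_on with
  | empty =>
    intro S _ hag hcard
    exfalso
    simp only [card_empty, pow_zero, one_mul] at hcard
    have h1 : 1 < S.card := lt_of_le_of_lt hN hcard
    obtain ⟨p, hp, q, hq, hne⟩ := Finset.one_lt_card.1 h1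
    exact hne (funext fun i => hag p hp q hq i (by simp))
  | insert i I hi ih =>
    intro S hS hag hcard
    rw [Finset.card_insert_of_notMem hi] at hcard
    set g' := (2 * d + 2) ^ I.card * N with hg'
    have hg'N : N ≤ g' := by
      rw [hg']; exact Nat.le_mul_of_pos_left _ (by positivity)
    by_cases hbig : ∃ a, g' < (S.filter fun p => p i = a).card
    · obtain ⟨a, ha⟩ := hbig
      obtain ⟨φ, hφ⟩ := ih (S.filter fun p => p i = a) ((Finset.filter_subset _ _).trans hS) (by
        intro p hp q hq j hj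
        rw [Finset.mem_filter] at hp hq
        by_cases hji : j = i
        · subst hji; rw [hp.2, hq.2]
        · exact hag p hp.1 q hq.1 j (by simp [hj, hji])) ha
      exact ⟨φ, hφ.mono (Finset.filter_subset _ _)⟩
    · push Not at hbig
      set big := (Finset.range N).filter fun a => d + 1 ≤ (S.filter fun p => p i = a).card
        with hbigdef
      have hsum : S.card = ∑ a ∈ Finset.range N, (S.filter fun p => p i = a).card :=
        Finset.card_eq_sum_card_fiberwise (s := S) (t := Finset.range N)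
          (f := fun p : Fin k → ℕ => p i) (fun p hp => by
          have := mem_box.1 (hS hp) i
          simpa using this)
      have hbigcard : d + 1 ≤ big.card := by
        by_contra hlt
        push Not at hlt
        have h1 : ∑ a ∈ Finset.range N, (S.filter fun p => p i = a).card ≤
            big.card * g' + N * d := by
          rw [← Finset.sum_filter_add_sum_filter_not (Finset.range N)
            (fun a => d + 1 ≤ (S.filter fun p => p i = a).card)]
          apply Nat.add_le_add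
          · exact Finset.sum_le_card_nsmul _ _ _ (fun a _ => hbig a)
          · calc _ ≤ ((Finset.range N).filter fun a =>
                ¬ (d + 1 ≤ (S.filter fun p => p i = a).card)).card * d := by
                    apply Finset.sum_le_card_nsmul
                    intro a ha
                    rw [Finset.mem_filter] at ha
                    omega
              _ ≤ N * d := by
                    apply Nat.mul_le_mul_right
                    exact (Finset.card_filter_le _ _).trans (by simp)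
        have h2 : big.card * g' ≤ d * g' := Nat.mul_le_mul_right _ (by omega)
        have h3 : N * d ≤ g' * d := Nat.mul_le_mul_right _ hg'N
        have h4 : (2 * d + 2) ^ (I.card + 1) * N = (2 * d + 2) * g' := by rw [hg']; ring
        rw [h4] at hcard
        nlinarith
      obtain ⟨f, hf⟩ := exists_inj S
      refine ⟨fun x => if x.1 = 0 then (if x.2 = i then 1 else 0) else f x.2, ?_⟩
      set φ : Fin 2 × Fin k → ℝ := fun x => if x.1 = 0 then (if x.2 = i then 1 else 0) else f x.2
        with hφ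
      have hproj1 : ∀ p : Fin k → ℕ, (proj φ p).1 = p i := by
        intro p; simp [proj, hφ]
      have hproj2 : ∀ p : Fin k → ℕ, (proj φ p).2 = ∑ j, f j * (p j : ℝ) := by
        intro p; simp [proj, hφ]
      intro c hc
      apply poly2 c (big.image (fun a : ℕ => (a : ℝ)))
        (by rw [Finset.card_image_of_injective _ Nat.cast_injective]; exact hbigcard)
        (fun x => (S.filter fun p => (p i : ℝ) = x).image fun p => (proj φ p).2)
      · intro x hx
        rw [Finset.mem_image] at hx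
        obtain ⟨a, ha, rfl⟩ := hx
        rw [Finset.card_image_of_injOn]
        · have : (S.filter fun p => (p i : ℝ) = (a : ℝ)) = S.filter fun p => p i = a := by
            ext p; simp
          rw [this]
          exact (Finset.mem_filter.1 ha).2
        · intro p hp q hq hpq
          simp only [hproj2] at hpq
          exact hf p (Finset.mem_of_mem_filter _ hp) q (Finset.mem_of_mem_filter _ hq) hpq
      · intro x hx y hy
        simp only [Finset.mem_image, Finset.mem_filter] at hy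
        obtain ⟨p, ⟨hp, hpx⟩, rfl⟩ := hy
        have := hc p hp
        have h5 : proj φ p = (x, (proj φ p).2) := by
          ext
          · rw [hproj1]; exact hpx
          · rfl
        rw [h5] at this
        exact this

lemma big_nondeg' {d k N : ℕ} (hN : 1 ≤ N) {S : Finset (Fin k → ℕ)} (hS : S ⊆ box k N)
    (hcard : (2 * d + 2) ^ k * N < S.card) : ∃ φ : Fin 2 × Fin k → ℝ, Nondeg d φ S :=
  big_nondeg d k N hN Finset.univ S hS (fun p _ q _ i hi => absurd (Finset.mem_univ i) hi)
    (by simpa using hcard)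

/-- The flat spanned by the points `g m`, inside `B`. -/
noncomputable def Zs (d : ℕ) {k : ℕ} (φ : Fin 2 × Fin k → ℝ) (B : Finset (Fin k → ℕ))
    (g : D d → B) : Finset B := by
  classical
  exact Finset.univ.filter fun p =>
    ∀ c : D d → ℝ, (∀ m, ev c (proj φ (g m)) = 0) → ev c (proj φ p) = 0

lemma mem_Zs {d k : ℕ} {φ : Fin 2 × Fin k → ℝ} {B : Finset (Fin k → ℕ)} {g : D d → B} {p : B} :
    p ∈ Zs d φ B g ↔ ∀ c : D d → ℝ, (∀ m, ev c (proj φ (g m)) = 0) → ev c (proj φ p) = 0 := by
  classical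
  simp [Zs]

/-- The evaluation vector of a point. -/
def evec (d : ℕ) (p : ℝ × ℝ) : D d → ℝ := fun m => p.1 ^ (m.1 : ℕ) * p.2 ^ (m.2 : ℕ)

lemma exists_gen {d k : ℕ} {φ : Fin 2 × Fin k → ℝ} {B : Finset (Fin k → ℕ)} (S : Finset B)
    (hne : S.Nonempty) :
    ∃ g : D d → B, (∀ m, g m ∈ S) ∧ S ⊆ Zs d φ B g := by
  classical
  obtain ⟨p0, hp0⟩ := hne
  set E : Set (D d → ℝ) := (fun p : B => evec d (proj φ p)) '' (S : Set B) with hE
  obtain ⟨b, hbE, hspan, hli⟩ := exists_linearIndependent ℝ E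
  have hbfin : b.Finite := Set.Finite.subset (S.finite_toSet.image _) hbE
  have : Fintype b := hbfin.fintype
  have hcard : Fintype.card b ≤ Fintype.card (D d) := by
    have := hli.fintype_card_le_finrank
    rwa [Module.finrank_fintype_fun_eq_card] at this
  obtain ⟨ι⟩ := Function.Embedding.nonempty_of_card_le hcard
  have hpt : ∀ v : b, ∃ p ∈ S, evec d (proj φ p) = v.1 := by
    intro v
    obtain ⟨p, hp, h⟩ := hbE v.2
    exact ⟨p, by simpa using hp, h⟩
  choose pt hptS hpte using hpt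
  refine ⟨fun m => if h : ∃ v, ι v = m then pt h.choose else p0, ?_, ?_⟩
  · intro m
    by_cases h : ∃ v, ι v = m
    · simp only [h, dif_pos]; exact hptS _
    · simp only [h, dif_neg, not_false_iff]; exact hp0
  · intro p hp
    rw [mem_Zs]
    intro c hc
    have hcb : ∀ v : b, ∑ m, c m * v.1 m = 0 := by
      intro v
      have h1 := hc (ι v)
      have h2 : ∃ w, ι w = ι v := ⟨v, rfl⟩
      simp only [h2, dif_pos] at h1
      have h3 : h2.choose = v := ι.injective h2.choose_spec
      rw [h3] at h1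
      rw [← hpte v]
      exact h1
    have hmem : evec d (proj φ p) ∈ Submodule.span ℝ b := by
      rw [hspan]
      exact Submodule.subset_span ⟨p, by simpa using hp, rfl⟩
    have : ∀ w ∈ Submodule.span ℝ b, ∑ m, c m * w m = 0 := by
      intro w hw
      induction hw using Submodule.span_induction with
      | mem x hx => exact hcb ⟨x, hx⟩
      | zero => simp
      | add x y _ _ hx hy => simp only [Pi.add_apply, mul_add, Finset.sum_add_distrib, hx, hy, add_zero]
      | smul a x _ hx =>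
        simp only [Pi.smul_apply, smul_eq_mul]
        have : ∑ m, c m * (a * x m) = a * ∑ m, c m * x m := by
          rw [Finset.mul_sum]; exact Finset.sum_congr rfl fun m _ => by ring
        rw [this, hx, mul_zero]
    exact this _ hmem

/-- Random colouring. -/
lemma coloring {α ι : Type*} [Fintype α] [DecidableEq α] (T : ℕ) (hT : 0 < T) (F : Finset ι)
    (S : ι → Finset α) (hS : ∀ i ∈ F, (S i).Nonempty)
    (h : ∑ i ∈ F, ((1 : ℝ) / T) ^ ((S i).card - 1) < 1) :
    ∃ f : α → Fin T, ∀ i ∈ F, ¬ ∃ c, ∀ x ∈ S i, f x = c := by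
  classical
  by_contra hcon
  push Not at hcon
  have hsub : (Finset.univ : Finset (α → Fin T)) ⊆ F.biUnion fun i =>
      Finset.univ.biUnion fun c : Fin T =>
        Fintype.piFinset fun x => if x ∈ S i then {c} else Finset.univ := by
    intro f _
    obtain ⟨i, hi, c, hc⟩ := hcon f
    simp only [Finset.mem_biUnion, Finset.mem_univ, true_and, Fintype.mem_piFinset]
    refine ⟨i, hi, c, fun x => ?_⟩
    by_cases hx : x ∈ S i
    · simp [hx, hc x hx]
    · simp [hx]
  have hcard1 : (T : ℝ) ^ Fintype.card α ≤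
      ∑ i ∈ F, (T : ℝ) * (T : ℝ) ^ (Fintype.card α - (S i).card) := by
    have h1 := Finset.card_le_card hsub
    have h2 : (F.biUnion fun i => Finset.univ.biUnion fun c : Fin T =>
        Fintype.piFinset fun x => if x ∈ S i then {c} else Finset.univ).card ≤
        ∑ i ∈ F, T * T ^ (Fintype.card α - (S i).card) := by
      refine Finset.card_biUnion_le.trans (Finset.sum_le_sum fun i _ => ?_)
      refine Finset.card_biUnion_le.trans ?_
      have h3 : ∀ c : Fin T, (Fintype.piFinset fun x => if x ∈ S i then {c} else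
          (Finset.univ : Finset (Fin T))).card = T ^ (Fintype.card α - (S i).card) := by
        intro c
        rw [Fintype.card_piFinset]
        have : ∀ x, (if x ∈ S i then ({c} : Finset (Fin T)) else Finset.univ).card =
            if x ∈ S i then 1 else T := by
          intro x; split_ifs <;> simp
        simp_rw [this]
        rw [Finset.prod_ite]
        simp only [Finset.prod_const_one, one_mul, Finset.prod_const]
        congr 1
        have h4 : (Finset.univ.filter fun x => x ∉ S i) = (S i)ᶜ := by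
          ext x; simp
        rw [h4, Finset.card_compl]
      rw [Finset.sum_congr rfl fun c _ => h3 c]
      simp
    have h5 := h1.trans h2
    rw [Finset.card_univ, Fintype.card_fun, Fintype.card_fin] at h5
    exact_mod_cast h5
  have hTpos : (0 : ℝ) < T := by exact_mod_cast hT
  have h6 : ∑ i ∈ F, (T : ℝ) * (T : ℝ) ^ (Fintype.card α - (S i).card) =
      (T : ℝ) ^ Fintype.card α * ∑ i ∈ F, ((1 : ℝ) / T) ^ ((S i).card - 1) := by
    rw [Finset.mul_sum]
    refine Finset.sum_congr rfl fun i hi => ?_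
    have h7 : 1 ≤ (S i).card := Finset.card_pos.2 (hS i hi)
    have h8 : (S i).card ≤ Fintype.card α := Finset.card_le_univ _
    have h9 : Fintype.card α = (Fintype.card α - (S i).card + 1) + ((S i).card - 1) := by omega
    rw [one_div, inv_pow]
    conv_rhs => rw [h9, pow_add]
    field_simp
    ring_nf
  rw [h6] at hcard1
  have h10 : (0 : ℝ) < (T : ℝ) ^ Fintype.card α := by positivity
  nlinarith


/-- The subsets of `B` with `s` elements which lie on a curve of bidegree `(d,d)`. -/
noncomputable def Fd (d : ℕ) {k : ℕ} (φ : Fin 2 × Fin k → ℝ) (B : Finset (Fin k → ℕ)) (s : ℕ) :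
    Finset (Finset B) := by
  classical
  exact Finset.univ.filter fun S => S.card = s ∧
    ∃ c : D d → ℝ, c ≠ 0 ∧ ∀ p ∈ S, ev c (proj φ p) = 0

lemma mem_Fd {d k : ℕ} {φ : Fin 2 × Fin k → ℝ} {B : Finset (Fin k → ℕ)} {s : ℕ} {S : Finset B} :
    S ∈ Fd d φ B s ↔ S.card = s ∧ ∃ c : D d → ℝ, c ≠ 0 ∧ ∀ p ∈ S, ev c (proj φ p) = 0 := by
  classical
  simp [Fd]

lemma card_Fd_le {d k : ℕ} {φ : Fin 2 × Fin k → ℝ} {B : Finset (Fin k → ℕ)} {s L : ℕ}
    (hs : 1 ≤ s)
    (hL : ∀ S : Finset B, L < S.card → ∀ c : D d → ℝ, (∀ p ∈ S, ev c (proj φ p) = 0) → c = 0) :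
    (Fd d φ B s).card ≤ B.card ^ ((d + 1) ^ 2) * L ^ s := by
  classical
  have hsub : Fd d φ B s ⊆ (Finset.univ.filter fun g : D d → B => (Zs d φ B g).card ≤ L).biUnion
      fun g => Finset.powersetCard s (Zs d φ B g) := by
    intro S hS
    obtain ⟨hcard, c, hc0, hc⟩ := mem_Fd.1 hS
    have hne : S.Nonempty := by rw [← Finset.card_pos]; omega
    obtain ⟨g, hg, hSg⟩ := exists_gen (φ := φ) (d := d) S hne
    rw [Finset.mem_biUnion]
    refine ⟨g, ?_, ?_⟩
    · rw [Finset.mem_filter]
      refine ⟨Finset.mem_univ _, ?_⟩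
      by_contra hlt
      push Not at hlt
      apply hc0
      apply hL _ hlt
      intro p hp
      exact mem_Zs.1 hp c fun m => hc _ (hg m)
    · rw [Finset.mem_powersetCard]
      exact ⟨hSg, hcard⟩
  calc (Fd d φ B s).card ≤ _ := Finset.card_le_card hsub
    _ ≤ (Finset.univ.filter fun g : D d → B => (Zs d φ B g).card ≤ L).card * L ^ s := by
        apply Finset.card_biUnion_le_card_mul
        intro g hg
        rw [Finset.card_powersetCard]
        exact (Nat.choose_le_pow _ _).trans (Nat.pow_le_pow_left (Finset.mem_filter.1 hg).2 _)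
    _ ≤ B.card ^ ((d + 1) ^ 2) * L ^ s := by
        apply Nat.mul_le_mul_right
        refine (Finset.card_le_univ _).trans ?_
        rw [Fintype.card_fun, Fintype.card_coe]
        simp [sq]

/-- A coefficient vector for a polynomial of total degree at most `d`. -/
lemma exists_coeff {d : ℕ} (P : MvPolynomial (Fin 2) ℝ) (hP : P ≠ 0) (hd : P.totalDegree ≤ d) :
    ∃ c : D d → ℝ, c ≠ 0 ∧ ∀ p : ℝ × ℝ, ev c p = MvPolynomial.eval ![p.1, p.2] P := by
  classical
  set fs : D d → (Fin 2 →₀ ℕ) := fun m => Finsupp.single 0 (m.1 : ℕ) + Finsupp.single 1 (m.2 : ℕ)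
    with hfs
  have hfs0 : ∀ m, fs m 0 = m.1 := by intro m; simp [hfs]
  have hfs1 : ∀ m, fs m 1 = m.2 := by intro m; simp [hfs]
  have hinj : Function.Injective fs := by
    intro m m' h
    have h0 := DFunLike.congr_fun h 0
    have h1 := DFunLike.congr_fun h 1
    rw [hfs0, hfs0] at h0
    rw [hfs1, hfs1] at h1
    exact Prod.ext (Fin.ext h0) (Fin.ext h1)
  have hsupp : ∀ x ∈ P.support, ∃ m, fs m = x := by
    intro x hx
    have h1 := MvPolynomial.le_totalDegree hx
    have h2 : x.sum (fun _ e => e) = x 0 + x 1 := by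
      rw [Finsupp.sum_fintype _ _ (fun _ => rfl), Fin.sum_univ_two]
    rw [h2] at h1
    refine ⟨(⟨x 0, by omega⟩, ⟨x 1, by omega⟩), ?_⟩
    ext i
    fin_cases i
    · exact hfs0 _
    · exact hfs1 _
  refine ⟨fun m => P.coeff (fs m), ?_, ?_⟩
  · intro h0
    apply hP
    rw [← MvPolynomial.support_eq_empty, Finset.eq_empty_iff_forall_notMem]
    intro x hx
    obtain ⟨m, rfl⟩ := hsupp x hx
    exact (MvPolynomial.mem_support_iff.1 hx) (congrFun h0 m)
  · intro p
    rw [MvPolynomial.eval_eq', ev]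
    have h1 : ∑ m : D d, P.coeff (fs m) * (p.1 ^ (m.1 : ℕ) * p.2 ^ (m.2 : ℕ)) =
        ∑ x ∈ Finset.univ.image fs, P.coeff x * ∏ i, (![p.1, p.2] i) ^ (x i) := by
      rw [Finset.sum_image (fun a _ b _ h => hinj h)]
      refine Finset.sum_congr rfl fun m _ => ?_
      rw [Fin.prod_univ_two, hfs0, hfs1]
      simp
    rw [h1]
    symm
    apply Finset.sum_subset
    · intro x hx
      obtain ⟨m, rfl⟩ := hsupp x hx
      simp
    · intro x _ hx
      rw [MvPolynomial.notMem_support_iff.1 hx, zero_mul]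

/-- Points of a sphere in the box: no three are collinear, so some projection keeps them so. -/
lemma sphere_triple {k : ℕ} (x y z : Fin k → ℕ) (r : ℕ) (hx : ∑ i, x i ^ 2 = r)
    (hy : ∑ i, y i ^ 2 = r) (hz : ∑ i, z i ^ 2 = r) (hxy : x ≠ y) (hxz : x ≠ z) (hyz : y ≠ z) :
    ∃ φ : Fin 2 × Fin k → ℝ, ((proj φ y).1 - (proj φ x).1) * ((proj φ z).2 - (proj φ x).2) -
      ((proj φ y).2 - (proj φ x).2) * ((proj φ z).1 - (proj φ x).1) ≠ 0 := by
  classical
  by_contra hcon
  push Not at hcon
  set u : Fin k → ℝ := fun i => (y i : ℝ) - x i with hu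
  set v : Fin k → ℝ := fun i => (z i : ℝ) - x i with hv
  have hpar : ∀ i j, u i * v j = u j * v i := by
    intro i j
    have h := hcon (fun a => if a.1 = 0 then (if a.2 = i then 1 else 0)
      else (if a.2 = j then 1 else 0))
    simp [proj] at h
    simp only [hu, hv]
    linarith
  obtain ⟨i0, hi0⟩ : ∃ i, u i ≠ 0 := by
    by_contra h
    push Not at h
    apply hxy
    ext i
    have := h i
    simp only [hu] at this
    have h2 : (x i : ℝ) = y i := by linarith
    exact_mod_cast h2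
  set l := v i0 / u i0 with hl
  have hvl : ∀ j, v j = l * u j := by
    intro j
    rw [hl]
    field_simp
    have := hpar i0 j
    linarith
  have hxR : ∑ i, (x i : ℝ) ^ 2 = r := by exact_mod_cast hx
  have hyR : ∑ i, (x i + u i) ^ 2 = (r : ℝ) := by
    have : ∀ i, (x i : ℝ) + u i = y i := fun i => by simp [hu]
    simp_rw [this]; exact_mod_cast hy
  have hzR : ∑ i, (x i + l * u i) ^ 2 = (r : ℝ) := by
    have : ∀ i, (x i : ℝ) + l * u i = z i := fun i => by rw [← hvl]; simp [hv]
    simp_rw [this]; exact_mod_cast hz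
  set a := ∑ i, (x i : ℝ) * u i with ha
  set b := ∑ i, u i ^ 2 with hb
  have h1 : 2 * a + b = 0 := by
    have : ∑ i, (x i + u i) ^ 2 = ∑ i, (x i : ℝ) ^ 2 + 2 * a + b := by
      rw [ha, hb, Finset.mul_sum, ← Finset.sum_add_distrib, ← Finset.sum_add_distrib]
      exact Finset.sum_congr rfl fun i _ => by ring
    linarith
  have h2 : 2 * l * a + l ^ 2 * b = 0 := by
    have : ∑ i, (x i + l * u i) ^ 2 = ∑ i, (x i : ℝ) ^ 2 + 2 * l * a + l ^ 2 * b := by
      rw [ha, hb, Finset.mul_sum, Finset.mul_sum, ← Finset.sum_add_distrib,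
        ← Finset.sum_add_distrib]
      exact Finset.sum_congr rfl fun i _ => by ring
    linarith
  have hbpos : 0 < b := by
    rw [hb]
    apply Finset.sum_pos' (fun i _ => sq_nonneg _) ⟨i0, Finset.mem_univ _, by positivity⟩
  have h3 : l * (l - 1) * b = 0 := by
    have : a = -b / 2 := by linarith
    rw [this] at h2
    linarith
  have h4 : l * (l - 1) = 0 := by
    rcases mul_eq_zero.1 h3 with h | h
    · exact h
    · exact absurd h hbpos.ne'
  rcases mul_eq_zero.1 h4 with h | h
  · apply hxz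
    ext i
    have := hvl i
    rw [h, zero_mul] at this
    simp only [hv] at this
    have h2 : (x i : ℝ) = z i := by linarith
    exact_mod_cast h2
  · apply hyz
    ext i
    have := hvl i
    have h1' : l = 1 := by linarith
    rw [h1', one_mul] at this
    simp only [hv, hu] at this
    have h2 : (y i : ℝ) = z i := by linarith
    exact_mod_cast h2

/-- A generic projection. -/
lemma exists_generic (n k N : ℕ) : ∃ φ : Fin 2 × Fin k → ℝ,
    (∀ d ≤ n, ∀ S ⊆ box k N, (∃ ψ : Fin 2 × Fin k → ℝ, Nondeg d ψ S) → Nondeg d φ S) ∧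
    (∀ p ∈ box k N, ∀ q ∈ box k N, proj φ p = proj φ q → p = q) ∧
    (∀ x ∈ box k N, ∀ y ∈ box k N, ∀ z ∈ box k N,
      (∃ ψ : Fin 2 × Fin k → ℝ, ((proj ψ y).1 - (proj ψ x).1) * ((proj ψ z).2 - (proj ψ x).2) -
        ((proj ψ y).2 - (proj ψ x).2) * ((proj ψ z).1 - (proj ψ x).1) ≠ 0) →
      ((proj φ y).1 - (proj φ x).1) * ((proj φ z).2 - (proj φ x).2) -
        ((proj φ y).2 - (proj φ x).2) * ((proj φ z).1 - (proj φ x).1) ≠ 0) := by
  classical
  set s1 : Finset (MvPolynomial (Fin 2 × Fin k) ℝ) :=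
    ((Finset.range (n + 1)) ×ˢ (box k N).powerset).image (fun x => (gramP x.1 x.2).det) with hs1
  set s2 : Finset (MvPolynomial (Fin 2 × Fin k) ℝ) :=
    ((box k N) ×ˢ (box k N)).image (fun x => lin 0 x.1 - lin 0 x.2) with hs2
  set s3 : Finset (MvPolynomial (Fin 2 × Fin k) ℝ) :=
    ((box k N) ×ˢ ((box k N) ×ˢ (box k N))).image (fun w =>
      (lin 0 w.2.1 - lin 0 w.1) * (lin 1 w.2.2 - lin 1 w.1) -
      (lin 1 w.2.1 - lin 1 w.1) * (lin 0 w.2.2 - lin 0 w.1)) with hs3
  obtain ⟨φ, hφ⟩ := exists_point ((s1 ∪ (s2 ∪ s3)).filter fun G => G ≠ 0) id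
    (fun G hG => (Finset.mem_filter.1 hG).2)
  simp only [id] at hφ
  refine ⟨φ, ?_, ?_, ?_⟩
  · rintro d hd S hS ⟨ψ, hψ⟩
    rw [nondeg_iff, ← eval_gram] at hψ ⊢
    apply hφ
    rw [Finset.mem_filter]
    refine ⟨?_, fun h0 => hψ (by rw [h0, map_zero])⟩
    rw [Finset.mem_union]
    left
    rw [hs1, Finset.mem_image]
    exact ⟨(d, S), by simp [hS]; omega, rfl⟩
  · intro p hp q hq hpq
    by_contra hne
    have h1 : (lin 0 p - lin 0 q : MvPolynomial (Fin 2 × Fin k) ℝ) ≠ 0 := by
      intro h0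
      apply hne
      ext i
      have := congrArg (eval (fun a : Fin 2 × Fin k => if a.2 = i then (1 : ℝ) else 0)) h0
      rw [map_sub, eval_lin0, eval_lin0, map_zero] at this
      simp [proj] at this
      have h2 : (p i : ℝ) = q i := by linarith
      exact_mod_cast h2
    have h2 := hφ _ (by
      rw [Finset.mem_filter]
      refine ⟨?_, h1⟩
      rw [Finset.mem_union, Finset.mem_union]
      right; left
      rw [hs2, Finset.mem_image]
      exact ⟨(p, q), by simp [hp, hq], rfl⟩)
    apply h2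
    rw [map_sub, eval_lin0, eval_lin0, hpq, sub_self]
  · rintro x hx y hy z hz ⟨ψ, hψ⟩
    have key : ∀ θ : Fin 2 × Fin k → ℝ, eval θ ((lin 0 y - lin 0 x) * (lin 1 z - lin 1 x) -
      (lin 1 y - lin 1 x) * (lin 0 z - lin 0 x) : MvPolynomial (Fin 2 × Fin k) ℝ) =
      ((proj θ y).1 - (proj θ x).1) * ((proj θ z).2 - (proj θ x).2) -
        ((proj θ y).2 - (proj θ x).2) * ((proj θ z).1 - (proj θ x).1) := by
      intro θ
      simp only [map_sub, map_mul, eval_lin0, eval_lin1]
    rw [← key] at hψ ⊢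
    apply hφ
    rw [Finset.mem_filter]
    refine ⟨?_, fun h0 => hψ (by rw [h0, map_zero])⟩
    rw [Finset.mem_union, Finset.mem_union]
    right; right
    rw [hs3, Finset.mem_image]
    exact ⟨(x, y, z), by simp [hx, hy, hz], rfl⟩


lemma proj_add {k : ℕ} (φ : Fin 2 × Fin k → ℝ) (p q : Fin k → ℕ) :
    proj φ p + proj φ q = proj φ (p + q) := by
  ext
  · simp only [proj, Prod.fst_add, Pi.add_apply, Nat.cast_add, mul_add, Finset.sum_add_distrib]
  · simp only [proj, Prod.snd_add, Pi.add_apply, Nat.cast_add, mul_add, Finset.sum_add_distrib]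

/-- The number of elements allowed on a curve, plus one. -/
def sd (q d : ℕ) : ℕ := 11 * q * (d + 1) ^ 2 + 3

theorem core (q n m : ℕ) (hq : 1 ≤ q) : ∃ A : Finset (ℝ × ℝ), m ≤ A.card ∧
    (A + A).card ^ q ≤ A.card ^ (q + 1) ∧
    (∀ a ∈ A, ∀ b ∈ A, ∀ c ∈ A, a ≠ b → a ≠ c → b ≠ c → ¬ Collinear ℝ {a, b, c}) ∧
    ∀ d ≤ n, ∀ P : MvPolynomial (Fin 2) ℝ, P ≠ 0 → P.totalDegree ≤ d →
      (A.filter fun p => MvPolynomial.eval ![p.1, p.2] P = 0).card ≤ 11 * q * (d + 1) ^ 2 + 2 := by
  classical
  set k := 11 * q with hk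
  set N := (n + 2) * (2 * n + 2) ^ (k * sd q n) * (2 ^ k * ((k + 1) * (m + 1))) with hN
  have hpos1 : 1 ≤ (n + 2) * (2 * n + 2) ^ (k * sd q n) := Nat.succ_le_of_lt (by positivity)
  have hpos2 : 1 ≤ 2 ^ k * ((k + 1) * (m + 1)) := Nat.succ_le_of_lt (by positivity)
  have hpos3 : 1 ≤ 2 ^ k := Nat.one_le_two_pow
  have hN1 : (n + 2) * (2 * n + 2) ^ (k * sd q n) ≤ N := Nat.le_mul_of_pos_right _ hpos2
  have hN2 : 2 ^ k * ((k + 1) * (m + 1)) ≤ N := Nat.le_mul_of_pos_left _ hpos1
  have hN3 : 2 ^ k ≤ N := (Nat.le_mul_of_pos_right _ (by positivity)).trans hN2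
  have hN4 : (k + 1) * (m + 1) ≤ N := (Nat.le_mul_of_pos_left _ hpos3).trans hN2
  have hN5 : k ≤ N := by nlinarith
  have hN6 : m ≤ N := by nlinarith
  have hN0 : 1 ≤ N := hpos3.trans hN3
  have hk11 : 11 ≤ k := by omega
  clear_value N
  clear hN2 hN4 hpos1 hpos2 hpos3
  -- a large sphere
  obtain ⟨r, -, hr⟩ := Finset.exists_le_card_fiber_of_mul_le_card_of_maps_to
    (s := box k N) (t := Finset.range (N ^ 3)) (f := fun p => ∑ i, p i ^ 2) (n := N ^ (k - 3))
    (by
      intro p hp
      rw [mem_box] at hp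
      rw [Finset.mem_range]
      have h1 : ∀ i ∈ (Finset.univ : Finset (Fin k)), p i ^ 2 ≤ (N - 1) ^ 2 :=
        fun i _ => Nat.pow_le_pow_left (by have := hp i; omega) 2
      have h2 := Finset.sum_le_card_nsmul _ _ _ h1
      simp only [Finset.card_univ, Fintype.card_fin, smul_eq_mul] at h2
      have h3 : k * (N - 1) ^ 2 ≤ N * (N - 1) ^ 2 := Nat.mul_le_mul_right _ hN5
      have h4 : (N - 1) ^ 2 < N ^ 2 := Nat.pow_lt_pow_left (by omega) (by norm_num)
      have h5 : N * (N - 1) ^ 2 < N * N ^ 2 := Nat.mul_lt_mul_of_pos_left h4 (by omega)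
      calc _ ≤ _ := h2
        _ ≤ _ := h3
        _ < _ := h5
        _ = N ^ 3 := by ring)
    ⟨0, by rw [Finset.mem_range]; positivity⟩
    (by
      rw [card_box, Finset.card_range, ← pow_add]
      apply le_of_eq
      congr 1
      omega)
  set B := (box k N).filter fun p => ∑ i, p i ^ 2 = r with hB
  have hBbox : B ⊆ box k N := Finset.filter_subset _ _
  have hBcard : B.card ≤ N ^ k := by
    rw [← card_box]; exact Finset.card_le_card hBbox
  obtain ⟨φ, hφ1, hφ2, hφ3⟩ := exists_generic n k N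
  -- colouring
  have hFd : ∀ d ≤ n, (Fd d φ B (sd q d)).card * (n + 2) ≤ (N ^ 2) ^ (sd q d - 1) := by
    intro d hd
    have h1 := card_Fd_le (d := d) (φ := φ) (B := B) (s := sd q d) (L := (2 * d + 2) ^ k * N)
      (by unfold sd; omega) (by
        intro S hS
        have h2 := big_nondeg' (d := d) hN0 (S := S.map (Function.Embedding.subtype _))
          (by
            intro p hp
            rw [Finset.mem_map] at hp
            obtain ⟨x, _, rfl⟩ := hp
            exact hBbox x.2) (by rw [Finset.card_map]; exact hS)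
        have h3 := hφ1 d hd _ (by
            intro p hp
            rw [Finset.mem_map] at hp
            obtain ⟨x, _, rfl⟩ := hp
            exact hBbox x.2) h2
        intro c hc
        apply h3 c
        intro p hp
        rw [Finset.mem_map] at hp
        obtain ⟨x, hx, rfl⟩ := hp
        exact hc x hx)
    have hs : sd q d = k * (d + 1) ^ 2 + 3 := rfl
    have h4 : B.card ^ ((d + 1) ^ 2) ≤ N ^ (k * (d + 1) ^ 2) := by
      rw [pow_mul]; exact Nat.pow_le_pow_left hBcard _
    have hmono : sd q d ≤ sd q n := by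
      unfold sd
      have : (d + 1) ^ 2 ≤ (n + 1) ^ 2 := Nat.pow_le_pow_left (by omega) 2
      have := Nat.mul_le_mul_left (11 * q) this
      omega
    have h5 : (2 * d + 2) ^ (k * sd q d) ≤ (2 * n + 2) ^ (k * sd q n) :=
      (Nat.pow_le_pow_left (by omega) _).trans
        (Nat.pow_le_pow_right (by omega) (Nat.mul_le_mul_left _ hmono))
    calc (Fd d φ B (sd q d)).card * (n + 2)
        ≤ (B.card ^ ((d + 1) ^ 2) * ((2 * d + 2) ^ k * N) ^ sd q d) * (n + 2) :=
          Nat.mul_le_mul_right _ h1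
      _ ≤ (N ^ (k * (d + 1) ^ 2) * ((2 * d + 2) ^ k * N) ^ sd q d) * (n + 2) :=
          Nat.mul_le_mul_right _ (Nat.mul_le_mul_right _ h4)
      _ = N ^ (k * (d + 1) ^ 2) * N ^ sd q d * ((n + 2) * (2 * d + 2) ^ (k * sd q d)) := by
          rw [mul_pow, ← pow_mul]; ring
      _ ≤ N ^ (k * (d + 1) ^ 2) * N ^ sd q d * ((n + 2) * (2 * n + 2) ^ (k * sd q n)) :=
          Nat.mul_le_mul_left _ (Nat.mul_le_mul_left _ h5)
      _ ≤ N ^ (k * (d + 1) ^ 2) * N ^ sd q d * N := Nat.mul_le_mul_left _ hN1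
      _ = (N ^ 2) ^ (sd q d - 1) := by
          rw [hs, ← pow_mul, ← pow_add, ← pow_succ]
          congr 1
          omega
  obtain ⟨f, hf⟩ := coloring (α := B) (N ^ 2) (by positivity)
    ((Finset.range (n + 1)).sigma fun d => Fd d φ B (sd q d)) (fun i => i.2)
    (by
      rintro ⟨d, S⟩ hS
      rw [Finset.mem_sigma] at hS
      have := (mem_Fd.1 hS.2).1
      rw [← Finset.card_pos, this]
      unfold sd; omega)
    (by
      rw [Finset.sum_sigma]
      have h1 : ∀ d ∈ Finset.range (n + 1), ∑ S ∈ Fd d φ B (sd q d),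
          ((1 : ℝ) / ((N ^ 2 : ℕ) : ℝ)) ^ (S.card - 1) ≤ 1 / (n + 2 : ℝ) := by
        intro d hd
        rw [Finset.mem_range] at hd
        have h2 : ∀ S ∈ Fd d φ B (sd q d), ((1 : ℝ) / ((N ^ 2 : ℕ) : ℝ)) ^ (S.card - 1) =
            ((1 : ℝ) / ((N ^ 2 : ℕ) : ℝ)) ^ (sd q d - 1) := by
          intro S hS
          rw [(mem_Fd.1 hS).1]
        rw [Finset.sum_congr rfl h2, Finset.sum_const, nsmul_eq_mul, one_div, inv_pow,
          ← div_eq_mul_inv, div_le_div_iff₀ (by positivity) (by positivity), one_mul]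
        have h3 := hFd d (by omega)
        exact_mod_cast h3
      calc _ ≤ ∑ d ∈ Finset.range (n + 1), 1 / (n + 2 : ℝ) := Finset.sum_le_sum h1
        _ = (n + 1) / (n + 2 : ℝ) := by
            rw [Finset.sum_const, Finset.card_range, nsmul_eq_mul]; push_cast; ring
        _ < 1 := by rw [div_lt_one (by positivity)]; linarith)
  -- a large colour class
  obtain ⟨col, -, hcol⟩ := Finset.exists_le_card_fiber_of_mul_le_card_of_maps_to
    (s := (Finset.univ : Finset B)) (t := (Finset.univ : Finset (Fin (N ^ 2)))) (f := f)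
    (n := N ^ (k - 5)) (fun _ _ => Finset.mem_univ _) ⟨⟨0, by positivity⟩, Finset.mem_univ _⟩
    (by
      rw [Finset.card_univ, Finset.card_univ, Fintype.card_fin, Fintype.card_coe, ← pow_add]
      have : 2 + (k - 5) = k - 3 := by omega
      rw [this]
      exact hr)
  set C := (Finset.univ : Finset B).filter fun x => f x = col with hC
  set e : B → ℝ × ℝ := fun x => proj φ x with he
  have hinj : Function.Injective e := fun x y h =>
    Subtype.ext (hφ2 _ (hBbox x.2) _ (hBbox y.2) h)
  refine ⟨C.image e, ?_, ?_, ?_, ?_⟩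
  · rw [Finset.card_image_of_injective _ hinj]
    refine le_trans ?_ hcol
    calc m ≤ N := hN6
      _ = N ^ 1 := (pow_one N).symm
      _ ≤ N ^ (k - 5) := Nat.pow_le_pow_right hN0 (by omega)
  · have h1 : (C.image e + C.image e) ⊆ (box k (2 * N)).image (proj φ) := by
      intro x hx
      rw [Finset.mem_add] at hx
      obtain ⟨a, ha, b, hb, rfl⟩ := hx
      rw [Finset.mem_image] at ha hb
      obtain ⟨a, _, rfl⟩ := ha
      obtain ⟨b, _, rfl⟩ := hb
      rw [Finset.mem_image]
      refine ⟨a.1 + b.1, ?_, (proj_add φ _ _).symm⟩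
      rw [mem_box]
      intro i
      have h2 := mem_box.1 (hBbox a.2) i
      have h3 := mem_box.1 (hBbox b.2) i
      rw [Pi.add_apply]
      omega
    have h2 : (C.image e + C.image e).card ≤ (2 * N) ^ k := by
      refine (Finset.card_le_card h1).trans (Finset.card_image_le.trans ?_)
      rw [card_box]
    calc (C.image e + C.image e).card ^ q ≤ ((2 * N) ^ k) ^ q := Nat.pow_le_pow_left h2 _
      _ = (2 ^ k) ^ q * N ^ (k * q) := by rw [mul_pow, mul_pow, ← pow_mul, ← pow_mul]
      _ ≤ N ^ q * N ^ (k * q) := Nat.mul_le_mul_right _ (Nat.pow_le_pow_left hN3 _)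
      _ = N ^ (q + k * q) := by rw [pow_add]
      _ ≤ N ^ ((k - 5) * (q + 1)) := by
          apply Nat.pow_le_pow_right hN0
          obtain ⟨j, hj⟩ : ∃ j, k = j + 5 := ⟨k - 5, by omega⟩
          rw [hj]
          have : 5 * q + 5 + q ≤ j + 5 := by omega
          rw [Nat.add_sub_cancel]
          nlinarith
      _ = (N ^ (k - 5)) ^ (q + 1) := by rw [← pow_mul]
      _ ≤ (C.image e).card ^ (q + 1) := by
          rw [Finset.card_image_of_injective _ hinj]
          exact Nat.pow_le_pow_left hcol _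
  · intro a ha b hb c hc hab hac hbc hcoll
    rw [Finset.mem_image] at ha hb hc
    obtain ⟨a, _, rfl⟩ := ha
    obtain ⟨b, _, rfl⟩ := hb
    obtain ⟨c, _, rfl⟩ := hc
    have hr' : ∀ x : B, ∑ i, x.1 i ^ 2 = r := fun x => (Finset.mem_filter.1 x.2).2
    have hne : ∀ x y : B, e x ≠ e y → x.1 ≠ y.1 := fun x y h h2 => h (by rw [Subtype.ext h2])
    apply hφ3 a.1 (hBbox a.2) b.1 (hBbox b.2) c.1 (hBbox c.2)
      (sphere_triple a.1 b.1 c.1 r (hr' a) (hr' b) (hr' c) (hne _ _ hab) (hne _ _ hac)
        (hne _ _ hbc))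
    rw [collinear_iff_of_mem (p₀ := e a) (by simp)] at hcoll
    obtain ⟨v, hv⟩ := hcoll
    obtain ⟨r1, h1⟩ := hv (e b) (by simp)
    obtain ⟨r2, h2⟩ := hv (e c) (by simp)
    have h1a := congrArg Prod.fst h1
    have h1b := congrArg Prod.snd h1
    have h2a := congrArg Prod.fst h2
    have h2b := congrArg Prod.snd h2
    simp only [he, vadd_eq_add, Prod.fst_add, Prod.snd_add, Prod.smul_fst, Prod.smul_snd,
      smul_eq_mul] at h1a h1b h2a h2b
    rw [h1a, h1b, h2a, h2b]
    ring
  · intro d hd P hP hPd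
    obtain ⟨c, hc0, hc⟩ := exists_coeff P hP hPd
    by_contra hlt
    push Not at hlt
    have h1 : ((C.image e).filter fun p => MvPolynomial.eval ![p.1, p.2] P = 0) =
        (C.filter fun x => MvPolynomial.eval ![(e x).1, (e x).2] P = 0).image e := by
      rw [Finset.filter_image]
    rw [h1, Finset.card_image_of_injective _ hinj] at hlt
    obtain ⟨S, hSsub, hScard⟩ := Finset.exists_subset_card_eq (n := sd q d) (by
      unfold sd; exact hlt :
      sd q d ≤ (C.filter fun x => MvPolynomial.eval ![(e x).1, (e x).2] P = 0).card)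
    apply hf ⟨d, S⟩ (by
      rw [Finset.mem_sigma, Finset.mem_range]
      refine ⟨by simp only; omega, ?_⟩
      rw [mem_Fd]
      refine ⟨hScard, c, hc0, fun p hp => ?_⟩
      rw [hc]
      exact (Finset.mem_filter.1 (hSsub hp)).2)
    refine ⟨col, fun x hx => ?_⟩
    exact (Finset.mem_filter.1 (Finset.mem_filter.1 (hSsub hx)).1).2

end Pool.Agent.R520.SD
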