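import Mathlib

/-!
# Sums of distinct terms `a / 2 ^ a`: the measure of the states which never branch
-/

set_option autoImplicit false

open MeasureTheory Filter Topology Set

namespace Pool.Agent.R520.SumA

/-- the term `a / 2 ^ a` -/
noncomputable def w (a : ℕ) : ℝ := (a : ℝ) / 2 ^ a

/-- the tail `∑_{a > n} a / 2 ^ a = (n + 2) / 2 ^ n` -/
noncomputable def t (n : ℕ) : ℝ := ((n : ℝ) + 2) / 2 ^ n

/-- `d n = t n - w n` -/
noncomputable def d (n : ℕ) : ℝ := 2 / 2 ^ n

lemma t_eq (n : ℕ) : t n = t (n + 1) + w (n + 1) := by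
  unfold t w
  push_cast
  field_simp
  ring

lemma d_eq (n : ℕ) : d n = t n - w n := by
  unfold t w d
  field_simp
  ring

lemma d_pos (n : ℕ) : 0 < d n := by unfold d; positivity
lemma t_pos (n : ℕ) : 0 < t n := by unfold t; positivity
lemma w_nonneg (n : ℕ) : 0 ≤ w n := by unfold w; positivity
lemma w_succ_pos (n : ℕ) : 0 < w (n + 1) := by unfold w; positivity
lemma w_lt_t (n : ℕ) : w n < t n := by
  have := d_eq n
  have := d_pos n
  linarith

lemma t_succ_lt (n : ℕ) : t (n + 1) < t n := by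
  have := t_eq n
  have := w_succ_pos n
  linarith

lemma w_anti {a b : ℕ} (ha : 1 ≤ a) (hab : a ≤ b) : w b ≤ w a := by
  induction b, hab using Nat.le_induction with
  | base => exact le_rfl
  | succ b hb ih =>
    refine le_trans ?_ ih
    unfold w
    have h1 : (1 : ℝ) ≤ b := by exact_mod_cast ha.trans hb
    rw [div_le_div_iff₀ (by positivity) (by positivity), pow_succ]
    push_cast
    have h2 : (0 : ℝ) < 2 ^ b := by positivity
    nlinarith

/-- remainders at level `n` which do not branch in the next `h` steps -/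
noncomputable def V : ℕ → ℕ → Set ℝ
  | 0, n => Ioo 0 (t n)
  | h + 1, n => (V h (n + 1) ∩ Iio (w (n + 1))) ∪
      (fun r : ℝ => r - w (n + 1)) ⁻¹' (V h (n + 1) ∩ Ioi (d (n + 1)))

lemma V_meas (h n : ℕ) : MeasurableSet (V h n) := by
  induction h generalizing n with
  | zero => exact measurableSet_Ioo
  | succ h ih =>
    rw [V]
    exact ((ih _).inter measurableSet_Iio).union
      ((measurable_id.sub_const _) ((ih _).inter measurableSet_Ioi))

lemma V_sub (h n : ℕ) : V h n ⊆ Ioo 0 (t n) := by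
  induction h generalizing n with
  | zero => exact subset_rfl
  | succ h ih =>
    rw [V]
    rintro r (⟨h1, h2⟩ | h1)
    · have h3 := ih _ h1
      exact ⟨h3.1, h3.2.trans (t_succ_lt n)⟩
    · rw [mem_preimage] at h1
      have h3 := ih _ h1.1
      have h4 := t_eq n
      have h5 := w_succ_pos n
      exact ⟨by linarith [h3.1], by linarith [h3.2]⟩

lemma V_symm (h n : ℕ) (r : ℝ) : t n - r ∈ V h n ↔ r ∈ V h n := by
  induction h generalizing n r with
  | zero =>
    rw [V, mem_Ioo, mem_Ioo]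
    constructor <;> rintro ⟨h1, h2⟩ <;> constructor <;> linarith
  | succ h ih =>
    rw [V, mem_union, mem_union, mem_inter_iff, mem_inter_iff, mem_preimage, mem_preimage,
      mem_inter_iff, mem_inter_iff, mem_Iio, mem_Iio, mem_Ioi, mem_Ioi]
    have h4 := t_eq n
    have h5 := d_eq (n + 1)
    have e1 : t n - r - w (n + 1) = t (n + 1) - r := by linarith
    have e2 : t n - r = t (n + 1) - (r - w (n + 1)) := by linarith
    rw [e1, ih]
    rw [e2, ih]
    constructor
    · rintro (⟨a, b⟩ | ⟨a, b⟩)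
      · exact Or.inr ⟨a, by linarith⟩
      · exact Or.inl ⟨a, by linarith⟩
    · rintro (⟨a, b⟩ | ⟨a, b⟩)
      · exact Or.inr ⟨a, by linarith⟩
      · exact Or.inl ⟨a, by linarith⟩

lemma V_fin (h n : ℕ) (s : Set ℝ) : volume (V h n ∩ s) ≠ ⊤ :=
  ((measure_mono (inter_subset_left.trans (V_sub h n))).trans_lt
    (by rw [Real.volume_Ioo]; exact ENNReal.ofReal_lt_top)).ne

lemma V_fin' (h n : ℕ) : volume (V h n) ≠ ⊤ := by
  have := V_fin h n univ
  rwa [inter_univ] at this

/-- the reflection preserves the measure -/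
lemma V_refl (h n : ℕ) (s : Set ℝ) (hs : MeasurableSet s) :
    volume.real (V h n ∩ (fun r => t n - r) ⁻¹' s) = volume.real (V h n ∩ s) := by
  have h1 : V h n ∩ (fun r => t n - r) ⁻¹' s = (fun r => t n - r) ⁻¹' (V h n ∩ s) := by
    ext r
    rw [mem_inter_iff, mem_preimage, mem_preimage, mem_inter_iff, V_symm]
  rw [h1, measureReal_def, measureReal_def,
    (Measure.measurePreserving_sub_left volume (t n)).measure_preimage
      ((V_meas h n).inter hs).nullMeasurableSet]

lemma V_succ_vol (h n : ℕ) : volume.real (V (h + 1) n) =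
    2 * (volume.real (V h (n + 1)) - volume.real (V h (n + 1) ∩ Iic (d (n + 1)))) := by
  have hV := V_meas h (n + 1)
  have h1 : volume.real (V (h + 1) n) = volume.real (V h (n + 1) ∩ Iio (w (n + 1))) +
      volume.real (V h (n + 1) ∩ Ioi (d (n + 1))) := by
    have hp : volume ((fun r : ℝ => r - w (n + 1)) ⁻¹' (V h (n + 1) ∩ Ioi (d (n + 1)))) =
        volume (V h (n + 1) ∩ Ioi (d (n + 1))) :=
      (measurePreserving_sub_right volume (w (n + 1))).measure_preimage
          (hV.inter measurableSet_Ioi).nullMeasurableSet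
    have hdj : Disjoint (V h (n + 1) ∩ Iio (w (n + 1)))
        ((fun r : ℝ => r - w (n + 1)) ⁻¹' (V h (n + 1) ∩ Ioi (d (n + 1)))) := by
      rw [Set.disjoint_left]
      rintro r ⟨h1, h2⟩ ⟨h3, h4⟩
      rw [mem_Iio] at h2
      rw [mem_Ioi] at h4
      have := d_pos (n + 1)
      linarith
    rw [V, measureReal_union hdj ((measurable_id.sub_const _) (hV.inter measurableSet_Ioi))
      (V_fin _ _ _) (by rw [hp]; exact V_fin _ _ _)]
    congr 1
    rw [measureReal_def, measureReal_def, hp]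
  have h2 : volume.real (V h (n + 1) ∩ Iio (w (n + 1))) =
      volume.real (V h (n + 1) ∩ Ioi (d (n + 1))) := by
    rw [← V_refl h (n + 1) (Ioi (d (n + 1))) measurableSet_Ioi]
    congr 1
    ext r
    rw [mem_inter_iff, mem_inter_iff, mem_preimage, mem_Iio, mem_Ioi]
    have := d_eq (n + 1)
    constructor <;> rintro ⟨a, b⟩ <;> exact ⟨a, by linarith⟩
  have h3 : volume.real (V h (n + 1)) = volume.real (V h (n + 1) ∩ Iic (d (n + 1))) +
      volume.real (V h (n + 1) ∩ Ioi (d (n + 1))) := by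
    rw [← measureReal_inter_add_sdiff (s := V h (n + 1)) (measurableSet_Iic (a := d (n + 1)))
      (V_fin' _ _)]
    congr 2
    ext r
    rw [Set.mem_sdiff, mem_inter_iff, mem_Iic, mem_Ioi, not_le]
  rw [h1, h2, h3]
  ring

/-- small remainders only wait -/
lemma V_small (h n j : ℕ) (s : ℝ) (hs : s ≤ w (n + j)) (hn : 1 ≤ n) :
    V (h + j) n ∩ Iio s = V h (n + j) ∩ Iio s := by
  induction j generalizing n with
  | zero => simp
  | succ j ih =>
    have hs' : s ≤ w (n + 1) := hs.trans (w_anti (by omega) (by omega))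
    have e1 : n + (j + 1) = n + 1 + j := by ring
    rw [e1] at hs ⊢
    rw [← ih (n + 1) hs (by omega)]
    rw [← add_assoc h j 1, V]
    ext r
    rw [mem_inter_iff, mem_union, mem_inter_iff, mem_preimage, mem_inter_iff, mem_inter_iff,
      mem_Iio, mem_Iio, mem_Ioi]
    have hd := d_pos (n + 1)
    constructor
    · rintro ⟨⟨a, b⟩ | ⟨a, b⟩, c⟩
      · exact ⟨a, c⟩
      · exfalso
        linarith
    · rintro ⟨a, c⟩
      exact ⟨Or.inl ⟨a, by linarith⟩, c⟩

/-- at least half of the states are below any point above the middle -/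
lemma V_half (h n : ℕ) (s : ℝ) (hs : t n ≤ 2 * s) :
    volume.real (V h n) ≤ 2 * volume.real (V h n ∩ Iio s) := by
  have h1 : volume.real (V h n) = volume.real (V h n ∩ Iio s) + volume.real (V h n ∩ Ici s) := by
    rw [← measureReal_inter_add_sdiff (s := V h n) (measurableSet_Iio (a := s))
      (V_fin' _ _)]
    congr 2
    ext r
    rw [Set.mem_sdiff, mem_inter_iff, mem_Iio, mem_Ici, not_lt]
  have h2 : volume.real (V h n ∩ Ici s) ≤ volume.real (V h n ∩ Iic s) := by
    rw [← V_refl h n (Ici s) measurableSet_Ici]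
    apply measureReal_mono _ (V_fin _ _ _)
    rintro r ⟨a, b⟩
    rw [mem_preimage, mem_Ici] at b
    exact ⟨a, by rw [mem_Iic]; linarith⟩
  have h3 : volume.real (V h n ∩ Iic s) = volume.real (V h n ∩ Iio s) := by
    rw [measureReal_def, measureReal_def]
    congr 1
    exact measure_congr ((ae_eq_refl _).inter Iio_ae_eq_Iic.symm)
  linarith

/-- normalised measures -/
noncomputable def u (h n : ℕ) : ℝ := 2 ^ n * volume.real (V h n)

lemma u_nonneg (h n : ℕ) : 0 ≤ u h n := by unfold u; positivity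

lemma u_zero (n : ℕ) : u 0 n = n + 2 := by
  unfold u
  rw [V, measureReal_def, Real.volume_Ioo, ENNReal.toReal_ofReal (by linarith [t_pos n])]
  unfold t
  field_simp
  ring

lemma u_succ (h n : ℕ) : u (h + 1) n =
    u h (n + 1) - 2 ^ (n + 1) * volume.real (V h (n + 1) ∩ Iic (d (n + 1))) := by
  unfold u
  rw [V_succ_vol]
  ring

lemma u_succ_le (h n : ℕ) : u (h + 1) n ≤ u h (n + 1) := by
  rw [u_succ]
  have : 0 ≤ 2 ^ (n + 1) * volume.real (V h (n + 1) ∩ Iic (d (n + 1))) := by positivity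
  linarith

lemma u_add_le (h n j : ℕ) : u (h + j) n ≤ u h (n + j) := by
  induction j generalizing n with
  | zero => simp
  | succ j ih =>
    have e1 : n + (j + 1) = n + 1 + j := by ring
    rw [← add_assoc h j 1, e1]
    exact (u_succ_le _ _).trans (ih (n + 1))

/-- the gain of one step -/
lemma u_gain (h n j : ℕ) (hh : j ≤ h) (h1 : 2 ^ (j + 1) ≤ n + 1 + j)
    (h2 : n + 1 + j + 2 ≤ 2 ^ (j + 2)) :
    u (h + 1) n ≤ (1 - 1 / 2 ^ (j + 1)) * u h (n + 1) := by
  obtain ⟨h', rfl⟩ := Nat.exists_eq_add_of_le' hh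
  rw [u_succ]
  have h3 : volume.real (V (h' + j) (n + 1) ∩ Iio (d (n + 1))) ≤
      volume.real (V (h' + j) (n + 1) ∩ Iic (d (n + 1))) := by
    apply measureReal_mono _ (V_fin _ _ _)
    exact inter_subset_inter_right _ Iio_subset_Iic_self
  have h4 : V (h' + j) (n + 1) ∩ Iio (d (n + 1)) = V h' (n + 1 + j) ∩ Iio (d (n + 1)) := by
    apply V_small _ _ _ _ _ (by omega)
    unfold d w
    rw [div_le_div_iff₀ (by positivity) (by positivity), pow_add 2 (n + 1) j]
    have h5 : (2 : ℝ) ^ (j + 1) ≤ ((n + 1 + j : ℕ) : ℝ) := by exact_mod_cast h1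
    have h6 : (0 : ℝ) < 2 ^ (n + 1) := by positivity
    calc (2 : ℝ) * (2 ^ (n + 1) * 2 ^ j) = 2 ^ (n + 1) * 2 ^ (j + 1) := by ring
      _ ≤ 2 ^ (n + 1) * ((n + 1 + j : ℕ) : ℝ) := mul_le_mul_of_nonneg_left h5 h6.le
      _ = _ := by ring
  have h5 : volume.real (V h' (n + 1 + j)) ≤
      2 * volume.real (V h' (n + 1 + j) ∩ Iio (d (n + 1))) := by
    apply V_half
    unfold d t
    rw [div_le_iff₀ (by positivity), pow_add 2 (n + 1) j]
    have h6 : ((n + 1 + j : ℕ) : ℝ) + 2 ≤ 2 ^ (j + 2) := by exact_mod_cast h2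
    refine h6.trans (le_of_eq ?_)
    field_simp
    ring
  have h6 : u (h' + j) (n + 1) ≤ u h' (n + 1 + j) := u_add_le _ _ _
  have h7 : u h' (n + 1 + j) ≤ 2 ^ (j + 1) *
      (2 ^ (n + 1) * volume.real (V (h' + j) (n + 1) ∩ Iic (d (n + 1)))) := by
    unfold u
    rw [← h4] at h5
    have h8 : (0 : ℝ) < 2 ^ (n + 1 + j) := by positivity
    calc (2 : ℝ) ^ (n + 1 + j) * volume.real (V h' (n + 1 + j))
        ≤ 2 ^ (n + 1 + j) * (2 * volume.real (V (h' + j) (n + 1) ∩ Iic (d (n + 1)))) :=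
          mul_le_mul_of_nonneg_left (by linarith) h8.le
      _ = _ := by ring
  have h8 : (0 : ℝ) < 2 ^ (j + 1) := by positivity
  have h9 : u (h' + j) (n + 1) / 2 ^ (j + 1) ≤
      2 ^ (n + 1) * volume.real (V (h' + j) (n + 1) ∩ Iic (d (n + 1))) := by
    rw [div_le_iff₀ h8]
    linarith
  have e : (1 - 1 / 2 ^ (j + 1)) * u (h' + j) (n + 1) =
      u (h' + j) (n + 1) - u (h' + j) (n + 1) / 2 ^ (j + 1) := by ring
  rw [e]
  linarith

/-- the levels of the ends of the blocks -/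
def lev (j : ℕ) : ℕ := 2 ^ (j + 1) - (j + 1)

lemma lev_eq (j : ℕ) : lev j + (j + 1) = 2 ^ (j + 1) := by
  unfold lev
  have : j + 1 < 2 ^ (j + 1) := Nat.lt_two_pow_self
  omega

lemma lev_succ (j : ℕ) : lev (j + 1) = lev j + (2 ^ (j + 1) - 1) := by
  have h1 := lev_eq j
  have h2 := lev_eq (j + 1)
  have h3 : 2 ^ (j + 1 + 1) = 2 * 2 ^ (j + 1) := by ring
  have h4 : 1 ≤ 2 ^ (j + 1) := Nat.one_le_two_pow
  omega

lemma block_aux (j h i : ℕ) (hh : j ≤ h) (hi : i ≤ 2 ^ (j + 1) - 1) :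
    u (h + i) (lev (j + 1) - i) ≤ (1 - 1 / 2 ^ (j + 1)) ^ i * u h (lev (j + 1)) := by
  induction i with
  | zero => simp
  | succ i ih =>
    have h1 := lev_eq j
    have h2 := lev_succ j
    have h3 : 2 ^ (j + 2) = 2 * 2 ^ (j + 1) := by ring
    have hpos : (0 : ℝ) ≤ 1 - 1 / 2 ^ (j + 1) := by
      have : (1 : ℝ) / 2 ^ (j + 1) ≤ 1 := by
        rw [div_le_one (by positivity)]
        exact one_le_pow₀ (by norm_num)
      linarith
    have e1 : lev (j + 1) - i = lev (j + 1) - (i + 1) + 1 := by omega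
    have h4 := ih (by omega)
    rw [e1] at h4
    have h5 := u_gain (h + i) (lev (j + 1) - (i + 1)) j (by omega) (by omega) (by omega)
    rw [← add_assoc]
    refine h5.trans ?_
    calc (1 - 1 / 2 ^ (j + 1)) * u (h + i) (lev (j + 1) - (i + 1) + 1)
        ≤ (1 - 1 / 2 ^ (j + 1)) * ((1 - 1 / 2 ^ (j + 1)) ^ i * u h (lev (j + 1))) :=
          mul_le_mul_of_nonneg_left h4 hpos
      _ = _ := by ring

lemma factor_le (j : ℕ) (hj : 2 ≤ j) :
    (1 - 1 / (2 : ℝ) ^ (j + 1)) ^ (2 ^ (j + 1) - 1) ≤ 4 / 9 := by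
  set M : ℝ := 2 ^ (j + 1) with hM
  have hM8 : 8 ≤ M := by
    calc (8 : ℝ) = 2 ^ 3 := by norm_num
      _ ≤ 2 ^ (j + 1) := pow_le_pow_right₀ (by norm_num) (by omega)
  have h1 : 1 - 1 / M ≤ Real.exp (-(1 / M)) := by
    have := Real.add_one_le_exp (-(1 / M))
    linarith
  have h0 : 0 ≤ 1 - 1 / M := by
    have : 1 / M ≤ 1 := by
      rw [div_le_one (by linarith)]
      linarith
    linarith
  have h2 : (1 - 1 / M) ^ (2 ^ (j + 1) - 1) ≤ Real.exp (-(1 / M)) ^ (2 ^ (j + 1) - 1) :=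
    pow_le_pow_left₀ h0 h1 _
  rw [← Real.exp_nat_mul] at h2
  have h3 : ((2 ^ (j + 1) - 1 : ℕ) : ℝ) = M - 1 := by
    have : 1 ≤ 2 ^ (j + 1) := Nat.one_le_two_pow
    push_cast [this]
    rfl
  rw [h3] at h2
  have h4 : (M - 1) * (-(1 / M)) ≤ -(7 / 8) := by
    have : (M - 1) * (-(1 / M)) = -1 + 1 / M := by
      field_simp
      ring
    rw [this]
    have : 1 / M ≤ 1 / 8 := one_div_le_one_div_of_le (by norm_num) hM8
    linarith
  have h5 : Real.exp ((M - 1) * (-(1 / M))) ≤ Real.exp (-(7 / 8)) := Real.exp_le_exp.2 h4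
  have h6 : Real.exp (-(7 / 8)) ≤ 4 / 9 := by
    rw [Real.exp_neg]
    have h7 := Real.quadratic_le_exp_of_nonneg (show (0 : ℝ) ≤ 7 / 8 by norm_num)
    rw [inv_le_comm₀ (Real.exp_pos _) (by norm_num)]
    norm_num at h7 ⊢
    linarith
  linarith

lemma block (j h : ℕ) (hj : 2 ≤ j) (hh : j ≤ h) :
    u (h + (2 ^ (j + 1) - 1)) (lev j) ≤ 4 / 9 * u h (lev (j + 1)) := by
  have h1 := block_aux j h (2 ^ (j + 1) - 1) hh le_rfl
  have h2 := lev_succ j
  rw [show lev (j + 1) - (2 ^ (j + 1) - 1) = lev j by omega] at h1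
  exact h1.trans (mul_le_mul_of_nonneg_right (factor_le j hj) (u_nonneg _ _))

lemma blocks (j i : ℕ) (hj : 2 ≤ j) : ∃ h : ℕ,
    u h (lev j) ≤ (4 / 9) ^ i * u (j + i) (lev (j + i)) := by
  have key : ∀ i h, j + i ≤ h → ∃ h', u h' (lev j) ≤ (4 / 9) ^ i * u h (lev (j + i)) := by
    intro i
    induction i with
    | zero => intro h _; exact ⟨h, by simp⟩
    | succ i ih =>
      intro h hh
      obtain ⟨h', hh'⟩ := ih (h + (2 ^ (j + i + 1) - 1)) (by omega)
      refine ⟨h', hh'.trans ?_⟩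
      have h1 := block (j + i) h (by omega) (by omega)
      calc (4 / 9 : ℝ) ^ i * u (h + (2 ^ (j + i + 1) - 1)) (lev (j + i))
          ≤ (4 / 9) ^ i * (4 / 9 * u h (lev (j + i + 1))) :=
            mul_le_mul_of_nonneg_left h1 (by positivity)
        _ = _ := by rw [pow_succ, mul_assoc]; rfl
  exact key i (j + i) le_rfl

/-- the measure of the states which do not branch for a long time tends to zero -/
lemma exists_u_small (n : ℕ) (ε : ℝ) (hε : 0 < ε) : ∃ h : ℕ, u h n < ε := by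
  -- a block end above `n`
  have hlev : n ≤ lev (n + 2) := by
    have h1 := lev_eq (n + 2)
    have h2 : n + 2 < 2 ^ (n + 2) := Nat.lt_two_pow_self
    have h3 : 2 ^ (n + 2 + 1) = 2 * 2 ^ (n + 2) := by ring
    omega
  have hlim : Tendsto (fun i : ℕ => (2 : ℝ) ^ (n + 4) * (8 / 9 : ℝ) ^ i) atTop (𝓝 0) := by
    have := (tendsto_pow_atTop_nhds_zero_of_lt_one (r := (8 / 9 : ℝ)) (by norm_num)
      (by norm_num)).const_mul ((2 : ℝ) ^ (n + 4))
    rwa [mul_zero] at this
  obtain ⟨i, hi⟩ := (hlim.eventually_lt_const hε).exists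
  obtain ⟨h, hh⟩ := blocks (n + 2) i (by omega)
  refine ⟨h + (lev (n + 2) - n), ?_⟩
  have h1 := u_add_le h n (lev (n + 2) - n)
  rw [show n + (lev (n + 2) - n) = lev (n + 2) by omega] at h1
  have h2 : u (n + 2 + i) (lev (n + 2 + i)) ≤ 2 ^ (n + 4 + i) := by
    have h3 := u_add_le 0 (lev (n + 2 + i)) (n + 2 + i)
    rw [zero_add, u_zero] at h3
    have h4 := lev_eq (n + 2 + i)
    have h5 : lev (n + 2 + i) + (n + 2 + i) + 2 ≤ 2 ^ (n + 4 + i) := by
      have h6 : 2 ^ (n + 4 + i) = 2 * 2 ^ (n + 2 + i + 1) := by ring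
      have h7 : 1 ≤ 2 ^ (n + 2 + i + 1) := Nat.one_le_two_pow
      omega
    refine h3.trans ?_
    exact_mod_cast h5
  calc u (h + (lev (n + 2) - n)) n ≤ u h (lev (n + 2)) := h1
    _ ≤ (4 / 9) ^ i * u (n + 2 + i) (lev (n + 2 + i)) := hh
    _ ≤ (4 / 9) ^ i * 2 ^ (n + 4 + i) := mul_le_mul_of_nonneg_left h2 (by positivity)
    _ = 2 ^ (n + 4) * (8 / 9) ^ i := by
        rw [pow_add 2 (n + 4) i, show (8 / 9 : ℝ) = 4 / 9 * 2 by norm_num, mul_pow]
        ring
    _ < ε := hi

/-- the set of the remainders which never branch is null -/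
theorem V_null (n : ℕ) : volume (⋂ h, V h n) = 0 := by
  by_contra hcon
  have hfin : volume (⋂ h, V h n) ≠ ⊤ :=
    ((measure_mono (iInter_subset _ 0)).trans_lt (V_fin' 0 n).lt_top).ne
  have hpos : 0 < volume.real (⋂ h, V h n) := ENNReal.toReal_pos hcon hfin
  obtain ⟨h, hh⟩ := exists_u_small n (2 ^ n * volume.real (⋂ h, V h n)) (by positivity)
  unfold u at hh
  have h1 : volume.real (⋂ h, V h n) ≤ volume.real (V h n) :=
    measureReal_mono (iInter_subset _ h) (V_fin' h n)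
  have h2 : (0 : ℝ) < 2 ^ n := by positivity
  nlinarith

end Pool.Agent.R520.SumA
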