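import Mathlib
import Pool.Agent.R520.SumA

/-!
# Sums of distinct terms `a / 2 ^ a`: finite beginnings and their extensions
-/

set_option autoImplicit false

open MeasureTheory Filter Topology Finset

namespace Pool.Agent.R520.SumA

/-- the representations of `x` as `∑_{a ∈ A} a / 2 ^ a` with an infinite set `A` of positive
integers -/
def Reps (x : ℝ) : Set (Set ℕ) :=
  {A | A.Infinite ∧ 0 ∉ A ∧ HasSum (fun a : A => ((a : ℕ) : ℝ) / 2 ^ (a : ℕ)) x}

/-- a finite partial sum -/
noncomputable def sg (S : Finset ℕ) : ℝ := ∑ a ∈ S, w a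

/-- `S ⊆ [1, n]` is the beginning of a representation of `x` -/
def Pre (n : ℕ) (x : ℝ) (S : Finset ℕ) : Prop :=
  S ⊆ Icc 1 n ∧ 0 < x - sg S ∧ x - sg S ≤ t n

/-- the set of the beginnings -/
noncomputable def P (n : ℕ) (x : ℝ) : Finset (Finset ℕ) :=
  @Finset.filter _ (fun S => Pre n x S) (fun _ => Classical.propDecidable _) (Icc 1 n).powerset

lemma mem_P {n : ℕ} {x : ℝ} {S : Finset ℕ} : S ∈ P n x ↔ Pre n x S := by
  classical
  unfold P
  rw [Finset.mem_filter, mem_powerset]
  exact ⟨fun h => h.2, fun h => ⟨h.1, h⟩⟩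

lemma sg_insert {n : ℕ} {S : Finset ℕ} (h : S ⊆ Icc 1 n) :
    sg (insert (n + 1) S) = w (n + 1) + sg S := by
  unfold sg
  rw [sum_insert]
  intro h1
  have := mem_Icc.1 (h h1)
  omega

lemma filter_self {n : ℕ} {S : Finset ℕ} (h : S ⊆ Icc 1 n) : S.filter (· ≤ n) = S := by
  rw [filter_eq_self]
  intro a ha
  exact (mem_Icc.1 (h ha)).2

lemma filter_insert' {n : ℕ} {S : Finset ℕ} (h : S ⊆ Icc 1 n) :
    (insert (n + 1) S).filter (· ≤ n) = S := by
  rw [filter_insert, if_neg (by omega), filter_self h]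

lemma filter_filter' {n m : ℕ} (hnm : n ≤ m) (S : Finset ℕ) :
    (S.filter (· ≤ m)).filter (· ≤ n) = S.filter (· ≤ n) := by
  rw [filter_filter]
  apply filter_congr
  intro a _
  constructor
  · exact fun h => h.2
  · exact fun h => ⟨h.trans hnm, h⟩

lemma sub_succ {n : ℕ} {S : Finset ℕ} (h : S ⊆ Icc 1 n) : S ⊆ Icc 1 (n + 1) :=
  h.trans (Icc_subset_Icc_right (by omega))

lemma ext0 {n : ℕ} {x : ℝ} {S : Finset ℕ} (h : Pre n x S) (h1 : x - sg S ≤ t (n + 1)) :
    Pre (n + 1) x S := ⟨sub_succ h.1, h.2.1, h1⟩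

lemma ext1 {n : ℕ} {x : ℝ} {S : Finset ℕ} (h : Pre n x S) (h1 : w (n + 1) < x - sg S) :
    Pre (n + 1) x (insert (n + 1) S) := by
  refine ⟨?_, ?_, ?_⟩
  · rw [insert_subset_iff]
    exact ⟨mem_Icc.2 ⟨by omega, le_rfl⟩, sub_succ h.1⟩
  · rw [sg_insert h.1]
    linarith
  · rw [sg_insert h.1]
    have := h.2.2
    have := t_eq n
    linarith

/-- extension by one step -/
lemma exists_ext1 {n : ℕ} {x : ℝ} {S : Finset ℕ} (h : Pre n x S) :
    ∃ T, Pre (n + 1) x T ∧ T.filter (· ≤ n) = S := by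
  by_cases h1 : x - sg S ≤ t (n + 1)
  · exact ⟨S, ext0 h h1, filter_self h.1⟩
  · have h2 := w_lt_t (n + 1)
    exact ⟨insert (n + 1) S, ext1 h (by linarith), filter_insert' h.1⟩

lemma exists_ext {n m : ℕ} (hnm : n ≤ m) {x : ℝ} {S : Finset ℕ} (h : Pre n x S) :
    ∃ T, Pre m x T ∧ T.filter (· ≤ n) = S := by
  induction m, hnm using Nat.le_induction with
  | base => exact ⟨S, h, filter_self h.1⟩
  | succ m hm ih =>
    obtain ⟨T, hT, hTS⟩ := ih
    obtain ⟨T', hT', hTT⟩ := exists_ext1 hT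
    refine ⟨T', hT', ?_⟩
    rw [← hTS, ← hTT, filter_filter' hm]

/-- restriction by one step -/
lemma res1 {n : ℕ} {x : ℝ} {S : Finset ℕ} (h : Pre (n + 1) x S) :
    Pre n x (S.filter (· ≤ n)) := by
  have hsub : S.filter (· ≤ n) ⊆ Icc 1 n := by
    intro a ha
    rw [mem_filter] at ha
    exact mem_Icc.2 ⟨(mem_Icc.1 (h.1 ha.1)).1, ha.2⟩
  by_cases h1 : n + 1 ∈ S
  · have h2 : S = insert (n + 1) (S.filter (· ≤ n)) := by
      ext a
      rw [mem_insert, mem_filter]
      constructor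
      · intro ha
        have := mem_Icc.1 (h.1 ha)
        by_cases h3 : a = n + 1
        · exact Or.inl h3
        · exact Or.inr ⟨ha, by omega⟩
      · rintro (rfl | ha)
        · exact h1
        · exact ha.1
    have h3 : sg S = w (n + 1) + sg (S.filter (· ≤ n)) := by
      conv_lhs => rw [h2]
      exact sg_insert hsub
    refine ⟨hsub, ?_, ?_⟩
    · have := h.2.1
      have := w_nonneg (n + 1)
      linarith
    · have := h.2.2
      have := t_eq n
      linarith
  · have h2 : S.filter (· ≤ n) = S := by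
      rw [filter_eq_self]
      intro a ha
      have h3 := mem_Icc.1 (h.1 ha)
      have h4 : a ≠ n + 1 := by
        rintro rfl
        exact h1 ha
      omega
    rw [h2] at hsub ⊢
    exact ⟨hsub, h.2.1, h.2.2.trans (t_succ_lt n).le⟩

lemma res {n m : ℕ} (hnm : n ≤ m) {x : ℝ} {S : Finset ℕ} (h : Pre m x S) :
    Pre n x (S.filter (· ≤ n)) := by
  induction m, hnm using Nat.le_induction generalizing S with
  | base => rw [filter_self h.1]; exact h
  | succ m hm ih =>
    have h1 := ih (res1 h)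
    rwa [filter_filter' hm] at h1

/-- the tails tend to zero -/
lemma t_tendsto : Tendsto t atTop (𝓝 0) := by
  have h1 : Tendsto (fun n : ℕ => (n : ℝ) ^ 1 * (1 / 2 : ℝ) ^ n) atTop (𝓝 0) :=
    tendsto_pow_const_mul_const_pow_of_abs_lt_one 1 (by rw [abs_of_pos] <;> norm_num)
  have h2 : Tendsto (fun n : ℕ => (1 / 2 : ℝ) ^ n) atTop (𝓝 0) :=
    tendsto_pow_atTop_nhds_zero_of_lt_one (by norm_num) (by norm_num)
  have h3 := h1.add (h2.const_mul 2)
  rw [mul_zero, add_zero] at h3
  refine h3.congr (fun n => ?_)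
  unfold t
  rw [one_div, inv_pow]
  field_simp

open Classical in
/-- a set all of whose beginnings are allowed is a representation -/
lemma rep_of_pre {x : ℝ} {A : Set ℕ} (h0 : 0 ∉ A)
    (h : ∀ n, Pre n x ((Icc 1 n).filter (· ∈ A))) : A ∈ Reps x := by
  have hlim : Tendsto (fun n => sg ((Icc 1 n).filter (· ∈ A))) atTop (𝓝 x) := by
    have h1 : Tendsto (fun n => x - t n) atTop (𝓝 x) := by
      have := t_tendsto.const_sub x
      rwa [sub_zero] at this
    refine tendsto_of_tendsto_of_tendsto_of_le_of_le h1 tendsto_const_nhds ?_ ?_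
    · intro n
      have := (h n).2.2
      change x - t n ≤ _
      linarith
    · intro n
      have := (h n).2.1
      change _ ≤ x
      linarith
  refine ⟨?_, h0, ?_⟩
  · intro hfin
    obtain ⟨N, hN⟩ : ∃ N, ∀ a ∈ A, a ≤ N := hfin.bddAbove
    have h1 : ∀ n, N ≤ n → (Icc 1 n).filter (· ∈ A) = (Icc 1 N).filter (· ∈ A) := by
      intro n hn
      ext a
      rw [mem_filter, mem_filter, mem_Icc, mem_Icc]
      constructor
      · rintro ⟨h2, h3⟩
        exact ⟨⟨h2.1, hN a h3⟩, h3⟩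
      · rintro ⟨h2, h3⟩
        exact ⟨⟨h2.1, h2.2.trans hn⟩, h3⟩
    have h2 : Tendsto (fun n => sg ((Icc 1 n).filter (· ∈ A))) atTop
        (𝓝 (sg ((Icc 1 N).filter (· ∈ A)))) :=
      tendsto_const_nhds.congr' (by
        filter_upwards [eventually_ge_atTop N] with n hn
        rw [h1 n hn])
    have h3 := tendsto_nhds_unique hlim h2
    have h4 := (h N).2.1
    linarith
  · change HasSum ((fun a : ℕ => (a : ℝ) / 2 ^ a) ∘ ((↑) : A → ℕ)) x
    rw [hasSum_subtype_iff_indicator, hasSum_iff_tendsto_nat_of_nonneg]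
    · rw [← tendsto_add_atTop_iff_nat 1]
      refine hlim.congr (fun n => ?_)
      unfold sg
      rw [sum_filter, range_eq_Ico, sum_eq_sum_Ico_succ_bot (by omega)]
      have e1 : Set.indicator A (fun a : ℕ => (a : ℝ) / 2 ^ a) 0 = 0 := by
        rw [Set.indicator_of_notMem h0]
      rw [e1, zero_add, zero_add]
      have e2 : Ico 1 (n + 1) = Icc 1 n := by
        ext a
        rw [mem_Ico, mem_Icc]
        omega
      rw [e2]
      apply sum_congr rfl
      intro a _
      rw [Set.indicator_apply]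
      rfl
    · intro a
      apply Set.indicator_nonneg
      intro b _
      positivity

/-- chains of beginnings -/
lemma chain {x : ℝ} (N : ℕ → ℕ) (S : ℕ → Finset ℕ) (hN : StrictMono N)
    (hS : ∀ k, Pre (N k) x (S k)) (hc : ∀ k, (S (k + 1)).filter (· ≤ N k) = S k) :
    ({a | ∃ k, a ∈ S k} : Set ℕ) ∈ Reps x ∧
      ∀ k a, a ≤ N k → (a ∈ ({a | ∃ k, a ∈ S k} : Set ℕ) ↔ a ∈ S k) := by
  classical
  have hc' : ∀ k j, (S (k + j)).filter (· ≤ N k) = S k := by
    intro k j
    induction j with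
    | zero => exact filter_self (hS k).1
    | succ j ih =>
      rw [← add_assoc, ← ih, ← hc (k + j), filter_filter' (hN.monotone (by omega))]
  have key : ∀ k a, a ≤ N k → (a ∈ ({a | ∃ k, a ∈ S k} : Set ℕ) ↔ a ∈ S k) := by
    intro k a ha
    constructor
    · rintro ⟨l, hl⟩
      rcases le_total k l with h | h
      · obtain ⟨j, rfl⟩ := Nat.exists_eq_add_of_le h
        rw [← hc' k j, mem_filter]
        exact ⟨hl, ha⟩
      · obtain ⟨j, rfl⟩ := Nat.exists_eq_add_of_le h
        rw [← hc' l j, mem_filter] at hl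
        exact hl.1
    · exact fun h => ⟨k, h⟩
  refine ⟨rep_of_pre ?_ ?_, key⟩
  · rintro ⟨k, hk⟩
    have := mem_Icc.1 ((hS k).1 hk)
    omega
  · intro n
    have h1 : n ≤ N n := hN.id_le n
    have h2 : (Icc 1 n).filter (· ∈ ({a | ∃ k, a ∈ S k} : Set ℕ)) = (S n).filter (· ≤ n) := by
      ext a
      rw [mem_filter, mem_filter, mem_Icc]
      constructor
      · rintro ⟨⟨h3, h4⟩, h5⟩
        exact ⟨(key n a (h4.trans h1)).1 h5, h4⟩
      · rintro ⟨h3, h4⟩
        exact ⟨⟨(mem_Icc.1 ((hS n).1 h3)).1, h4⟩, (key n a (h4.trans h1)).2 h3⟩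
    rw [h2]
    exact res h1 (hS n)

/-- every beginning extends to a representation -/
lemma exists_rep {n : ℕ} {x : ℝ} {S : Finset ℕ} (h : Pre n x S) :
    ∃ A ∈ Reps x, ∀ a, a ≤ n → (a ∈ A ↔ a ∈ S) := by
  have hstep : ∀ (m : ℕ) (T : Finset ℕ), ∃ T', Pre m x T → Pre (m + 1) x T' ∧
      T'.filter (· ≤ m) = T := by
    intro m T
    by_cases h1 : Pre m x T
    · obtain ⟨T', h2⟩ := exists_ext1 h1
      exact ⟨T', fun _ => h2⟩
    · exact ⟨∅, fun h2 => absurd h2 h1⟩
  choose F hF using hstep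
  let Sq : ℕ → Finset ℕ := fun k => Nat.rec S (fun k T => F (n + k) T) k
  have h1 : ∀ k, Pre (n + k) x (Sq k) := by
    intro k
    induction k with
    | zero => exact h
    | succ k ih => exact (hF (n + k) (Sq k) ih).1
  obtain ⟨h2, h3⟩ := chain (fun k => n + k) Sq (fun a b hab => by simpa using hab) h1
    (fun k => (hF (n + k) (Sq k) (h1 k)).2)
  exact ⟨_, h2, fun a ha => h3 0 a ha⟩

/-- the number of representations is at least the number of beginnings -/
lemma card_le_encard (n : ℕ) (x : ℝ) : ((P n x).card : ℕ∞) ≤ (Reps x).encard := by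
  have h1 : ∀ S : Finset ℕ, ∃ A : Set ℕ, S ∈ P n x → A ∈ Reps x ∧ ∀ a, a ≤ n → (a ∈ A ↔ a ∈ S) := by
    intro S
    by_cases h : S ∈ P n x
    · obtain ⟨A, hA, hA'⟩ := exists_rep (mem_P.1 h)
      exact ⟨A, fun _ => ⟨hA, hA'⟩⟩
    · exact ⟨∅, fun h' => absurd h' h⟩
  choose f hf using h1
  rw [← Set.encard_coe_eq_coe_finsetCard]
  have hinj : Set.InjOn f (P n x : Set (Finset ℕ)) := by
    intro S hS T hT he
    rw [Finset.mem_coe] at hS hT
    ext a
    by_cases ha : a ≤ n
    · rw [← (hf S hS).2 a ha, ← (hf T hT).2 a ha, he]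
    · constructor
      · intro h
        exact absurd (mem_Icc.1 ((mem_P.1 hS).1 h)).2 ha
      · intro h
        exact absurd (mem_Icc.1 ((mem_P.1 hT).1 h)).2 ha
  rw [← hinj.encard_image]
  apply Set.encard_le_encard
  rintro _ ⟨S, hS, rfl⟩
  exact (hf S hS).1

/-- every beginning has two extensions -/
def Br (x : ℝ) : Prop := ∀ n S, Pre n x S → ∃ m, n < m ∧ ∃ S1 S2, Pre m x S1 ∧ Pre m x S2 ∧
  S1 ≠ S2 ∧ S1.filter (· ≤ n) = S ∧ S2.filter (· ≤ n) = S

lemma card_mono {n m : ℕ} (hnm : n ≤ m) (x : ℝ) : (P n x).card ≤ (P m x).card := by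
  have h1 : P n x ⊆ (P m x).image (fun T => T.filter (· ≤ n)) := by
    intro S hS
    obtain ⟨T, hT, hTS⟩ := exists_ext hnm (mem_P.1 hS)
    exact mem_image.2 ⟨T, mem_P.2 hT, hTS⟩
  exact (card_le_card h1).trans card_image_le

lemma pre_zero {x : ℝ} (h0 : 0 < x) (h2 : x ≤ 2) : Pre 0 x ∅ := by
  refine ⟨by simp, ?_, ?_⟩
  · simpa [sg] using h0
  · simp only [sg, sum_empty, sub_zero, t]
    norm_num
    exact h2

/-- the number of beginnings is unbounded for a branching `x` -/
lemma card_unbdd {x : ℝ} (h0 : 0 < x) (h2 : x ≤ 2) (hB : Br x) (k : ℕ) :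
    ∃ n, k ≤ (P n x).card := by
  induction k with
  | zero => exact ⟨0, Nat.zero_le _⟩
  | succ k ih =>
    obtain ⟨n, hn⟩ := ih
    obtain ⟨S, hS, -⟩ := exists_ext (Nat.zero_le n) (pre_zero h0 h2)
    obtain ⟨m, hm, S1, S2, h3, h4, h5, h6, h7⟩ := hB n S hS
    refine ⟨m, ?_⟩
    have h8 : P n x ⊆ ((P m x).erase S1).image (fun T => T.filter (· ≤ n)) := by
      intro T hT
      by_cases hTS : T = S
      · exact mem_image.2 ⟨S2, mem_erase.2 ⟨h5.symm, mem_P.2 h4⟩, by rw [h7, hTS]⟩
      · obtain ⟨T', hT', hTT⟩ := exists_ext hm.le (mem_P.1 hT)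
        refine mem_image.2 ⟨T', mem_erase.2 ⟨?_, mem_P.2 hT'⟩, hTT⟩
        rintro rfl
        exact hTS (hTT.symm.trans h6)
    have h9 := (card_le_card h8).trans card_image_le
    rw [card_erase_of_mem (mem_P.2 h3)] at h9
    have h10 : 0 < (P m x).card := card_pos.2 ⟨S1, mem_P.2 h3⟩
    omega

/-- a branching `x` has continuum many representations -/
theorem mk_reps {x : ℝ} (h0 : 0 < x) (h2 : x ≤ 2) (hB : Br x) :
    Cardinal.mk (Reps x) = Cardinal.continuum := by
  apply le_antisymm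
  · refine (Cardinal.mk_set_le _).trans ?_
    rw [Cardinal.mk_set, Cardinal.mk_nat, Cardinal.two_power_aleph0]
  · -- the scheme
    have hstep : ∀ p : ℕ × Finset ℕ, ∃ q : ℕ × Finset ℕ × Finset ℕ, Pre p.1 x p.2 →
        p.1 < q.1 ∧ Pre q.1 x q.2.1 ∧ Pre q.1 x q.2.2 ∧ q.2.1 ≠ q.2.2 ∧
        q.2.1.filter (· ≤ p.1) = p.2 ∧ q.2.2.filter (· ≤ p.1) = p.2 := by
      intro p
      by_cases hp : Pre p.1 x p.2
      · obtain ⟨m, h1, S1, S2, h3, h4, h5, h6, h7⟩ := hB p.1 p.2 hp
        exact ⟨(m, S1, S2), fun _ => ⟨h1, h3, h4, h5, h6, h7⟩⟩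
      · exact ⟨(0, ∅, ∅), fun h => absurd h hp⟩
    choose F hF using hstep
    let G : (ℕ → Bool) → ℕ → ℕ × Finset ℕ := fun β k =>
      Nat.rec ((0 : ℕ), (∅ : Finset ℕ))
        (fun k p => ((F p).1, if β k then (F p).2.1 else (F p).2.2)) k
    have hG0 : ∀ β, G β 0 = (0, ∅) := fun β => rfl
    have hGs : ∀ β k, G β (k + 1) =
        ((F (G β k)).1, if β k then (F (G β k)).2.1 else (F (G β k)).2.2) := fun β k => rfl
    have hpre : ∀ β k, Pre (G β k).1 x (G β k).2 := by
      intro β k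
      induction k with
      | zero => rw [hG0]; exact pre_zero h0 h2
      | succ k ih =>
        rw [hGs]
        obtain ⟨h1, h3, h4, -⟩ := hF _ ih
        by_cases hb : β k
        · simpa [hb] using h3
        · simpa [hb] using h4
    have hmono : ∀ β, StrictMono fun k => (G β k).1 := by
      intro β
      apply strictMono_nat_of_lt_succ
      intro k
      rw [hGs]
      exact (hF _ (hpre β k)).1
    have hcon : ∀ β k, ((G β (k + 1)).2).filter (· ≤ (G β k).1) = (G β k).2 := by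
      intro β k
      obtain ⟨-, -, -, -, h6, h7⟩ := hF _ (hpre β k)
      rw [hGs]
      by_cases hb : β k
      · simpa [hb] using h6
      · simpa [hb] using h7
    have hch := fun β => chain (fun k => (G β k).1) (fun k => (G β k).2) (hmono β) (hpre β) (hcon β)
    let f : (ℕ → Bool) → Reps x := fun β => ⟨_, (hch β).1⟩
    have hf : Function.Injective f := by
      intro β γ he
      by_contra hne
      have hex : ∃ k, β k ≠ γ k := Function.ne_iff.1 hne
      classical
      let k := Nat.find hex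
      have hk : β k ≠ γ k := Nat.find_spec hex
      have hlt : ∀ j < k, β j = γ j := by
        intro j hj
        by_contra h
        exact Nat.find_min hex hj h
      have heq : ∀ j ≤ k, G β j = G γ j := by
        intro j hj
        induction j with
        | zero => rfl
        | succ j ih => rw [hGs, hGs, ih (by omega), hlt j (by omega)]
      have hk1 := heq k le_rfl
      have e1 : (G β (k + 1)).1 = (G γ (k + 1)).1 := by rw [hGs, hGs, hk1]
      have hsets : ({a | ∃ k, a ∈ (G β k).2} : Set ℕ) = {a | ∃ k, a ∈ (G γ k).2} :=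
        congrArg Subtype.val he
      have e2 : (G β (k + 1)).2 = (G γ (k + 1)).2 := by
        ext a
        by_cases ha : a ≤ (G β (k + 1)).1
        · rw [← (hch β).2 (k + 1) a ha, ← (hch γ).2 (k + 1) a (by rw [← e1]; exact ha), hsets]
        · constructor
          · intro h
            exact absurd (mem_Icc.1 ((hpre β (k + 1)).1 h)).2 ha
          · intro h
            exact absurd (mem_Icc.1 ((hpre γ (k + 1)).1 h)).2 (by rw [← e1]; exact ha)
      obtain ⟨-, -, -, h5, -, -⟩ := hF _ (hpre β k)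
      rw [hGs, hGs, ← hk1] at e2
      rcases Bool.eq_false_or_eq_true (β k) with hb | hb <;>
        rcases Bool.eq_false_or_eq_true (γ k) with hc | hc
      · exact hk (hb.trans hc.symm)
      · rw [hb, hc] at e2
        simp at e2
        exact h5 e2
      · rw [hb, hc] at e2
        simp at e2
        exact h5 e2.symm
      · exact hk (hb.trans hc.symm)
    have hc := Cardinal.mk_le_of_injective hf
    have hcard : Cardinal.mk (ℕ → Bool) = Cardinal.continuum := by
      simp
    rwa [hcard] at hc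

end Pool.Agent.R520.SumA
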