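import Mathlib
import Pool.Agent.R520.SumB

/-!
# Sums of distinct terms `a / 2 ^ a`: almost every real number
-/

set_option autoImplicit false

open MeasureTheory Filter Topology Finset

namespace Pool.Agent.R520.SumA

/-- no branching of `S` during `h` steps -/
def NoBr (x : ℝ) (h n : ℕ) (S : Finset ℕ) : Prop := ¬ ∃ m, n < m ∧ m ≤ n + h ∧ ∃ S1 S2,
  Pre m x S1 ∧ Pre m x S2 ∧ S1 ≠ S2 ∧ S1.filter (· ≤ n) = S ∧ S2.filter (· ≤ n) = S

/-- the remainder is never at a boundary -/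
def Gen (x : ℝ) : Prop := ∀ (S : Finset ℕ) (m : ℕ), x - sg S ≠ w m ∧ x - sg S ≠ t m

lemma mem_V {x : ℝ} (hx : Gen x) (h : ℕ) : ∀ (n : ℕ) (S : Finset ℕ), Pre n x S →
    NoBr x h n S → x - sg S ∈ V h n := by
  induction h with
  | zero =>
    intro n S hS _
    exact ⟨hS.2.1, lt_of_le_of_ne hS.2.2 (hx S n).2⟩
  | succ h ih =>
    intro n S hS hno
    have hsub : ∀ T, Pre (n + 1) x T → T.filter (· ≤ n) = S → NoBr x h (n + 1) T := by
      rintro T hT hTS ⟨m, h1, h2, S1, S2, h3, h4, h5, h6, h7⟩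
      refine hno ⟨m, by omega, by omega, S1, S2, h3, h4, h5, ?_, ?_⟩
      · rw [← hTS, ← h6, filter_filter' (by omega)]
      · rw [← hTS, ← h7, filter_filter' (by omega)]
    rcases lt_or_gt_of_ne (hx S (n + 1)).1 with h1 | h1
    · have h2 : x - sg S ≤ t (n + 1) := (h1.trans (w_lt_t _)).le
      left
      exact ⟨ih (n + 1) S (ext0 hS h2) (hsub S (ext0 hS h2) (filter_self hS.1)), h1⟩
    · rcases lt_or_gt_of_ne (hx S (n + 1)).2 with h2 | h2
      · exfalso
        refine hno ⟨n + 1, by omega, by omega, S, insert (n + 1) S, ext0 hS h2.le, ext1 hS h1, ?_,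
          filter_self hS.1, filter_insert' hS.1⟩
        intro he
        have h3 : n + 1 ∈ S := by
          rw [he]
          exact mem_insert_self _ _
        have := mem_Icc.1 (hS.1 h3)
        omega
      · right
        have h3 := ih (n + 1) _ (ext1 hS h1) (hsub _ (ext1 hS h1) (filter_insert' hS.1))
        rw [sg_insert hS.1] at h3
        have e : x - (w (n + 1) + sg S) = x - sg S - w (n + 1) := by ring
        rw [e] at h3
        refine ⟨h3, ?_⟩
        rw [Set.mem_Ioi, d_eq]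
        linarith

lemma ae_gen : ∀ᵐ x : ℝ, Gen x := by
  unfold Gen
  rw [ae_all_iff]
  intro S
  rw [ae_all_iff]
  intro m
  have h1 : ∀ c : ℝ, ∀ᵐ x : ℝ, x - sg S ≠ c := by
    intro c
    have h2 : ({sg S + c} : Set ℝ)ᶜ ∈ ae (volume : Measure ℝ) :=
      compl_mem_ae_iff.2 (Real.volume_singleton)
    filter_upwards [h2] with x hx he
    apply hx
    rw [Set.mem_singleton_iff]
    linarith
  filter_upwards [h1 (w m), h1 (t m)] with x hx hx'
  exact ⟨hx, hx'⟩

lemma ae_notV : ∀ᵐ x : ℝ, ∀ (n : ℕ) (S : Finset ℕ), ∃ h, x - sg S ∉ V h n := by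
  rw [ae_all_iff]
  intro n
  rw [ae_all_iff]
  intro S
  have h1 : volume ((fun x : ℝ => x - sg S) ⁻¹' (⋂ h, V h n)) = 0 := by
    rw [(measurePreserving_sub_right volume (sg S)).measure_preimage
      (MeasurableSet.iInter (fun h => V_meas h n)).nullMeasurableSet]
    exact V_null n
  have h2 := compl_mem_ae_iff.2 h1
  filter_upwards [h2] with x hx
  rw [Set.mem_compl_iff, Set.mem_preimage, Set.mem_iInter, not_forall] at hx
  exact hx

/-- almost every real number is branching -/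
theorem ae_br : ∀ᵐ x : ℝ, Br x := by
  filter_upwards [ae_gen, ae_notV] with x hx hV n S hS
  obtain ⟨h, hh⟩ := hV n S
  by_contra hcon
  apply hh
  apply mem_V hx h n S hS
  rintro ⟨m, h1, h2, h3⟩
  exact hcon ⟨m, h1, h3⟩

/-- scaled partial sums are integers -/
lemma sg_int (n : ℕ) (S : Finset ℕ) (hS : S ⊆ Icc 1 n) : ∃ M : ℤ, 2 ^ n * sg S = M := by
  refine ⟨∑ a ∈ S, (a : ℤ) * 2 ^ (n - a), ?_⟩
  unfold sg w
  rw [mul_sum]
  push_cast
  apply sum_congr rfl
  intro a ha
  have h1 := mem_Icc.1 (hS ha)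
  have h2 : (2 : ℝ) ^ n = 2 ^ (n - a) * 2 ^ a := by
    rw [← pow_add]
    congr 1
    omega
  rw [h2]
  field_simp

/-- the beginnings only depend on `⌈2 ^ n x⌉` -/
lemma pre_congr {n : ℕ} {x y : ℝ} (h : ⌈2 ^ n * x⌉ = ⌈2 ^ n * y⌉) (S : Finset ℕ)
    (hx : Pre n x S) : Pre n y S := by
  obtain ⟨M, hM⟩ := sg_int n S hx.1
  have h2 : (0 : ℝ) < 2 ^ n := by positivity
  have ht : 2 ^ n * t n = n + 2 := by
    unfold t
    field_simp
  have key : ∀ z : ℝ, (0 < z - sg S ∧ z - sg S ≤ t n) ↔ (M < ⌈2 ^ n * z⌉ ∧ ⌈2 ^ n * z⌉ ≤ M + n + 2) := by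
    intro z
    rw [Int.lt_ceil, Int.ceil_le]
    push_cast
    constructor
    · rintro ⟨a, b⟩
      constructor
      · have := mul_pos h2 a
        rw [mul_sub, hM] at this
        linarith
      · have := mul_le_mul_of_nonneg_left b h2.le
        rw [mul_sub, hM, ht] at this
        linarith
    · rintro ⟨a, b⟩
      constructor
      · rw [← hM] at a
        have := lt_of_mul_lt_mul_left a h2.le
        linarith
      · have h3 : 2 ^ n * z ≤ 2 ^ n * (sg S + t n) := by
          rw [mul_add, hM, ht]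
          linarith
        have := le_of_mul_le_mul_left h3 h2
        linarith
  refine ⟨hx.1, (key y).2 ?_⟩
  rw [← h]
  exact (key x).1 hx.2

lemma P_congr {n : ℕ} {x y : ℝ} (h : ⌈2 ^ n * x⌉ = ⌈2 ^ n * y⌉) : P n x = P n y := by
  ext S
  rw [mem_P, mem_P]
  exact ⟨pre_congr h S, pre_congr h.symm S⟩

end Pool.Agent.R520.SumA
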